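import Mathlib

set_option autoImplicit false
set_option maxHeartbeats 4000000

namespace Pool.Agent.Helper754.TwoN

open Finset Polynomial

/-- the perturbation polynomial -/
noncomputable def Qf (N : ℕ) (a : ℕ → ℝ) (y : ℂ) : ℂ := ∑ m ∈ Finset.Ico 1 N, (a m : ℂ) * y ^ m

/-- the size of the coefficient vector -/
noncomputable def nr (N : ℕ) (a : ℕ → ℝ) : ℝ := ∑ m ∈ Finset.Ico 1 N, |a m|

/-- logarithmic displacement of the root near `w` -/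
def IsS (N : ℕ) (a : ℕ → ℝ) (w s : ℂ) : Prop :=
  ‖s‖ ≤ 1 / N ∧ Complex.exp (N * s) = 1 + Qf N a (w * Complex.exp s)

open Classical in
noncomputable def sr (N : ℕ) (a : ℕ → ℝ) (w : ℂ) : ℂ :=
  if h : ∃ s, IsS N a w s then h.choose else 0

noncomputable def om (N k : ℕ) : ℂ := Complex.exp (((Real.pi * k / N : ℝ) : ℂ) * Complex.I)

/-- the root near `exp (pi i k / N)` -/
noncomputable def Yk (N : ℕ) (a : ℕ → ℝ) (k : ℕ) : ℂ := om N k * Complex.exp (sr N a (om N k))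

/-- a state: each index carries either a sign `σ` or a charge `E`; the total charge is zero -/
def IsState (n : ℕ) (E σ : ℕ → ℝ) : Prop :=
  (∀ i ∈ Finset.range n,
    ((σ i = 1 ∨ σ i = -1) ∧ E i = 0) ∨ (σ i = 0 ∧ (E i = 1 ∨ E i = -1))) ∧
    ∑ i ∈ Finset.range n, E i = 0

/-- `L` is a ladder: signs on `L` can cancel any residual up to an error `ε` -/
def Lad (x : ℕ → ℝ) (L : Finset ℕ) (ε : ℝ) : Prop :=
  ∀ ρ : ℝ, |ρ| ≤ 1.01 → ∃ τ : ℕ → ℝ, (∀ i, τ i = 1 ∨ τ i = -1) ∧ |ρ + ∑ i ∈ L, τ i * x i| ≤ ε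

/-- the sign conditions at scale `η` -/
def Good (n : ℕ) (x d v z : ℕ → ℝ) (c η : ℝ) : Prop :=
  ∀ E σ : ℕ → ℝ, IsState n E σ → 0 ≤ ∑ i ∈ Finset.range n, E i * d i →
    -η ≤ ∑ i ∈ Finset.range n, σ i * x i → ∑ i ∈ Finset.range n, σ i * x i ≤ -η / 2 →
    c + ∑ i ∈ Finset.range n, E i * v i + ∑ i ∈ Finset.range n, σ i * z i ≤ 0 ∧
    0 ≤ c + ∑ i ∈ Finset.range n, E i * v i - ∑ i ∈ Finset.range n, σ i * z i

/-- the conclusion of the detection step -/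
def Flat (n : ℕ) (x v z : ℕ → ℝ) (c η : ℝ) : Prop :=
  ∃ μ ν : ℝ, |μ| ≤ 1 / 10 ∧ ∑ i ∈ Finset.range n, |z i - (1 + μ) * x i| ≤ 7 * η ∧
    ∑ i ∈ Finset.range n, |v i - ν| ≤ 40 * η ∧ |c| ≤ 9 * η

/-- `g = F * Z` with the normalisation needed for the pattern -/
def HasFZ (u : ℕ) (g : Polynomial ℝ) : Prop :=
  ∃ F Z : Polynomial ℝ, F.Monic ∧ Z.Monic ∧ F.natDegree = 4 * u + 2 ∧ Z.natDegree = 4 * u ∧
    F * Z = g ∧ F.coeff 1 = 0 ∧ F.coeff 0 ≠ 0 ∧ 0 < F.coeff 2 ∧ 0 < Z.coeff 0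

noncomputable def xx (u p i : ℕ) : ℝ :=
  Real.cos (Real.pi * ((2 * i + 1 + p : ℕ) : ℝ) / ((8 * u + 2 : ℕ) : ℝ))

noncomputable def dd (u p i : ℕ) : ℝ :=
  (-1) ^ (p + 1) * Real.cos (2 * (Real.pi * ((2 * i + 1 + p : ℕ) : ℝ) / ((8 * u + 2 : ℕ) : ℝ)))

noncomputable def yp (u p : ℕ) (a : ℕ → ℝ) (i : ℕ) : ℝ := (Yk (8 * u + 2) a (2 * i + 1 + p)).re

noncomputable def ym (u p : ℕ) (a : ℕ → ℝ) (i : ℕ) : ℝ :=
  (Yk (8 * u + 2) a (8 * u + 2 - (2 * i + 1 + p))).re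

noncomputable def vv (u p : ℕ) (a : ℕ → ℝ) (i : ℕ) : ℝ := (yp u p a i + ym u p a i) / 2

noncomputable def zz (u p : ℕ) (a : ℕ → ℝ) (i : ℕ) : ℝ := (yp u p a i - ym u p a i) / 2

noncomputable def ee (u p : ℕ) (a : ℕ → ℝ) : ℝ :=
  if p = 0 then (Yk (8 * u + 2) a (4 * u + 1)).re
  else ((Yk (8 * u + 2) a 0).re + (Yk (8 * u + 2) a (8 * u + 2)).re) / 2

noncomputable def cc (u p : ℕ) (a : ℕ → ℝ) : ℝ :=
  ee u p a + ∑ i ∈ Finset.range (2 * u), vv u p a i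

/-- the positions of the pattern -/
def pos (u i j : ℕ) : Prop :=
  j = i + 1 ∨ (2 ≤ i ∧ (i - 2) % 4 = 0 ∧ j = i) ∨ (2 ≤ i ∧ (i - 2) % 4 = 1 ∧ j + 1 = i) ∨
  (2 ≤ i ∧ (i - 2) % 4 = 3 ∧ (j = i ∨ j + 2 = i)) ∨ (i = 4 * u + 1 ∧ j = 0) ∨
  (i = 8 * u + 1 ∧ j = 0)

instance (u i j : ℕ) : Decidable (pos u i j) := by unfold pos; infer_instance

/-- the pattern of order `8 * u + 2` -/
def pat (u : ℕ) : Finset (Fin (8 * u + 2) × Fin (8 * u + 2)) :=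
  Finset.univ.filter (fun ij => pos u ij.1 ij.2)

/-- the matrix entries; block parameters `a b c d`, two long entries `-> k1, k2` -/
def ent (u : ℕ) (a b c d : ℕ → ℝ) (k1 k2 : ℝ) (i j : ℕ) : ℝ :=
  if j = i + 1 then 1
  else if 2 ≤ i ∧ (i - 2) % 4 = 0 ∧ j = i then a ((i - 2) / 4)
  else if 2 ≤ i ∧ (i - 2) % 4 = 1 ∧ j + 1 = i then c ((i - 2) / 4)
  else if 2 ≤ i ∧ (i - 2) % 4 = 3 ∧ j = i then b ((i - 2) / 4)
  else if 2 ≤ i ∧ (i - 2) % 4 = 3 ∧ j + 2 = i then d ((i - 2) / 4)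
  else if i = 4 * u + 1 ∧ j = 0 then k1
  else if i = 8 * u + 1 ∧ j = 0 then k2
  else 0

noncomputable def qr (y : ℂ) : Polynomial ℝ := 1 - C (2 * y.re) * X + C (Complex.normSq y) * X ^ 2

noncomputable def exq (u p : ℕ) (a : ℕ → ℝ) : Polynomial ℝ :=
  if p = 0 then qr (Yk (8 * u + 2) a (4 * u + 1))
  else (1 - C ((Yk (8 * u + 2) a 0).re) * X) * (1 - C ((Yk (8 * u + 2) a (8 * u + 2)).re) * X)

/-- the sum over the full circle of the even extension of `g` against a cosine -/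
noncomputable def Sl (N : ℕ) (g : ℕ → ℝ) (l : ℕ) : ℝ :=
  g 0 + (-1) ^ l * g N +
    2 * ∑ k ∈ Finset.Ico 1 N, g k * Real.cos (Real.pi * l * k / N)

/-- scaled displacement of the real part of the root near `exp (pi i k / N)` -/
noncomputable def gk (N : ℕ) (a : ℕ → ℝ) (k : ℕ) : ℝ :=
  N * ((Yk N a k).re - Real.cos (Real.pi * k / N))

end Pool.Agent.Helper754.TwoN
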