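import Pool.Agent.Helper754.TwoN.Defs

set_option autoImplicit false
set_option maxHeartbeats 4000000


namespace Pool.Agent.Helper754.TwoN

open Finset Polynomial


private theorem es_pow {N : ℕ} (hN : 1 ≤ N) {w : ℂ} (hw : ‖w‖ = 1) {s : ℂ} (hs : ‖s‖ ≤ 1 / N) {m : ℕ}
    (hm : m ≤ N) : ‖(w * Complex.exp s) ^ m‖ ≤ Real.exp 1 := by
  have hN0 : (0 : ℝ) < N := by exact_mod_cast hN
  rw [norm_pow, norm_mul, hw, one_mul, Complex.norm_exp, ← Real.exp_nat_mul]
  apply Real.exp_le_exp.2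
  have h1 : s.re ≤ 1 / N := (Complex.re_le_norm s).trans hs
  calc (m : ℝ) * s.re ≤ m * (1 / N) := mul_le_mul_of_nonneg_left h1 (Nat.cast_nonneg m)
    _ ≤ N * (1 / N) := mul_le_mul_of_nonneg_right (by exact_mod_cast hm) (by positivity)
    _ = 1 := by field_simp

private theorem es_Q {N : ℕ} (hN : 1 ≤ N) {a : ℕ → ℝ} (ha : nr N a ≤ 1 / 100) {w : ℂ} (hw : ‖w‖ = 1)
    {s : ℂ} (hs : ‖s‖ ≤ 1 / N) : ‖Qf N a (w * Complex.exp s)‖ ≤ 3 / 100 := by
  unfold Qf
  calc ‖∑ m ∈ Finset.Ico 1 N, (a m : ℂ) * (w * Complex.exp s) ^ m‖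
      ≤ ∑ m ∈ Finset.Ico 1 N, |a m| * Real.exp 1 := by
        refine (norm_sum_le _ _).trans (Finset.sum_le_sum fun m hm => ?_)
        rw [norm_mul, Complex.norm_real, Real.norm_eq_abs]
        exact mul_le_mul_of_nonneg_left (es_pow hN hw hs (Finset.mem_Ico.1 hm).2.le) (abs_nonneg _)
    _ = nr N a * Real.exp 1 := by rw [← Finset.sum_mul]; rfl
    _ ≤ 1 / 100 * 3 := by
        have h1 := Real.exp_one_lt_d9
        exact mul_le_mul ha (by linarith) (Real.exp_nonneg _) (by norm_num)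
    _ = 3 / 100 := by norm_num

private theorem es_deriv (N : ℕ) (a : ℕ → ℝ) (w s : ℂ) :
    HasDerivAt (fun s => Qf N a (w * Complex.exp s))
      (∑ m ∈ Finset.Ico 1 N, (a m : ℂ) * (m * (w * Complex.exp s) ^ m)) s := by
  unfold Qf
  have he : HasDerivAt (fun s => w * Complex.exp s) (w * Complex.exp s) s :=
    (Complex.hasDerivAt_exp s).const_mul w
  have hsum := HasDerivAt.fun_sum (u := Finset.Ico 1 N)
    (A := fun m s => (a m : ℂ) * (w * Complex.exp s) ^ m)
    (A' := fun m => (a m : ℂ) * (m * (w * Complex.exp s) ^ m)) (x := s) (fun m hm => ?_)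
  · exact hsum
  · have h1 := (he.fun_pow m).const_mul (a m : ℂ)
    have hm0 : m ≠ 0 := by have := (Finset.mem_Ico.1 hm).1; omega
    rw [mul_assoc (m : ℂ), pow_sub_one_mul hm0] at h1
    exact h1

private theorem es_derivbd {N : ℕ} (hN : 1 ≤ N) {a : ℕ → ℝ} (ha : nr N a ≤ 1 / 100) {w : ℂ}
    (hw : ‖w‖ = 1) {s : ℂ} (hs : ‖s‖ ≤ 1 / N) :
    ‖∑ m ∈ Finset.Ico 1 N, (a m : ℂ) * (m * (w * Complex.exp s) ^ m)‖ ≤ N * (3 / 100) := by
  calc ‖∑ m ∈ Finset.Ico 1 N, (a m : ℂ) * (m * (w * Complex.exp s) ^ m)‖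
      ≤ ∑ m ∈ Finset.Ico 1 N, |a m| * (N * Real.exp 1) := by
        refine (norm_sum_le _ _).trans (Finset.sum_le_sum fun m hm => ?_)
        rw [norm_mul, Complex.norm_real, Real.norm_eq_abs, norm_mul, Complex.norm_natCast]
        have hmN := (Finset.mem_Ico.1 hm).2.le
        apply mul_le_mul_of_nonneg_left _ (abs_nonneg _)
        exact mul_le_mul (by exact_mod_cast hmN) (es_pow hN hw hs hmN) (norm_nonneg _)
          (Nat.cast_nonneg _)
    _ = nr N a * (N * Real.exp 1) := by rw [← Finset.sum_mul]; rfl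
    _ ≤ 1 / 100 * (N * 3) := by
        have h1 := Real.exp_one_lt_d9
        have h2 : (N : ℝ) * Real.exp 1 ≤ N * 3 :=
          mul_le_mul_of_nonneg_left (by linarith) (Nat.cast_nonneg _)
        exact mul_le_mul ha h2 (by positivity) (by norm_num)
    _ = N * (3 / 100) := by ring

theorem exists_isS (N : ℕ) (hN : 1 ≤ N) (a : ℕ → ℝ) (ha : nr N a ≤ 1 / 100) (w : ℂ)
    (hw : ‖w‖ = 1) : ∃ s, IsS N a w s := by
  have hN0 : (0 : ℝ) < N := by exact_mod_cast hN
  have hN1 : (N : ℂ) ≠ 0 := by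
    have : N ≠ 0 := by omega
    exact_mod_cast this
  set D : Set ℂ := Metric.closedBall 0 (1 / N) with hD
  set T : ℂ → ℂ := fun s => (N : ℂ)⁻¹ * Complex.log (1 + Qf N a (w * Complex.exp s)) with hT
  have hmem : ∀ s, s ∈ D → ‖s‖ ≤ 1 / N := fun s hs => mem_closedBall_zero_iff.1 hs
  have hslit : ∀ s, s ∈ D → 1 + Qf N a (w * Complex.exp s) ∈ Complex.slitPlane := by
    intro s hs
    apply Complex.mem_slitPlane_of_norm_lt_one
    have := es_Q hN ha hw (hmem s hs)
    linarith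
  have hmaps : Set.MapsTo T D D := by
    intro s hs
    rw [hD, mem_closedBall_zero_iff, hT]
    simp only
    rw [norm_mul, norm_inv, Complex.norm_natCast]
    have h1 := es_Q hN ha hw (hmem s hs)
    have h2 := Complex.norm_log_one_add_half_le_self (z := Qf N a (w * Complex.exp s))
      (by linarith)
    calc (N : ℝ)⁻¹ * ‖Complex.log (1 + Qf N a (w * Complex.exp s))‖ ≤ (N : ℝ)⁻¹ * 1 := by
          apply mul_le_mul_of_nonneg_left _ (by positivity)
          linarith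
      _ = 1 / N := by rw [mul_one, one_div]
  have hder : ∀ s ∈ D, HasDerivWithinAt T ((N : ℂ)⁻¹ *
      ((∑ m ∈ Finset.Ico 1 N, (a m : ℂ) * (m * (w * Complex.exp s) ^ m)) /
        (1 + Qf N a (w * Complex.exp s)))) D s := by
    intro s hs
    have h1 := (es_deriv N a w s).const_add 1
    exact ((h1.clog (hslit s hs)).const_mul _).hasDerivWithinAt
  have hbd : ∀ s ∈ D, ‖(N : ℂ)⁻¹ *
      ((∑ m ∈ Finset.Ico 1 N, (a m : ℂ) * (m * (w * Complex.exp s) ^ m)) /
        (1 + Qf N a (w * Complex.exp s)))‖₊ ≤ 1 / 2 := by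
    intro s hs
    rw [← NNReal.coe_le_coe, coe_nnnorm, norm_mul, norm_inv, Complex.norm_natCast, norm_div]
    have h1 := es_Q hN ha hw (hmem s hs)
    have h2 := es_derivbd hN ha hw (hmem s hs)
    have h3 : (1 : ℝ) / 2 ≤ ‖1 + Qf N a (w * Complex.exp s)‖ := by
      have h4 := norm_sub_le (1 + Qf N a (w * Complex.exp s)) (Qf N a (w * Complex.exp s))
      rw [add_sub_cancel_right, norm_one] at h4
      linarith
    calc (N : ℝ)⁻¹ * (‖∑ m ∈ Finset.Ico 1 N, (a m : ℂ) * (m * (w * Complex.exp s) ^ m)‖ /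
          ‖1 + Qf N a (w * Complex.exp s)‖) ≤ (N : ℝ)⁻¹ * ((N * (3 / 100)) / (1 / 2)) := by
          apply mul_le_mul_of_nonneg_left _ (by positivity)
          exact div_le_div₀ (by positivity) h2 (by norm_num) h3
      _ = 3 / 50 := by field_simp; norm_num
      _ ≤ _ := by norm_num
  have hlip : LipschitzOnWith (1 / 2) T D :=
    (convex_closedBall _ _).lipschitzOnWith_of_nnnorm_hasDerivWithin_le hder hbd
  have hcon : ContractingWith (1 / 2) (hmaps.restrict T D D) :=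
    ⟨by norm_num, hlip.mapsToRestrict hmaps⟩
  have h0 : (0 : ℂ) ∈ D := by
    rw [hD, mem_closedBall_zero_iff, norm_zero]
    positivity
  obtain ⟨s, hsD, hfix, -⟩ := hcon.exists_fixedPoint' (Metric.isClosed_closedBall.isComplete)
    hmaps h0 (edist_ne_top _ _)
  refine ⟨s, hmem s hsD, ?_⟩
  have h1 : (N : ℂ) * s = Complex.log (1 + Qf N a (w * Complex.exp s)) := by
    have h2 : (N : ℂ)⁻¹ * Complex.log (1 + Qf N a (w * Complex.exp s)) = s := hfix
    rw [inv_mul_eq_iff_eq_mul₀ hN1] at h2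
    exact h2.symm
  rw [h1, Complex.exp_log (Complex.slitPlane_ne_zero (hslit s hsD))]


end Pool.Agent.Helper754.TwoN
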