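import Pool.Agent.Helper754.TwoN.Defs

set_option autoImplicit false
set_option maxHeartbeats 4000000


namespace Pool.Agent.Helper754.TwoN

open Finset Polynomial


theorem isS_bound (N : ℕ) (hN : 1 ≤ N) (a : ℕ → ℝ) (ha : nr N a ≤ 1 / 100) (w s : ℂ)
    (hw : ‖w‖ = 1) (h : IsS N a w s) : ‖s‖ ≤ 2 * nr N a / N := by
  obtain ⟨hs, he⟩ := h
  have hN0 : (0:ℝ) < N := by exact_mod_cast hN
  have hE1 : (N:ℝ) * ‖s‖ ≤ 1 := by
    rw [le_div_iff₀ hN0] at hs; linarith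
  have hE0 : 0 ≤ (N:ℝ) * ‖s‖ := by positivity
  set Q := Qf N a (w * Complex.exp s) with hQ
  have hnr0 : 0 ≤ nr N a := Finset.sum_nonneg (fun m _ => abs_nonneg _)
  -- bound of Q
  have hQb : ‖Q‖ ≤ Real.exp (N * ‖s‖) * nr N a := by
    rw [hQ]
    unfold Qf nr
    rw [Finset.mul_sum]
    refine (norm_sum_le _ _).trans (Finset.sum_le_sum fun m hm => ?_)
    rw [Finset.mem_Ico] at hm
    rw [norm_mul, norm_pow, norm_mul, hw, one_mul, Complex.norm_exp, Complex.norm_real,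
      Real.norm_eq_abs, mul_comm]
    apply mul_le_mul_of_nonneg_right _ (abs_nonneg _)
    rw [← Real.exp_nat_mul]
    apply Real.exp_le_exp.2
    have h1 : s.re ≤ ‖s‖ := Complex.re_le_norm s
    have h2 : (m:ℝ) ≤ N := by exact_mod_cast hm.2.le
    have h3 : (m:ℝ) * s.re ≤ m * ‖s‖ := mul_le_mul_of_nonneg_left h1 (Nat.cast_nonneg m)
    have h4 : (m:ℝ) * ‖s‖ ≤ N * ‖s‖ := mul_le_mul_of_nonneg_right h2 (norm_nonneg s)
    linarith
  have hNs : ‖(N:ℂ) * s‖ = N * ‖s‖ := by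
    rw [norm_mul, Complex.norm_natCast]
  have hlog : Complex.log (1 + Q) = N * s := by
    rw [← he]
    have him : |((N:ℂ) * s).im| ≤ 1 := (Complex.abs_im_le_norm _).trans (by rw [hNs]; exact hE1)
    have hpi := Real.pi_gt_three
    rw [abs_le] at him
    exact Complex.log_exp (by linarith [him.1]) (by linarith [him.2])
  have hstep : ‖Q‖ ≤ 1 / 2 → (N:ℝ) * ‖s‖ ≤ 3 / 2 * ‖Q‖ := by
    intro h1
    rw [← hNs, ← hlog]
    exact Complex.norm_log_one_add_half_le_self h1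
  have hexp1 : Real.exp (N * ‖s‖) ≤ 2.72 := by
    have h1 := Real.exp_one_lt_d9
    have h2 : Real.exp (N * ‖s‖) ≤ Real.exp 1 := Real.exp_le_exp.2 hE1
    norm_num at h1 ⊢
    linarith
  have hQ1 : ‖Q‖ ≤ 0.0272 := by
    have h1 : Real.exp (N * ‖s‖) * nr N a ≤ 2.72 * (1 / 100) :=
      mul_le_mul hexp1 ha hnr0 (by norm_num)
    norm_num at h1 ⊢
    linarith
  have hE2 : (N:ℝ) * ‖s‖ ≤ 0.0408 := by
    have h1 := hstep (by norm_num at hQ1 ⊢; linarith)
    norm_num at hQ1 ⊢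
    linarith
  have hexp2 : Real.exp (N * ‖s‖) ≤ 1.05 := by
    have h1 : 1 - (N:ℝ) * ‖s‖ ≤ Real.exp (-(N * ‖s‖)) := by
      have := Real.add_one_le_exp (-((N:ℝ) * ‖s‖))
      linarith
    have h2 : Real.exp (N * ‖s‖) * Real.exp (-(N * ‖s‖)) = 1 := by
      rw [← Real.exp_add, add_neg_cancel, Real.exp_zero]
    have h3 : 0 < Real.exp (N * ‖s‖) := Real.exp_pos _
    have h4 : Real.exp (N * ‖s‖) * (1 - 0.0408) ≤ 1 := by
      rw [← h2]
      apply mul_le_mul_of_nonneg_left _ h3.le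
      linarith
    norm_num at h4 ⊢
    linarith
  have hQ2 : ‖Q‖ ≤ 1.05 * nr N a :=
    hQb.trans (mul_le_mul_of_nonneg_right hexp2 hnr0)
  have hfin := hstep (by norm_num at hQ1 ⊢; linarith)
  rw [le_div_iff₀ hN0]
  norm_num at hQ2
  linarith


end Pool.Agent.Helper754.TwoN
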