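import Pool.Agent.Helper754.TwoN.Defs
import Pool.Agent.Helper754.TwoN.J_isS_bound

set_option autoImplicit false
set_option maxHeartbeats 4000000


namespace Pool.Agent.Helper754.TwoN

open Finset Polynomial


private theorem cmp_exp_diff (M : ℝ) (hM : M ≤ 1) (u v : ℂ) (hu : ‖u‖ ≤ M) (hv : ‖v‖ ≤ M) :
    ‖Complex.exp u - Complex.exp v - (u - v)‖ ≤ 2 * M * ‖u - v‖ := by
  have h := Convex.norm_image_sub_le_of_norm_deriv_le (f := fun z : ℂ => Complex.exp z - z)
    (C := 2 * M) (s := Metric.closedBall (0 : ℂ) M) (x := v) (y := u)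
    (fun x _ => by fun_prop)
    (fun x hx => by
      have hx' : ‖x‖ ≤ M := by simpa using hx
      have h1 : deriv (fun z : ℂ => Complex.exp z - z) x = Complex.exp x - 1 := by
        have := ((Complex.hasDerivAt_exp x).sub (hasDerivAt_id x)).deriv
        simpa using this
      rw [h1]
      refine (Complex.norm_exp_sub_one_le (hx'.trans hM)).trans ?_
      linarith)
    (convex_closedBall _ _) (by simpa using hv) (by simpa using hu)
  have h2 : Complex.exp u - Complex.exp v - (u - v) = (Complex.exp u - u) - (Complex.exp v - v) := by ring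
  rw [h2]
  exact h

private theorem cmp_Qf_le (N : ℕ) (b : ℕ → ℝ) (y : ℂ) (B : ℝ) (h : ∀ m ∈ Finset.Ico 1 N, ‖y ^ m‖ ≤ B) :
    ‖Qf N b y‖ ≤ nr N b * B := by
  unfold Qf nr
  refine (norm_sum_le _ _).trans ?_
  rw [Finset.sum_mul]
  apply Finset.sum_le_sum
  intro m hm
  rw [norm_mul, Complex.norm_real, Real.norm_eq_abs]
  exact mul_le_mul_of_nonneg_left (h m hm) (abs_nonneg _)

private theorem cmp_Qf_diff (N : ℕ) (b : ℕ → ℝ) (y z : ℂ) (B : ℝ)
    (h : ∀ m ∈ Finset.Ico 1 N, ‖y ^ m - z ^ m‖ ≤ B) :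
    ‖Qf N b y - Qf N b z‖ ≤ nr N b * B := by
  unfold Qf nr
  rw [← Finset.sum_sub_distrib]
  refine (norm_sum_le _ _).trans ?_
  rw [Finset.sum_mul]
  apply Finset.sum_le_sum
  intro m hm
  rw [← mul_sub, norm_mul, Complex.norm_real, Real.norm_eq_abs]
  exact mul_le_mul_of_nonneg_left (h m hm) (abs_nonneg _)

private theorem cmp_Qf_sub (N : ℕ) (a a' : ℕ → ℝ) (y : ℂ) :
    Qf N (fun m => a m - a' m) y = Qf N a y - Qf N a' y := by
  unfold Qf
  rw [← Finset.sum_sub_distrib]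
  apply Finset.sum_congr rfl
  intro m _
  push_cast
  ring

theorem isS_compare (N : ℕ) (hN : 1 ≤ N) (a a' : ℕ → ℝ) (ha : nr N a ≤ 1 / 100)
    (ha' : nr N a' ≤ 1 / 100) (w s s' : ℂ) (hw : ‖w‖ = 1) (h : IsS N a w s)
    (h' : IsS N a' w s') :
    ‖s - s'‖ ≤ 2 * nr N (fun m => a m - a' m) / N ∧
    ‖N * (w * Complex.exp s - w * Complex.exp s') - w * (Qf N a w - Qf N a' w)‖ ≤
      100 * (nr N a + nr N a') * nr N (fun m => a m - a' m) := by
  have hb := isS_bound N hN a ha w s hw h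
  have hb' := isS_bound N hN a' ha' w s' hw h'
  have hNpos : (0 : ℝ) < N := by exact_mod_cast hN
  have hN1 : (1 : ℝ) ≤ N := by exact_mod_cast hN
  set n := nr N a with hn
  set n' := nr N a' with hn'
  set D := nr N (fun m => a m - a' m) with hD
  have hn0 : 0 ≤ n := Finset.sum_nonneg (fun m _ => abs_nonneg _)
  have hn'0 : 0 ≤ n' := Finset.sum_nonneg (fun m _ => abs_nonneg _)
  have hD0 : 0 ≤ D := Finset.sum_nonneg (fun m _ => abs_nonneg _)
  have hNs : N * ‖s‖ ≤ 2 * n := by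
    rw [le_div_iff₀ hNpos] at hb; linarith
  have hNs' : N * ‖s'‖ ≤ 2 * n' := by
    rw [le_div_iff₀ hNpos] at hb'; linarith
  set δ := (N : ℝ) * ‖s - s'‖ with hδ
  have hδ0 : 0 ≤ δ := by positivity
  have hms : ∀ m ∈ Finset.Ico 1 N, ‖(m : ℂ) * s‖ ≤ 2 * n := by
    intro m hm
    rw [Finset.mem_Ico] at hm
    rw [norm_mul, Complex.norm_natCast]
    have : (m : ℝ) ≤ N := by exact_mod_cast hm.2.le
    have := mul_le_mul_of_nonneg_right this (norm_nonneg s)
    linarith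
  have hms' : ∀ m ∈ Finset.Ico 1 N, ‖(m : ℂ) * s'‖ ≤ 2 * n' := by
    intro m hm
    rw [Finset.mem_Ico] at hm
    rw [norm_mul, Complex.norm_natCast]
    have : (m : ℝ) ≤ N := by exact_mod_cast hm.2.le
    have := mul_le_mul_of_nonneg_right this (norm_nonneg s')
    linarith
  have hmd : ∀ m ∈ Finset.Ico 1 N, ‖(m : ℂ) * s - (m : ℂ) * s'‖ ≤ δ := by
    intro m hm
    rw [Finset.mem_Ico] at hm
    rw [← mul_sub, norm_mul, Complex.norm_natCast]
    have : (m : ℝ) ≤ N := by exact_mod_cast hm.2.le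
    exact mul_le_mul_of_nonneg_right this (norm_nonneg _)
  have hpow : ∀ (t : ℂ) (m : ℕ), (w * Complex.exp t) ^ m = w ^ m * Complex.exp (m * t) := by
    intro t m
    rw [mul_pow, ← Complex.exp_nat_mul]
  have hwm : ∀ m : ℕ, ‖w ^ m‖ = 1 := fun m => by rw [norm_pow, hw, one_pow]
  -- bounds for powers
  have hy : ∀ m ∈ Finset.Ico 1 N, ‖(w * Complex.exp s) ^ m‖ ≤ 1.04 := by
    intro m hm
    rw [hpow, norm_mul, hwm, one_mul]
    have h1 := Complex.norm_exp_sub_one_le (x := (m : ℂ) * s) ((hms m hm).trans (by linarith))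
    have h2 : ‖Complex.exp ((m : ℂ) * s)‖ ≤ ‖Complex.exp ((m : ℂ) * s) - 1‖ + 1 := by
      have := norm_add_le (Complex.exp ((m : ℂ) * s) - 1) 1
      simpa using this
    have := hms m hm
    linarith
  have hyy : ∀ m ∈ Finset.Ico 1 N, ‖(w * Complex.exp s) ^ m - (w * Complex.exp s') ^ m‖ ≤ 1.04 * δ := by
    intro m hm
    rw [hpow, hpow, ← mul_sub, norm_mul, hwm, one_mul]
    have h1 := cmp_exp_diff 0.02 (by norm_num) ((m : ℂ) * s) ((m : ℂ) * s')
      ((hms m hm).trans (by linarith)) ((hms' m hm).trans (by linarith))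
    have h2 := hmd m hm
    have h3 : ‖Complex.exp ((m : ℂ) * s) - Complex.exp ((m : ℂ) * s')‖ ≤
        ‖Complex.exp ((m : ℂ) * s) - Complex.exp ((m : ℂ) * s') - ((m : ℂ) * s - (m : ℂ) * s')‖ +
        ‖(m : ℂ) * s - (m : ℂ) * s'‖ := by
      have := norm_add_le (Complex.exp ((m : ℂ) * s) - Complex.exp ((m : ℂ) * s') -
        ((m : ℂ) * s - (m : ℂ) * s')) ((m : ℂ) * s - (m : ℂ) * s')
      simpa using this
    linarith
  have hyw : ∀ m ∈ Finset.Ico 1 N, ‖(w * Complex.exp s) ^ m - w ^ m‖ ≤ 4 * n := by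
    intro m hm
    have h0 : (w * Complex.exp s) ^ m - w ^ m = w ^ m * (Complex.exp (m * s) - 1) := by
      rw [hpow]; ring
    rw [h0, norm_mul, hwm, one_mul]
    have h1 := Complex.norm_exp_sub_one_le (x := (m : ℂ) * s) ((hms m hm).trans (by linarith))
    have := hms m hm
    linarith
  have hA := cmp_Qf_le N (fun m => a m - a' m) (w * Complex.exp s) 1.04 hy
  have hB := cmp_Qf_diff N a' (w * Complex.exp s) (w * Complex.exp s') (1.04 * δ) hyy
  have hC := cmp_Qf_diff N (fun m => a m - a' m) (w * Complex.exp s) w (4 * n) hyw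
  rw [cmp_Qf_sub] at hA
  rw [cmp_Qf_sub, cmp_Qf_sub] at hC
  set Q := Qf N a (w * Complex.exp s) with hQ
  set Q' := Qf N a' (w * Complex.exp s') with hQ'
  set Q2 := Qf N a' (w * Complex.exp s) with hQ2
  have hNsC : ‖(N : ℂ) * s‖ = N * ‖s‖ := by rw [norm_mul, Complex.norm_natCast]
  have hNsC' : ‖(N : ℂ) * s'‖ = N * ‖s'‖ := by rw [norm_mul, Complex.norm_natCast]
  have hδC : ‖(N : ℂ) * s - (N : ℂ) * s'‖ = δ := by
    rw [← mul_sub, norm_mul, Complex.norm_natCast]
  have hR := cmp_exp_diff (2 * (n + n')) (by linarith) ((N : ℂ) * s) ((N : ℂ) * s')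
    (by rw [hNsC]; linarith) (by rw [hNsC']; linarith)
  rw [h.2, h'.2, hδC] at hR
  have hR2 : 1 + Q - (1 + Q') - ((N : ℂ) * s - (N : ℂ) * s') = (Q - Q') - ((N : ℂ) * s - (N : ℂ) * s') := by ring
  rw [hR2] at hR
  have hQQ : ‖Q - Q'‖ ≤ D * 1.04 + n' * (1.04 * δ) := by
    have h1 : Q - Q' = (Q - Q2) + (Q2 - Q') := by ring
    rw [h1]
    exact (norm_add_le _ _).trans (add_le_add hA hB)
  have hδle : δ ≤ ‖Q - Q'‖ + 2 * (2 * (n + n')) * δ := by
    have h1 : (N : ℂ) * s - (N : ℂ) * s' = (Q - Q') - ((Q - Q') - ((N : ℂ) * s - (N : ℂ) * s')) := by ring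
    have h2 := norm_sub_le (Q - Q') ((Q - Q') - ((N : ℂ) * s - (N : ℂ) * s'))
    rw [← h1, hδC] at h2
    linarith
  have hnn : 0 ≤ n + n' := by linarith
  have hδ2 : δ ≤ 2 * D := by
    have h1 : n' * (1.04 * δ) ≤ 0.01 * (1.04 * δ) := mul_le_mul_of_nonneg_right (by linarith) (by positivity)
    have h2 : 2 * (2 * (n + n')) * δ ≤ 2 * (2 * 0.02) * δ := mul_le_mul_of_nonneg_right (by linarith) hδ0
    linarith
  refine ⟨?_, ?_⟩
  · rw [le_div_iff₀ hNpos]
    rw [hδ] at hδ2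
    linarith
  · have hF := cmp_exp_diff (2 * (n + n')) (by linarith) s s'
      (by nlinarith [norm_nonneg s]) (by nlinarith [norm_nonneg s'])
    have hfac : (N : ℂ) * (w * Complex.exp s - w * Complex.exp s') - w * (Qf N a w - Qf N a' w) =
        w * ((N : ℂ) * (Complex.exp s - Complex.exp s' - (s - s')) -
          ((Q - Q') - ((N : ℂ) * s - (N : ℂ) * s')) +
          ((Q - Q2 - (Qf N a w - Qf N a' w)) + (Q2 - Q'))) := by ring
    rw [hfac, norm_mul, hw, one_mul]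
    have h1 : ‖(N : ℂ) * (Complex.exp s - Complex.exp s' - (s - s'))‖ ≤ 2 * (2 * (n + n')) * δ := by
      rw [norm_mul, Complex.norm_natCast]
      calc (N : ℝ) * ‖Complex.exp s - Complex.exp s' - (s - s')‖ ≤
            N * (2 * (2 * (n + n')) * ‖s - s'‖) := mul_le_mul_of_nonneg_left hF hNpos.le
        _ = 2 * (2 * (n + n')) * δ := by rw [hδ]; ring
    refine (norm_add_le _ _).trans ?_
    refine (add_le_add (norm_sub_le _ _) (norm_add_le _ _)).trans ?_
    have h2 : (n + n') * δ ≤ (n + n') * (2 * D) := mul_le_mul_of_nonneg_left hδ2 hnn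
    have h3 : n' * (1.04 * δ) ≤ (n + n') * (1.04 * δ) := mul_le_mul_of_nonneg_right (by linarith) (by positivity)
    have h4 : D * (4 * n) ≤ D * (4 * (n + n')) := mul_le_mul_of_nonneg_left (by linarith) hD0
    have h5 : 0 ≤ (n + n') * D := by positivity
    nlinarith


end Pool.Agent.Helper754.TwoN
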