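import Pool.Agent.Helper754.TwoN.Defs
import Pool.Agent.Helper754.TwoN.J_exists_isS
import Pool.Agent.Helper754.TwoN.J_isS_bound
import Pool.Agent.Helper754.TwoN.J_isS_compare

set_option autoImplicit false
set_option maxHeartbeats 4000000


namespace Pool.Agent.Helper754.TwoN

open Finset Polynomial


private lemma om_norm_10491 (N k : ℕ) : ‖om N k‖ = 1 := by
  unfold om
  exact Complex.norm_exp_ofReal_mul_I _

private lemma nr_nonneg_10491 (N : ℕ) (a : ℕ → ℝ) : 0 ≤ nr N a :=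
  Finset.sum_nonneg (fun _ _ => abs_nonneg _)

private lemma isS_conj_10491 (N : ℕ) (a : ℕ → ℝ) (w s : ℂ) (hw : (starRingEnd ℂ) w = w)
    (h : IsS N a w s) : IsS N a w ((starRingEnd ℂ) s) := by
  refine ⟨by rw [RCLike.norm_conj]; exact h.1, ?_⟩
  have h1 := congrArg (starRingEnd ℂ) h.2
  rw [← Complex.exp_conj, map_mul, Complex.conj_natCast, map_add, map_one] at h1
  rw [h1]
  congr 1
  unfold Qf
  rw [map_sum]
  apply Finset.sum_congr rfl
  intro m _
  rw [map_mul, map_pow, map_mul, Complex.conj_ofReal, hw, Complex.exp_conj]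

private lemma real_of_isS_10491 (N : ℕ) (hN : 1 ≤ N) (a : ℕ → ℝ) (ha : nr N a ≤ 1 / 100) (w s : ℂ)
    (hw1 : ‖w‖ = 1) (hw : (starRingEnd ℂ) w = w) (h : IsS N a w s) :
    (w * Complex.exp s).im = 0 := by
  have h2 := (isS_compare N hN a a ha ha w s _ hw1 h (isS_conj_10491 N a w s hw h)).1
  have h3 : nr N (fun m => a m - a m) = 0 := by simp [nr]
  rw [h3, mul_zero, zero_div] at h2
  have h4 : s - (starRingEnd ℂ) s = 0 := norm_le_zero_iff.mp h2
  have h5 : (starRingEnd ℂ) s = s := (sub_eq_zero.mp h4).symm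
  apply Complex.conj_eq_iff_im.mp
  rw [map_mul, hw, ← Complex.exp_conj, h5]

theorem sr_isS (N : ℕ) (hN : 1 ≤ N) (a : ℕ → ℝ) (ha : nr N a ≤ 1 / 100) (k : ℕ) :
    IsS N a (om N k) (sr N a (om N k)) := by
  have h := exists_isS N hN a ha (om N k) (om_norm_10491 N k)
  unfold sr
  rw [dif_pos h]
  exact h.choose_spec

theorem Yk_close (N : ℕ) (hN : 1 ≤ N) (a : ℕ → ℝ) (ha : nr N a ≤ 1 / 100) (k : ℕ) :
    ‖Yk N a k - om N k‖ ≤ 6 * nr N a / N := by
  have hN' : (1 : ℝ) ≤ N := by exact_mod_cast hN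
  have hs := sr_isS N hN a ha k
  have hb := isS_bound N hN a ha _ _ (om_norm_10491 N k) hs
  have h1 : ‖sr N a (om N k)‖ ≤ 1 := hs.1.trans (by rw [div_le_one (by linarith)]; exact hN')
  have h2 := Complex.norm_exp_sub_one_le h1
  have h3 : Yk N a k - om N k = om N k * (Complex.exp (sr N a (om N k)) - 1) := by
    unfold Yk
    ring
  rw [h3, norm_mul, om_norm_10491, one_mul]
  have h4 := nr_nonneg_10491 N a
  calc _ ≤ 2 * ‖sr N a (om N k)‖ := h2
    _ ≤ 2 * (2 * nr N a / N) := by gcongr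
    _ = 4 * (nr N a / N) := by ring
    _ ≤ 6 * (nr N a / N) := by
        have : 0 ≤ nr N a / N := by positivity
        linarith
    _ = 6 * nr N a / N := by ring

theorem Yk_pow (N : ℕ) (hN : 1 ≤ N) (a : ℕ → ℝ) (ha : nr N a ≤ 1 / 100) (k : ℕ) :
    Yk N a k ^ N = (-1) ^ k * (1 + Qf N a (Yk N a k)) := by
  have hs := sr_isS N hN a ha k
  have hN0 : (N : ℂ) ≠ 0 := by
    have : N ≠ 0 := by omega
    exact_mod_cast this
  have h1 : om N k ^ N = (-1) ^ k := by
    unfold om
    rw [← Complex.exp_nat_mul]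
    have h2 : (N : ℂ) * (((Real.pi * k / N : ℝ) : ℂ) * Complex.I) =
        (k : ℂ) * (Real.pi * Complex.I) := by
      push_cast
      field_simp
    rw [h2, Complex.exp_nat_mul, Complex.exp_pi_mul_I]
  have h3 : Yk N a k ^ N = om N k ^ N * Complex.exp (N * sr N a (om N k)) := by
    unfold Yk
    rw [mul_pow, ← Complex.exp_nat_mul]
  rw [h3, h1, hs.2]
  rfl

theorem Yk_zero_im (N : ℕ) (hN : 1 ≤ N) (a : ℕ → ℝ) (ha : nr N a ≤ 1 / 100) :
    (Yk N a 0).im = 0 ∧ (Yk N a N).im = 0 := by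
  constructor
  · have h0 : om N 0 = 1 := by
      unfold om
      simp
    exact real_of_isS_10491 N hN a ha _ _ (om_norm_10491 N 0) (by rw [h0, map_one])
      (sr_isS N hN a ha 0)
  · have h0 : om N N = -1 := by
      unfold om
      have hN0 : (N : ℝ) ≠ 0 := by
        have : N ≠ 0 := by omega
        exact_mod_cast this
      rw [mul_div_assoc, div_self hN0, mul_one, Complex.exp_pi_mul_I]
    exact real_of_isS_10491 N hN a ha _ _ (om_norm_10491 N N) (by rw [h0, map_neg, map_one])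
      (sr_isS N hN a ha N)

theorem Yk_compare (N : ℕ) (hN : 1 ≤ N) (a a' : ℕ → ℝ) (ha : nr N a ≤ 1 / 100)
    (ha' : nr N a' ≤ 1 / 100) (k : ℕ) :
    ‖Yk N a k - Yk N a' k‖ ≤ 4 * nr N (fun m => a m - a' m) / N ∧
    ‖N * (Yk N a k - Yk N a' k) - om N k * (Qf N a (om N k) - Qf N a' (om N k))‖ ≤
      100 * (nr N a + nr N a') * nr N (fun m => a m - a' m) := by
  have hN' : (1 : ℝ) ≤ N := by exact_mod_cast hN
  have hs := sr_isS N hN a ha k
  have hs' := sr_isS N hN a' ha' k
  have hw := om_norm_10491 N k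
  have hc := isS_compare N hN a a' ha ha' _ _ _ hw hs hs'
  refine ⟨?_, hc.2⟩
  have hb := isS_bound N hN a ha _ _ hw hs
  have hb' := isS_bound N hN a' ha' _ _ hw hs'
  have hD := nr_nonneg_10491 N (fun m => a m - a' m)
  set s := sr N a (om N k) with hsdef
  set s' := sr N a' (om N k) with hs'def
  have h1 : ‖s‖ ≤ 2 / 100 := by
    refine hb.trans ?_
    rw [div_le_iff₀ (by linarith)]
    nlinarith
  have h1' : ‖s'‖ ≤ 2 / 100 := by
    refine hb'.trans ?_
    rw [div_le_iff₀ (by linarith)]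
    nlinarith
  have h2 : ‖s - s'‖ ≤ 4 / 100 := (norm_sub_le _ _).trans (by linarith)
  have h3 : ‖Complex.exp (s - s') - 1‖ ≤ 104 / 100 * ‖s - s'‖ := by
    have h4 := Complex.norm_exp_sub_one_sub_id_le (x := s - s') (by linarith)
    have h5 : Complex.exp (s - s') - 1 = (Complex.exp (s - s') - 1 - (s - s')) + (s - s') := by
      ring
    rw [h5]
    refine (norm_add_le _ _).trans ?_
    nlinarith [norm_nonneg (s - s')]
  have h6 : ‖Complex.exp s'‖ ≤ 104 / 100 := by
    have h7 := Complex.norm_exp_sub_one_le (x := s') (by linarith)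
    have h8 : Complex.exp s' = (Complex.exp s' - 1) + 1 := by ring
    rw [h8]
    refine (norm_add_le _ _).trans ?_
    rw [norm_one]
    linarith
  have h9 : Yk N a k - Yk N a' k =
      om N k * (Complex.exp s' * (Complex.exp (s - s') - 1)) := by
    have h10 : Complex.exp s' * Complex.exp (s - s') = Complex.exp s := by
      rw [← Complex.exp_add]
      congr 1
      ring
    rw [mul_sub, h10]
    show om N k * Complex.exp s - om N k * Complex.exp s' = _
    ring
  rw [h9, norm_mul, norm_mul, hw, one_mul]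
  have h11 : ‖Complex.exp s'‖ * ‖Complex.exp (s - s') - 1‖ ≤
      104 / 100 * (104 / 100 * ‖s - s'‖) :=
    mul_le_mul h6 h3 (norm_nonneg _) (by norm_num)
  have h12 : 0 ≤ nr N (fun m => a m - a' m) / N := by positivity
  have h13 : ‖s - s'‖ ≤ 2 * (nr N (fun m => a m - a' m) / N) := by
    refine hc.1.trans (le_of_eq ?_)
    ring
  have h14 : 4 * nr N (fun m => a m - a' m) / N = 4 * (nr N (fun m => a m - a' m) / N) := by
    ring
  rw [h14]
  linarith

theorem Yk_at_zero (N : ℕ) (hN : 1 ≤ N) (k : ℕ) : Yk N (fun _ => 0) k = om N k := by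
  have h0 : nr N (fun _ => 0) = 0 := by simp [nr]
  have ha : nr N (fun _ => 0) ≤ 1 / 100 := by rw [h0]; norm_num
  have hb := isS_bound N hN (fun _ => 0) ha _ _ (om_norm_10491 N k)
    (sr_isS N hN (fun _ => 0) ha k)
  rw [h0, mul_zero, zero_div] at hb
  have h1 : sr N (fun _ => 0) (om N k) = 0 := norm_le_zero_iff.mp hb
  unfold Yk
  rw [h1, Complex.exp_zero, mul_one]

theorem Yk_continuousOn (N : ℕ) (hN : 1 ≤ N) (a : ℕ → ℝ) (ha : nr N a ≤ 1 / 100) (k : ℕ) :
    ContinuousOn (fun t : ℝ => Yk N (fun m => a m * t ^ m) k) (Set.Icc 0 1) := by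
  have hle : ∀ t ∈ Set.Icc (0 : ℝ) 1, nr N (fun m => a m * t ^ m) ≤ 1 / 100 := by
    intro t ht
    refine le_trans (Finset.sum_le_sum ?_) ha
    intro m _
    rw [abs_mul, abs_of_nonneg (pow_nonneg ht.1 m)]
    calc |a m| * t ^ m ≤ |a m| * 1 :=
          mul_le_mul_of_nonneg_left (pow_le_one₀ ht.1 ht.2) (abs_nonneg _)
      _ = |a m| := mul_one _
  intro t₀ ht₀
  rw [ContinuousWithinAt, tendsto_iff_norm_sub_tendsto_zero]
  have hcont : Continuous (fun t : ℝ =>
      4 * nr N (fun m => a m * t ^ m - a m * t₀ ^ m) / N) := by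
    unfold nr
    fun_prop
  have hlim : Filter.Tendsto (fun t : ℝ =>
      4 * nr N (fun m => a m * t ^ m - a m * t₀ ^ m) / N) (nhdsWithin t₀ (Set.Icc 0 1))
      (nhds 0) := by
    have h1 := (hcont.tendsto t₀).mono_left (nhdsWithin_le_nhds (s := Set.Icc 0 1))
    have h2 : 4 * nr N (fun m => a m * t₀ ^ m - a m * t₀ ^ m) / N = 0 := by simp [nr]
    rwa [h2] at h1
  refine squeeze_zero' (Filter.Eventually.of_forall fun _ => norm_nonneg _) ?_ hlim
  filter_upwards [self_mem_nhdsWithin] with t ht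
  exact (Yk_compare N hN _ _ (hle t ht) (hle t₀ ht₀) k).1


end Pool.Agent.Helper754.TwoN
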