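import Pool.Agent.Helper754.TwoN.Defs
import Pool.Agent.Helper754.TwoN.J_Yk_api

set_option autoImplicit false
set_option maxHeartbeats 4000000


namespace Pool.Agent.Helper754.TwoN

open Finset Polynomial


open ComplexConjugate in
private lemma aeval_qr (y x : ℂ) : aeval x (qr y) = (1 - y * x) * (1 - conj y * x) := by
  have h1 : (y : ℂ) + conj y = ((2 * y.re : ℝ) : ℂ) := by rw [Complex.add_conj]
  have h2 : y * conj y = ((Complex.normSq y : ℝ) : ℂ) := Complex.mul_conj y
  simp only [qr, map_add, map_sub, map_one, map_mul, map_pow, aeval_X, aeval_C,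
    Complex.coe_algebraMap]
  rw [Complex.ofReal_mul] at h1
  rw [← h1, ← h2]
  ring

private lemma aeval_qr_inv (y : ℂ) (hy : y ≠ 0) : aeval y⁻¹ (qr y) = 0 := by
  rw [aeval_qr, mul_inv_cancel₀ hy]; simp

private lemma GG_root (N p k : ℕ) (a : ℕ → ℝ) (Y : ℂ) (hY : Y ≠ 0)
    (hpow : Y ^ N = (-1) ^ k * (1 + Qf N a Y)) (hpar : (-1 : ℂ) ^ k = -(-1) ^ p) :
    aeval Y⁻¹ (1 + C ((-1 : ℝ) ^ p) * X ^ N +
      C ((-1 : ℝ) ^ p) * ∑ m ∈ Finset.Ico 1 N, C (a m) * X ^ (N - m)) = 0 := by
  have hs : ∑ m ∈ Finset.Ico 1 N, (a m : ℂ) * (Y⁻¹) ^ (N - m) = (Y⁻¹) ^ N * Qf N a Y := by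
    rw [Qf, Finset.mul_sum]
    refine Finset.sum_congr rfl fun m hm => ?_
    rw [Finset.mem_Ico] at hm
    have e : (Y⁻¹) ^ N = (Y⁻¹) ^ (N - m) * (Y⁻¹) ^ m := by
      rw [← pow_add]; congr 1; omega
    rw [e]
    have e2 : (Y⁻¹) ^ m * Y ^ m = 1 := by rw [← mul_pow, inv_mul_cancel₀ hY, one_pow]
    linear_combination -(Y⁻¹) ^ (N - m) * (a m : ℂ) * e2
  simp only [map_add, map_one, map_mul, map_pow, aeval_X, aeval_C, map_sum, map_neg,
    Complex.coe_algebraMap] at hs ⊢
  rw [hs]
  have e3 : (Y⁻¹) ^ N * Y ^ N = 1 := by rw [← mul_pow, inv_mul_cancel₀ hY, one_pow]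
  rw [hpow, hpar] at e3
  linear_combination -e3

private lemma om_norm (N k : ℕ) : ‖om N k‖ = 1 := by
  rw [om, Complex.norm_exp_ofReal_mul_I]

private lemma dist_om (N d : ℕ) (hN : 1 ≤ N) (hd : 1 ≤ d) (hdN : d < N) (α : ℝ) :
    4 / (N : ℝ) ≤ ‖Complex.exp (((α + 2 * Real.pi * d / N : ℝ) : ℂ) * Complex.I) -
      Complex.exp ((α : ℂ) * Complex.I)‖ := by
  have hN0 : (0 : ℝ) < N := by exact_mod_cast hN
  have e1 : Complex.exp (((α + 2 * Real.pi * d / N : ℝ) : ℂ) * Complex.I) -
      Complex.exp ((α : ℂ) * Complex.I) = Complex.exp ((α : ℂ) * Complex.I) *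
        (Complex.exp (Complex.I * ((2 * Real.pi * d / N : ℝ) : ℂ)) - 1) := by
    rw [mul_sub, ← Complex.exp_add, mul_one]
    congr 2
    push_cast; ring
  rw [e1, norm_mul, Complex.norm_exp_ofReal_mul_I, one_mul, Complex.norm_exp_I_mul_ofReal_sub_one]
  have e2 : 2 * Real.pi * d / N / 2 = Real.pi * d / N := by ring
  rw [e2]
  have hpi := Real.pi_pos
  have hs : 2 / (N : ℝ) ≤ Real.sin (Real.pi * d / N) := by
    by_cases c : 2 * d ≤ N
    · have c' : 2 * (d : ℝ) ≤ N := by exact_mod_cast c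
      have h := Real.mul_le_sin (x := Real.pi * d / N) (by positivity) (by
        rw [div_le_div_iff₀ hN0 (by norm_num)]; nlinarith)
      refine le_trans ?_ h
      have : 2 / Real.pi * (Real.pi * d / N) = 2 * d / N := by field_simp
      rw [this]
      have hd' : (1 : ℝ) ≤ d := by exact_mod_cast hd
      exact div_le_div_of_nonneg_right (by linarith) hN0.le
    · have c' : (N : ℝ) ≤ 2 * (d : ℝ) := by exact_mod_cast (by omega : N ≤ 2 * d)
      have hd1 : (d : ℝ) + 1 ≤ N := by exact_mod_cast hdN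
      have e3 : Real.sin (Real.pi * d / N) = Real.sin (Real.pi * (N - d) / N) := by
        rw [← Real.sin_pi_sub]; congr 1; field_simp
      rw [e3]
      have h := Real.mul_le_sin (x := Real.pi * (N - d) / N)
        (by apply div_nonneg _ hN0.le; apply mul_nonneg hpi.le; linarith) (by
        rw [div_le_div_iff₀ hN0 (by norm_num)]; nlinarith)
      refine le_trans ?_ h
      have : 2 / Real.pi * (Real.pi * (N - d) / N) = 2 * (N - d) / N := by field_simp
      rw [this]
      exact div_le_div_of_nonneg_right (by linarith) hN0.le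
  rw [Real.norm_eq_abs]
  calc 4 / (N : ℝ) = 2 * (2 / N) := by ring
    _ ≤ 2 * Real.sin (Real.pi * d / N) := by linarith
    _ ≤ _ := le_abs_self _

private lemma sep_om (N i j : ℕ) (hN : 1 ≤ N) (hi : i < N) (hj : j < N) (hij : i ≠ j) (p : ℕ) :
    4 / (N : ℝ) ≤ ‖Complex.exp (((Real.pi * (2 * i + 1 + p : ℕ) / N : ℝ) : ℂ) * Complex.I) -
      Complex.exp (((Real.pi * (2 * j + 1 + p : ℕ) / N : ℝ) : ℂ) * Complex.I)‖ := by
  rcases lt_or_gt_of_ne hij with h | h
  · obtain ⟨d, rfl⟩ : ∃ d, j = i + d := ⟨j - i, by omega⟩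
    have := dist_om N d hN (by omega) (by omega) (Real.pi * (2 * i + 1 + p : ℕ) / N)
    rw [norm_sub_rev]
    have e : Real.pi * ((2 * (i + d) + 1 + p : ℕ) : ℝ) / N =
      Real.pi * ((2 * i + 1 + p : ℕ) : ℝ) / N + 2 * Real.pi * d / N := by push_cast; ring
    rw [e]
    exact this
  · obtain ⟨d, rfl⟩ : ∃ d, i = j + d := ⟨i - j, by omega⟩
    have := dist_om N d hN (by omega) (by omega) (Real.pi * (2 * j + 1 + p : ℕ) / N)
    have e : Real.pi * ((2 * (j + d) + 1 + p : ℕ) : ℝ) / N =
      Real.pi * ((2 * j + 1 + p : ℕ) : ℝ) / N + 2 * Real.pi * d / N := by push_cast; ring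
    rw [e]
    exact this

private lemma qr_deg (y : ℂ) : (qr y).natDegree ≤ 2 := by
  unfold qr
  compute_degree

private lemma qr_zero (y : ℂ) : (qr y).eval 0 = 1 := by
  simp [qr]

private lemma exq_deg (u p : ℕ) (a : ℕ → ℝ) : (exq u p a).natDegree ≤ 2 := by
  unfold exq
  split_ifs
  · exact qr_deg _
  · compute_degree

private lemma exq_zero (u p : ℕ) (a : ℕ → ℝ) : (exq u p a).eval 0 = 1 := by
  unfold exq
  split_ifs
  · exact qr_zero _
  · simp

open ComplexConjugate in
theorem Gp_factor (u p : ℕ) (a : ℕ → ℝ) (hu : 1 ≤ u) (hp : p < 2)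
    (ha : nr (8 * u + 2) a ≤ 1 / 100) :
    1 + C ((-1) ^ p) * X ^ (8 * u + 2) +
      C ((-1) ^ p) * ∑ m ∈ Finset.Ico 1 (8 * u + 2), C (a m) * X ^ (8 * u + 2 - m) =
    exq u p a * ∏ i ∈ Finset.range (2 * u), (qr (Yk (8 * u + 2) a (2 * i + 1 + p)) *
      qr (Yk (8 * u + 2) a (8 * u + 2 - (2 * i + 1 + p)))) := by
  obtain ⟨N, hN⟩ : ∃ N, N = 8 * u + 2 := ⟨_, rfl⟩
  have hN1 : 1 ≤ N := by omega
  have hN0 : (0 : ℝ) < N := by exact_mod_cast hN1
  set G : ℝ[X] := 1 + C ((-1 : ℝ) ^ p) * X ^ (8 * u + 2) +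
      C ((-1 : ℝ) ^ p) * ∑ m ∈ Finset.Ico 1 (8 * u + 2), C (a m) * X ^ (8 * u + 2 - m) with hG
  set Rr : ℝ[X] := exq u p a * ∏ i ∈ Finset.range (2 * u), (qr (Yk (8 * u + 2) a (2 * i + 1 + p)) *
      qr (Yk (8 * u + 2) a (8 * u + 2 - (2 * i + 1 + p)))) with hR
  have hYne : ∀ k, Yk N a k ≠ 0 := by
    intro k h0
    have h1 := Yk_close N hN1 a (by rw [hN]; exact ha) k
    rw [h0, zero_sub, norm_neg, om_norm] at h1
    have h2 : nr N a ≤ 1 / 100 := by rw [hN]; exact ha
    have h3 : 6 * nr N a / N ≤ 6 * (1 / 100) / 1 := by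
      have hNr : (1 : ℝ) ≤ N := by exact_mod_cast hN1
      have hnn : 0 ≤ nr N a := Finset.sum_nonneg fun _ _ => abs_nonneg _
      exact div_le_div₀ (by norm_num) (by linarith) (by norm_num) hNr
    linarith
  have hpar : ∀ k, k % 2 = (1 + p) % 2 → (-1 : ℂ) ^ k = -(-1) ^ p := by
    intro k hk
    interval_cases p
    · have : Odd k := Nat.odd_iff.mpr (by omega)
      rw [this.neg_one_pow]; simp
    · have : Even k := Nat.even_iff.mpr (by omega)
      rw [this.neg_one_pow]; simp
  have hGroot : ∀ k, k % 2 = (1 + p) % 2 → aeval (Yk N a k)⁻¹ G = 0 := by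
    intro k hk
    have := GG_root N p k a (Yk N a k) (hYne k) (Yk_pow N hN1 a (by rw [hN]; exact ha) k)
      (hpar k hk)
    rw [hG, ← hN]
    exact this
  have hRroot : ∀ k, k ≤ N → k % 2 = (1 + p) % 2 → aeval (Yk N a k)⁻¹ Rr = 0 := by
    intro k hkN hk
    -- prod case
    have hprod : ∀ i, i < 2 * u → (k = 2 * i + 1 + p ∨ k = 8 * u + 2 - (2 * i + 1 + p)) →
        aeval (Yk N a k)⁻¹ Rr = 0 := by
      intro i hi hk'
      rw [hR, map_mul, map_prod]
      rw [Finset.prod_eq_zero (Finset.mem_range.mpr hi), mul_zero]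
      rw [map_mul]
      rcases hk' with h | h
      · rw [← h, ← hN, aeval_qr_inv _ (hYne k), zero_mul]
      · rw [← h, ← hN, aeval_qr_inv _ (hYne k), mul_zero]
    have hex : aeval (Yk N a k)⁻¹ (exq u p a) = 0 → aeval (Yk N a k)⁻¹ Rr = 0 := by
      intro h
      rw [hR, map_mul, h, zero_mul]
    have hreal : ∀ j, (Yk N a j).im = 0 → aeval (Yk N a j)⁻¹ (1 - C ((Yk N a j).re) * X) = 0 := by
      intro j hj
      have : ((Yk N a j).re : ℂ) = Yk N a j := by
        apply Complex.ext <;> simp [hj]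
      simp only [map_sub, map_one, map_mul, aeval_C, aeval_X, Complex.coe_algebraMap]
      rw [this, mul_inv_cancel₀ (hYne j), sub_self]
    have hz := Yk_zero_im N hN1 a (by rw [hN]; exact ha)
    interval_cases p
    · rcases lt_trichotomy k (4 * u + 1) with h | h | h
      · exact hprod ((k - 1) / 2) (by omega) (Or.inl (by omega))
      · apply hex
        rw [exq, if_pos rfl, ← hN, ← h]
        exact aeval_qr_inv _ (hYne k)
      · exact hprod ((8 * u + 2 - k - 1) / 2) (by omega) (Or.inr (by omega))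
    · rcases Nat.eq_zero_or_pos k with h | h
      · apply hex
        rw [exq, if_neg (by norm_num), ← hN, map_mul, h, hreal 0 hz.1, zero_mul]
      rcases Nat.eq_or_lt_of_le hkN with h2 | h2
      · apply hex
        rw [exq, if_neg (by norm_num), ← hN, map_mul, h2, hreal N hz.2, mul_zero]
      by_cases h3 : k ≤ 4 * u
      · exact hprod ((k - 2) / 2) (by omega) (Or.inl (by omega))
      · exact hprod ((8 * u + 2 - k - 2) / 2) (by omega) (Or.inr (by omega))
  have hDroot : ∀ k, k ≤ N → k % 2 = (1 + p) % 2 → aeval (Yk N a k)⁻¹ (G - Rr) = 0 := by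
    intro k h1 h2
    rw [map_sub, hGroot k h2, hRroot k h1 h2, sub_zero]
  -- the index
  set Z : Fin N → ℂ := fun j => if 2 * (j : ℕ) + 1 + p ≤ N then Yk N a (2 * j + 1 + p) else
    conj (Yk N a (2 * N - (2 * j + 1 + p))) with hZ
  have hZne : ∀ j, Z j ≠ 0 := by
    intro j
    simp only [hZ]
    split_ifs
    · exact hYne _
    · exact (_root_.map_ne_zero _).mpr (hYne _)
  have hZroot : ∀ j, aeval (Z j)⁻¹ (G - Rr) = 0 := by
    intro j
    have hj := j.2
    simp only [hZ]
    split_ifs with c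
    · exact hDroot _ c (by omega)
    · have e : (conj (Yk N a (2 * N - (2 * j + 1 + p))))⁻¹ =
          conj ((Yk N a (2 * N - (2 * j + 1 + p)))⁻¹) := by rw [map_inv₀]
      rw [e, aeval_conj, hDroot _ (by omega) (by omega), map_zero]
  have hZclose : ∀ j : Fin N, ‖Z j - Complex.exp (((Real.pi * (2 * (j : ℕ) + 1 + p : ℕ) / N : ℝ) : ℂ) *
      Complex.I)‖ ≤ 1 / N := by
    intro j
    have hj := j.2
    have hb : ∀ k, ‖Yk N a k - om N k‖ ≤ 1 / N := by
      intro k
      refine (Yk_close N hN1 a (by rw [hN]; exact ha) k).trans ?_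
      have h2 : nr N a ≤ 1 / 100 := by rw [hN]; exact ha
      exact div_le_div_of_nonneg_right (by linarith) hN0.le
    simp only [hZ]
    split_ifs with c
    · exact hb _
    · have h3 := hb (2 * N - (2 * j + 1 + p))
      have e : conj (Yk N a (2 * N - (2 * j + 1 + p))) -
          Complex.exp (((Real.pi * (2 * (j : ℕ) + 1 + p : ℕ) / N : ℝ) : ℂ) * Complex.I) =
          conj (Yk N a (2 * N - (2 * j + 1 + p)) - om N (2 * N - (2 * j + 1 + p))) := by
        rw [map_sub]
        congr 1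
        rw [om, ← Complex.exp_conj, map_mul, Complex.conj_I, Complex.conj_ofReal]
        have hle : 2 * (j : ℕ) + 1 + p ≤ 2 * N := by omega
        rw [Nat.cast_sub hle]
        have e5 : (((Real.pi * (((2 * N : ℕ) : ℝ) - ((2 * (j : ℕ) + 1 + p : ℕ) : ℝ)) / N : ℝ)) : ℂ) *
            -Complex.I = ((Real.pi * (2 * (j : ℕ) + 1 + p : ℕ) / N : ℝ) : ℂ) * Complex.I -
            2 * Real.pi * Complex.I := by
          have hNc : (N : ℂ) ≠ 0 := by exact_mod_cast hN0.ne'
          push_cast
          field_simp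
          ring
        rw [e5, Complex.exp_sub, Complex.exp_two_pi_mul_I, div_one]
      rw [e, RCLike.norm_conj]
      exact h3
  have hZinj : Function.Injective Z := by
    intro i j hij
    by_contra hne
    have h1 := sep_om N i j hN1 i.2 j.2 (fun h => hne (Fin.ext h)) p
    have h2 := hZclose i
    have h3 := hZclose j
    rw [hij] at h2
    have h4 : ‖Complex.exp (((Real.pi * (2 * (i : ℕ) + 1 + p : ℕ) / N : ℝ) : ℂ) * Complex.I) -
      Complex.exp (((Real.pi * (2 * (j : ℕ) + 1 + p : ℕ) / N : ℝ) : ℂ) * Complex.I)‖ ≤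
        1 / N + 1 / N := by
      have e : Complex.exp (((Real.pi * (2 * (i : ℕ) + 1 + p : ℕ) / N : ℝ) : ℂ) * Complex.I) -
        Complex.exp (((Real.pi * (2 * (j : ℕ) + 1 + p : ℕ) / N : ℝ) : ℂ) * Complex.I) =
        (Z j - Complex.exp (((Real.pi * (2 * (j : ℕ) + 1 + p : ℕ) / N : ℝ) : ℂ) * Complex.I)) -
        (Z j - Complex.exp (((Real.pi * (2 * (i : ℕ) + 1 + p : ℕ) / N : ℝ) : ℂ) * Complex.I)) := by
        ring
      rw [e]
      exact (norm_sub_le _ _).trans (add_le_add h3 h2)
    have h5 : 4 / (N : ℝ) ≤ 1 / N + 1 / N := h1.trans h4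
    have h6 : (4 : ℝ) / N = 4 * (1 / N) := by ring
    have h7 : 0 < 1 / (N : ℝ) := by positivity
    linarith
  have hdeg : ((G - Rr).map (algebraMap ℝ ℂ)).natDegree < Fintype.card (Option (Fin N)) := by
    rw [Fintype.card_option, Fintype.card_fin]
    refine lt_of_le_of_lt (natDegree_map_le) ?_
    refine Nat.lt_succ_of_le ((natDegree_sub_le _ _).trans (max_le ?_ ?_))
    · rw [hG, hN]
      refine (natDegree_add_le _ _).trans (max_le ((natDegree_add_le _ _).trans (max_le ?_ ?_)) ?_)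
      · simp
      · exact (natDegree_C_mul_le _ _).trans (natDegree_X_pow_le _)
      · refine (natDegree_C_mul_le _ _).trans (natDegree_sum_le_of_forall_le _ _ fun m hm => ?_)
        exact (natDegree_C_mul_le _ _).trans ((natDegree_X_pow_le _).trans (by omega))
    · rw [hR]
      refine natDegree_mul_le.trans ?_
      have h1 := exq_deg u p a
      have h2 : (∏ i ∈ Finset.range (2 * u), (qr (Yk (8 * u + 2) a (2 * i + 1 + p)) *
          qr (Yk (8 * u + 2) a (8 * u + 2 - (2 * i + 1 + p))))).natDegree ≤ (2 * u) * 4 := by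
        refine (natDegree_prod_le _ _).trans ?_
        refine (Finset.sum_le_sum (g := fun _ => 4) fun i _ => ?_).trans (by simp)
        exact natDegree_mul_le.trans (by
          have a1 := qr_deg (Yk (8 * u + 2) a (2 * i + 1 + p))
          have a2 := qr_deg (Yk (8 * u + 2) a (8 * u + 2 - (2 * i + 1 + p)))
          omega)
      omega
  have hzero : (G - Rr).map (algebraMap ℝ ℂ) = 0 := by
    refine eq_zero_of_natDegree_lt_card_of_eval_eq_zero _
      (f := fun o : Option (Fin N) => o.elim 0 (fun j => (Z j)⁻¹)) ?_ ?_ hdeg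
    · intro x y hxy
      rcases x with _ | x <;> rcases y with _ | y
      · rfl
      · simp only [Option.elim] at hxy
        exact absurd hxy.symm (inv_ne_zero (hZne y))
      · simp only [Option.elim] at hxy
        exact absurd hxy (inv_ne_zero (hZne x))
      · simp only [Option.elim] at hxy
        rw [hZinj (inv_injective hxy)]
    · intro x
      rcases x with _ | x
      · simp only [Option.elim]
        have h0 : (G - Rr).eval 0 = 0 := by
          rw [eval_sub, hG, hR]
          simp only [eval_add, eval_one, eval_mul, eval_C, eval_pow, eval_X, eval_prod, qr_zero,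
            exq_zero, eval_finsetSum]
          rw [zero_pow (by omega), Finset.sum_eq_zero]
          · simp
          · intro m hm
            rw [Finset.mem_Ico] at hm
            rw [zero_pow (by omega), mul_zero]
        have h1 : (0 : ℂ) = algebraMap ℝ ℂ 0 := by simp
        rw [h1, eval_map_apply, h0, map_zero]
      · simp only [Option.elim]
        rw [eval_map_algebraMap]
        exact hZroot x
  have := Polynomial.map_injective (algebraMap ℝ ℂ) (algebraMap ℝ ℂ).injective
    (hzero.trans (Polynomial.map_zero _).symm)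
  exact sub_eq_zero.mp this


end Pool.Agent.Helper754.TwoN
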