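import Pool.Agent.Helper754.TwoN.Defs

set_option autoImplicit false
set_option maxHeartbeats 4000000


namespace Pool.Agent.Helper754.TwoN

open Finset Polynomial


private theorem Sl_tele (x : ℝ) (N : ℕ) (hN : 1 ≤ N) :
    2 * Real.sin (x / 2) * ∑ k ∈ Finset.Ico 1 N, Real.cos (k * x) =
      Real.sin (N * x - x / 2) - Real.sin (x / 2) := by
  induction N, hN using Nat.le_induction with
  | base => simp; rw [show x - x / 2 = x / 2 by ring]; ring
  | succ n hn ih =>
    rw [Finset.sum_Ico_succ_top hn, mul_add, ih]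
    have e1 : ((n + 1 : ℕ) : ℝ) * x - x / 2 = n * x + x / 2 := by push_cast; ring
    rw [e1, Real.sin_add, Real.sin_sub]
    ring

/-- the full sum -/
private noncomputable def SlT (N : ℕ) (x : ℝ) : ℝ :=
  1 + Real.cos (N * x) + 2 * ∑ k ∈ Finset.Ico 1 N, Real.cos (k * x)

private theorem SlT_zero (x : ℝ) (N : ℕ) (hN : 1 ≤ N) (h1 : Real.sin (x / 2) ≠ 0)
    (h2 : Real.sin (N * x) = 0) : SlT N x = 0 := by
  have h := Sl_tele x N hN
  rw [Real.sin_sub, h2] at h
  have h3 : Real.sin (x / 2) * SlT N x = 0 := by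
    unfold SlT
    linear_combination h
  exact (mul_eq_zero.mp h3).resolve_left h1

private theorem SlT_two (q : ℤ) (N : ℕ) (hN : 1 ≤ N) : SlT N (q * (2 * Real.pi)) = 2 * N := by
  have h : ∀ k : ℕ, Real.cos (k * (q * (2 * Real.pi))) = 1 := by
    intro k
    have := Real.cos_int_mul_two_pi (k * q)
    rw [← this]
    congr 1
    push_cast
    ring
  unfold SlT
  simp only [h]
  rw [Finset.sum_const, Nat.card_Ico]
  simp only [nsmul_eq_mul, mul_one]
  rw [Nat.cast_sub hN]
  push_cast
  ring

private theorem Sl_eq_T (N j l : ℕ) (hN : 1 ≤ N) :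
    Sl N (fun k => Real.cos (Real.pi * j * k / N)) l =
      (SlT N (Real.pi * (j + l) / N) + SlT N (Real.pi * (j - l) / N)) / 2 := by
  have hN0 : (N : ℝ) ≠ 0 := by positivity
  have hp : ∀ a b : ℝ, Real.cos a * Real.cos b = (Real.cos (a + b) + Real.cos (a - b)) / 2 := by
    intro a b
    rw [Real.cos_add, Real.cos_sub]
    ring
  unfold Sl SlT
  have h1 : (-1 : ℝ) ^ l = Real.cos (Real.pi * l) := by
    rw [mul_comm, Real.cos_nat_mul_pi]
  have h2 : Real.pi * j * (N : ℝ) / N = Real.pi * j := by field_simp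
  have h3 : (N : ℝ) * (Real.pi * (j + l) / N) = Real.pi * j + Real.pi * l := by field_simp
  have h4 : (N : ℝ) * (Real.pi * (j - l) / N) = Real.pi * j - Real.pi * l := by field_simp
  have h5 : ∑ k ∈ Finset.Ico 1 N, Real.cos (Real.pi * j * k / N) * Real.cos (Real.pi * l * k / N) =
      (∑ k ∈ Finset.Ico 1 N, Real.cos (k * (Real.pi * (j + l) / N)) +
        ∑ k ∈ Finset.Ico 1 N, Real.cos (k * (Real.pi * (j - l) / N))) / 2 := by
    rw [← Finset.sum_add_distrib, Finset.sum_div]
    refine Finset.sum_congr rfl fun k _ => ?_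
    rw [hp]
    congr 3 <;> ring
  beta_reduce
  rw [h1, h2, h3, h4, h5]
  have h6 := hp (Real.pi * j) (Real.pi * l)
  simp only [Nat.cast_zero, mul_zero, zero_div, Real.cos_zero]
  linear_combination h6

private theorem Sl_sin (N : ℕ) (hN : 1 ≤ N) (m : ℤ) :
    Real.sin (N * (Real.pi * m / N)) = 0 := by
  have hN0 : (N : ℝ) ≠ 0 := by positivity
  have : (N : ℝ) * (Real.pi * m / N) = m * Real.pi := by field_simp
  rw [this, Real.sin_int_mul_pi]

theorem Sl_orth (N j l : ℕ) (hN : 1 ≤ N) (hj : j ≤ N) (hl : l ≤ N) :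
    Sl N (fun k => Real.cos (Real.pi * j * k / N)) l =
      if j = l then (if l = 0 ∨ l = N then 2 * (N : ℝ) else N) else 0 := by
  have hN0 : (0 : ℝ) < N := by positivity
  have hpi := Real.pi_pos
  rw [Sl_eq_T N j l hN]
  have hzero : ∀ m : ℤ, Real.sin (Real.pi * m / N / 2) ≠ 0 → SlT N (Real.pi * m / N) = 0 :=
    fun m hm => SlT_zero _ N hN hm (Sl_sin N hN m)
  have hpos : ∀ r : ℝ, 0 < r → r < 2 * N → Real.sin (Real.pi * r / N / 2) ≠ 0 := by
    intro r h1 h2
    refine (Real.sin_pos_of_pos_of_lt_pi (by positivity) ?_).ne'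
    rw [div_div, div_lt_iff₀ (by positivity)]
    nlinarith
  by_cases hjl : j = l
  · subst hjl
    rw [if_pos rfl]
    have e1 : SlT N (Real.pi * ((j : ℝ) - j) / N) = 2 * N := by
      have := SlT_two 0 N hN
      simpa using this
    rw [e1]
    by_cases h0 : j = 0 ∨ j = N
    · rw [if_pos h0]
      have e2 : SlT N (Real.pi * ((j : ℝ) + j) / N) = 2 * N := by
        rcases h0 with h | h
        · subst h
          have := SlT_two 0 N hN
          simpa using this
        · subst h
          have := SlT_two 1 j hN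
          have e3 : Real.pi * ((j : ℝ) + j) / j = ((1 : ℤ) : ℝ) * (2 * Real.pi) := by
            push_cast
            field_simp
            ring
          rw [e3]
          exact this
      rw [e2]
      ring
    · rw [if_neg h0]
      push Not at h0
      have hj0 : 0 < j := Nat.pos_of_ne_zero h0.1
      have hjN : j < N := lt_of_le_of_ne hj h0.2
      have e2 : SlT N (Real.pi * ((j : ℝ) + j) / N) = 0 := by
        have := hzero (j + j : ℤ)
        push_cast at this
        apply this
        apply hpos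
        · positivity
        · have : (j : ℝ) < N := by exact_mod_cast hjN
          linarith
      rw [e2]
      ring
  · rw [if_neg hjl]
    have hsum : j + l < 2 * N := by omega
    have hsum0 : 0 < j + l := by omega
    have e1 : SlT N (Real.pi * ((j : ℝ) + l) / N) = 0 := by
      have := hzero (j + l : ℤ)
      push_cast at this
      apply this
      apply hpos
      · exact_mod_cast hsum0
      · exact_mod_cast hsum
    have e2 : SlT N (Real.pi * ((j : ℝ) - l) / N) = 0 := by
      have := hzero (j - l : ℤ)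
      push_cast at this
      apply this
      have hjr : (j : ℝ) ≤ N := by exact_mod_cast hj
      have hlr : (l : ℝ) ≤ N := by exact_mod_cast hl
      have hj0 : (0 : ℝ) ≤ j := by positivity
      have hl0 : (0 : ℝ) ≤ l := by positivity
      rcases lt_or_gt_of_ne hjl with h | h
      · have h' : (j : ℝ) < l := by exact_mod_cast h
        have h3 := hpos ((l : ℝ) - j) (by linarith) (by linarith)
        intro h4
        apply h3
        have : Real.pi * ((l : ℝ) - j) / N / 2 = -(Real.pi * ((j : ℝ) - l) / N / 2) := by ring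
        rw [this, Real.sin_neg, h4, neg_zero]
      · have h' : (l : ℝ) < j := by exact_mod_cast h
        exact hpos ((j : ℝ) - l) (by linarith) (by linarith)
    rw [e1, e2]
    ring

theorem Sl_add (N l : ℕ) (g h : ℕ → ℝ) : Sl N (fun k => g k + h k) l = Sl N g l + Sl N h l := by
  unfold Sl
  simp only [add_mul, Finset.sum_add_distrib]
  ring

theorem Sl_smul (N l : ℕ) (r : ℝ) (g : ℕ → ℝ) : Sl N (fun k => r * g k) l = r * Sl N g l := by
  unfold Sl
  simp only [mul_assoc, ← Finset.mul_sum]
  ring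

theorem Sl_sum (N l : ℕ) (T : Finset ℕ) (g : ℕ → ℕ → ℝ) :
    Sl N (fun k => ∑ m ∈ T, g m k) l = ∑ m ∈ T, Sl N (g m) l := by
  classical
  induction T using Finset.induction_on with
  | empty => simp [Sl]
  | insert a s ha ih =>
    simp only [Finset.sum_insert ha]
    rw [← ih, ← Sl_add]

theorem Sl_bound (N l : ℕ) (hN : 1 ≤ N) (g : ℕ → ℝ) (e : ℝ) (he : ∀ k ≤ N, |g k| ≤ e) :
    |Sl N g l| ≤ 2 * N * e := by
  unfold Sl
  have h0 := he 0 (by omega)
  have h1 := he N le_rfl
  have h2 : |(-1 : ℝ) ^ l * g N| ≤ e := by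
    rw [abs_mul, abs_pow, abs_neg, abs_one, one_pow, one_mul]
    exact h1
  have h3 : |∑ k ∈ Finset.Ico 1 N, g k * Real.cos (Real.pi * l * k / N)| ≤ (N - 1) * e := by
    refine (Finset.abs_sum_le_sum_abs _ _).trans ?_
    have : ∑ k ∈ Finset.Ico 1 N, |g k * Real.cos (Real.pi * l * k / N)| ≤
        ∑ k ∈ Finset.Ico 1 N, e := by
      refine Finset.sum_le_sum fun k hk => ?_
      rw [abs_mul]
      have hk' := he k (Finset.mem_Ico.mp hk).2.le
      have hc := Real.abs_cos_le_one (Real.pi * l * k / N)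
      calc |g k| * |Real.cos (Real.pi * l * k / N)| ≤ |g k| * 1 :=
            mul_le_mul_of_nonneg_left hc (abs_nonneg _)
        _ ≤ e := by linarith
    refine this.trans ?_
    rw [Finset.sum_const, Nat.card_Ico, nsmul_eq_mul, Nat.cast_sub hN]
    simp
  have h4 : |g 0 + (-1) ^ l * g N + 2 * ∑ k ∈ Finset.Ico 1 N,
      g k * Real.cos (Real.pi * l * k / N)| ≤ |g 0| + |(-1 : ℝ) ^ l * g N| +
      |2 * ∑ k ∈ Finset.Ico 1 N, g k * Real.cos (Real.pi * l * k / N)| :=
    (abs_add_le _ _).trans (add_le_add (abs_add_le _ _) le_rfl)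
  rw [abs_mul (2 : ℝ), abs_two] at h4
  linarith


end Pool.Agent.Helper754.TwoN
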