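import Pool.Agent.Helper754.TwoN.Defs

set_option autoImplicit false
set_option maxHeartbeats 4000000


namespace Pool.Agent.Helper754.TwoN

open Finset Polynomial


private theorem hasFZ_scale_aux (F : Polynomial ℝ) (n : ℕ) (ρ : ℝ) (hρ : 0 < ρ) (hF : F.Monic)
    (hn : F.natDegree = n) :
    (C ((ρ ^ n)⁻¹) * F.comp (C ρ * X)).Monic ∧
      (C ((ρ ^ n)⁻¹) * F.comp (C ρ * X)).natDegree = n ∧
      ∀ j, (C ((ρ ^ n)⁻¹) * F.comp (C ρ * X)).coeff j = (ρ ^ n)⁻¹ * (F.coeff j * ρ ^ j) := by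
  have h0 : (ρ ^ n)⁻¹ ≠ 0 := by positivity
  have h1 : (C ((ρ ^ n)⁻¹) * F.comp (C ρ * X)).natDegree = n := by
    rw [natDegree_C_mul h0, natDegree_comp, natDegree_C_mul_X _ hρ.ne', mul_one, hn]
  have h2 : ∀ j, (C ((ρ ^ n)⁻¹) * F.comp (C ρ * X)).coeff j =
      (ρ ^ n)⁻¹ * (F.coeff j * ρ ^ j) := by
    intro j
    rw [coeff_C_mul, comp_C_mul_X_coeff]
  refine ⟨?_, h1, h2⟩
  unfold Monic leadingCoeff
  rw [h1, h2]
  have h3 : F.coeff n = 1 := by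
    rw [← hn]
    exact hF
  rw [h3, one_mul]
  exact inv_mul_cancel₀ (by positivity)

theorem hasFZ_scale (u : ℕ) (g : Polynomial ℝ) (ρ : ℝ) (hρ : 0 < ρ) (h : HasFZ u g) :
    HasFZ u (C ((ρ ^ (8 * u + 2))⁻¹) * g.comp (C ρ * X)) := by
  obtain ⟨F, Z, hF, hZ, hFd, hZd, hg, h1, h0, h2, hz⟩ := h
  obtain ⟨a1, a2, a3⟩ := hasFZ_scale_aux F _ ρ hρ hF hFd
  obtain ⟨b1, b2, b3⟩ := hasFZ_scale_aux Z _ ρ hρ hZ hZd
  refine ⟨_, _, a1, b1, a2, b2, ?_, ?_, ?_, ?_, ?_⟩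
  · rw [← hg, mul_comp]
    have e : (ρ ^ (8 * u + 2))⁻¹ = (ρ ^ (4 * u + 2))⁻¹ * (ρ ^ (4 * u))⁻¹ := by
      rw [← mul_inv, ← pow_add]
      congr 2
      omega
    rw [e, C_mul]
    ring
  · rw [a3, h1]
    ring
  · rw [a3]
    have : (ρ ^ (4 * u + 2))⁻¹ ≠ 0 := by positivity
    simp [h0, hρ.ne']
  · rw [a3]
    positivity
  · rw [b3]
    positivity


end Pool.Agent.Helper754.TwoN
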