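import Pool.Agent.Helper754.TwoN.Defs
import Pool.Agent.Helper754.TwoN.J_Yk_api

set_option autoImplicit false
set_option maxHeartbeats 4000000


namespace Pool.Agent.Helper754.TwoN

open Finset Polynomial


/-- twice the real part of `y ^ 2` -/
noncomputable def pq (y : ℂ) : ℝ := 4 * y.re ^ 2 - 2 * Complex.normSq y

private theorem cos_tel (φ : ℝ) (p n : ℕ) :
    Real.sin φ * ∑ i ∈ Finset.range n, 2 * Real.cos (((2 * i + 1 + p : ℕ) : ℝ) * φ) =
      Real.sin (((2 * n + p : ℕ) : ℝ) * φ) - Real.sin ((p : ℝ) * φ) := by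
  induction n with
  | zero => simp
  | succ n ih =>
    rw [Finset.sum_range_succ, mul_add, ih]
    have e1 : Real.sin (((2 * (n + 1) + p : ℕ) : ℝ) * φ) =
        Real.sin (((2 * n + 1 + p : ℕ) : ℝ) * φ + φ) := by
      congr 1
      push_cast
      ring
    have e2 : Real.sin (((2 * n + p : ℕ) : ℝ) * φ) =
        Real.sin (((2 * n + 1 + p : ℕ) : ℝ) * φ - φ) := by
      congr 1
      push_cast
      ring
    rw [e1, e2, Real.sin_add, Real.sin_sub]
    ring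

theorem cos_sum (u p : ℕ) (hu : 1 ≤ u) (hp : p < 2) :
    ∑ i ∈ Finset.range (2 * u),
      2 * Real.cos (2 * (Real.pi * ((2 * i + 1 + p : ℕ) : ℝ) / ((8 * u + 2 : ℕ) : ℝ))) =
      (-1) ^ p := by
  have hN : (0 : ℝ) < ((8 * u + 2 : ℕ) : ℝ) := by positivity
  obtain ⟨φ, hφ⟩ : ∃ φ, φ = 2 * Real.pi / ((8 * u + 2 : ℕ) : ℝ) := ⟨_, rfl⟩
  have hφ1 : φ * ((8 * u + 2 : ℕ) : ℝ) = 2 * Real.pi := by
    rw [hφ, div_mul_cancel₀ _ hN.ne']
  have hφN : φ * (8 * (u : ℝ) + 2) = 2 * Real.pi := by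
    rw [← hφ1]
    push_cast
    ring
  have hφ0 : 0 < φ := by rw [hφ]; positivity
  have hu' : (1 : ℝ) ≤ u := by exact_mod_cast hu
  have hφπ : φ < Real.pi := by nlinarith [Real.pi_pos]
  have hs : 0 < Real.sin φ := Real.sin_pos_of_pos_of_lt_pi hφ0 hφπ
  have e : ∀ i : ℕ, 2 * (Real.pi * ((2 * i + 1 + p : ℕ) : ℝ) / ((8 * u + 2 : ℕ) : ℝ)) =
      ((2 * i + 1 + p : ℕ) : ℝ) * φ := by
    intro i
    rw [hφ]
    ring
  simp only [e]
  have key := cos_tel φ p (2 * u)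
  apply mul_left_cancel₀ hs.ne'
  rw [key]
  interval_cases p
  · have e1 : ((2 * (2 * u) + 0 : ℕ) : ℝ) * φ = Real.pi - φ := by
      push_cast
      linarith
    rw [e1, Real.sin_pi_sub]
    simp
  · have e1 : ((2 * (2 * u) + 1 : ℕ) : ℝ) * φ = Real.pi := by
      push_cast
      linarith
    rw [e1, Real.sin_pi]
    simp

private theorem pq_eq (y : ℂ) : pq y = 2 * (y * y).re := by
  unfold pq
  rw [Complex.normSq_apply, Complex.mul_re]
  ring

private theorem pq_sub (y w : ℂ) : |pq y - pq w| ≤ 2 * (‖y - w‖ * ‖y + w‖) := by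
  have e : pq y - pq w = 2 * ((y - w) * (y + w)).re := by
    rw [pq_eq, pq_eq, ← mul_sub, ← Complex.sub_re]
    congr 2
    ring
  rw [e, abs_mul, abs_of_pos (by norm_num : (0 : ℝ) < 2), ← norm_mul]
  exact mul_le_mul_of_nonneg_left (Complex.abs_re_le_norm _) (by norm_num)

private theorem re_sq_sub (y w : ℂ) : |y.re ^ 2 - w.re ^ 2| ≤ ‖y - w‖ * ‖y + w‖ := by
  have e : y.re ^ 2 - w.re ^ 2 = (y - w).re * (y + w).re := by
    rw [Complex.sub_re, Complex.add_re]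
    ring
  rw [e, abs_mul]
  exact mul_le_mul (Complex.abs_re_le_norm _) (Complex.abs_re_le_norm _) (abs_nonneg _)
    (norm_nonneg _)

private theorem om_re (N k : ℕ) : (om N k).re = Real.cos (Real.pi * k / N) := by
  unfold om
  rw [Complex.exp_ofReal_mul_I_re]

private theorem om_im (N k : ℕ) : (om N k).im = Real.sin (Real.pi * k / N) := by
  unfold om
  rw [Complex.exp_ofReal_mul_I_im]

private theorem om_norm (N k : ℕ) : ‖om N k‖ = 1 := by
  unfold om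
  rw [Complex.norm_exp_ofReal_mul_I]

private theorem pq_om (N k : ℕ) : pq (om N k) = 2 * Real.cos (2 * (Real.pi * k / N)) := by
  rw [pq_eq, Complex.mul_re, om_re, om_im, Real.cos_two_mul']
  ring

private theorem Yk_prod (u : ℕ) (hu : 1 ≤ u) (a : ℕ → ℝ) (ha : nr (8 * u + 2) a ≤ 1 / 100) (k : ℕ) :
    ‖Yk (8 * u + 2) a k - om (8 * u + 2) k‖ * ‖Yk (8 * u + 2) a k + om (8 * u + 2) k‖ ≤
      1 / (8 * ((8 * u + 2 : ℕ) : ℝ)) := by
  have hN : (10 : ℝ) ≤ ((8 * u + 2 : ℕ) : ℝ) := by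
    have : 10 ≤ 8 * u + 2 := by omega
    exact_mod_cast this
  obtain ⟨Nr, hNr⟩ : ∃ Nr, Nr = ((8 * u + 2 : ℕ) : ℝ) := ⟨_, rfl⟩
  have h1 := Yk_close (8 * u + 2) (by omega) a ha k
  rw [← hNr] at h1 hN ⊢
  have hN0 : 0 < Nr := by linarith
  obtain ⟨d, hd⟩ : ∃ d, d = ‖Yk (8 * u + 2) a k - om (8 * u + 2) k‖ := ⟨_, rfl⟩
  have hd0 : 0 ≤ d := by rw [hd]; exact norm_nonneg _
  have h2 : ‖Yk (8 * u + 2) a k + om (8 * u + 2) k‖ ≤ d + 2 := by
    have e : Yk (8 * u + 2) a k + om (8 * u + 2) k =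
        (Yk (8 * u + 2) a k - om (8 * u + 2) k) + (2 : ℂ) * om (8 * u + 2) k := by ring
    rw [e, hd]
    refine (norm_add_le _ _).trans ?_
    rw [norm_mul, om_norm]
    simp
  rw [← hd] at h1 ⊢
  have h3 : d ≤ 6 / 100 / Nr := by
    refine h1.trans ?_
    apply div_le_div_of_nonneg_right _ hN0.le
    linarith
  have h4 : d ≤ 6 / 1000 := by
    refine h3.trans ?_
    rw [div_le_iff₀ hN0]
    linarith
  have h5 : 1 / (8 * Nr) = (1 / 8) / Nr := by field_simp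
  calc d * ‖Yk (8 * u + 2) a k + om (8 * u + 2) k‖ ≤ (6 / 100 / Nr) * (6 / 1000 + 2) :=
        mul_le_mul h3 (by linarith) (norm_nonneg _) (by positivity)
    _ ≤ 1 / (8 * Nr) := by
        rw [h5, div_mul_eq_mul_div]
        apply div_le_div_of_nonneg_right _ hN0.le
        norm_num

private theorem p2_term (P P' Q E σ e : ℝ) (hP : |P - Q| ≤ e) (hP' : |P' - Q| ≤ e)
    (h : ((σ = 1 ∨ σ = -1) ∧ E = 0) ∨ (σ = 0 ∧ (E = 1 ∨ E = -1))) :
    |((P + P') / 2 * (1 + E) + (P - P') / 2 * σ) - Q * (1 + E)| ≤ 2 * e := by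
  have he : 0 ≤ e := (abs_nonneg _).trans hP
  rw [abs_le] at hP hP' ⊢
  rcases h with ⟨rfl | rfl, rfl⟩ | ⟨rfl, rfl | rfl⟩
  · constructor <;> linarith
  · constructor <;> linarith
  · constructor <;> linarith
  · constructor <;> linarith

theorem p2_sign (u p : ℕ) (a : ℕ → ℝ) (hu : 1 ≤ u) (hp : p < 2)
    (ha : nr (8 * u + 2) a ≤ 1 / 100) (E σ : ℕ → ℝ) (hs : IsState (2 * u) E σ)
    (hor : 0 ≤ ∑ i ∈ Finset.range (2 * u), E i * dd u p i) :
    0 < (-1) ^ (p + 1) *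
      ((if p = 0 then pq (Yk (8 * u + 2) a (4 * u + 1))
        else (Yk (8 * u + 2) a 0).re ^ 2 + (Yk (8 * u + 2) a (8 * u + 2)).re ^ 2) +
      ∑ i ∈ Finset.range (2 * u),
        ((pq (Yk (8 * u + 2) a (2 * i + 1 + p)) +
          pq (Yk (8 * u + 2) a (8 * u + 2 - (2 * i + 1 + p)))) / 2 * (1 + E i) +
        (pq (Yk (8 * u + 2) a (2 * i + 1 + p)) -
          pq (Yk (8 * u + 2) a (8 * u + 2 - (2 * i + 1 + p)))) / 2 * σ i)) := by
  have hN0 : (0 : ℝ) < ((8 * u + 2 : ℕ) : ℝ) := by positivity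
  obtain ⟨e, he⟩ : ∃ e, e = 1 / (4 * ((8 * u + 2 : ℕ) : ℝ)) := ⟨_, rfl⟩
  have he0 : 0 < e := by rw [he]; positivity
  have he8 : 1 / (8 * ((8 * u + 2 : ℕ) : ℝ)) = e / 2 := by rw [he]; field_simp; norm_num
  have hpq : ∀ k, |pq (Yk (8 * u + 2) a k) - pq (om (8 * u + 2) k)| ≤ e := by
    intro k
    have h1 := pq_sub (Yk (8 * u + 2) a k) (om (8 * u + 2) k)
    have h2 := Yk_prod u hu a ha k
    rw [he8] at h2
    linarith
  have hre : ∀ k, |(Yk (8 * u + 2) a k).re ^ 2 - (om (8 * u + 2) k).re ^ 2| ≤ e / 2 := by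
    intro k
    have h1 := re_sq_sub (Yk (8 * u + 2) a k) (om (8 * u + 2) k)
    have h2 := Yk_prod u hu a ha k
    rw [he8] at h2
    linarith
  -- ideal values
  obtain ⟨Q, hQ⟩ : ∃ Q : ℕ → ℝ, ∀ i, Q i =
      2 * Real.cos (2 * (Real.pi * ((2 * i + 1 + p : ℕ) : ℝ) / ((8 * u + 2 : ℕ) : ℝ))) :=
    ⟨_, fun _ => rfl⟩
  have hterm : ∀ i ∈ Finset.range (2 * u),
      |((pq (Yk (8 * u + 2) a (2 * i + 1 + p)) +
          pq (Yk (8 * u + 2) a (8 * u + 2 - (2 * i + 1 + p)))) / 2 * (1 + E i) +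
        (pq (Yk (8 * u + 2) a (2 * i + 1 + p)) -
          pq (Yk (8 * u + 2) a (8 * u + 2 - (2 * i + 1 + p)))) / 2 * σ i) - Q i * (1 + E i)| ≤
        2 * e := by
    intro i hi
    rw [Finset.mem_range] at hi
    apply p2_term _ _ _ _ _ _ _ _ (hs.1 i (Finset.mem_range.mpr hi))
    · have h1 := hpq (2 * i + 1 + p)
      rw [pq_om, ← hQ] at h1
      exact h1
    · have h1 := hpq (8 * u + 2 - (2 * i + 1 + p))
      rw [pq_om] at h1
      have e1 : 2 * (Real.pi * ((8 * u + 2 - (2 * i + 1 + p) : ℕ) : ℝ) / ((8 * u + 2 : ℕ) : ℝ)) =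
          2 * Real.pi - 2 * (Real.pi * ((2 * i + 1 + p : ℕ) : ℝ) / ((8 * u + 2 : ℕ) : ℝ)) := by
        rw [Nat.cast_sub (by omega)]
        field_simp
      rw [e1, Real.cos_two_pi_sub, ← hQ] at h1
      exact h1
  have hsumQ : ∑ i ∈ Finset.range (2 * u), Q i = (-1) ^ p := by
    have := cos_sum u p hu hp
    simp only [← hQ] at this
    exact this
  have hsumE : ∑ i ∈ Finset.range (2 * u), Q i * E i =
      2 * (-1) ^ (p + 1) * ∑ i ∈ Finset.range (2 * u), E i * dd u p i := by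
    rw [Finset.mul_sum]
    apply Finset.sum_congr rfl
    intro i _
    rw [hQ]
    unfold dd
    have : ((-1 : ℝ) ^ (p + 1)) * (-1) ^ (p + 1) = 1 := by
      rw [← mul_pow]; norm_num
    linear_combination (-(2 * E i * Real.cos (2 * (Real.pi * ((2 * i + 1 + p : ℕ) : ℝ) / ((8 * u + 2 : ℕ) : ℝ))))) * this
  have hT : ∑ i ∈ Finset.range (2 * u), Q i * (1 + E i) = (-1) ^ p +
      2 * (-1) ^ (p + 1) * ∑ i ∈ Finset.range (2 * u), E i * dd u p i := by
    rw [← hsumE, ← hsumQ, ← Finset.sum_add_distrib]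
    apply Finset.sum_congr rfl
    intro i _
    ring
  obtain ⟨S, hS⟩ : ∃ S, S = ∑ i ∈ Finset.range (2 * u),
        ((pq (Yk (8 * u + 2) a (2 * i + 1 + p)) +
          pq (Yk (8 * u + 2) a (8 * u + 2 - (2 * i + 1 + p)))) / 2 * (1 + E i) +
        (pq (Yk (8 * u + 2) a (2 * i + 1 + p)) -
          pq (Yk (8 * u + 2) a (8 * u + 2 - (2 * i + 1 + p)))) / 2 * σ i) := ⟨_, rfl⟩
  have hdiff : |S - ((-1) ^ p +
      2 * (-1) ^ (p + 1) * ∑ i ∈ Finset.range (2 * u), E i * dd u p i)| ≤ 2 * u * (2 * e) := by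
    rw [hS, ← hT, ← Finset.sum_sub_distrib]
    refine (Finset.abs_sum_le_sum_abs _ _).trans ?_
    refine (Finset.sum_le_sum hterm).trans ?_
    rw [Finset.sum_const, Finset.card_range, nsmul_eq_mul]
    push_cast
    exact le_rfl
  rw [← hS]
  have hfin : e + 2 * u * (2 * e) = 1 / 8 := by
    rw [he]
    push_cast
    field_simp
    ring
  obtain ⟨Z, hZ⟩ : ∃ Z, Z = ∑ i ∈ Finset.range (2 * u), E i * dd u p i := ⟨_, rfl⟩
  rw [← hZ] at hdiff hor
  have hA : |(if p = 0 then pq (Yk (8 * u + 2) a (4 * u + 1))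
        else (Yk (8 * u + 2) a 0).re ^ 2 + (Yk (8 * u + 2) a (8 * u + 2)).re ^ 2) -
        2 * (-1) ^ (p + 1)| ≤ e := by
    interval_cases p
    · rw [if_pos rfl]
      have h1 := hpq (4 * u + 1)
      rw [pq_om] at h1
      have e1 : 2 * (Real.pi * ((4 * u + 1 : ℕ) : ℝ) / ((8 * u + 2 : ℕ) : ℝ)) = Real.pi := by
        push_cast
        field_simp
        ring
      rw [e1, Real.cos_pi] at h1
      simpa using h1
    · rw [if_neg one_ne_zero]
      have h1 := hre 0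
      have h2 := hre (8 * u + 2)
      rw [om_re] at h1 h2
      have e1 : Real.pi * ((0 : ℕ) : ℝ) / ((8 * u + 2 : ℕ) : ℝ) = 0 := by simp
      have e2 : Real.pi * ((8 * u + 2 : ℕ) : ℝ) / ((8 * u + 2 : ℕ) : ℝ) = Real.pi := by
        field_simp
      rw [e1, Real.cos_zero] at h1
      rw [e2, Real.cos_pi] at h2
      rw [abs_le] at h1 h2 ⊢
      norm_num at h1 h2 ⊢
      constructor <;> linarith
  obtain ⟨A, hAd⟩ : ∃ A, A = (if p = 0 then pq (Yk (8 * u + 2) a (4 * u + 1))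
        else (Yk (8 * u + 2) a 0).re ^ 2 + (Yk (8 * u + 2) a (8 * u + 2)).re ^ 2) := ⟨_, rfl⟩
  rw [← hAd] at hA ⊢
  rw [abs_le] at hA hdiff
  interval_cases p
  · norm_num at hA hdiff ⊢
    linarith
  · norm_num at hA hdiff ⊢
    linarith


end Pool.Agent.Helper754.TwoN
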