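import Pool.Agent.Helper754.TwoN.Defs

set_option autoImplicit false
set_option maxHeartbeats 4000000


namespace Pool.Agent.Helper754.TwoN

open Finset Polynomial


private theorem prod_state_coeff_two (f g : Polynomial ℝ) :
    (f * g).coeff 2 = f.coeff 0 * g.coeff 2 + f.coeff 1 * g.coeff 1 + f.coeff 2 * g.coeff 0 := by
  rw [Polynomial.coeff_mul, show Finset.HasAntidiagonal.antidiagonal (2 : ℕ) =
    {((0 : ℕ), (2 : ℕ)), (1, 1), (2, 0)} from rfl]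
  rw [Finset.sum_insert (by decide), Finset.sum_insert (by decide), Finset.sum_singleton]
  ring

private theorem prod_state_step (P M : Polynomial ℝ)
    (hP : P.coeff 0 = 1 ∧ P.natDegree = 2 ∧ 0 < P.leadingCoeff)
    (hM : M.coeff 0 = 1 ∧ M.natDegree = 2 ∧ 0 < M.leadingCoeff)
    (E σ : ℝ) (hs : ((σ = 1 ∨ σ = -1) ∧ E = 0) ∨ (σ = 0 ∧ (E = 1 ∨ E = -1))) :
    ∃ U V : Polynomial ℝ, U * V = P * M ∧ U.coeff 0 = 1 ∧ V.coeff 0 = 1 ∧
      (U.natDegree : ℝ) = 2 + 2 * E ∧ (V.natDegree : ℝ) = 2 - 2 * E ∧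
      0 < U.leadingCoeff ∧ 0 < V.leadingCoeff ∧
      U.coeff 1 = (P.coeff 1 + M.coeff 1) / 2 * (1 + E) + (P.coeff 1 - M.coeff 1) / 2 * σ ∧
      U.coeff 1 ^ 2 - 2 * U.coeff 2 =
        (((P.coeff 1 ^ 2 - 2 * P.coeff 2) + (M.coeff 1 ^ 2 - 2 * M.coeff 2)) / 2 * (1 + E) +
        ((P.coeff 1 ^ 2 - 2 * P.coeff 2) - (M.coeff 1 ^ 2 - 2 * M.coeff 2)) / 2 * σ) := by
  obtain ⟨hP0, hPd, hPl⟩ := hP
  obtain ⟨hM0, hMd, hMl⟩ := hM
  have hPne : P ≠ 0 := by rintro rfl; simp at hP0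
  have hMne : M ≠ 0 := by rintro rfl; simp at hM0
  have hc0 : (P * M).coeff 0 = 1 := by rw [Polynomial.mul_coeff_zero, hP0, hM0, mul_one]
  have hc1 : (P * M).coeff 1 = P.coeff 1 + M.coeff 1 := by
    rw [Polynomial.mul_coeff_one, hP0, hM0]; ring
  have hc2 : (P * M).coeff 2 = M.coeff 2 + P.coeff 1 * M.coeff 1 + P.coeff 2 := by
    rw [prod_state_coeff_two, hP0, hM0]; ring
  have hd : (P * M).natDegree = 4 := by rw [Polynomial.natDegree_mul hPne hMne, hPd, hMd]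
  have hl : 0 < (P * M).leadingCoeff := by
    rw [Polynomial.leadingCoeff_mul]; exact mul_pos hPl hMl
  have h10 : (1 : Polynomial ℝ).coeff 1 = 0 := by simp [Polynomial.coeff_one]
  have h20 : (1 : Polynomial ℝ).coeff 2 = 0 := by simp [Polynomial.coeff_one]
  rcases hs with ⟨hσ | hσ, hE⟩ | ⟨hσ, hE | hE⟩ <;> subst hσ <;> subst hE
  · refine ⟨P, M, rfl, hP0, hM0, ?_, ?_, hPl, hMl, ?_, ?_⟩
    · rw [hPd]; norm_num
    · rw [hMd]; norm_num
    · ring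
    · ring
  · refine ⟨M, P, mul_comm _ _, hM0, hP0, ?_, ?_, hMl, hPl, ?_, ?_⟩
    · rw [hMd]; norm_num
    · rw [hPd]; norm_num
    · ring
    · ring
  · refine ⟨P * M, 1, mul_one _, hc0, by simp, ?_, ?_, hl, by simp, ?_, ?_⟩
    · rw [hd]; norm_num
    · simp
    · rw [hc1]; ring
    · rw [hc1, hc2]; ring
  · refine ⟨1, P * M, one_mul _, by simp, hc0, ?_, ?_, by simp, hl, ?_, ?_⟩
    · simp
    · rw [hd]; norm_num
    · rw [h10]; ring
    · rw [h10, h20]; ring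

private theorem prod_state_aux (P M : ℕ → Polynomial ℝ)
    (hP : ∀ i, (P i).coeff 0 = 1 ∧ (P i).natDegree = 2 ∧ 0 < (P i).leadingCoeff)
    (hM : ∀ i, (M i).coeff 0 = 1 ∧ (M i).natDegree = 2 ∧ 0 < (M i).leadingCoeff)
    (E σ : ℕ → ℝ) (n : ℕ)
    (hs : ∀ i ∈ Finset.range n,
      ((σ i = 1 ∨ σ i = -1) ∧ E i = 0) ∨ (σ i = 0 ∧ (E i = 1 ∨ E i = -1))) :
    ∃ F Z : Polynomial ℝ, F * Z = ∏ i ∈ Finset.range n, (P i * M i) ∧
      F.coeff 0 = 1 ∧ Z.coeff 0 = 1 ∧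
      (F.natDegree : ℝ) = 2 * n + 2 * ∑ i ∈ Finset.range n, E i ∧
      (Z.natDegree : ℝ) = 2 * n - 2 * ∑ i ∈ Finset.range n, E i ∧
      0 < F.leadingCoeff ∧ 0 < Z.leadingCoeff ∧
      F.coeff 1 = ∑ i ∈ Finset.range n, (((P i).coeff 1 + (M i).coeff 1) / 2 * (1 + E i) +
        ((P i).coeff 1 - (M i).coeff 1) / 2 * σ i) ∧
      F.coeff 1 ^ 2 - 2 * F.coeff 2 = ∑ i ∈ Finset.range n,
        ((((P i).coeff 1 ^ 2 - 2 * (P i).coeff 2) + ((M i).coeff 1 ^ 2 - 2 * (M i).coeff 2)) / 2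
          * (1 + E i) +
        (((P i).coeff 1 ^ 2 - 2 * (P i).coeff 2) - ((M i).coeff 1 ^ 2 - 2 * (M i).coeff 2)) / 2
          * σ i) := by
  induction n with
  | zero =>
    refine ⟨1, 1, by simp, by simp, by simp, by simp, by simp, by simp, by simp, ?_, ?_⟩
    · simp [Polynomial.coeff_one]
    · simp [Polynomial.coeff_one]
  | succ n ih =>
    obtain ⟨F, Z, hFZ, hF0, hZ0, hFd, hZd, hFl, hZl, hF1, hF2⟩ :=
      ih (fun i hi => hs i (Finset.mem_range.mpr (by have := Finset.mem_range.mp hi; omega)))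
    obtain ⟨U, V, hUV, hU0, hV0, hUd, hVd, hUl, hVl, hU1, hU2⟩ :=
      prod_state_step (P n) (M n) (hP n) (hM n) (E n) (σ n) (hs n (Finset.self_mem_range_succ n))
    have hFne : F ≠ 0 := by rintro rfl; simp at hF0
    have hZne : Z ≠ 0 := by rintro rfl; simp at hZ0
    have hUne : U ≠ 0 := by rintro rfl; simp at hU0
    have hVne : V ≠ 0 := by rintro rfl; simp at hV0
    refine ⟨F * U, Z * V, ?_, ?_, ?_, ?_, ?_, ?_, ?_, ?_, ?_⟩
    · rw [Finset.prod_range_succ, ← hFZ, ← hUV]; ring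
    · rw [Polynomial.mul_coeff_zero, hF0, hU0, mul_one]
    · rw [Polynomial.mul_coeff_zero, hZ0, hV0, mul_one]
    · rw [Polynomial.natDegree_mul hFne hUne, Finset.sum_range_succ]
      push_cast
      rw [hFd, hUd]; ring
    · rw [Polynomial.natDegree_mul hZne hVne, Finset.sum_range_succ]
      push_cast
      rw [hZd, hVd]; ring
    · rw [Polynomial.leadingCoeff_mul]; exact mul_pos hFl hUl
    · rw [Polynomial.leadingCoeff_mul]; exact mul_pos hZl hVl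
    · rw [Finset.sum_range_succ, ← hF1, ← hU1, Polynomial.mul_coeff_one, hF0, hU0]; ring
    · rw [Finset.sum_range_succ, ← hF2, ← hU2, Polynomial.mul_coeff_one, prod_state_coeff_two,
        hF0, hU0]; ring

theorem prod_state (n : ℕ) (P M : ℕ → Polynomial ℝ)
    (hP : ∀ i, (P i).coeff 0 = 1 ∧ (P i).natDegree = 2 ∧ 0 < (P i).leadingCoeff)
    (hM : ∀ i, (M i).coeff 0 = 1 ∧ (M i).natDegree = 2 ∧ 0 < (M i).leadingCoeff)
    (E σ : ℕ → ℝ) (hs : IsState n E σ) :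
    ∃ F Z : Polynomial ℝ, F * Z = ∏ i ∈ Finset.range n, (P i * M i) ∧
      F.coeff 0 = 1 ∧ Z.coeff 0 = 1 ∧ F.natDegree = 2 * n ∧ Z.natDegree = 2 * n ∧
      0 < F.leadingCoeff ∧ 0 < Z.leadingCoeff ∧
      F.coeff 1 = ∑ i ∈ Finset.range n, (((P i).coeff 1 + (M i).coeff 1) / 2 * (1 + E i) +
        ((P i).coeff 1 - (M i).coeff 1) / 2 * σ i) ∧
      F.coeff 1 ^ 2 - 2 * F.coeff 2 = ∑ i ∈ Finset.range n,
        ((((P i).coeff 1 ^ 2 - 2 * (P i).coeff 2) + ((M i).coeff 1 ^ 2 - 2 * (M i).coeff 2)) / 2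
          * (1 + E i) +
        (((P i).coeff 1 ^ 2 - 2 * (P i).coeff 2) - ((M i).coeff 1 ^ 2 - 2 * (M i).coeff 2)) / 2
          * σ i) := by
  obtain ⟨F, Z, hFZ, hF0, hZ0, hFd, hZd, hFl, hZl, hF1, hF2⟩ :=
    prod_state_aux P M hP hM E σ n hs.1
  refine ⟨F, Z, hFZ, hF0, hZ0, ?_, ?_, hFl, hZl, hF1, hF2⟩
  · rw [hs.2] at hFd
    have : (F.natDegree : ℝ) = ((2 * n : ℕ) : ℝ) := by rw [hFd]; push_cast; ring
    exact_mod_cast this
  · rw [hs.2] at hZd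
    have : (Z.natDegree : ℝ) = ((2 * n : ℕ) : ℝ) := by rw [hZd]; push_cast; ring
    exact_mod_cast this


end Pool.Agent.Helper754.TwoN
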