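import Pool.Agent.Helper754.TwoN.Defs
import Pool.Agent.Helper754.TwoN.J_Gp_factor
import Pool.Agent.Helper754.TwoN.J_prod_state
import Pool.Agent.Helper754.TwoN.J_p2_sign

set_option autoImplicit false
set_option maxHeartbeats 4000000


namespace Pool.Agent.Helper754.TwoN

open Finset Polynomial


private theorem qr_coeff0 (y : ℂ) : (qr y).coeff 0 = 1 := by
  unfold qr
  simp [coeff_X, coeff_X_pow, coeff_one]

private theorem qr_coeff1 (y : ℂ) : (qr y).coeff 1 = -2 * y.re := by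
  unfold qr
  simp [coeff_X, coeff_X_pow, coeff_one]

private theorem qr_coeff2 (y : ℂ) : (qr y).coeff 2 = Complex.normSq y := by
  unfold qr
  simp [coeff_X, coeff_X_pow, coeff_one]

private theorem qr_natDegree_le (y : ℂ) : (qr y).natDegree ≤ 2 := by
  unfold qr
  compute_degree

private theorem qr_natDegree {y : ℂ} (hy : y ≠ 0) : (qr y).natDegree = 2 := by
  refine le_antisymm (qr_natDegree_le y) ?_
  apply le_natDegree_of_ne_zero
  rw [qr_coeff2]
  exact (Complex.normSq_pos.2 hy).ne'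

private theorem qr_lc {y : ℂ} (hy : y ≠ 0) : 0 < (qr y).leadingCoeff := by
  unfold leadingCoeff
  rw [qr_natDegree hy, qr_coeff2]
  exact Complex.normSq_pos.2 hy

private theorem Yk_ne (N : ℕ) (a : ℕ → ℝ) (k : ℕ) : Yk N a k ≠ 0 := by
  unfold Yk om
  exact mul_ne_zero (Complex.exp_ne_zero _) (Complex.exp_ne_zero _)

private theorem exq_coeff0 (u p : ℕ) (a : ℕ → ℝ) : (exq u p a).coeff 0 = 1 := by
  unfold exq
  split_ifs
  · exact qr_coeff0 _
  · rw [mul_coeff_zero]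
    simp

private theorem exq_coeff1 (u p : ℕ) (a : ℕ → ℝ) : (exq u p a).coeff 1 = -2 * ee u p a := by
  unfold exq ee
  split_ifs
  · exact qr_coeff1 _
  · rw [mul_coeff_one]
    simp [coeff_X, coeff_one]
    ring

private theorem exq_pw (u p : ℕ) (a : ℕ → ℝ) : (exq u p a).coeff 1 ^ 2 - 2 * (exq u p a).coeff 2 =
    (if p = 0 then pq (Yk (8 * u + 2) a (4 * u + 1))
        else (Yk (8 * u + 2) a 0).re ^ 2 + (Yk (8 * u + 2) a (8 * u + 2)).re ^ 2) := by
  unfold exq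
  split_ifs
  · rw [qr_coeff1, qr_coeff2]
    unfold pq
    ring
  · set b := (Yk (8 * u + 2) a 0).re
    set c := (Yk (8 * u + 2) a (8 * u + 2)).re
    have h : (1 - C b * X) * (1 - C c * X) = (1 : ℝ[X]) - C (b + c) * X + C (b * c) * X ^ 2 := by
      rw [C_add, C_mul]
      ring
    rw [h]
    have c1 : ((1 : ℝ[X]) - C (b + c) * X + C (b * c) * X ^ 2).coeff 1 = -(b + c) := by
      rw [coeff_add, coeff_sub, coeff_C_mul, coeff_C_mul, coeff_one, coeff_X_one, coeff_X_pow]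
      norm_num
    have c2 : ((1 : ℝ[X]) - C (b + c) * X + C (b * c) * X ^ 2).coeff 2 = b * c := by
      rw [coeff_add, coeff_sub, coeff_C_mul, coeff_C_mul, coeff_one, coeff_X, coeff_X_pow]
      norm_num
    rw [c1, c2]
    ring

private theorem mul_coeff_two' (f g : ℝ[X]) : (f * g).coeff 2 =
    f.coeff 0 * g.coeff 2 + f.coeff 1 * g.coeff 1 + f.coeff 2 * g.coeff 0 := by
  rw [coeff_mul, Finset.Nat.antidiagonal_succ]
  simp [Finset.Nat.antidiagonal_succ]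
  ring

private theorem G_coeff (u p : ℕ) (a : ℕ → ℝ) :
    (1 + C ((-1) ^ p) * X ^ (8 * u + 2) +
      C ((-1) ^ p) * ∑ m ∈ Finset.Ico 1 (8 * u + 2), C (a m) * X ^ (8 * u + 2 - m) : ℝ[X]).coeff
        (8 * u + 2) = (-1) ^ p := by
  rw [coeff_add, coeff_add, coeff_one, if_neg (by omega), coeff_C_mul, coeff_X_pow_self,
    coeff_C_mul, finset_sum_coeff]
  have : ∑ m ∈ Finset.Ico 1 (8 * u + 2), (C (a m) * X ^ (8 * u + 2 - m) : ℝ[X]).coeff (8 * u + 2)
      = 0 := by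
    apply Finset.sum_eq_zero
    intro m hm
    rw [Finset.mem_Ico] at hm
    rw [coeff_C_mul, coeff_X_pow, if_neg (by omega), mul_zero]
  rw [this]
  ring

private theorem G_natDegree (u p : ℕ) (a : ℕ → ℝ) :
    (1 + C ((-1) ^ p) * X ^ (8 * u + 2) +
      C ((-1) ^ p) * ∑ m ∈ Finset.Ico 1 (8 * u + 2), C (a m) * X ^ (8 * u + 2 - m) :
        ℝ[X]).natDegree = 8 * u + 2 := by
  refine le_antisymm ?_ ?_
  · refine (natDegree_add_le _ _).trans (max_le ((natDegree_add_le _ _).trans (max_le ?_ ?_)) ?_)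
    · simp
    · exact (natDegree_C_mul_X_pow_le _ _)
    · refine (natDegree_C_mul_le _ _).trans ?_
      apply natDegree_sum_le_of_forall_le
      intro m hm
      exact (natDegree_C_mul_X_pow_le _ _).trans (by omega)
  · apply le_natDegree_of_ne_zero
    rw [G_coeff]
    positivity

theorem state_to_poly (u p : ℕ) (a : ℕ → ℝ) (hu : 1 ≤ u) (hp : p < 2)
    (ha : nr (8 * u + 2) a ≤ 1 / 100) (E σ : ℕ → ℝ) (hs : IsState (2 * u) E σ)
    (hor : 0 ≤ ∑ i ∈ Finset.range (2 * u), E i * dd u p i)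
    (h0 : cc u p a + ∑ i ∈ Finset.range (2 * u), E i * vv u p a i +
      ∑ i ∈ Finset.range (2 * u), σ i * zz u p a i = 0) :
    HasFZ u (X ^ (8 * u + 2) + ∑ m ∈ Finset.Ico 1 (8 * u + 2), C (a m) * X ^ (8 * u + 2 - m) +
      C ((-1) ^ p)) := by
  obtain ⟨F1, Z1, hFZ, hF0, hZ0, hFd, hZd, hFl, hZl, hF1, hFp⟩ := prod_state (2 * u)
    (fun i => qr (Yk (8 * u + 2) a (2 * i + 1 + p)))
    (fun i => qr (Yk (8 * u + 2) a (8 * u + 2 - (2 * i + 1 + p))))
    (fun i => ⟨qr_coeff0 _, qr_natDegree (Yk_ne _ _ _), qr_lc (Yk_ne _ _ _)⟩)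
    (fun i => ⟨qr_coeff0 _, qr_natDegree (Yk_ne _ _ _), qr_lc (Yk_ne _ _ _)⟩) E σ hs
  have hG := Gp_factor u p a hu hp ha
  rw [← hFZ, ← mul_assoc] at hG
  set F0 := exq u p a * F1 with hF0def
  have hlG := G_coeff u p a
  have hdG := G_natDegree u p a
  have hne : F0 * Z1 ≠ 0 := by
    intro h0
    rw [hG, h0, coeff_zero] at hlG
    have : ((-1:ℝ)) ^ p ≠ 0 := by positivity
    exact this hlG.symm
  have hF0ne : F0 ≠ 0 := left_ne_zero_of_mul hne
  have hZ1ne : Z1 ≠ 0 := right_ne_zero_of_mul hne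
  have hdF : F0.natDegree = 4 * u + 2 := by
    have h1 := natDegree_mul hF0ne hZ1ne
    rw [← hG, hdG, hZd] at h1
    omega
  have hlc : F0.leadingCoeff * Z1.leadingCoeff = (-1) ^ p := by
    rw [← leadingCoeff_mul, ← hG, leadingCoeff, hdG, hlG]
  have hc0 : F0.coeff 0 = 1 := by
    rw [hF0def, mul_coeff_zero, exq_coeff0, hF0, one_mul]
  have hc1 : F0.coeff 1 = 0 := by
    rw [hF0def, mul_coeff_one, exq_coeff0, exq_coeff1, hF0, hF1]
    have h1 : ∑ i ∈ Finset.range (2 * u),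
        (((qr (Yk (8 * u + 2) a (2 * i + 1 + p))).coeff 1 +
          (qr (Yk (8 * u + 2) a (8 * u + 2 - (2 * i + 1 + p)))).coeff 1) / 2 * (1 + E i) +
        ((qr (Yk (8 * u + 2) a (2 * i + 1 + p))).coeff 1 -
          (qr (Yk (8 * u + 2) a (8 * u + 2 - (2 * i + 1 + p)))).coeff 1) / 2 * σ i) =
        -2 * (∑ i ∈ Finset.range (2 * u), vv u p a i + ∑ i ∈ Finset.range (2 * u), E i * vv u p a i
          + ∑ i ∈ Finset.range (2 * u), σ i * zz u p a i) := by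
      rw [← Finset.sum_add_distrib, ← Finset.sum_add_distrib, Finset.mul_sum]
      refine Finset.sum_congr rfl fun i _ => ?_
      rw [qr_coeff1, qr_coeff1]
      unfold vv zz yp ym
      ring
    beta_reduce
    rw [h1]
    unfold cc at h0
    linarith
  have hpw : F0.coeff 1 ^ 2 - 2 * F0.coeff 2 =
      ((exq u p a).coeff 1 ^ 2 - 2 * (exq u p a).coeff 2) +
      (F1.coeff 1 ^ 2 - 2 * F1.coeff 2) := by
    rw [hF0def, mul_coeff_one, mul_coeff_two', exq_coeff0, hF0]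
    ring
  have hsg := p2_sign u p a hu hp ha E σ hs hor
  have hsum : F1.coeff 1 ^ 2 - 2 * F1.coeff 2 = ∑ i ∈ Finset.range (2 * u),
        ((pq (Yk (8 * u + 2) a (2 * i + 1 + p)) +
          pq (Yk (8 * u + 2) a (8 * u + 2 - (2 * i + 1 + p)))) / 2 * (1 + E i) +
        (pq (Yk (8 * u + 2) a (2 * i + 1 + p)) -
          pq (Yk (8 * u + 2) a (8 * u + 2 - (2 * i + 1 + p)))) / 2 * σ i) := by
    rw [hFp]
    refine Finset.sum_congr rfl fun i _ => ?_
    beta_reduce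
    rw [qr_coeff1, qr_coeff1, qr_coeff2, qr_coeff2]
    unfold pq
    ring
  rw [← hsum, ← exq_pw, ← hpw, hc1] at hsg
  have hc2 : 0 < (-1) ^ p * F0.coeff 2 := by
    rw [pow_succ] at hsg
    linarith
  have hpm : ((-1:ℝ)) ^ p * (-1) ^ p = 1 := by
    rw [← mul_pow]
    norm_num
  have hlF : 0 < (-1) ^ p * F0.leadingCoeff := by
    have h1 : (-1:ℝ) ^ p * F0.leadingCoeff * Z1.leadingCoeff = 1 := by
      rw [mul_assoc, hlc, hpm]
    exact pos_of_mul_pos_left (by rw [h1]; norm_num) hZl.le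
  have hlF0 : F0.leadingCoeff ≠ 0 := leadingCoeff_ne_zero.2 hF0ne
  have hlZ0 : Z1.leadingCoeff ≠ 0 := leadingCoeff_ne_zero.2 hZ1ne
  refine ⟨C (F0.leadingCoeff)⁻¹ * F0, C (Z1.leadingCoeff)⁻¹ * Z1, ?_, ?_, ?_, ?_, ?_, ?_, ?_,
    ?_, ?_⟩
  · exact monic_C_mul_of_mul_leadingCoeff_eq_one (inv_mul_cancel₀ hlF0)
  · exact monic_C_mul_of_mul_leadingCoeff_eq_one (inv_mul_cancel₀ hlZ0)
  · rw [natDegree_C_mul (inv_ne_zero hlF0), hdF]
  · rw [natDegree_C_mul (inv_ne_zero hlZ0), hZd]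
    ring
  · have h1 : C (F0.leadingCoeff)⁻¹ * F0 * (C (Z1.leadingCoeff)⁻¹ * Z1) =
        C ((-1) ^ p) * (F0 * Z1) := by
      have h2 : (C (F0.leadingCoeff)⁻¹ * C (Z1.leadingCoeff)⁻¹ : ℝ[X]) = C ((-1) ^ p) := by
        rw [← C_mul, ← mul_inv, hlc]
        congr 1
        exact (eq_inv_of_mul_eq_one_left hpm).symm
      rw [← h2]
      ring
    rw [h1, ← hG]
    have h3 : (C ((-1:ℝ) ^ p) * C ((-1) ^ p) : ℝ[X]) = 1 := by
      rw [← C_mul, hpm, C_1]
    calc C ((-1:ℝ) ^ p) * (1 + C ((-1) ^ p) * X ^ (8 * u + 2) +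
      C ((-1) ^ p) * ∑ m ∈ Finset.Ico 1 (8 * u + 2), C (a m) * X ^ (8 * u + 2 - m))
        = C ((-1:ℝ) ^ p) + (C ((-1:ℝ) ^ p) * C ((-1) ^ p)) * X ^ (8 * u + 2) +
        (C ((-1:ℝ) ^ p) * C ((-1) ^ p)) *
          ∑ m ∈ Finset.Ico 1 (8 * u + 2), C (a m) * X ^ (8 * u + 2 - m) := by ring
      _ = _ := by rw [h3, one_mul, one_mul]; ring
  · rw [coeff_C_mul, hc1, mul_zero]
  · rw [coeff_C_mul, hc0, mul_one]
    exact inv_ne_zero hlF0
  · rw [coeff_C_mul]
    have h1 : 0 < ((-1) ^ p * F0.leadingCoeff)⁻¹ * ((-1) ^ p * F0.coeff 2) :=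
      mul_pos (inv_pos.2 hlF) hc2
    have h2 : ((-1) ^ p * F0.leadingCoeff)⁻¹ * ((-1) ^ p * F0.coeff 2) =
        F0.leadingCoeff⁻¹ * F0.coeff 2 := by
      have h3 : ((-1:ℝ)) ^ p ≠ 0 := by positivity
      field_simp
    rw [← h2]
    exact h1
  · rw [coeff_C_mul, hZ0, mul_one]
    exact inv_pos.2 hZl


end Pool.Agent.Helper754.TwoN
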