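import Pool.Agent.Helper754.TwoN.Defs
import Pool.Agent.Helper754.TwoN.J_state_to_poly
import Pool.Agent.Helper754.TwoN.J_hasFZ_scale

set_option autoImplicit false
set_option maxHeartbeats 4000000


namespace Pool.Agent.Helper754.TwoN

open Finset Polynomial


private theorem nr_zero (N : ℕ) : nr N (fun _ => 0) = 0 := by
  unfold nr; simp

private theorem sr_zero (N : ℕ) (hN : 1 ≤ N) (w : ℂ) : sr N (fun _ => 0) w = 0 := by
  have hex : ∃ s, IsS N (fun _ => 0) w s := ⟨0, by simp [IsS, Qf]⟩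
  unfold sr
  rw [dif_pos hex]
  obtain ⟨h1, h2⟩ := hex.choose_spec
  set s := hex.choose
  have hQ : Qf N (fun _ => 0) (w * Complex.exp s) = 0 := by simp [Qf]
  rw [hQ, add_zero, Complex.exp_eq_one_iff] at h2
  obtain ⟨n, hn⟩ := h2
  have hNpos : (0:ℝ) < N := by exact_mod_cast hN
  have h3 : ‖(N : ℂ) * s‖ ≤ 1 := by
    rw [norm_mul, Complex.norm_natCast]
    calc (N:ℝ) * ‖s‖ ≤ N * (1 / N) := by gcongr
      _ = 1 := by field_simp
  have h4 : n = 0 := by
    by_contra hne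
    have h5 : (1:ℝ) ≤ |(n:ℝ)| := by exact_mod_cast Int.one_le_abs hne
    rw [hn] at h3
    simp only [norm_mul, Complex.norm_intCast, Complex.norm_ofNat, Complex.norm_real,
      Complex.norm_I, mul_one, Real.norm_eq_abs, abs_of_pos Real.pi_pos] at h3
    have := Real.pi_gt_three
    nlinarith
  rw [h4] at hn
  simp at hn
  rcases hn with h | h
  · omega
  · exact h

private theorem Yk_zero' (N : ℕ) (hN : 1 ≤ N) (k : ℕ) : Yk N (fun _ => 0) k = om N k := by
  unfold Yk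
  rw [sr_zero N hN]; simp

private theorem om_re (N k : ℕ) : (om N k).re = Real.cos (Real.pi * k / N) := by
  unfold om
  rw [Complex.exp_ofReal_mul_I_re]

private theorem vv_zero (u i : ℕ) (hi : i < 2 * u) : vv u 0 (fun _ => 0) i = 0 := by
  unfold vv yp ym
  rw [Yk_zero' _ (by omega), Yk_zero' _ (by omega), om_re, om_re]
  have hle : 2 * i + 1 + 0 ≤ 8 * u + 2 := by omega
  have h1 : Real.pi * ((8 * u + 2 - (2 * i + 1 + 0) : ℕ) : ℝ) / ((8 * u + 2 : ℕ) : ℝ) =
      Real.pi - Real.pi * ((2 * i + 1 + 0 : ℕ) : ℝ) / ((8 * u + 2 : ℕ) : ℝ) := by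
    rw [Nat.cast_sub hle]
    have : ((8 * u + 2 : ℕ) : ℝ) ≠ 0 := by positivity
    field_simp
  rw [h1, Real.cos_pi_sub]
  simp

private theorem cc_zero (u : ℕ) : cc u 0 (fun _ => 0) = 0 := by
  unfold cc
  rw [Finset.sum_eq_zero (fun i hi => vv_zero u i (Finset.mem_range.1 hi)), add_zero]
  unfold ee
  rw [if_pos rfl, Yk_zero' _ (by omega), om_re]
  have : Real.pi * ((4 * u + 1 : ℕ) : ℝ) / ((8 * u + 2 : ℕ) : ℝ) = Real.pi / 2 := by
    push_cast
    have : (8 * (u:ℝ) + 2) ≠ 0 := by positivity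
    field_simp
    ring
  rw [this, Real.cos_pi_div_two]

private theorem base_FZ (u : ℕ) (hu : 1 ≤ u) : HasFZ u (X ^ (8 * u + 2) + C 1) := by
  have hsum0 : ∑ i ∈ Finset.range (2 * u), (if i < u then (1:ℝ) else -1) = 0 := by
    rw [two_mul, Finset.sum_range_add]
    rw [Finset.sum_congr rfl (fun i hi => if_pos (Finset.mem_range.1 hi))]
    have : ∑ x ∈ range u, (if u + x < u then (1:ℝ) else -1) = ∑ x ∈ range u, (-1:ℝ) := by
      apply Finset.sum_congr rfl
      intro x _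
      rw [if_neg (by omega)]
    rw [this]
    simp
  obtain ⟨s, hs, hor⟩ : ∃ s : ℝ, (s = 1 ∨ s = -1) ∧
      0 ≤ ∑ i ∈ Finset.range (2 * u), (s * (if i < u then (1:ℝ) else -1)) * dd u 0 i := by
    rcases le_total 0 (∑ i ∈ Finset.range (2 * u), (if i < u then (1:ℝ) else -1) * dd u 0 i) with h | h
    · exact ⟨1, Or.inl rfl, by simpa using h⟩
    · refine ⟨-1, Or.inr rfl, ?_⟩
      have : ∑ i ∈ Finset.range (2 * u), ((-1) * (if i < u then (1:ℝ) else -1)) * dd u 0 i =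
          - ∑ i ∈ Finset.range (2 * u), (if i < u then (1:ℝ) else -1) * dd u 0 i := by
        rw [← Finset.sum_neg_distrib]
        apply Finset.sum_congr rfl
        intro i _; ring
      rw [this]; linarith
  have h := state_to_poly u 0 (fun _ => 0) hu (by norm_num) (by rw [nr_zero]; norm_num)
    (fun i => s * (if i < u then (1:ℝ) else -1)) (fun _ => 0) ?_ hor ?_
  · have h2 : ∑ m ∈ Finset.Ico 1 (8 * u + 2), C (0:ℝ) * X ^ (8 * u + 2 - m) = (0 : Polynomial ℝ) := by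
      simp
    rw [h2, add_zero, pow_zero] at h
    exact h
  · constructor
    · intro i _
      right
      refine ⟨rfl, ?_⟩
      rcases hs with rfl | rfl <;> by_cases hi : i < u <;> simp [hi]
    · rw [← Finset.mul_sum, hsum0, mul_zero]
  · rw [cc_zero]
    rw [Finset.sum_eq_zero (fun i hi => by rw [vv_zero u i (Finset.mem_range.1 hi), mul_zero])]
    simp

private theorem scaled_FZ (u : ℕ) (hu : 1 ≤ u) (ρ : ℝ) (hρ : 0 < ρ) :
    HasFZ u (X ^ (8 * u + 2) + C ((ρ ^ (8 * u + 2))⁻¹)) := by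
  have h := hasFZ_scale u _ ρ hρ (base_FZ u hu)
  have h2 : C ((ρ ^ (8 * u + 2))⁻¹) * ((X ^ (8 * u + 2) + C 1 : Polynomial ℝ).comp (C ρ * X)) =
      X ^ (8 * u + 2) + C ((ρ ^ (8 * u + 2))⁻¹) := by
    rw [add_comp, X_pow_comp, C_comp, mul_pow, mul_add, ← mul_assoc, ← C_pow, ← C_mul,
      inv_mul_cancel₀ (by positivity)]
    simp
  rw [h2] at h
  exact h

theorem at_zero (u : ℕ) (hu : 1 ≤ u) (κ₀ : ℝ) :
    ∃ k : ℝ, k ≠ 0 ∧ HasFZ u (X ^ (8 * u + 2) + C κ₀ + C k) := by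
  by_cases hκ : κ₀ = 1
  · refine ⟨((2:ℝ) ^ (8 * u + 2))⁻¹ - κ₀, ?_, ?_⟩
    · rw [hκ]
      have : ((2:ℝ) ^ (8 * u + 2))⁻¹ < 1 := by
        apply inv_lt_one_of_one_lt₀
        exact one_lt_pow₀ (by norm_num) (by omega)
      linarith
    · have := scaled_FZ u hu 2 (by norm_num)
      rw [add_assoc, ← C_add]
      convert this using 3
      ring
  · refine ⟨1 - κ₀, sub_ne_zero.2 (Ne.symm hκ), ?_⟩
    have := base_FZ u hu
    rw [add_assoc, ← C_add]
    convert this using 3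
    ring


end Pool.Agent.Helper754.TwoN
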