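import Pool.Agent.Helper754.TwoN.Defs

set_option autoImplicit false
set_option maxHeartbeats 4000000


namespace Pool.Agent.Helper754.TwoN

open Finset Polynomial


private lemma cmb_diff (x z : ℕ → ℝ) (a b : ℝ) (S : Finset ℕ) (hx : ∀ i ∈ S, 0 < x i ∧ x i ≤ 1) :
    ∑ i ∈ S, |z i - (1 + a) * x i| ≤ ∑ i ∈ S, |z i - (1 + b) * x i| + |a - b| * S.card := by
  have h : ∀ i ∈ S, |z i - (1 + a) * x i| ≤ |z i - (1 + b) * x i| + |a - b| := by
    intro i hi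
    obtain ⟨h0, h1⟩ := hx i hi
    have h2 : z i - (1 + a) * x i = (z i - (1 + b) * x i) - (a - b) * x i := by ring
    rw [h2]
    refine (abs_sub _ _).trans ?_
    rw [abs_mul, abs_of_pos h0]
    have : |a - b| * x i ≤ |a - b| * 1 := mul_le_mul_of_nonneg_left h1 (abs_nonneg _)
    linarith
  calc ∑ i ∈ S, |z i - (1 + a) * x i| ≤ ∑ i ∈ S, (|z i - (1 + b) * x i| + |a - b|) :=
        Finset.sum_le_sum h
    _ = _ := by
      rw [Finset.sum_add_distrib, Finset.sum_const, nsmul_eq_mul, mul_comm]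

private lemma cmb_tri (x z : ℕ → ℝ) (a b : ℝ) (S : Finset ℕ) (hx : ∀ i ∈ S, 0 < x i ∧ x i ≤ 1) :
    |a - b| * ∑ i ∈ S, x i ≤
      ∑ i ∈ S, |z i - (1 + a) * x i| + ∑ i ∈ S, |z i - (1 + b) * x i| := by
  rw [Finset.mul_sum, ← Finset.sum_add_distrib]
  refine Finset.sum_le_sum fun i hi => ?_
  obtain ⟨h0, h1⟩ := hx i hi
  have h2 : |a - b| * x i = |(z i - (1 + b) * x i) - (z i - (1 + a) * x i)| := by
    rw [show (z i - (1 + b) * x i) - (z i - (1 + a) * x i) = (a - b) * x i by ring, abs_mul,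
      abs_of_pos h0]
  rw [h2]
  refine (abs_sub _ _).trans ?_
  linarith

private lemma cmb_split (f : ℕ → ℝ) (R A B : Finset ℕ) (hA : A ⊆ R) (hB : B ⊆ R) (hAB : Disjoint A B) :
    ∑ i ∈ R \ A, f i = ∑ i ∈ R \ (A ∪ B), f i + ∑ i ∈ B, f i := by
  have h1 : B ⊆ R \ A := by
    intro i hi
    exact Finset.mem_sdiff.2 ⟨hB hi, fun h => (Finset.disjoint_left.1 hAB) h hi⟩
  rw [← Finset.sum_sdiff h1, sdiff_sdiff_left, Finset.sup_eq_union]

theorem combine (u : ℕ) (hu : 1000 ≤ u) (x z : ℕ → ℝ) (c η : ℝ) (hη : 0 < η)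
    (hx : ∀ i ∈ Finset.range (2 * u), 0 < x i ∧ x i ≤ 1)
    (hsum : (u : ℝ) / 2 ≤ ∑ i ∈ Finset.range (2 * u), x i)
    (L : Fin 3 → Finset ℕ) (hL : ∀ j, L j ⊆ Finset.range (2 * u))
    (hdisj : ∀ j k, j ≠ k → Disjoint (L j) (L k))
    (hc : ∀ j, ((L j).card : ℝ) ≤ u / 1000) (μ : Fin 3 → ℝ) (hμ : ∀ j, |μ j| ≤ 1 / 100)
    (hstar : ∀ j, |c| + ∑ i ∈ Finset.range (2 * u) \ L j, |z i - (1 + μ j) * x i| ≤
        ∑ i ∈ L j, |z i - (1 + μ j) * x i| + 2 * η) :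
    ∃ μ' : ℝ, |μ'| ≤ 1 / 10 ∧ ∑ i ∈ Finset.range (2 * u), |z i - (1 + μ') * x i| ≤ 7 * η ∧
      |c| ≤ 9 * η := by
  have hu0 : (1000 : ℝ) ≤ u := by exact_mod_cast hu
  have hc0 : 0 ≤ |c| := abs_nonneg c
  set n : Fin 3 → Finset ℕ → ℝ := fun j S => ∑ i ∈ S, |z i - (1 + μ j) * x i| with hn
  have hn0 : ∀ j S, 0 ≤ n j S := fun j S => Finset.sum_nonneg fun i _ => abs_nonneg _
  have hxL : ∀ j, ∀ i ∈ L j, 0 < x i ∧ x i ≤ 1 := fun j i hi => hx i (hL j hi)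
  have hstar2 : ∀ j k, j ≠ k → |c| + n j (Finset.range (2 * u) \ (L j ∪ L k)) + n j (L k) ≤
      n j (L j) + 2 * η := by
    intro j k hjk
    have h1 := hstar j
    rw [cmb_split _ _ _ _ (hL j) (hL k) (hdisj j k hjk)] at h1
    show |c| + ∑ i ∈ _, _ + ∑ i ∈ _, _ ≤ ∑ i ∈ _, _ + 2 * η
    linarith
  have hcard0 : ∀ j, (0:ℝ) ≤ ((L j).card : ℝ) := fun j => Nat.cast_nonneg _
  have hsumL : ∀ j, ∑ i ∈ L j, x i ≤ u / 1000 := by
    intro j
    refine le_trans ?_ (hc j)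
    calc ∑ i ∈ L j, x i ≤ ∑ i ∈ L j, (1:ℝ) := Finset.sum_le_sum fun i hi => (hxL j i hi).2
      _ = (L j).card := by simp
  have hμd : ∀ j k, j ≠ k → |μ j - μ k| ≤ 9 * η / u := by
    intro j k hjk
    have h1 := hstar2 j k hjk
    have h2 := hstar2 k j hjk.symm
    rw [Finset.union_comm (L k) (L j)] at h2
    have h3 := cmb_tri x z (μ j) (μ k) (Finset.range (2 * u) \ (L j ∪ L k))
      (fun i hi => hx i (Finset.mem_sdiff.1 hi).1)
    have h4 : n j (L j) ≤ n k (L j) + |μ j - μ k| * (L j).card :=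
      cmb_diff x z (μ j) (μ k) (L j) (hxL j)
    have h5 : n k (L k) ≤ n j (L k) + |μ j - μ k| * (L k).card := by
      have := cmb_diff x z (μ k) (μ j) (L k) (hxL k)
      rwa [abs_sub_comm (μ k)] at this
    have h6 : |μ j - μ k| * (L j).card ≤ |μ j - μ k| * (u / 1000) :=
      mul_le_mul_of_nonneg_left (hc j) (abs_nonneg _)
    have h7 : |μ j - μ k| * (L k).card ≤ |μ j - μ k| * (u / 1000) :=
      mul_le_mul_of_nonneg_left (hc k) (abs_nonneg _)
    have h8 : (u:ℝ) / 2 - 2 * (u / 1000) ≤ ∑ i ∈ Finset.range (2 * u) \ (L j ∪ L k), x i := by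
      have h9 : ∑ i ∈ Finset.range (2 * u), x i =
          ∑ i ∈ Finset.range (2 * u) \ (L j ∪ L k), x i + ∑ i ∈ L k, x i + ∑ i ∈ L j, x i := by
        rw [← cmb_split x _ _ _ (hL j) (hL k) (hdisj j k hjk), Finset.sum_sdiff (hL j)]
      have h10 := hsumL j
      have h11 := hsumL k
      linarith
    have h12 : |μ j - μ k| * ((u:ℝ) / 2 - 2 * (u / 1000)) ≤
        |μ j - μ k| * ∑ i ∈ Finset.range (2 * u) \ (L j ∪ L k), x i :=
      mul_le_mul_of_nonneg_left h8 (abs_nonneg _)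
    have h13 : |μ j - μ k| * ((u:ℝ) / 2 - 2 * (u / 1000)) ≤
        4 * η + 2 * (|μ j - μ k| * (u / 1000)) := by
      have h3' : |μ j - μ k| * ∑ i ∈ Finset.range (2 * u) \ (L j ∪ L k), x i ≤
          n j (Finset.range (2 * u) \ (L j ∪ L k)) + n k (Finset.range (2 * u) \ (L j ∪ L k)) :=
        h3
      linarith
    rw [le_div_iff₀ (by linarith)]
    nlinarith [abs_nonneg (μ j - μ k)]
  have hlad : ∀ j i, j ≠ 0 → |n j (L i) - n 0 (L i)| ≤ 9 * η / 1000 := by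
    intro j i hj
    have h1 := hμd j 0 hj
    have h2 : |μ j - μ 0| * (L i).card ≤ 9 * η / u * (u / 1000) :=
      mul_le_mul h1 (hc i) (hcard0 i) (by positivity)
    have h3 : 9 * η / u * (u / 1000) = 9 * η / 1000 := by
      have : (u:ℝ) ≠ 0 := by linarith
      field_simp
    rw [h3] at h2
    have h4 : n j (L i) ≤ n 0 (L i) + |μ j - μ 0| * (L i).card :=
      cmb_diff x z (μ j) (μ 0) (L i) (hxL i)
    have h5 : n 0 (L i) ≤ n j (L i) + |μ j - μ 0| * (L i).card := by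
      have := cmb_diff x z (μ 0) (μ j) (L i) (hxL i)
      rwa [abs_sub_comm (μ 0)] at this
    rw [abs_le]
    constructor <;> linarith
  have key : ∀ j k, j ≠ 0 → k ≠ 0 → j ≠ k → n j (L 0) + n j (L k) ≤ n j (L j) + 2 * η := by
    intro j k hj hk hjk
    have h1 := hstar j
    have h2 := cmb_split (fun i => |z i - (1 + μ j) * x i|) _ _ _ (hL j) (hL k) (hdisj j k hjk)
    have h3 : L 0 ⊆ Finset.range (2 * u) \ (L j ∪ L k) := by
      intro i hi
      refine Finset.mem_sdiff.2 ⟨hL 0 hi, fun h => ?_⟩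
      rcases Finset.mem_union.1 h with h | h
      · exact (Finset.disjoint_left.1 (hdisj j 0 hj)) h hi
      · exact (Finset.disjoint_left.1 (hdisj k 0 hk)) h hi
    have h4 : ∑ i ∈ L 0, |z i - (1 + μ j) * x i| ≤
        ∑ i ∈ Finset.range (2 * u) \ (L j ∪ L k), |z i - (1 + μ j) * x i| :=
      Finset.sum_le_sum_of_subset_of_nonneg h3 fun i _ _ => abs_nonneg _
    show ∑ i ∈ _, _ + ∑ i ∈ _, _ ≤ ∑ i ∈ _, _ + 2 * η
    linarith
  have k1 := key 1 2 (by decide) (by decide) (by decide)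
  have k2 := key 2 1 (by decide) (by decide) (by decide)
  have a1 := abs_le.1 (hlad 1 0 (by decide))
  have a2 := abs_le.1 (hlad 1 1 (by decide))
  have a3 := abs_le.1 (hlad 1 2 (by decide))
  have b1 := abs_le.1 (hlad 2 0 (by decide))
  have b2 := abs_le.1 (hlad 2 1 (by decide))
  have b3 := abs_le.1 (hlad 2 2 (by decide))
  have hfin : n 0 (L 0) ≤ 2.03 * η := by linarith
  have h0 := hstar 0
  have htot : ∑ i ∈ Finset.range (2 * u), |z i - (1 + μ 0) * x i| =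
      ∑ i ∈ Finset.range (2 * u) \ L 0, |z i - (1 + μ 0) * x i| + n 0 (L 0) :=
    (Finset.sum_sdiff (hL 0)).symm
  have hnn : 0 ≤ ∑ i ∈ Finset.range (2 * u) \ L 0, |z i - (1 + μ 0) * x i| :=
    Finset.sum_nonneg fun i _ => abs_nonneg _
  have h0' : |c| + ∑ i ∈ Finset.range (2 * u) \ L 0, |z i - (1 + μ 0) * x i| ≤
      n 0 (L 0) + 2 * η := h0
  refine ⟨μ 0, (hμ 0).trans (by norm_num), ?_, ?_⟩
  · rw [htot]
    linarith
  · linarith


end Pool.Agent.Helper754.TwoN
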