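import Pool.Agent.Helper754.TwoN.Defs

set_option autoImplicit false
set_option maxHeartbeats 4000000


namespace Pool.Agent.Helper754.TwoN

open Finset Polynomial


theorem threshold (R : Finset ℕ) (x o : ℕ → ℝ) (hx : ∀ i ∈ R, 0 < x i ∧ x i ≤ 1) :
    ∃ (μ : ℝ) (τ : ℕ → ℝ), (∀ i, τ i = 1 ∨ τ i = -1) ∧
      (∀ i ∈ R, τ i * (o i - μ * x i) = |o i - μ * x i|) ∧ |∑ i ∈ R, τ i * x i| ≤ 1 := by
  classical
  let Cut : Finset ℕ → Prop := fun J => ∃ μ : ℝ, (∀ i ∈ J, o i ≤ μ * x i) ∧
    ∀ i ∈ R, i ∉ J → μ * x i ≤ o i
  let s : Finset ℕ → ℝ := fun J => ∑ i ∈ R, (if i ∈ J then (-1 : ℝ) else 1) * x i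
  have hR : Cut R := by
    obtain ⟨M, hM⟩ := (R.image (fun i => o i / x i)).exists_le
    refine ⟨M, ?_, fun i hi hi' => absurd hi hi'⟩
    intro i hi
    have h1 := hM (o i / x i) (Finset.mem_image_of_mem _ hi)
    rwa [div_le_iff₀ (hx i hi).1] at h1
  have hsR : s R ≤ 1 := by
    have h1 : s R ≤ 0 := by
      apply Finset.sum_nonpos
      intro i hi
      rw [if_pos hi]
      have := (hx i hi).1
      linarith
    linarith
  obtain ⟨J, hJ, hmin⟩ := Finset.exists_min_image (R.powerset.filter (fun J => Cut J ∧ s J ≤ 1))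
    Finset.card ⟨R, by
      rw [Finset.mem_filter, Finset.mem_powerset]
      exact ⟨Finset.Subset.refl R, hR, hsR⟩⟩
  rw [Finset.mem_filter, Finset.mem_powerset] at hJ
  obtain ⟨hJR, ⟨μ, hμ1, hμ2⟩, hs⟩ := hJ
  have hlow : -1 ≤ s J := by
    rcases J.eq_empty_or_nonempty with h0 | hne
    · have : 0 ≤ s J := by
        apply Finset.sum_nonneg
        intro i hi
        rw [h0, if_neg (Finset.notMem_empty i)]
        have := (hx i hi).1
        linarith
      linarith
    · obtain ⟨i, hiJ, himax⟩ := Finset.exists_max_image J (fun i => o i / x i) hne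
      have hiR := hJR hiJ
      have hxi := (hx i hiR).1
      have hcut : Cut (J.erase i) := by
        refine ⟨o i / x i, ?_, ?_⟩
        · intro j hj
          have hj' := Finset.mem_of_mem_erase hj
          have h1 := himax j hj'
          rwa [div_le_iff₀ (hx j (hJR hj')).1] at h1
        · intro j hjR hj
          by_cases hji : j = i
          · rw [hji, div_mul_cancel₀ _ hxi.ne']
          · have hjJ : j ∉ J := fun h => hj (Finset.mem_erase.mpr ⟨hji, h⟩)
            have h1 := hμ2 j hjR hjJ
            have h2 : o i / x i ≤ μ := by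
              rw [div_le_iff₀ hxi]
              exact hμ1 i hiJ
            have h3 := mul_le_mul_of_nonneg_right h2 (hx j hjR).1.le
            linarith
      have hgt : 1 < s (J.erase i) := by
        by_contra hcon
        push Not at hcon
        have h1 := hmin (J.erase i) (by
          rw [Finset.mem_filter, Finset.mem_powerset]
          exact ⟨(Finset.erase_subset i J).trans hJR, hcut, hcon⟩)
        have h2 := Finset.card_erase_lt_of_mem hiJ
        omega
      have hdiff : s (J.erase i) - s J = 2 * x i := by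
        show ∑ k ∈ R, (if k ∈ J.erase i then (-1 : ℝ) else 1) * x k -
          ∑ k ∈ R, (if k ∈ J then (-1 : ℝ) else 1) * x k = 2 * x i
        rw [← Finset.sum_sub_distrib, Finset.sum_eq_single i]
        · rw [if_neg (Finset.notMem_erase i J), if_pos hiJ]
          ring
        · intro k _ hki
          have : (k ∈ J.erase i) ↔ k ∈ J := by
            rw [Finset.mem_erase]
            exact ⟨fun h => h.2, fun h => ⟨hki, h⟩⟩
          simp only [this, sub_self]
        · intro h
          exact absurd hiR h
      have hxi1 := (hx i hiR).2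
      linarith
  refine ⟨μ, fun i => if i ∈ J then -1 else 1, ?_, ?_, ?_⟩
  · intro i
    by_cases h : i ∈ J
    · right
      simp [h]
    · left
      simp [h]
  · intro i hi
    by_cases h : i ∈ J
    · simp only [h, if_true]
      rw [abs_of_nonpos (by linarith [hμ1 i h])]
      ring
    · simp only [h, if_false]
      rw [abs_of_nonneg (by linarith [hμ2 i hi h])]
      ring
  · rw [abs_le]
    exact ⟨hlow, hs⟩


end Pool.Agent.Helper754.TwoN
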