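import Pool.Agent.Helper754.TwoN.Defs
import Pool.Agent.Helper754.TwoN.J_threshold

set_option autoImplicit false
set_option maxHeartbeats 4000000


namespace Pool.Agent.Helper754.TwoN

open Finset Polynomial


theorem star (u : ℕ) (hu : 1000 ≤ u) (x d v z : ℕ → ℝ) (c η : ℝ) (hη : 0 < η)
    (hη' : η ≤ 1 / 1000) (hx : ∀ i ∈ Finset.range (2 * u), 0 < x i ∧ x i ≤ 1)
    (hsum : (u : ℝ) / 2 ≤ ∑ i ∈ Finset.range (2 * u), x i)
    (hz : ∀ i ∈ Finset.range (2 * u), |z i - x i| ≤ 1 / 1000)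
    (hG : Good (2 * u) x d v z c η) (L : Finset ℕ) (hL : L ⊆ Finset.range (2 * u))
    (hc : (L.card : ℝ) ≤ u / 1000) (hlad : Lad x L (η / 4)) :
    ∃ μ : ℝ, |μ| ≤ 1 / 100 ∧
      |c| + ∑ i ∈ Finset.range (2 * u) \ L, |z i - (1 + μ) * x i| ≤
        ∑ i ∈ L, |z i - (1 + μ) * x i| + 2 * η := by
  classical
  set N : Finset ℕ := Finset.range (2 * u) with hN
  set R : Finset ℕ := N \ L with hR
  have hRN : R ⊆ N := Finset.sdiff_subset
  obtain ⟨μ, τ, hτ, hτo, hτx⟩ := threshold R x (fun i => z i - x i) (fun i hi => hx i (hRN hi))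
  have hρ : |∑ i ∈ R, τ i * x i + 3 * η / 4| ≤ 1.01 := by
    have h1 := abs_add_le (∑ i ∈ R, τ i * x i) (3 * η / 4)
    have h2 : |3 * η / 4| = 3 * η / 4 := abs_of_pos (by positivity)
    rw [h2] at h1
    norm_num at *
    linarith
  obtain ⟨τ', hτ', hlad'⟩ := hlad _ hρ
  rw [abs_le] at hlad'
  let σ : ℕ → ℝ := fun i => if i ∈ L then τ' i else τ i
  have hsplit : ∀ f : ℕ → ℝ, ∑ i ∈ N, f i = ∑ i ∈ R, f i + ∑ i ∈ L, f i := fun f =>
    (Finset.sum_sdiff hL).symm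
  have hσR : ∀ (w : ℕ → ℝ), ∑ i ∈ R, σ i * w i = ∑ i ∈ R, τ i * w i := by
    intro w
    refine Finset.sum_congr rfl (fun i hi => ?_)
    have : i ∉ L := (Finset.mem_sdiff.1 hi).2
    simp only [σ, if_neg this]
  have hσL : ∀ (w : ℕ → ℝ), ∑ i ∈ L, σ i * w i = ∑ i ∈ L, τ' i * w i := by
    intro w
    refine Finset.sum_congr rfl (fun i hi => ?_)
    simp only [σ, if_pos hi]
  have hT : ∑ i ∈ N, σ i * x i = ∑ i ∈ R, τ i * x i + ∑ i ∈ L, τ' i * x i := by
    rw [hsplit, hσR, hσL]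
  have hstate : IsState (2 * u) (fun _ => 0) σ := by
    refine ⟨fun i _ => Or.inl ⟨?_, rfl⟩, by simp⟩
    simp only [σ]
    split_ifs
    · exact hτ' i
    · exact hτ i
  have hg := hG (fun _ => 0) σ hstate (by simp) (by rw [← hN, hT]; linarith [hlad'.1])
    (by rw [← hN, hT]; linarith [hlad'.2])
  rw [← hN] at hg
  have hz0 : ∑ i ∈ N, (0 : ℝ) * v i = 0 := by simp
  simp only [hz0, add_zero] at hg
  have hc' : |c| ≤ -∑ i ∈ N, σ i * z i := by
    rw [abs_le]
    constructor <;> linarith [hg.1, hg.2]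
  have e1 : ∑ i ∈ N, σ i * z i = ∑ i ∈ R, |z i - (1 + μ) * x i| +
      ∑ i ∈ L, τ' i * (z i - (1 + μ) * x i) + (1 + μ) * ∑ i ∈ N, σ i * x i := by
    have h1 : ∀ i, σ i * z i = σ i * (z i - (1 + μ) * x i) + (1 + μ) * (σ i * x i) := by
      intro i; ring
    rw [Finset.sum_congr rfl (fun i _ => h1 i), Finset.sum_add_distrib, ← Finset.mul_sum,
      hsplit (fun i => σ i * (z i - (1 + μ) * x i)), hσR, hσL]
    congr 2
    refine Finset.sum_congr rfl (fun i hi => ?_)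
    have := hτo i hi
    have e : z i - (1 + μ) * x i = z i - x i - μ * x i := by ring
    rw [e]
    exact this
  have hTb : |∑ i ∈ N, σ i * x i| ≤ η := by
    rw [hT, abs_le]
    constructor <;> linarith [hlad'.1, hlad'.2]
  have hL1 : -∑ i ∈ L, τ' i * (z i - (1 + μ) * x i) ≤ ∑ i ∈ L, |z i - (1 + μ) * x i| := by
    rw [← Finset.sum_neg_distrib]
    refine Finset.sum_le_sum (fun i _ => ?_)
    rcases hτ' i with h | h <;> rw [h]
    · have := neg_abs_le (z i - (1 + μ) * x i); linarith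
    · have := le_abs_self (z i - (1 + μ) * x i); linarith
  have hmul : -((1 + μ) * ∑ i ∈ N, σ i * x i) ≤ |1 + μ| * η := by
    have := neg_abs_le ((1 + μ) * ∑ i ∈ N, σ i * x i)
    rw [abs_mul] at this
    have h2 := mul_le_mul_of_nonneg_left hTb (abs_nonneg (1 + μ))
    linarith
  have hmain : |c| + ∑ i ∈ R, |z i - (1 + μ) * x i| ≤
      ∑ i ∈ L, |z i - (1 + μ) * x i| + |1 + μ| * η := by
    rw [e1] at hc'
    linarith
  have hu0 : (1000 : ℝ) ≤ u := by exact_mod_cast hu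
  have hRo : ∑ i ∈ R, |z i - x i| ≤ 2 * u / 1000 := by
    calc ∑ i ∈ R, |z i - x i| ≤ ∑ i ∈ N, |z i - x i| :=
          Finset.sum_le_sum_of_subset_of_nonneg hRN (fun i _ _ => abs_nonneg _)
      _ ≤ ∑ i ∈ N, (1 / 1000 : ℝ) := Finset.sum_le_sum (fun i hi => hz i hi)
      _ = 2 * u / 1000 := by
          rw [Finset.sum_const, hN, Finset.card_range]
          push_cast [nsmul_eq_mul]
          ring
  have hLx : ∑ i ∈ L, x i ≤ u / 1000 := by
    calc ∑ i ∈ L, x i ≤ ∑ i ∈ L, (1 : ℝ) := Finset.sum_le_sum (fun i hi => (hx i (hL hi)).2)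
      _ = L.card := by simp
      _ ≤ u / 1000 := hc
  have hLx0 : 0 ≤ ∑ i ∈ L, x i := Finset.sum_nonneg (fun i hi => (hx i (hL hi)).1.le)
  have hRx : (u : ℝ) / 2 - u / 1000 ≤ ∑ i ∈ R, x i := by
    have := hsplit x
    linarith
  have hR1 : |μ| * ∑ i ∈ R, x i - ∑ i ∈ R, |z i - x i| ≤ ∑ i ∈ R, |z i - (1 + μ) * x i| := by
    rw [Finset.mul_sum, ← Finset.sum_sub_distrib]
    refine Finset.sum_le_sum (fun i hi => ?_)
    have h1 : |μ| * x i = |μ * x i| := by
      rw [abs_mul, abs_of_pos (hx i (hRN hi)).1]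
    have h2 : μ * x i = (z i - x i) - (z i - (1 + μ) * x i) := by ring
    have h3 := abs_sub (z i - x i) (z i - (1 + μ) * x i)
    rw [h1, h2]
    linarith
  have hL2 : ∑ i ∈ L, |z i - (1 + μ) * x i| ≤ (u / 1000) * (|μ| + 1 / 1000) := by
    calc ∑ i ∈ L, |z i - (1 + μ) * x i| ≤ ∑ i ∈ L, (|μ| + 1 / 1000) := by
          refine Finset.sum_le_sum (fun i hi => ?_)
          have h2 : z i - (1 + μ) * x i = (z i - x i) - μ * x i := by ring
          rw [h2]
          have h3 := abs_sub (z i - x i) (μ * x i)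
          have h4 : |μ * x i| ≤ |μ| := by
            rw [abs_mul, abs_of_pos (hx i (hL hi)).1]
            exact mul_le_of_le_one_right (abs_nonneg _) (hx i (hL hi)).2
          have h5 := hz i (hL hi)
          linarith
      _ = L.card * (|μ| + 1 / 1000) := by rw [Finset.sum_const, nsmul_eq_mul]
      _ ≤ (u / 1000) * (|μ| + 1 / 1000) :=
          mul_le_mul_of_nonneg_right hc (by positivity)
  have h1μ : |1 + μ| ≤ 1 + |μ| := by
    have := abs_add_le 1 μ
    rwa [abs_one] at this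
  have hμ0 := abs_nonneg μ
  have hkey : |μ| * (u / 2 - u / 1000) - 2 * u / 1000 ≤ (u / 1000) * (|μ| + 1 / 1000) + (1 + |μ|) * η := by
    have a1 := mul_le_mul_of_nonneg_left hRx hμ0
    have a2 := mul_le_mul_of_nonneg_right h1μ hη.le
    have a3 := abs_nonneg c
    linarith
  have hμ : |μ| ≤ 1 / 100 := by
    by_contra hcon
    push Not at hcon
    have b1 : (1 + |μ|) * η ≤ (1 + |μ|) * (1 / 1000) :=
      mul_le_mul_of_nonneg_left hη' (by positivity)
    have b2 : |μ| * 1000 ≤ |μ| * u := mul_le_mul_of_nonneg_left hu0 hμ0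
    have b3 : 1 / 100 * (u : ℝ) ≤ |μ| * u := mul_le_mul_of_nonneg_right hcon.le (by positivity)
    nlinarith
  refine ⟨μ, hμ, ?_⟩
  have : |1 + μ| * η ≤ 2 * η := mul_le_mul_of_nonneg_right (by linarith) hη.le
  linarith


end Pool.Agent.Helper754.TwoN
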