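import Pool.Agent.Helper754.TwoN.Defs

set_option autoImplicit false
set_option maxHeartbeats 4000000


namespace Pool.Agent.Helper754.TwoN

open Finset Polynomial


private theorem lad_superset_aux (x : ℕ → ℝ) (L : Finset ℕ) (ε : ℝ) (hL : Lad x L ε) (E : Finset ℕ) :
    (∀ i ∈ E, i ∉ L) → (∀ i ∈ E, 0 < x i ∧ x i ≤ 1) → Lad x (L ∪ E) ε := by
  classical
  induction E using Finset.induction_on with
  | empty => intro _ _; simpa using hL
  | insert e E he ih =>
    intro h1 h2
    have hE := ih (fun i hi => h1 i (Finset.mem_insert_of_mem hi))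
      (fun i hi => h2 i (Finset.mem_insert_of_mem hi))
    intro ρ hρ
    have hxe := h2 e (Finset.mem_insert_self _ _)
    have heL := h1 e (Finset.mem_insert_self _ _)
    obtain ⟨s, hs, hρ1⟩ : ∃ s : ℝ, (s = 1 ∨ s = -1) ∧ |ρ + s * x e| ≤ 1.01 := by
      rw [abs_le] at hρ
      rcases le_total 0 ρ with h | h
      · refine ⟨-1, Or.inr rfl, ?_⟩
        rw [abs_le]
        constructor <;> [nlinarith [hxe.1, hxe.2, hρ.1, hρ.2]; nlinarith [hxe.1, hxe.2, hρ.1, hρ.2]]
      · refine ⟨1, Or.inl rfl, ?_⟩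
        rw [abs_le]
        constructor <;> [nlinarith [hxe.1, hxe.2, hρ.1, hρ.2]; nlinarith [hxe.1, hxe.2, hρ.1, hρ.2]]
    obtain ⟨τ, hτ, hτs⟩ := hE _ hρ1
    refine ⟨Function.update τ e s, ?_, ?_⟩
    · intro i
      by_cases hi : i = e
      · subst hi; rw [Function.update_self]; exact hs
      · rw [Function.update_of_ne hi]; exact hτ i
    · have hnot : e ∉ L ∪ E := by
        rw [Finset.mem_union, not_or]; exact ⟨heL, he⟩
      rw [Finset.union_insert, Finset.sum_insert hnot, Function.update_self]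
      have : ∑ i ∈ L ∪ E, Function.update τ e s i * x i = ∑ i ∈ L ∪ E, τ i * x i := by
        refine Finset.sum_congr rfl fun i hi => ?_
        have hie : i ≠ e := by
          rintro rfl; exact hnot hi
        rw [Function.update_of_ne hie]
      rw [this, ← add_assoc]
      exact hτs

theorem lad_superset (x : ℕ → ℝ) (L L' : Finset ℕ) (ε : ℝ) (h : L ⊆ L')
    (hx : ∀ i ∈ L', 0 < x i ∧ x i ≤ 1) (hL : Lad x L ε) : Lad x L' ε := by
  classical
  have := lad_superset_aux x L ε hL (L' \ L) (fun i hi => (Finset.mem_sdiff.1 hi).2)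
    (fun i hi => hx i (Finset.mem_sdiff.1 hi).1)
  rwa [Finset.union_sdiff_of_subset h] at this


end Pool.Agent.Helper754.TwoN
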