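import Pool.Agent.Helper754.TwoN.Defs
import Pool.Agent.Helper754.TwoN.J_threshold
import Pool.Agent.Helper754.TwoN.J_lad_superset

set_option autoImplicit false
set_option maxHeartbeats 4000000


namespace Pool.Agent.Helper754.TwoN

open Finset Polynomial


private theorem vp_even (R : Finset ℕ) (hR : Even R.card) (τ : ℕ → ℝ) (hτ : ∀ i, τ i = 1 ∨ τ i = -1)
    (h : |∑ i ∈ R, τ i| ≤ 1) : ∑ i ∈ R, τ i = 0 := by
  classical
  have h1 : ∑ i ∈ R, τ i = (R.card : ℝ) - 2 * ((R.filter (fun i => τ i = -1)).card : ℝ) := by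
    have h2 : ∀ i ∈ R, τ i = 1 - 2 * (if τ i = -1 then 1 else 0) := by
      intro i _
      rcases hτ i with h | h
      · rw [h]; norm_num
      · rw [h]; norm_num
    rw [Finset.sum_congr rfl h2, Finset.sum_sub_distrib, ← Finset.mul_sum, Finset.sum_boole]
    simp
  obtain ⟨m, hm⟩ := hR
  rw [h1, hm] at h
  rw [h1, hm]
  generalize (R.filter (fun i => τ i = -1)).card = k at h ⊢
  have h2 : |((m : ℤ) + m - 2 * (k : ℤ))| ≤ 1 := by exact_mod_cast h
  have h3 : (m : ℤ) + m - 2 * k = 0 := by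
    rw [abs_le] at h2
    omega
  exact_mod_cast h3

private theorem vp_key (n : ℕ) (x d v z : ℕ → ℝ) (c η μ : ℝ) (hη : 0 < η) (hη' : η ≤ 1 / 1000)
    (hG : Good n x d v z c η) (hμ : |μ| ≤ 1 / 10)
    (hz : ∑ i ∈ Finset.range n, |z i - (1 + μ) * x i| ≤ 7 * η) (hcη : |c| ≤ 9 * η)
    (R' : Finset ℕ) (hR' : R' ⊆ Finset.range n) (hL : Lad x R' (η / 4)) (E : ℕ → ℝ)
    (hE0 : ∀ i ∈ R', E i = 0) (hE1 : ∀ i ∈ Finset.range n, i ∉ R' → E i = 1 ∨ E i = -1)
    (hEs : ∑ i ∈ Finset.range n, E i = 0) :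
    |∑ i ∈ Finset.range n, E i * v i| ≤ 171 / 10 * η := by
  classical
  obtain ⟨τ, hτ1, hτ2⟩ := hL (3 * η / 4) (by rw [abs_of_pos (by linarith)]; linarith)
  obtain ⟨σ, hσ⟩ : ∃ σ : ℕ → ℝ, ∀ i, σ i = if i ∈ R' then τ i else 0 := ⟨_, fun _ => rfl⟩
  have hσx : ∑ i ∈ Finset.range n, σ i * x i = ∑ i ∈ R', τ i * x i := by
    rw [← Finset.sum_subset hR' (f := fun i => σ i * x i)]
    · refine Finset.sum_congr rfl fun i hi => ?_
      rw [hσ, if_pos hi]
    · intro i _ hi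
      rw [hσ, if_neg hi, zero_mul]
  have hσ1 : ∀ i, |σ i| ≤ 1 := by
    intro i
    rw [hσ]
    split_ifs
    · rcases hτ1 i with h | h <;> rw [h] <;> norm_num
    · norm_num
  have hτ3 := abs_le.1 hτ2
  have ha : -η ≤ ∑ i ∈ Finset.range n, σ i * x i := by rw [hσx]; linarith
  have hb : ∑ i ∈ Finset.range n, σ i * x i ≤ -η / 2 := by rw [hσx]; linarith
  have hσz : -(∑ i ∈ Finset.range n, σ i * z i) ≤ 81 / 10 * η := by
    have e : ∑ i ∈ Finset.range n, σ i * z i = (1 + μ) * ∑ i ∈ Finset.range n, σ i * x i +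
        ∑ i ∈ Finset.range n, σ i * (z i - (1 + μ) * x i) := by
      rw [Finset.mul_sum, ← Finset.sum_add_distrib]
      refine Finset.sum_congr rfl fun i _ => ?_
      ring
    have h1 : |∑ i ∈ Finset.range n, σ i * (z i - (1 + μ) * x i)| ≤ 7 * η := by
      refine (Finset.abs_sum_le_sum_abs _ _).trans (le_trans (Finset.sum_le_sum fun i _ => ?_) hz)
      rw [abs_mul]
      exact mul_le_of_le_one_left (abs_nonneg _) (hσ1 i)
    have h2 := (abs_le.1 h1).1
    obtain ⟨h3, h4⟩ := abs_le.1 hμ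
    rw [e]
    nlinarith
  have hst : ∀ E' : ℕ → ℝ, (∀ i ∈ R', E' i = 0) →
      (∀ i ∈ Finset.range n, i ∉ R' → E' i = 1 ∨ E' i = -1) →
      ∑ i ∈ Finset.range n, E' i = 0 → 0 ≤ ∑ i ∈ Finset.range n, E' i * d i →
      |c + ∑ i ∈ Finset.range n, E' i * v i| ≤ 81 / 10 * η := by
    intro E' h1 h2 h3 h4
    have hIS : IsState n E' σ := by
      refine ⟨fun i hi => ?_, h3⟩
      by_cases hiR : i ∈ R'
      · left
        rw [hσ, if_pos hiR]
        exact ⟨hτ1 i, h1 i hiR⟩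
      · right
        rw [hσ, if_neg hiR]
        exact ⟨rfl, h2 i hi hiR⟩
    obtain ⟨h5, h6⟩ := hG E' σ hIS h4 ha hb
    exact abs_le.2 ⟨by linarith, by linarith⟩
  obtain ⟨hc1, hc2⟩ := abs_le.1 hcη
  rcases le_total 0 (∑ i ∈ Finset.range n, E i * d i) with h | h
  · obtain ⟨h1, h2⟩ := abs_le.1 (hst E hE0 hE1 hEs h)
    exact abs_le.2 ⟨by linarith, by linarith⟩
  · have h5 := hst (fun i => -E i) (fun i hi => by rw [hE0 i hi, neg_zero])
      (fun i hi hiR => by
        rcases hE1 i hi hiR with h1 | h1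
        · right; rw [h1]
        · left; rw [h1, neg_neg])
      (by rw [Finset.sum_neg_distrib, hEs, neg_zero])
      (by
        have : ∑ i ∈ Finset.range n, -E i * d i = -∑ i ∈ Finset.range n, E i * d i := by
          rw [← Finset.sum_neg_distrib]
          exact Finset.sum_congr rfl fun i _ => by ring
        rw [this]; linarith)
    have h6 : ∑ i ∈ Finset.range n, -E i * v i = -∑ i ∈ Finset.range n, E i * v i := by
      rw [← Finset.sum_neg_distrib]
      exact Finset.sum_congr rfl fun i _ => by ring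
    rw [h6] at h5
    obtain ⟨h1, h2⟩ := abs_le.1 h5
    exact abs_le.2 ⟨by linarith, by linarith⟩

private theorem vp_one (n : ℕ) (x d v z : ℕ → ℝ) (c η μ : ℝ) (hη : 0 < η) (hη' : η ≤ 1 / 1000)
    (hG : Good n x d v z c η) (hμ : |μ| ≤ 1 / 10)
    (hz : ∑ i ∈ Finset.range n, |z i - (1 + μ) * x i| ≤ 7 * η) (hcη : |c| ≤ 9 * η)
    (R' : Finset ℕ) (hR' : R' ⊆ Finset.range n) (hL : Lad x R' (η / 4))
    (hev : Even (Finset.range n \ R').card) :
    ∃ ν : ℝ, ∑ i ∈ Finset.range n \ R', |v i - ν| ≤ 171 / 10 * η := by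
  classical
  obtain ⟨ν, τ, hτ1, hτ2, hτ3⟩ := threshold (Finset.range n \ R') (fun _ => 1) v
    (fun i _ => ⟨one_pos, le_rfl⟩)
  simp only [mul_one] at hτ2 hτ3
  have hτ0 := vp_even _ hev τ hτ1 hτ3
  refine ⟨ν, ?_⟩
  have hsub : Finset.range n \ R' ⊆ Finset.range n := Finset.sdiff_subset
  have hsum : ∀ f : ℕ → ℝ, ∑ i ∈ Finset.range n, (if i ∈ R' then 0 else τ i) * f i =
      ∑ i ∈ Finset.range n \ R', τ i * f i := by
    intro f
    rw [← Finset.sum_subset hsub (f := fun i => (if i ∈ R' then 0 else τ i) * f i)]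
    · refine Finset.sum_congr rfl fun i hi => ?_
      rw [if_neg (Finset.mem_sdiff.1 hi).2]
    · intro i hi hi2
      have : i ∈ R' := by
        by_contra h
        exact hi2 (Finset.mem_sdiff.2 ⟨hi, h⟩)
      rw [if_pos this, zero_mul]
  have hk := vp_key n x d v z c η μ hη hη' hG hμ hz hcη R' hR' hL
    (fun i => if i ∈ R' then 0 else τ i) (fun i hi => if_pos hi)
    (fun i _ hi => by simp only [if_neg hi]; exact hτ1 i) (by
      have := hsum (fun _ => 1)
      simp only [mul_one] at this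
      rw [this, hτ0])
  rw [hsum v] at hk
  have e : ∑ i ∈ Finset.range n \ R', τ i * v i = ∑ i ∈ Finset.range n \ R', |v i - ν| := by
    have h1 : ∑ i ∈ Finset.range n \ R', |v i - ν| =
        ∑ i ∈ Finset.range n \ R', (τ i * v i - ν * τ i) := by
      refine Finset.sum_congr rfl fun i hi => ?_
      rw [← hτ2 i hi]
      ring
    rw [h1, Finset.sum_sub_distrib, ← Finset.mul_sum, hτ0, mul_zero, sub_zero]
  rw [e] at hk
  exact (le_abs_self _).trans hk

theorem vpart (u : ℕ) (hu : 1000 ≤ u) (x d v z : ℕ → ℝ) (c η μ : ℝ) (hη : 0 < η)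
    (hη' : η ≤ 1 / 1000) (hx : ∀ i ∈ Finset.range (2 * u), 0 < x i ∧ x i ≤ 1)
    (hG : Good (2 * u) x d v z c η) (hμ : |μ| ≤ 1 / 10)
    (hz : ∑ i ∈ Finset.range (2 * u), |z i - (1 + μ) * x i| ≤ 7 * η) (hcη : |c| ≤ 9 * η)
    (L1 L2 : Finset ℕ) (hL1 : L1 ⊆ Finset.range (2 * u)) (hL2 : L2 ⊆ Finset.range (2 * u))
    (hd : Disjoint L1 L2) (hc1 : (L1.card : ℝ) ≤ u / 1000) (hc2 : (L2.card : ℝ) ≤ u / 1000)
    (h1 : Lad x L1 (η / 4)) (h2 : Lad x L2 (η / 4)) :
    ∃ ν : ℝ, ∑ i ∈ Finset.range (2 * u), |v i - ν| ≤ 40 * η := by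
  classical
  have hu' : (1000 : ℝ) ≤ u := by exact_mod_cast hu
  have hcn1 : L1.card * 1000 ≤ u := by
    have : (L1.card : ℝ) * 1000 ≤ u := by linarith
    exact_mod_cast this
  have hcn2 : L2.card * 1000 ≤ u := by
    have : (L2.card : ℝ) * 1000 ≤ u := by linarith
    exact_mod_cast this
  have hcN2 : (Finset.range (2 * u) \ L2).card = 2 * u - L2.card := by
    rw [Finset.card_sdiff_of_subset hL2, Finset.card_range]
  have hL1s : L1 ⊆ Finset.range (2 * u) \ L2 := by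
    intro i hi
    exact Finset.mem_sdiff.2 ⟨hL1 hi, Finset.disjoint_left.1 hd hi⟩
  obtain ⟨M1, hM1a, hM1b, hM1c⟩ := Finset.exists_subsuperset_card_eq hL1s
    (show L1.card ≤ L1.card + L1.card % 2 by omega) (by omega)
  have hM1N : M1 ⊆ Finset.range (2 * u) := hM1b.trans Finset.sdiff_subset
  have hcN1 : (Finset.range (2 * u) \ M1).card = 2 * u - M1.card := by
    rw [Finset.card_sdiff_of_subset hM1N, Finset.card_range]
  have hL2s : L2 ⊆ Finset.range (2 * u) \ M1 := by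
    intro i hi
    refine Finset.mem_sdiff.2 ⟨hL2 hi, fun h => ?_⟩
    exact (Finset.mem_sdiff.1 (hM1b h)).2 hi
  obtain ⟨M2, hM2a, hM2b, hM2c⟩ := Finset.exists_subsuperset_card_eq hL2s
    (show L2.card ≤ L2.card + L2.card % 2 by omega) (by omega)
  have hM2N : M2 ⊆ Finset.range (2 * u) := hM2b.trans Finset.sdiff_subset
  have hdis : ∀ i ∈ M1, i ∉ M2 := fun i hi h => (Finset.mem_sdiff.1 (hM2b h)).2 hi
  have hlad1 : Lad x M1 (η / 4) := lad_superset x L1 M1 _ hM1a (fun i hi => hx i (hM1N hi)) h1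
  have hlad2 : Lad x M2 (η / 4) := lad_superset x L2 M2 _ hM2a (fun i hi => hx i (hM2N hi)) h2
  obtain ⟨ν1, hν1⟩ := vp_one (2 * u) x d v z c η μ hη hη' hG hμ hz hcη M1 hM1N hlad1 (by
    rw [hcN1, Nat.even_iff]; omega)
  obtain ⟨ν2, hν2⟩ := vp_one (2 * u) x d v z c η μ hη hη' hG hμ hz hcη M2 hM2N hlad2 (by
    rw [Finset.card_sdiff_of_subset hM2N, Finset.card_range, Nat.even_iff]; omega)
  -- the common part
  have hcom : (u : ℝ) * |ν1 - ν2| ≤ 35 * η := by
    have hcard : u ≤ (Finset.range (2 * u) \ (M1 ∪ M2)).card := by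
      rw [Finset.card_sdiff_of_subset (Finset.union_subset hM1N hM2N), Finset.card_range]
      have := Finset.card_union_le M1 M2
      omega
    have hcard' : (u : ℝ) ≤ ((Finset.range (2 * u) \ (M1 ∪ M2)).card : ℝ) := by
      exact_mod_cast hcard
    calc (u : ℝ) * |ν1 - ν2| ≤ ((Finset.range (2 * u) \ (M1 ∪ M2)).card : ℝ) * |ν1 - ν2| :=
          mul_le_mul_of_nonneg_right hcard' (abs_nonneg _)
      _ = ∑ i ∈ Finset.range (2 * u) \ (M1 ∪ M2), |ν1 - ν2| := by
          rw [Finset.sum_const, nsmul_eq_mul]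
      _ ≤ ∑ i ∈ Finset.range (2 * u) \ (M1 ∪ M2), (|v i - ν1| + |v i - ν2|) := by
          refine Finset.sum_le_sum fun i _ => ?_
          have : ν1 - ν2 = (v i - ν2) - (v i - ν1) := by ring
          rw [this]
          refine (abs_sub _ _).trans ?_
          rw [add_comm]
      _ = ∑ i ∈ Finset.range (2 * u) \ (M1 ∪ M2), |v i - ν1| +
          ∑ i ∈ Finset.range (2 * u) \ (M1 ∪ M2), |v i - ν2| := Finset.sum_add_distrib
      _ ≤ 171 / 10 * η + 171 / 10 * η := by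
          refine add_le_add ((Finset.sum_le_sum_of_subset_of_nonneg ?_ fun _ _ _ =>
            abs_nonneg _).trans hν1) ((Finset.sum_le_sum_of_subset_of_nonneg ?_ fun _ _ _ =>
            abs_nonneg _).trans hν2)
          · exact Finset.sdiff_subset_sdiff (Finset.Subset.refl _) Finset.subset_union_left
          · exact Finset.sdiff_subset_sdiff (Finset.Subset.refl _) Finset.subset_union_right
      _ ≤ 35 * η := by linarith
  have hM1card : (M1.card : ℝ) * 500 ≤ u := by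
    have h5 : M1.card ≤ L1.card + 1 := by rw [hM1c]; omega
    have h6 : (M1.card : ℝ) ≤ (L1.card : ℝ) + 1 := by exact_mod_cast h5
    linarith
  have hsmall : (M1.card : ℝ) * |ν1 - ν2| ≤ 1 * η := by
    have h3 := abs_nonneg (ν1 - ν2)
    have h4 : (M1.card : ℝ) * 500 * |ν1 - ν2| ≤ u * |ν1 - ν2| :=
      mul_le_mul_of_nonneg_right hM1card h3
    linarith
  have hM1sum : ∑ i ∈ M1, |v i - ν1| ≤ 171 / 10 * η + 1 * η := by
    calc ∑ i ∈ M1, |v i - ν1| ≤ ∑ i ∈ M1, (|v i - ν2| + |ν1 - ν2|) := by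
          refine Finset.sum_le_sum fun i _ => ?_
          have : v i - ν1 = (v i - ν2) - (ν1 - ν2) := by ring
          rw [this]
          exact abs_sub _ _
      _ = ∑ i ∈ M1, |v i - ν2| + (M1.card : ℝ) * |ν1 - ν2| := by
          rw [Finset.sum_add_distrib, Finset.sum_const, nsmul_eq_mul]
      _ ≤ 171 / 10 * η + 1 * η := by
          refine add_le_add ((Finset.sum_le_sum_of_subset_of_nonneg ?_ fun _ _ _ =>
            abs_nonneg _).trans hν2) hsmall
          intro i hi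
          exact Finset.mem_sdiff.2 ⟨hM1N hi, hdis i hi⟩
  refine ⟨ν1, ?_⟩
  rw [← Finset.sum_sdiff hM1N]
  linarith


end Pool.Agent.Helper754.TwoN
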