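import Pool.Agent.Helper754.TwoN.Defs
import Pool.Agent.Helper754.TwoN.J_star
import Pool.Agent.Helper754.TwoN.J_combine
import Pool.Agent.Helper754.TwoN.J_vpart

set_option autoImplicit false
set_option maxHeartbeats 4000000

namespace Pool.Agent.Helper754.TwoN

open Finset Polynomial

theorem detect (u : ℕ) (hu : 1000 ≤ u) (x d v z : ℕ → ℝ) (c η : ℝ) (hη : 0 < η)
    (hη' : η ≤ 1 / 1000) (hx : ∀ i ∈ Finset.range (2 * u), 0 < x i ∧ x i ≤ 1)
    (hsum : (u : ℝ) / 2 ≤ ∑ i ∈ Finset.range (2 * u), x i)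
    (hz : ∀ i ∈ Finset.range (2 * u), |z i - x i| ≤ 1 / 1000)
    (L : Fin 3 → Finset ℕ) (hL : ∀ j, L j ⊆ Finset.range (2 * u))
    (hdisj : ∀ j k, j ≠ k → Disjoint (L j) (L k))
    (hc : ∀ j, ((L j).card : ℝ) ≤ u / 1000) (hlad : ∀ j, Lad x (L j) (η / 4))
    (hG : Good (2 * u) x d v z c η) : Flat (2 * u) x v z c η := by
  have hs := fun j => star u hu x d v z c η hη hη' hx hsum hz hG (L j) (hL j) (hc j) (hlad j)
  choose μ hμ hst using hs
  obtain ⟨μ', h1, h2, h3⟩ := combine u hu x z c η hη hx hsum L hL hdisj hc μ hμ hst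
  obtain ⟨ν, hν⟩ := vpart u hu x d v z c η μ' hη hη' hx hG h1 h2 h3 (L 0) (L 1) (hL 0) (hL 1)
    (hdisj 0 1 (by decide)) (hc 0) (hc 1) (hlad 0) (hlad 1)
  exact ⟨μ', ν, h1, h2, hν, h3⟩

end Pool.Agent.Helper754.TwoN
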