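import Pool.Agent.Helper754.TwoN.Defs

set_option autoImplicit false
set_option maxHeartbeats 4000000


namespace Pool.Agent.Helper754.TwoN

open Finset Polynomial


/-- characteristic polynomial of a unit lower Hessenberg matrix -/
theorem hess_charpoly (n : ℕ) (e : ℕ → ℕ → ℝ) (P : ℕ → Polynomial ℝ)
    (h1 : ∀ i, i + 1 < n → e i (i + 1) = 1) (h0 : ∀ i j, i + 1 < j → j < n → e i j = 0)
    (hP0 : P 0 = 1)
    (hP : ∀ k, k < n → P (k + 1) = X * P k - ∑ j ∈ Finset.range (k + 1), C (e k j) * P j) :
    (Matrix.of (fun i j : Fin n => e i j)).charpoly = P n := by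
  rcases n with _ | m
  · rw [hP0, Matrix.charpoly, Matrix.det_fin_zero]
  unfold Matrix.charpoly
  set M := Matrix.charmatrix (Matrix.of (fun i j : Fin (m + 1) => e i j)) with hM
  have hMij : ∀ i j : Fin (m + 1), M i j = (if i = j then X else 0) - C (e i j) := by
    intro i j
    rw [hM, Matrix.charmatrix_apply]
    simp [Matrix.diagonal_apply]
  let v : Fin (m + 1) → Polynomial ℝ := fun j => P j
  have h2 : (M.updateCol 0 (M.mulVec v)).det = M.det := by
    rw [← Matrix.cramer_apply, Matrix.cramer_eq_adjugate_mulVec, Matrix.mulVec_mulVec,
      Matrix.adjugate_mul, Matrix.smul_mulVec, Matrix.one_mulVec]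
    simp [v, hP0]
  have hrow : ∀ k : Fin (m + 1), M.mulVec v k = X * P k - ∑ j ∈ Finset.range (m + 1), C (e k j) * P j := by
    intro k
    unfold Matrix.mulVec dotProduct
    simp only [hMij, sub_mul, Finset.sum_sub_distrib]
    congr 1
    · simp [v]
    · rw [Finset.sum_range]
  have hlt : ∀ k : Fin (m + 1), (k : ℕ) < m → M.mulVec v k = 0 := by
    intro k hk
    rw [hrow]
    have h3 : ∑ j ∈ Finset.range (m + 1), C (e k j) * P j =
        ∑ j ∈ Finset.range ((k : ℕ) + 1 + 1), C (e k j) * P j := by
      symm
      apply Finset.sum_subset
      · intro j hj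
        rw [Finset.mem_range] at hj ⊢
        omega
      · intro j hj hj'
        rw [Finset.mem_range] at hj hj'
        rw [h0 k j (by omega) hj]
        simp
    rw [h3, Finset.sum_range_succ, h1 k (by omega), hP k (by omega)]
    simp
  have hlast : M.mulVec v (Fin.last m) = P (m + 1) := by
    rw [hrow, hP m (by omega)]
    rfl
  rw [← h2, Matrix.det_succ_column_zero, Finset.sum_eq_single (Fin.last m)]
  · have h4 : ((M.updateCol 0 (M.mulVec v)).submatrix (Fin.last m).succAbove Fin.succ).det =
        (-1) ^ m := by
      rw [Matrix.det_of_lowerTriangular]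
      · rw [Finset.prod_congr rfl (g := fun _ => (-1 : Polynomial ℝ))]
        · simp
        · intro i _
          rw [Matrix.submatrix_apply, Matrix.updateCol_ne (Fin.succ_ne_zero i), hMij]
          have hi : (Fin.last m).succAbove i = Fin.castSucc i := by simp
          have hne : Fin.castSucc i ≠ Fin.succ i := by
            intro h
            have := congrArg Fin.val h
            simp at this
          rw [hi, if_neg hne]
          have h5 := h1 i (by omega)
          simp only [Fin.val_castSucc, Fin.val_succ]
          rw [h5]
          simp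
      · intro i j hij
        have hij' : i < j := hij
        rw [Matrix.submatrix_apply, Matrix.updateCol_ne (Fin.succ_ne_zero j), hMij]
        have hi : (Fin.last m).succAbove i = Fin.castSucc i := by simp
        have hne : Fin.castSucc i ≠ Fin.succ j := by
          intro h
          have := congrArg Fin.val h
          simp at this
          have h6 : (i : ℕ) < j := hij'
          omega
        rw [hi, if_neg hne]
        have h6 : (i : ℕ) < j := hij'
        have h5 := h0 i (j + 1) (by omega) (by omega)
        simp only [Fin.val_castSucc, Fin.val_succ]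
        rw [h5]
        simp
    rw [h4, Matrix.updateCol_self, hlast]
    have h7 : ((-1 : Polynomial ℝ) ^ m) * (-1) ^ m = 1 := by
      rw [← mul_pow]
      simp
    simp only [Fin.val_last]
    linear_combination (P (m + 1)) * h7
  · intro k _ hk
    have hk' : (k : ℕ) < m := by
      have h8 : (k : ℕ) ≠ m := fun h => hk (Fin.ext h)
      omega
    rw [Matrix.updateCol_self, hlt k hk']
    ring
  · intro h
    exact absurd (Finset.mem_univ _) h


end Pool.Agent.Helper754.TwoN
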