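import Pool.Agent.Helper754.TwoN.Defs
import Pool.Agent.Helper754.TwoN.J_hess_charpoly

set_option autoImplicit false
set_option maxHeartbeats 4000000


namespace Pool.Agent.Helper754.TwoN

open Finset Polynomial


/-- the sequence of leading principal characteristic polynomials -/
private noncomputable def ecP (e : ℕ → ℕ → ℝ) : ℕ → Polynomial ℝ
  | 0 => 1
  | (k + 1) => X * ecP e k - ∑ j : Fin (k + 1), C (e k j.1) * ecP e j.1
decreasing_by
  · omega
  · exact j.2

private theorem ecP_succ (e : ℕ → ℕ → ℝ) (k : ℕ) :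
    ecP e (k + 1) = X * ecP e k - ∑ j ∈ Finset.range (k + 1), C (e k j) * ecP e j := by
  rw [ecP, Finset.sum_range]

section

variable (u : ℕ) (a b c d : ℕ → ℝ) (k1 k2 : ℝ)

private theorem ec_ent0 (m j : ℕ) (hj : j < 4 * m + 3) :
    ent u a b c d k1 k2 (4 * m + 2) j = if j = 4 * m + 2 then a m else 0 := by
  unfold ent
  rw [show (4 * m + 2 - 2) / 4 = m by omega]
  split_ifs <;> first | rfl | (exfalso; omega)

private theorem ec_ent1 (m j : ℕ) (hj : j < 4 * m + 4) :
    ent u a b c d k1 k2 (4 * m + 3) j = if j = 4 * m + 2 then c m else 0 := by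
  unfold ent
  rw [show (4 * m + 3 - 2) / 4 = m by omega]
  split_ifs <;> first | rfl | (exfalso; omega)

private theorem ec_ent2 (m j : ℕ) (hj : j < 4 * m + 5) :
    ent u a b c d k1 k2 (4 * m + 4) j = 0 := by
  unfold ent
  split_ifs <;> first | rfl | (exfalso; omega)

private theorem ec_ent3 (m j : ℕ) (hj : j < 4 * m + 6) :
    ent u a b c d k1 k2 (4 * m + 5) j = if j = 4 * m + 5 then b m else
      if j = 4 * m + 3 then d m else
      if j = 0 then (if m + 1 = u then k1 else if m + 1 = 2 * u then k2 else 0) else 0 := by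
  unfold ent
  rw [show (4 * m + 5 - 2) / 4 = m by omega]
  split_ifs <;> first | rfl | (exfalso; omega)

private theorem ec_r0 (m : ℕ) : ecP (ent u a b c d k1 k2) (4 * m + 3) =
    X * ecP (ent u a b c d k1 k2) (4 * m + 2) - C (a m) * ecP (ent u a b c d k1 k2) (4 * m + 2) := by
  rw [ecP_succ]
  congr 1
  rw [Finset.sum_eq_single (4 * m + 2)]
  · rw [ec_ent0 _ _ _ _ _ _ _ _ _ (by omega), if_pos rfl]
  · intro j hj hne
    rw [ec_ent0 _ _ _ _ _ _ _ _ _ (Finset.mem_range.1 hj), if_neg hne, map_zero, zero_mul]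
  · intro h
    exact absurd (Finset.mem_range.2 (by omega)) h

private theorem ec_r1 (m : ℕ) : ecP (ent u a b c d k1 k2) (4 * m + 4) =
    X * ecP (ent u a b c d k1 k2) (4 * m + 3) - C (c m) * ecP (ent u a b c d k1 k2) (4 * m + 2) := by
  rw [ecP_succ]
  congr 1
  rw [Finset.sum_eq_single (4 * m + 2)]
  · rw [ec_ent1 _ _ _ _ _ _ _ _ _ (by omega), if_pos rfl]
  · intro j hj hne
    rw [ec_ent1 _ _ _ _ _ _ _ _ _ (Finset.mem_range.1 hj), if_neg hne, map_zero, zero_mul]
  · intro h
    exact absurd (Finset.mem_range.2 (by omega)) h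

private theorem ec_r2 (m : ℕ) : ecP (ent u a b c d k1 k2) (4 * m + 5) =
    X * ecP (ent u a b c d k1 k2) (4 * m + 4) := by
  rw [ecP_succ, Finset.sum_eq_zero, sub_zero]
  intro j hj
  rw [ec_ent2 _ _ _ _ _ _ _ _ _ (Finset.mem_range.1 hj), map_zero, zero_mul]

private theorem ec_r3 (m : ℕ) : ecP (ent u a b c d k1 k2) (4 * m + 6) =
    X * ecP (ent u a b c d k1 k2) (4 * m + 5) - (C (b m) * ecP (ent u a b c d k1 k2) (4 * m + 5) +
      C (d m) * ecP (ent u a b c d k1 k2) (4 * m + 3) +
      C (if m + 1 = u then k1 else if m + 1 = 2 * u then k2 else 0)) := by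
  rw [ecP_succ]
  congr 1
  have key : ∀ j ∈ Finset.range (4 * m + 5 + 1),
      C (ent u a b c d k1 k2 (4 * m + 5) j) * ecP (ent u a b c d k1 k2) j =
      (if j = 4 * m + 5 then C (b m) * ecP (ent u a b c d k1 k2) (4 * m + 5) else 0) +
      (if j = 4 * m + 3 then C (d m) * ecP (ent u a b c d k1 k2) (4 * m + 3) else 0) +
      (if j = 0 then C (if m + 1 = u then k1 else if m + 1 = 2 * u then k2 else 0) else 0) := by
    intro j hj
    rw [ec_ent3 _ _ _ _ _ _ _ _ _ (Finset.mem_range.1 hj)]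
    by_cases h1 : j = 4 * m + 5
    · rw [if_pos h1, if_pos h1, if_neg (by omega), if_neg (by omega), h1, add_zero, add_zero]
    · by_cases h2 : j = 4 * m + 3
      · rw [if_neg h1, if_pos h2, if_neg h1, if_pos h2, if_neg (by omega), h2, zero_add, add_zero]
      · by_cases h3 : j = 0
        · rw [if_neg h1, if_neg h2, if_pos h3, if_neg h1, if_neg h2, if_pos h3, h3, zero_add,
            zero_add, ecP, mul_one]
        · rw [if_neg h1, if_neg h2, if_neg h3, if_neg h1, if_neg h2, if_neg h3, map_zero,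
            zero_mul, add_zero, add_zero]
  rw [Finset.sum_congr rfl key, Finset.sum_add_distrib, Finset.sum_add_distrib,
    Finset.sum_ite_eq', Finset.sum_ite_eq', Finset.sum_ite_eq',
    if_pos (Finset.mem_range.2 (by omega)), if_pos (Finset.mem_range.2 (by omega)),
    if_pos (Finset.mem_range.2 (by omega))]

private theorem ec_step (m : ℕ) : ecP (ent u a b c d k1 k2) (4 * (m + 1) + 2) =
    (X ^ 4 - C (a m + b m) * X ^ 3 + C (a m * b m - c m) * X ^ 2
        + C (c m * b m - d m) * X + C (d m * a m) : Polynomial ℝ) *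
      ecP (ent u a b c d k1 k2) (4 * m + 2) -
    C (if m + 1 = u then k1 else if m + 1 = 2 * u then k2 else 0) := by
  rw [show 4 * (m + 1) + 2 = 4 * m + 6 by ring, ec_r3, ec_r2, ec_r1, ec_r0]
  simp only [map_add, map_sub, map_mul]
  ring

private theorem ec_zero (hu : 1 ≤ u) : ecP (ent u a b c d k1 k2) 2 = X ^ 2 := by
  have h00 : ent u a b c d k1 k2 0 0 = 0 := by
    simp [ent]
  have h10 : ent u a b c d k1 k2 1 0 = 0 := by
    unfold ent
    split_ifs <;> first | rfl | (exfalso; omega)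
  have h11 : ent u a b c d k1 k2 1 1 = 0 := by
    unfold ent
    split_ifs <;> first | rfl | (exfalso; omega)
  have e1 : ecP (ent u a b c d k1 k2) 1 = X := by
    rw [ecP_succ, Finset.sum_range_one, h00, ecP]
    simp
  rw [ecP_succ, Finset.sum_range_succ, Finset.sum_range_one, h10, h11, e1]
  simp
  ring

end

theorem ent_charpoly (u : ℕ) (hu : 1 ≤ u) (a b c d : ℕ → ℝ) (k1 k2 : ℝ) :
    (Matrix.of (fun i j : Fin (8 * u + 2) => ent u a b c d k1 k2 i j)).charpoly =
      (X ^ 2 * ∏ m ∈ Finset.range u, (X ^ 4 - C (a m + b m) * X ^ 3 + C (a m * b m - c m) * X ^ 2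
        + C (c m * b m - d m) * X + C (d m * a m) : Polynomial ℝ) - C k1) *
      (∏ m ∈ Finset.Ico u (2 * u), (X ^ 4 - C (a m + b m) * X ^ 3 + C (a m * b m - c m) * X ^ 2
        + C (c m * b m - d m) * X + C (d m * a m) : Polynomial ℝ)) - C k2 := by
  set q : ℕ → Polynomial ℝ := fun m => (X ^ 4 - C (a m + b m) * X ^ 3 + C (a m * b m - c m) * X ^ 2
        + C (c m * b m - d m) * X + C (d m * a m) : Polynomial ℝ) with hq
  set P : ℕ → Polynomial ℝ := ecP (ent u a b c d k1 k2) with hP
  have hmain : (Matrix.of (fun i j : Fin (8 * u + 2) => ent u a b c d k1 k2 i j)).charpoly =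
      P (8 * u + 2) := by
    refine hess_charpoly (8 * u + 2) (ent u a b c d k1 k2) P ?_ ?_ ?_ ?_
    · intro i _
      unfold ent
      rw [if_pos rfl]
    · intro i j hij _
      unfold ent
      split_ifs <;> first | rfl | (exfalso; omega)
    · rw [hP, ecP]
    · intro k _
      exact ecP_succ _ k
  rw [hmain]
  have hstep : ∀ m, P (4 * (m + 1) + 2) = q m * P (4 * m + 2) -
      C (if m + 1 = u then k1 else if m + 1 = 2 * u then k2 else 0) := fun m =>
    ec_step u a b c d k1 k2 m
  have h2 : P 2 = X ^ 2 := ec_zero u a b c d k1 k2 hu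
  obtain ⟨w, rfl⟩ : ∃ w, u = w + 1 := ⟨u - 1, by omega⟩
  have s1 : ∀ m, m ≤ w → P (4 * m + 2) = X ^ 2 * ∏ i ∈ Finset.range m, q i := by
    intro m
    induction m with
    | zero => intro _; simpa using h2
    | succ m ih =>
      intro hm
      rw [hstep, ih (by omega), if_neg (by omega), if_neg (by omega), Finset.prod_range_succ,
        map_zero, sub_zero]
      ring
  have s2 : P (4 * (w + 1) + 2) = X ^ 2 * ∏ i ∈ Finset.range (w + 1), q i - C k1 := by
    rw [hstep, s1 w le_rfl, if_pos rfl, Finset.prod_range_succ]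
    ring
  have s3 : ∀ t, t ≤ w → P (4 * (w + 1 + t) + 2) =
      (X ^ 2 * ∏ i ∈ Finset.range (w + 1), q i - C k1) * ∏ i ∈ Finset.Ico (w + 1) (w + 1 + t), q i := by
    intro t
    induction t with
    | zero => intro _; simpa using s2
    | succ t ih =>
      intro ht
      rw [show w + 1 + (t + 1) = (w + 1 + t) + 1 by ring, hstep, ih (by omega), if_neg (by omega),
        if_neg (by omega), Finset.prod_Ico_succ_top (by omega), map_zero, sub_zero]
      ring
  have s4 : P (8 * (w + 1) + 2) =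
      (X ^ 2 * ∏ i ∈ Finset.range (w + 1), q i - C k1) *
        ∏ i ∈ Finset.Ico (w + 1) (2 * (w + 1)), q i - C k2 := by
    rw [show 8 * (w + 1) + 2 = 4 * ((w + 1 + w) + 1) + 2 by ring, hstep, s3 w le_rfl,
      if_neg (by omega), if_pos (by omega), show 2 * (w + 1) = (w + 1 + w) + 1 by ring,
      Finset.prod_Ico_succ_top (by omega)]
    ring
  rw [s4]


end Pool.Agent.Helper754.TwoN
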