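import Pool.Agent.Helper754.TwoN.Defs

set_option autoImplicit false
set_option maxHeartbeats 4000000


namespace Pool.Agent.Helper754.TwoN

open Finset Polynomial


theorem ent_pat (u : ℕ) (hu : 1 ≤ u) (a b c d : ℕ → ℝ) (k1 k2 : ℝ) (hk1 : k1 ≠ 0) (hk2 : k2 ≠ 0)
    (ha : ∀ i, a i ≠ 0) (hb : ∀ i, b i ≠ 0) (hc : ∀ i, c i ≠ 0) (hd : ∀ i, d i ≠ 0)
    (i j : Fin (8 * u + 2)) : ent u a b c d k1 k2 i j ≠ 0 ↔ (i, j) ∈ pat u := by
  obtain ⟨i, hi⟩ := i
  obtain ⟨j, hj⟩ := j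
  have hmem : ((⟨i, hi⟩, ⟨j, hj⟩) : Fin (8 * u + 2) × Fin (8 * u + 2)) ∈ pat u ↔ pos u i j := by
    unfold pat
    rw [Finset.mem_filter]
    simp
  rw [hmem]
  show ent u a b c d k1 k2 i j ≠ 0 ↔ pos u i j
  unfold ent pos
  split_ifs with h1 h2 h3 h4 h5 h6 h7
  · simp [h1]
  · simp only [ne_eq, ha, not_false_eq_true, true_iff]; omega
  · simp only [ne_eq, hc, not_false_eq_true, true_iff]; omega
  · simp only [ne_eq, hb, not_false_eq_true, true_iff]; omega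
  · simp only [ne_eq, hd, not_false_eq_true, true_iff]; omega
  · simp only [ne_eq, hk1, not_false_eq_true, true_iff]; omega
  · simp only [ne_eq, hk2, not_false_eq_true, true_iff]; omega
  · simp only [ne_eq, not_true_eq_false, false_iff]; omega


end Pool.Agent.Helper754.TwoN
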