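import Pool.Agent.Helper754.TwoN.Defs

set_option autoImplicit false
set_option maxHeartbeats 4000000


namespace Pool.Agent.Helper754.TwoN

open Finset Polynomial


private theorem j10475_step (k : ℕ) (hk1 : 1 ≤ k) (hk4 : k ≤ 4) (x y p p' e : ℝ)
    (h1 : |x - p| ≤ e) (h2 : |y - p| ≤ e) (h3 : |x * (1 / 2) ^ k - p'| ≤ e)
    (h4 : |y * (1 / 2) ^ (k + 4) - p'| ≤ e) : |x| ≤ 35 * e ∧ |p| ≤ 36 * e := by
  rw [abs_le] at h1 h2 h3 h4
  have he : 0 ≤ e := by linarith [h1.1, h1.2]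
  interval_cases k <;> norm_num at h3 h4 <;> constructor <;> rw [abs_le] <;> constructor <;>
    linarith [h1.1, h1.2, h2.1, h2.2, h3.1, h3.2, h4.1, h4.2]

theorem final_num (N : ℕ) (hN : 10 ^ 20 ≤ N) (a : ℕ → ℝ) (A η Ao : ℝ)
    (hA : A = 1 / 10 ^ 12 / N) (hη : η = 1 / 10 ^ 31 / (N : ℝ) ^ 2)
    (hnr : ∑ m ∈ Finset.Ico 1 N, |a m| = A)
    (hAo : Ao = ∑ m ∈ Finset.Ico 1 N, |if m = N - 2 then 0 else a m|)
    (h1 : ∀ t : ℝ, (t = 1 ∨ t = 1 / 2) → ∃ ψ : ℕ → ℝ, (∀ l, ψ (l + 4) = ψ l) ∧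
      (∀ l, 2 ≤ l → l ≤ N - 2 → |a (l - 1) * t ^ (l - 1) - ψ l| ≤ 376 * η + 200 * A ^ 2) ∧
      2 * |a (N - 1) * t ^ (N - 1)| ≤ 3 * (|ψ 2| + |ψ 4|) + 824 * η + 400 * A ^ 2)
    (h2 : ∀ t : ℝ, (t = 1 ∨ t = 1 / 2) → ∃ ψ : ℕ → ℝ, (∀ l, ψ (l + 4) = ψ l) ∧
      (∀ l, 2 ≤ l → l ≤ N - 2 →
        |(a (l - 1) * t ^ (l - 1) + if l = 3 then (a (N - 2) * t ^ (N - 2)) ^ 2 / 2 else 0) - ψ l| ≤
        376 * η + 400 * A * Ao + 200 * (A ^ 3 + A ^ 2 / N))) : False := by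
  have hNR : (10:ℝ)^20 ≤ (N:ℝ) := by exact_mod_cast hN
  have hNpos : (0:ℝ) < N := lt_of_lt_of_le (by positivity) hNR
  have hNbig : 100 ≤ N := le_trans (by norm_num) hN
  obtain ⟨u, hu⟩ : ∃ u : ℝ, u = 1 / (N:ℝ) := ⟨_, rfl⟩
  have hu0 : 0 < u := by rw [hu]; positivity
  have hNu : (N:ℝ) * u = 1 := by rw [hu]; field_simp
  have hu1 : u ≤ 1 / 10^20 := by
    rw [hu]; exact one_div_le_one_div_of_le (by positivity) hNR
  have hA' : A = u / 10^12 := by rw [hA, hu]; field_simp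
  have hη' : η = u^2 / 10^31 := by rw [hη, hu]; field_simp
  have hA0 : 0 < A := by rw [hA']; positivity
  have hη0 : 0 < η := by rw [hη']; positivity
  obtain ⟨e1, he1⟩ : ∃ e1 : ℝ, e1 = 376 * η + 200 * A ^ 2 := ⟨_, rfl⟩
  have he10 : 0 < e1 := by rw [he1]; positivity
  obtain ⟨ψ, hper, hψ, hlast⟩ := h1 1 (Or.inl rfl)
  obtain ⟨ψ', hper', hψ', _⟩ := h1 (1/2) (Or.inr rfl)
  rw [← he1] at hψ hψ'
  have key : ∀ k, 1 ≤ k → k ≤ 4 → |a k| ≤ 35 * e1 ∧ |ψ (k + 1)| ≤ 36 * e1 := by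
    intro k hk1 hk4
    have g1 := hψ (k + 1) (by omega) (by omega)
    have g2 := hψ (k + 1 + 4) (by omega) (by omega)
    have g3 := hψ' (k + 1) (by omega) (by omega)
    have g4 := hψ' (k + 1 + 4) (by omega) (by omega)
    rw [hper] at g2
    rw [hper'] at g4
    have e5 : k + 1 - 1 = k := by omega
    have e6 : k + 1 + 4 - 1 = k + 4 := by omega
    rw [e5] at g1 g3
    rw [e6] at g2 g4
    rw [one_pow, mul_one] at g1 g2
    exact j10475_step k hk1 hk4 _ _ _ _ _ g1 g2 g3 g4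
  have hψb : ∀ l, 2 ≤ l → |ψ l| ≤ 36 * e1 := by
    intro l
    induction l using Nat.strong_induction_on with
    | _ l ih =>
      intro hl
      by_cases h : l ≤ 5
      · have := (key (l - 1) (by omega) (by omega)).2
        rwa [show l - 1 + 1 = l by omega] at this
      · have h3 := ih (l - 4) (by omega) (by omega)
        have h4 := hper (l - 4)
        rw [show l - 4 + 4 = l by omega] at h4
        rwa [h4]
  have ham : ∀ m, 1 ≤ m → m ≤ N - 3 → |a m| ≤ 37 * e1 := by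
    intro m hm1 hm2
    have g1 := hψ (m + 1) (by omega) (by omega)
    rw [show m + 1 - 1 = m by omega, one_pow, mul_one] at g1
    have g2 := hψb (m + 1) (by omega)
    rw [abs_le] at *
    constructor <;> linarith [g1.1, g1.2, g2.1, g2.2]
  have haN1 : |a (N - 1)| ≤ 110 * e1 := by
    rw [one_pow, mul_one] at hlast
    have g1 := hψb 2 (by norm_num)
    have g2 := hψb 4 (by norm_num)
    have : 824 * η + 400 * A ^ 2 ≤ 3 * e1 := by rw [he1]; nlinarith [sq_nonneg A]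
    linarith
  have hAo1 : Ao ≤ (N:ℝ) * (37 * e1) + 110 * e1 := by
    rw [hAo]
    have : ∀ m ∈ Finset.Ico 1 N, |if m = N - 2 then 0 else a m| ≤
        37 * e1 + if m = N - 1 then 110 * e1 else 0 := by
      intro m hm
      rw [Finset.mem_Ico] at hm
      by_cases hm2 : m = N - 2
      · rw [if_pos hm2, abs_zero]
        split_ifs <;> positivity
      · rw [if_neg hm2]
        by_cases hm3 : m = N - 1
        · rw [if_pos hm3, hm3]; linarith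
        · rw [if_neg hm3]
          have := ham m hm.1 (by omega)
          linarith
    refine (Finset.sum_le_sum this).trans ?_
    rw [Finset.sum_add_distrib, Finset.sum_const, Finset.sum_ite_eq', Nat.card_Ico, nsmul_eq_mul]
    rw [if_pos (by rw [Finset.mem_Ico]; omega)]
    have h5 : ((N - 1 : ℕ) : ℝ) ≤ N := by exact_mod_cast Nat.sub_le N 1
    have : ((N - 1 : ℕ) : ℝ) * (37 * e1) ≤ N * (37 * e1) :=
      mul_le_mul_of_nonneg_right h5 (by positivity)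
    linarith
  have hsplit : A = Ao + |a (N - 2)| := by
    rw [← hnr, hAo]
    have : ∀ m ∈ Finset.Ico 1 N, |a m| =
        |if m = N - 2 then 0 else a m| + if m = N - 2 then |a (N - 2)| else 0 := by
      intro m _
      by_cases hm2 : m = N - 2
      · rw [if_pos hm2, if_pos hm2, hm2]; simp
      · rw [if_neg hm2, if_neg hm2]; simp
    rw [Finset.sum_congr rfl this, Finset.sum_add_distrib, Finset.sum_ite_eq',
      if_pos (by rw [Finset.mem_Ico]; omega)]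
  have he1v : e1 ≤ 21 / 10 ^ 23 * u ^ 2 := by
    rw [he1, hA', hη']
    have : (0:ℝ) ≤ u ^ 2 := by positivity
    norm_num
    nlinarith
  have hNe1 : (N:ℝ) * e1 ≤ 21 / 10 ^ 23 * u := by
    calc (N:ℝ) * e1 ≤ N * (21 / 10 ^ 23 * u ^ 2) := mul_le_mul_of_nonneg_left he1v hNpos.le
      _ = 21 / 10 ^ 23 * u * (N * u) := by ring
      _ = 21 / 10 ^ 23 * u := by rw [hNu, mul_one]
  have he1u : e1 ≤ 1 / 10 ^ 30 * u := by
    have : u ^ 2 ≤ 1 / 10 ^ 20 * u := by nlinarith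
    calc e1 ≤ 21 / 10 ^ 23 * u ^ 2 := he1v
      _ ≤ 21 / 10 ^ 23 * (1 / 10 ^ 20 * u) := by gcongr
      _ ≤ 1 / 10 ^ 30 * u := by nlinarith
  have hAo2 : Ao ≤ 1 / 10 ^ 20 * u := by
    have : Ao ≤ 37 * (N * e1) + 110 * e1 := by linarith
    norm_num at *
    linarith
  have hAo0 : 0 ≤ Ao := by rw [hAo]; exact Finset.sum_nonneg fun _ _ => abs_nonneg _
  obtain ⟨b, hb⟩ : ∃ b : ℝ, b = |a (N - 2)| := ⟨_, rfl⟩
  rw [← hb] at hsplit
  have hb1 : 99 / 10 ^ 14 * u ≤ b := by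
    have : b = A - Ao := by linarith
    rw [this, hA']
    norm_num at *
    linarith
  have hbA : b ≤ A := by linarith
  have hb0 : 0 ≤ b := by rw [hb]; exact abs_nonneg _
  -- step 2
  obtain ⟨φ, qper, hφ⟩ := h2 1 (Or.inl rfl)
  obtain ⟨φ', qper', hφ'⟩ := h2 (1/2) (Or.inr rfl)
  obtain ⟨e2, he2⟩ : ∃ e2 : ℝ, e2 = 376 * η + 400 * A * Ao + 200 * (A ^ 3 + A ^ 2 / N) := ⟨_, rfl⟩
  rw [← he2] at hφ hφ'
  obtain ⟨w, hw⟩ : ∃ w : ℝ, w = (a (N - 2) * (1 / 2) ^ (N - 2)) ^ 2 := ⟨_, rfl⟩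
  have p7 : φ 7 = φ 3 := qper 3
  have p11 : φ 11 = φ 3 := (qper 7).trans p7
  have p7' : φ' 7 = φ' 3 := qper' 3
  have p11' : φ' 11 = φ' 3 := (qper' 7).trans p7'
  have f3 := hφ 3 (by norm_num) (by omega)
  have f7 := hφ 7 (by norm_num) (by omega)
  have f11 := hφ 11 (by norm_num) (by omega)
  have f3' := hφ' 3 (by norm_num) (by omega)
  have f7' := hφ' 7 (by norm_num) (by omega)
  have f11' := hφ' 11 (by norm_num) (by omega)
  rw [p7] at f7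
  rw [p11] at f11
  rw [p7'] at f7'
  rw [p11'] at f11'
  have hb2 : b ^ 2 = a (N - 2) ^ 2 := by rw [hb, sq_abs]
  simp only [one_pow, mul_one, ← hb2, if_true] at f3
  rw [if_neg (by norm_num), one_pow, mul_one, add_zero] at f7 f11
  rw [if_pos rfl, ← hw] at f3'
  rw [if_neg (by norm_num), add_zero] at f7' f11'
  norm_num at f3 f7 f11 f3' f7' f11'
  rw [abs_le] at f3 f7 f11 f3' f7' f11'
  have hmain : b ^ 2 ≤ 312 * e2 + 4 * w := by
    linarith [f3.1, f3.2, f7.1, f7.2, f11.1, f11.2, f3'.1, f3'.2, f7'.1, f7'.2, f11'.1, f11'.2]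
  have hwb : w ≤ u * b ^ 2 := by
    rw [hw, mul_pow, ← hb2, mul_comm]
    refine mul_le_mul_of_nonneg_right ?_ (sq_nonneg b)
    have h5 : ((1 / 2 : ℝ) ^ (N - 2)) ^ 2 ≤ u := by
      rw [← pow_mul, hu, div_pow, one_pow]
      apply one_div_le_one_div_of_le hNpos
      have h6 : N ≤ 2 ^ ((N - 2) * 2) := by
        calc N ≤ (N - 2) * 2 := by omega
          _ ≤ 2 ^ ((N - 2) * 2) := Nat.lt_two_pow_self.le
      exact_mod_cast h6
    exact h5
  have he2v : e2 ≤ 1 / 10 ^ 28 * u ^ 2 := by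
    have hA3 : A ^ 3 ≤ 1 / 10 ^ 50 * u ^ 2 := by
      rw [hA']
      have : u ^ 3 ≤ 1 / 10 ^ 20 * u ^ 2 := by
        have : u ^ 3 = u * u ^ 2 := by ring
        rw [this]
        exact mul_le_mul_of_nonneg_right hu1 (by positivity)
      calc (u / 10 ^ 12) ^ 3 = u ^ 3 / 10 ^ 36 := by ring
        _ ≤ (1 / 10 ^ 20 * u ^ 2) / 10 ^ 36 := by gcongr
        _ ≤ 1 / 10 ^ 50 * u ^ 2 := by nlinarith [sq_nonneg u]
    have hA2 : A ^ 2 / N ≤ 1 / 10 ^ 40 * u ^ 2 := by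
      have : A ^ 2 / N = u ^ 2 / 10 ^ 24 * u := by rw [hA', hu]; ring
      rw [this]
      calc u ^ 2 / 10 ^ 24 * u ≤ u ^ 2 / 10 ^ 24 * (1 / 10 ^ 20) := by gcongr
        _ ≤ 1 / 10 ^ 40 * u ^ 2 := by nlinarith [sq_nonneg u]
    have hAA : A * Ao ≤ 1 / 10 ^ 32 * u ^ 2 := by
      calc A * Ao ≤ A * (1 / 10 ^ 20 * u) := mul_le_mul_of_nonneg_left hAo2 hA0.le
        _ = 1 / 10 ^ 32 * u ^ 2 := by rw [hA']; ring
    rw [he2, hη']
    have : (0:ℝ) ≤ u ^ 2 := by positivity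
    norm_num at *
    linarith
  have hb3 : (99 / 10 ^ 14 * u) ^ 2 ≤ b ^ 2 := by gcongr
  have hb4 : b ^ 2 ≤ (u / 10 ^ 12) ^ 2 := by rw [← hA']; gcongr
  have hw2 : w ≤ 1 / 10 ^ 44 * u ^ 2 := by
    calc w ≤ u * b ^ 2 := hwb
      _ ≤ 1 / 10 ^ 20 * (u / 10 ^ 12) ^ 2 := by gcongr
      _ = 1 / 10 ^ 44 * u ^ 2 := by ring
  have hu2 : 0 < u ^ 2 := by positivity
  have : (99 / 10 ^ 14 * u) ^ 2 = 9801 / 10 ^ 28 * u ^ 2 := by ring
  rw [this] at hb3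
  norm_num at *
  linarith


end Pool.Agent.Helper754.TwoN
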