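import Pool.Agent.Helper754.TwoN.Defs
import Pool.Agent.Helper754.TwoN.J_Yk_api
import Pool.Agent.Helper754.TwoN.J_Sl_orth

set_option autoImplicit false
set_option maxHeartbeats 4000000


namespace Pool.Agent.Helper754.TwoN

open Finset Polynomial


private theorem fo_om_pow (N k m : ℕ) : (om N k * om N k ^ m).re =
    Real.cos (Real.pi * ((m + 1 : ℕ) : ℝ) * k / N) := by
  have h1 : om N k * om N k ^ m =
      Complex.exp (((Real.pi * ((m + 1 : ℕ) : ℝ) * k / N : ℝ) : ℂ) * Complex.I) := by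
    rw [← pow_succ', om, ← Complex.exp_nat_mul]
    congr 1
    push_cast
    ring
  rw [h1, Complex.exp_ofReal_mul_I_re]

private theorem fo_om_re (N k : ℕ) : (om N k).re = Real.cos (Real.pi * k / N) := by
  rw [om, Complex.exp_ofReal_mul_I_re]

private theorem fo_f (N : ℕ) (a : ℕ → ℝ) (k : ℕ) : (om N k * Qf N a (om N k)).re =
    ∑ m ∈ Finset.Ico 1 N, a m * Real.cos (Real.pi * ((m + 1 : ℕ) : ℝ) * k / N) := by
  unfold Qf
  rw [Finset.mul_sum, Complex.re_sum]
  apply Finset.sum_congr rfl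
  intro m _
  rw [← fo_om_pow]
  have h : om N k * ((a m : ℂ) * om N k ^ m) = (a m : ℂ) * (om N k * om N k ^ m) := by ring
  rw [h, Complex.re_ofReal_mul]

private theorem fo_main (N : ℕ) (hN : 10 ≤ N) (a : ℕ → ℝ) (A : ℝ) (ha : nr N a ≤ A)
    (hA : A ≤ 1 / 100) (l : ℕ) :
    |Sl N (gk N a) l - ∑ m ∈ Finset.Ico 1 N, a m *
      Sl N (fun k => Real.cos (Real.pi * ((m + 1 : ℕ) : ℝ) * k / N)) l| ≤ 2 * N * (100 * A ^ 2) := by
  have hN1 : 1 ≤ N := by omega
  have hnr0 : 0 ≤ nr N a := Finset.sum_nonneg (fun _ _ => abs_nonneg _)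
  have hz : nr N (fun _ => 0) = 0 := by simp [nr]
  have hcl : ∀ k ≤ N, |gk N a k - ∑ m ∈ Finset.Ico 1 N,
      a m * Real.cos (Real.pi * ((m + 1 : ℕ) : ℝ) * k / N)| ≤ 100 * A ^ 2 := by
    intro k _
    have h := (Yk_compare N hN1 a (fun _ => 0) (ha.trans hA) (by rw [hz]; norm_num) k).2
    rw [Yk_at_zero N hN1 k, hz] at h
    have hQ : Qf N (fun _ => 0) (om N k) = 0 := by simp [Qf]
    rw [hQ] at h
    simp only [sub_zero, add_zero] at h
    have h2 : (N * (Yk N a k - om N k) - om N k * Qf N a (om N k)).re =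
        gk N a k - ∑ m ∈ Finset.Ico 1 N, a m * Real.cos (Real.pi * ((m + 1 : ℕ) : ℝ) * k / N) := by
      rw [Complex.sub_re, fo_f]
      congr 1
      unfold gk
      rw [← fo_om_re, ← Complex.sub_re, ← Complex.re_ofReal_mul]
      push_cast
      rfl
    rw [← h2]
    refine (Complex.abs_re_le_norm _).trans (h.trans ?_)
    nlinarith
  have h1 : Sl N (gk N a) l = Sl N (fun k => ∑ m ∈ Finset.Ico 1 N,
      a m * Real.cos (Real.pi * ((m + 1 : ℕ) : ℝ) * k / N)) l + Sl N (fun k => gk N a k -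
        ∑ m ∈ Finset.Ico 1 N, a m * Real.cos (Real.pi * ((m + 1 : ℕ) : ℝ) * k / N)) l := by
    rw [← Sl_add]
    congr 1
    funext k
    ring
  have h2 : Sl N (fun k => ∑ m ∈ Finset.Ico 1 N,
      a m * Real.cos (Real.pi * ((m + 1 : ℕ) : ℝ) * k / N)) l =
      ∑ m ∈ Finset.Ico 1 N, a m *
        Sl N (fun k => Real.cos (Real.pi * ((m + 1 : ℕ) : ℝ) * k / N)) l := by
    rw [Sl_sum N l (Finset.Ico 1 N)
      (fun m k => a m * Real.cos (Real.pi * ((m + 1 : ℕ) : ℝ) * k / N))]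
    apply Finset.sum_congr rfl
    intro m _
    exact Sl_smul N l (a m) _
  rw [h1, h2, add_sub_cancel_left]
  exact Sl_bound N l hN1 _ _ hcl

theorem first_order (N : ℕ) (hN : 10 ≤ N) (a : ℕ → ℝ) (A : ℝ) (ha : nr N a ≤ A)
    (hA : A ≤ 1 / 100) :
    (∀ l, 2 ≤ l → l < N → |Sl N (gk N a) l / N - a (l - 1)| ≤ 200 * A ^ 2) ∧
    |Sl N (gk N a) N / N - 2 * a (N - 1)| ≤ 200 * A ^ 2 ∧
    |Sl N (gk N a) 0 / N| ≤ 200 * A ^ 2 := by
  have hN1 : 1 ≤ N := by omega
  have hNpos : (0 : ℝ) < N := by exact_mod_cast (by omega : 0 < N)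
  have hdiv : ∀ x y : ℝ, |x - N * y| ≤ 2 * N * (100 * A ^ 2) → |x / N - y| ≤ 200 * A ^ 2 := by
    intro x y hxy
    have h1 : x / N - y = (x - N * y) / N := by field_simp
    rw [h1, abs_div, abs_of_pos hNpos, div_le_iff₀ hNpos]
    linarith
  have hterm : ∀ l ≤ N, ∀ m ∈ Finset.Ico 1 N, a m *
      Sl N (fun k => Real.cos (Real.pi * ((m + 1 : ℕ) : ℝ) * k / N)) l =
      a m * (if m + 1 = l then (if l = 0 ∨ l = N then 2 * (N : ℝ) else N) else 0) := by
    intro l hl m hm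
    rw [Finset.mem_Ico] at hm
    rw [Sl_orth N (m + 1) l hN1 (by omega) hl]
  refine ⟨?_, ?_, ?_⟩
  · intro l hl2 hlN
    apply hdiv
    have h := fo_main N hN a A ha hA l
    rw [Finset.sum_congr rfl (hterm l hlN.le), Finset.sum_eq_single (l - 1)] at h
    · have e1 : l - 1 + 1 = l := by omega
      have e2 : ¬ (l = 0 ∨ l = N) := by omega
      rw [if_pos e1, if_neg e2, mul_comm (a (l - 1))] at h
      exact h
    · intro m hm hne
      rw [if_neg (by omega), mul_zero]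
    · intro hnot
      exact absurd (Finset.mem_Ico.2 ⟨by omega, by omega⟩) hnot
  · apply hdiv
    have h := fo_main N hN a A ha hA N
    rw [Finset.sum_congr rfl (hterm N le_rfl), Finset.sum_eq_single (N - 1)] at h
    · have e1 : N - 1 + 1 = N := by omega
      rw [if_pos e1, if_pos (Or.inr rfl)] at h
      have e3 : (N : ℝ) * (2 * a (N - 1)) = a (N - 1) * (2 * (N : ℝ)) := by ring
      rw [e3]
      exact h
    · intro m hm hne
      rw [if_neg (by omega), mul_zero]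
    · intro hnot
      exact absurd (Finset.mem_Ico.2 ⟨by omega, by omega⟩) hnot
  · have h := fo_main N hN a A ha hA 0
    rw [Finset.sum_congr rfl (hterm 0 (Nat.zero_le _)), Finset.sum_eq_zero] at h
    · have h2 := hdiv (Sl N (gk N a) 0) 0 (by simpa using h)
      simpa using h2
    · intro m _
      rw [if_neg (by omega), mul_zero]


end Pool.Agent.Helper754.TwoN
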