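import Pool.Agent.Helper754.TwoN.Defs
import Pool.Agent.Helper754.TwoN.J_isS_bound

set_option autoImplicit false
set_option maxHeartbeats 4000000


namespace Pool.Agent.Helper754.TwoN

open Finset Polynomial


private theorem nr_single (N : ℕ) (hN : 3 ≤ N) (b : ℝ) :
    nr N (fun m => if m = N - 2 then b else 0) = |b| := by
  unfold nr
  rw [Finset.sum_eq_single (N - 2)]
  · simp
  · intro m _ hm
    simp [hm]
  · intro hm
    exfalso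
    apply hm
    rw [Finset.mem_Ico]
    omega

private theorem Qf_single (N : ℕ) (hN : 3 ≤ N) (b : ℝ) (y : ℂ) :
    Qf N (fun m => if m = N - 2 then b else 0) y = b * y ^ (N - 2) := by
  unfold Qf
  rw [Finset.sum_eq_single (N - 2)]
  · simp
  · intro m _ hm
    simp [hm]
  · intro hm
    exfalso
    apply hm
    rw [Finset.mem_Ico]
    omega

private theorem exp_third (x : ℂ) (hx : ‖x‖ ≤ 1) : ‖Complex.exp x - 1 - x - x ^ 2 / 2‖ ≤ ‖x‖ ^ 3 := by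
  have h := Complex.exp_bound hx (show 0 < 3 by norm_num)
  have e : ∑ m ∈ Finset.range 3, x ^ m / (m.factorial : ℂ) = 1 + x + x ^ 2 / 2 := by
    simp [Finset.sum_range_succ, Nat.factorial]
  rw [e] at h
  have e2 : Complex.exp x - 1 - x - x ^ 2 / 2 = Complex.exp x - (1 + x + x ^ 2 / 2) := by ring
  rw [e2]
  refine h.trans ?_
  have h3 : (0 : ℝ) ≤ ‖x‖ ^ 3 := by positivity
  have h4 : (((3 : ℕ).succ : ℝ) * (((3 : ℕ).factorial : ℝ) * (3 : ℕ))⁻¹) ≤ 1 := by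
    norm_num [Nat.factorial]
  calc _ ≤ ‖x‖ ^ 3 * 1 := mul_le_mul_of_nonneg_left h4 h3
    _ = _ := mul_one _

theorem isS_second (N : ℕ) (hN : 3 ≤ N) (b : ℝ) (hb : |b| ≤ 1 / 100) (w s : ℂ)
    (hw : ‖w‖ = 1) (h : IsS N (fun m => if m = N - 2 then b else 0) w s) :
    ‖N * (w * Complex.exp s - w) - (b * w ^ (N - 1) + (b : ℂ) ^ 2 / 2 * w ^ (2 * N - 3))‖ ≤
      100 * (|b| ^ 3 + b ^ 2 / N) := by
  have hs : ‖s‖ ≤ 2 * |b| / N := by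
    have := isS_bound N (by omega) _ (by rw [nr_single N hN]; exact hb) w s hw h
    rwa [nr_single N hN] at this
  obtain ⟨-, hE⟩ := h
  rw [Qf_single N hN] at hE
  have hN0 : (3 : ℝ) ≤ (N : ℝ) := by exact_mod_cast hN
  have hNpos : (0 : ℝ) < N := by linarith
  obtain ⟨k, rfl⟩ : ∃ k, N = k + 3 := ⟨N - 3, by omega⟩
  have e1 : k + 3 - 2 = k + 1 := by omega
  have e2 : k + 3 - 1 = k + 2 := by omega
  have e3 : 2 * (k + 3) - 3 = 2 * k + 3 := by omega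
  rw [e1] at hE
  rw [e2, e3]
  -- names
  obtain ⟨M, hM⟩ : ∃ M : ℂ, M = ((k + 3 : ℕ) : ℂ) := ⟨_, rfl⟩
  obtain ⟨R, hR⟩ : ∃ R : ℝ, R = ((k + 3 : ℕ) : ℝ) := ⟨_, rfl⟩
  have hMR : ‖M‖ = R := by rw [hM, hR, Complex.norm_natCast]
  rw [← hR] at hs hN0 hNpos ⊢
  rw [← hM] at hE ⊢
  obtain ⟨β, hβ⟩ : ∃ β : ℝ, β = |b| := ⟨_, rfl⟩
  have hβ0 : 0 ≤ β := by rw [hβ]; exact abs_nonneg b
  have hb2 : b ^ 2 = β ^ 2 := by rw [hβ, sq_abs]
  rw [hb2]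
  rw [← hβ] at hs hb ⊢
  obtain ⟨L, hL⟩ : ∃ L : ℂ, L = M * s := ⟨_, rfl⟩
  obtain ⟨u, hu⟩ : ∃ u : ℂ, u = b * w ^ (k + 1) := ⟨_, rfl⟩
  have hun : ‖u‖ = β := by
    rw [hu, norm_mul, norm_pow, hw, one_pow, mul_one, Complex.norm_real, hβ, Real.norm_eq_abs]
  have hLn : ‖L‖ ≤ 2 * β := by
    rw [hL, norm_mul, hMR]
    calc R * ‖s‖ ≤ R * (2 * β / R) := mul_le_mul_of_nonneg_left hs hNpos.le
      _ = 2 * β := by field_simp
  have hs1 : ‖s‖ ≤ 2 * β / 3 := by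
    refine hs.trans ?_
    exact div_le_div_of_nonneg_left (by positivity) (by norm_num) hN0
  obtain ⟨Q, hQ⟩ : ∃ Q : ℂ, Q = Complex.exp L - 1 := ⟨_, rfl⟩
  have hQn : ‖Q‖ ≤ 4 * β := by
    rw [hQ]
    refine (Complex.norm_exp_sub_one_le (by linarith)).trans ?_
    linarith
  -- the equation
  obtain ⟨F, hF⟩ : ∃ F : ℂ, F = Complex.exp (-(2 * s)) - 1 := ⟨_, rfl⟩
  have hFn : ‖F‖ ≤ 8 * β / R := by
    rw [hF]
    have h1 : ‖-(2 * s)‖ = 2 * ‖s‖ := by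
      rw [norm_neg, norm_mul]; simp
    refine (Complex.norm_exp_sub_one_le (by rw [h1]; linarith)).trans ?_
    rw [h1]
    calc 2 * (2 * ‖s‖) ≤ 2 * (2 * (2 * β / R)) := by linarith
      _ = 8 * β / R := by ring
  have hQe : Q = u * (1 + Q) * (1 + F) := by
    have h1 : Q = b * (w * Complex.exp s) ^ (k + 1) := by
      rw [hQ, hL, hE]; ring
    have h2 : (1 + Q) * (1 + F) = Complex.exp s ^ (k + 1) := by
      rw [hQ, hF, ← Complex.exp_nat_mul]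
      have : (1 + (Complex.exp L - 1)) * (1 + (Complex.exp (-(2 * s)) - 1)) =
          Complex.exp L * Complex.exp (-(2 * s)) := by ring
      rw [this, ← Complex.exp_add, hL, hM]
      congr 1
      push_cast
      ring
    rw [mul_assoc, h2, hu]
    rw [mul_pow] at h1
    rw [mul_assoc]
    exact h1
  obtain ⟨E1, hE1⟩ : ∃ E1 : ℂ, E1 = u * (1 + Q) * F := ⟨_, rfl⟩
  have hE1n : ‖E1‖ ≤ 9 * (β ^ 2 / R) := by
    rw [hE1, norm_mul, norm_mul, hun]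
    have h1 : ‖1 + Q‖ ≤ 1 + 4 * β := (norm_add_le _ _).trans (by rw [norm_one]; linarith)
    have h2 : ‖1 + Q‖ ≤ 9 / 8 := by linarith
    calc β * ‖1 + Q‖ * ‖F‖ ≤ β * (9 / 8) * (8 * β / R) := by
          apply mul_le_mul (mul_le_mul_of_nonneg_left h2 hβ0) hFn (norm_nonneg _) (by positivity)
      _ = 9 * (β ^ 2 / R) := by ring
  have hQ1 : Q = u + u * Q + E1 := by
    rw [hE1]; linear_combination hQe
  have hQ2 : Q = u + u ^ 2 + (u ^ 2 * Q + u * E1 + E1) := by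
    linear_combination (1 + u) * hQ1
  obtain ⟨E2, hE2⟩ : ∃ E2 : ℂ, E2 = u ^ 2 * Q + u * E1 + E1 := ⟨_, rfl⟩
  have hβR : 0 ≤ β ^ 2 / R := by positivity
  have hE2n : ‖E2‖ ≤ 4 * β ^ 3 + 10 * (β ^ 2 / R) := by
    rw [hE2]
    have h1 : ‖u ^ 2 * Q‖ ≤ 4 * β ^ 3 := by
      rw [norm_mul, norm_pow, hun]
      calc β ^ 2 * ‖Q‖ ≤ β ^ 2 * (4 * β) := mul_le_mul_of_nonneg_left hQn (by positivity)
        _ = 4 * β ^ 3 := by ring
    have h2 : ‖u * E1‖ ≤ β ^ 2 / R := by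
      rw [norm_mul, hun]
      calc β * ‖E1‖ ≤ (1 / 100) * (9 * (β ^ 2 / R)) := by
            apply mul_le_mul hb hE1n (norm_nonneg _) (by norm_num)
        _ ≤ β ^ 2 / R := by linarith
    calc ‖u ^ 2 * Q + u * E1 + E1‖ ≤ ‖u ^ 2 * Q‖ + ‖u * E1‖ + ‖E1‖ := norm_add₃_le
      _ ≤ _ := by linarith
  -- E3
  obtain ⟨E3, hE3⟩ : ∃ E3 : ℂ, E3 = Complex.exp L - 1 - L - L ^ 2 / 2 := ⟨_, rfl⟩
  have hE3n : ‖E3‖ ≤ 8 * β ^ 3 := by
    rw [hE3]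
    refine (exp_third L (by linarith)).trans ?_
    calc ‖L‖ ^ 3 ≤ (2 * β) ^ 3 := pow_le_pow_left₀ (norm_nonneg _) hLn 3
      _ = 8 * β ^ 3 := by ring
  have hLQ : ‖Q - L‖ ≤ 4 * β ^ 2 := by
    rw [hQ]
    refine (Complex.norm_exp_sub_one_sub_id_le (by linarith)).trans ?_
    calc ‖L‖ ^ 2 ≤ (2 * β) ^ 2 := pow_le_pow_left₀ (norm_nonneg _) hLn 2
      _ = 4 * β ^ 2 := by ring
  have hβR3 : β ^ 2 / R ≤ β ^ 2 / 3 :=
    div_le_div_of_nonneg_left (by positivity) (by norm_num) hN0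
  have hQu : ‖Q - u‖ ≤ 7 * β ^ 2 := by
    have : Q - u = u * Q + E1 := by linear_combination hQ1
    rw [this]
    have h1 : ‖u * Q‖ ≤ 4 * β ^ 2 := by
      rw [norm_mul, hun]
      calc β * ‖Q‖ ≤ β * (4 * β) := mul_le_mul_of_nonneg_left hQn hβ0
        _ = 4 * β ^ 2 := by ring
    calc ‖u * Q + E1‖ ≤ ‖u * Q‖ + ‖E1‖ := norm_add_le _ _
      _ ≤ 4 * β ^ 2 + 9 * (β ^ 2 / R) := add_le_add h1 hE1n
      _ ≤ 7 * β ^ 2 := by linarith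
  have hLu : ‖L - u‖ ≤ 11 * β ^ 2 := by
    have : L - u = (Q - u) - (Q - L) := by ring
    rw [this]
    calc ‖(Q - u) - (Q - L)‖ ≤ ‖Q - u‖ + ‖Q - L‖ := norm_sub_le _ _
      _ ≤ _ := by linarith
  have hL2 : ‖(L ^ 2 - u ^ 2) / 2‖ ≤ 17 * β ^ 3 := by
    have h1 : (L ^ 2 - u ^ 2) / 2 = (L - u) * (L + u) / 2 := by ring
    rw [h1, norm_div, norm_mul]
    have h2 : ‖L + u‖ ≤ 3 * β := (norm_add_le _ _).trans (by rw [hun]; linarith)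
    have h3 : ‖L - u‖ * ‖L + u‖ ≤ 11 * β ^ 2 * (3 * β) :=
      mul_le_mul hLu h2 (norm_nonneg _) (by positivity)
    have h4 : ‖(2 : ℂ)‖ = 2 := by simp
    rw [h4]
    have h5 : 0 ≤ β ^ 3 := by positivity
    calc ‖L - u‖ * ‖L + u‖ / 2 ≤ 11 * β ^ 2 * (3 * β) / 2 := by linarith
      _ = 33 / 2 * β ^ 3 := by ring
      _ ≤ 17 * β ^ 3 := by linarith
  -- E4
  obtain ⟨E4, hE4⟩ : ∃ E4 : ℂ, E4 = M * (Complex.exp s - 1 - s) := ⟨_, rfl⟩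
  have hE4n : ‖E4‖ ≤ 4 * (β ^ 2 / R) := by
    rw [hE4, norm_mul, hMR]
    have h1 := Complex.norm_exp_sub_one_sub_id_le (x := s) (by linarith)
    calc R * ‖Complex.exp s - 1 - s‖ ≤ R * ‖s‖ ^ 2 := mul_le_mul_of_nonneg_left h1 hNpos.le
      _ ≤ R * (2 * β / R) ^ 2 :=
          mul_le_mul_of_nonneg_left (pow_le_pow_left₀ (norm_nonneg _) hs 2) hNpos.le
      _ = 4 * (β ^ 2 / R) := by field_simp; ring
  have hLf : L = u + u ^ 2 / 2 + (E2 - (L ^ 2 - u ^ 2) / 2 - E3) := by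
    rw [hE3, ← hQ, hE2]
    linear_combination hQ2
  have hfin : M * (w * Complex.exp s - w) -
      (b * w ^ (k + 2) + (b : ℂ) ^ 2 / 2 * w ^ (2 * k + 3)) =
      w * ((E2 - (L ^ 2 - u ^ 2) / 2 - E3) + E4) := by
    have h1 : b * w ^ (k + 2) + (b : ℂ) ^ 2 / 2 * w ^ (2 * k + 3) = w * (u + u ^ 2 / 2) := by
      rw [hu]; ring
    rw [h1, hE4]
    linear_combination w * hLf - w * hL
  rw [hfin, norm_mul, hw, one_mul]
  have h5 : 0 ≤ β ^ 3 := by positivity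
  calc ‖(E2 - (L ^ 2 - u ^ 2) / 2 - E3) + E4‖
      ≤ ‖E2 - (L ^ 2 - u ^ 2) / 2 - E3‖ + ‖E4‖ := norm_add_le _ _
    _ ≤ (‖E2 - (L ^ 2 - u ^ 2) / 2‖ + ‖E3‖) + ‖E4‖ := by
        gcongr; exact norm_sub_le _ _
    _ ≤ ((‖E2‖ + ‖(L ^ 2 - u ^ 2) / 2‖) + ‖E3‖) + ‖E4‖ := by
        gcongr; exact norm_sub_le _ _
    _ ≤ 100 * (β ^ 3 + β ^ 2 / R) := by linarith


end Pool.Agent.Helper754.TwoN
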