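import Pool.Agent.Helper754.TwoN.Defs
import Pool.Agent.Helper754.TwoN.J_Yk_api
import Pool.Agent.Helper754.TwoN.J_Sl_orth
import Pool.Agent.Helper754.TwoN.J_isS_second

set_option autoImplicit false
set_option maxHeartbeats 4000000


namespace Pool.Agent.Helper754.TwoN

open Finset Polynomial


private theorem om_pow_re (N k j : ℕ) : (om N k ^ j).re = Real.cos (Real.pi * j * k / N) := by
  unfold om
  rw [← Complex.exp_nat_mul]
  have : (j : ℂ) * (((Real.pi * k / N : ℝ) : ℂ) * Complex.I) =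
      ((Real.pi * j * k / N : ℝ) : ℂ) * Complex.I := by
    push_cast; ring
  rw [this, Complex.exp_ofReal_mul_I_re]

private theorem om_norm (N k : ℕ) : ‖om N k‖ = 1 := by
  unfold om
  rw [Complex.norm_exp_ofReal_mul_I]

private theorem gk_main (N : ℕ) (hN : 10 ≤ N) (a : ℕ → ℝ) (A Ao : ℝ) (ha : nr N a ≤ A)
    (hAo : nr N (fun m => if m = N - 2 then 0 else a m) ≤ Ao) (hA : A ≤ 1 / 100) (k : ℕ) :
    |gk N a k - (∑ m ∈ Finset.Ico 1 N, a m * Real.cos (Real.pi * (m + 1 : ℕ) * k / N) +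
      a (N - 2) ^ 2 / 2 * Real.cos (Real.pi * (3 : ℕ) * k / N))| ≤
      200 * A * Ao + 100 * (A ^ 3 + A ^ 2 / N) := by
  have hNpos : (0:ℝ) < N := by exact_mod_cast (by omega : 0 < N)
  have hmem : N - 2 ∈ Finset.Ico 1 N := Finset.mem_Ico.2 ⟨by omega, by omega⟩
  set b := a (N - 2) with hb
  set ab : ℕ → ℝ := fun m => if m = N - 2 then b else 0 with hab
  have hnra : 0 ≤ nr N a := Finset.sum_nonneg (fun _ _ => abs_nonneg _)
  have hbA : |b| ≤ nr N a := by
    unfold nr
    exact Finset.single_le_sum (f := fun m => |a m|) (fun m _ => abs_nonneg _) hmem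
  have hnrab : nr N ab = |b| := by
    unfold nr
    rw [Finset.sum_eq_single (N - 2)]
    · simp [hab]
    · intro m _ hne; simp [hab, hne]
    · intro h; exact absurd hmem h
  have hdiff : (fun m => a m - ab m) = (fun m => if m = N - 2 then 0 else a m) := by
    funext m
    by_cases h : m = N - 2
    · simp [hab, h, hb]
    · simp [hab, h]
  have hc := (Yk_compare N (by omega) a ab (by linarith) (by rw [hnrab]; linarith) k).2
  rw [hdiff, hnrab] at hc
  have hd0 : 0 ≤ nr N (fun m => if m = N - 2 then 0 else a m) :=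
    Finset.sum_nonneg (fun _ _ => abs_nonneg _)
  have hc' : 100 * (nr N a + |b|) * nr N (fun m => if m = N - 2 then 0 else a m) ≤ 200 * A * Ao := by
    have h1 : 100 * (nr N a + |b|) ≤ 200 * A := by linarith
    have h2 : 0 ≤ 100 * (nr N a + |b|) := by positivity
    calc _ ≤ (200 * A) * nr N (fun m => if m = N - 2 then 0 else a m) := by gcongr
      _ ≤ 200 * A * Ao := by
        apply mul_le_mul_of_nonneg_left hAo; linarith
  have hs := isS_second N (by omega) b (by linarith) (om N k) (sr N ab (om N k)) (om_norm N k)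
    (sr_isS N (by omega) ab (by rw [hnrab]; linarith) k)
  have hs' : 100 * (|b| ^ 3 + b ^ 2 / N) ≤ 100 * (A ^ 3 + A ^ 2 / N) := by
    have h1 : |b| ≤ A := by linarith
    have h2 : |b| ^ 3 ≤ A ^ 3 := by gcongr
    have h3 : b ^ 2 ≤ A ^ 2 := by
      rw [← sq_abs b]; gcongr
    have h4 : b ^ 2 / N ≤ A ^ 2 / N := by gcongr
    linarith
  have hY : om N k * Complex.exp (sr N ab (om N k)) = Yk N ab k := rfl
  rw [hY] at hs
  have hQab : Qf N ab (om N k) = b * om N k ^ (N - 2) := by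
    unfold Qf
    rw [Finset.sum_eq_single (N - 2)]
    · simp [hab]
    · intro m _ hne; simp [hab, hne]
    · intro h; exact absurd hmem h
  have hQ : om N k * Qf N a (om N k) = ∑ m ∈ Finset.Ico 1 N, (a m : ℂ) * om N k ^ (m + 1) := by
    unfold Qf
    rw [Finset.mul_sum]
    apply Finset.sum_congr rfl
    intro m _; ring
  have hpow : om N k * (b * om N k ^ (N - 2)) = b * om N k ^ (N - 1) := by
    have : N - 1 = N - 2 + 1 := by omega
    rw [this, pow_succ]; ring
  have key : ‖N * (Yk N a k - om N k) - (∑ m ∈ Finset.Ico 1 N, (a m : ℂ) * om N k ^ (m + 1) +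
      (b : ℂ) ^ 2 / 2 * om N k ^ (2 * N - 3))‖ ≤ 200 * A * Ao + 100 * (A ^ 3 + A ^ 2 / N) := by
    have heq : N * (Yk N a k - om N k) - (∑ m ∈ Finset.Ico 1 N, (a m : ℂ) * om N k ^ (m + 1) +
      (b : ℂ) ^ 2 / 2 * om N k ^ (2 * N - 3)) =
      (N * (Yk N a k - Yk N ab k) - om N k * (Qf N a (om N k) - Qf N ab (om N k))) +
      (N * (Yk N ab k - om N k) - (b * om N k ^ (N - 1) + (b : ℂ) ^ 2 / 2 * om N k ^ (2 * N - 3))) := by
      rw [← hQ, ← hpow, hQab]; ring
    rw [heq]
    exact (norm_add_le _ _).trans (add_le_add (hc.trans hc') (hs.trans hs'))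
  have hre : gk N a k - (∑ m ∈ Finset.Ico 1 N, a m * Real.cos (Real.pi * (m + 1 : ℕ) * k / N) +
      b ^ 2 / 2 * Real.cos (Real.pi * (3 : ℕ) * k / N)) =
      (N * (Yk N a k - om N k) - (∑ m ∈ Finset.Ico 1 N, (a m : ℂ) * om N k ^ (m + 1) +
      (b : ℂ) ^ 2 / 2 * om N k ^ (2 * N - 3))).re := by
    have h1 : (N * (Yk N a k - om N k) : ℂ).re = gk N a k := by
      unfold gk
      have hom : (om N k).re = Real.cos (Real.pi * k / N) := by
        have := om_pow_re N k 1
        simpa using this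
      rw [← hom]
      have : ((N:ℂ)) = ((N:ℝ):ℂ) := by push_cast; rfl
      rw [this, Complex.re_ofReal_mul, Complex.sub_re]
    have h2 : (∑ m ∈ Finset.Ico 1 N, (a m : ℂ) * om N k ^ (m + 1)).re =
        ∑ m ∈ Finset.Ico 1 N, a m * Real.cos (Real.pi * (m + 1 : ℕ) * k / N) := by
      rw [Complex.re_sum]
      apply Finset.sum_congr rfl
      intro m _
      rw [Complex.re_ofReal_mul, om_pow_re]
    have h3 : ((b : ℂ) ^ 2 / 2 * om N k ^ (2 * N - 3)).re =
        b ^ 2 / 2 * Real.cos (Real.pi * (3 : ℕ) * k / N) := by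
      have : ((b : ℂ) ^ 2 / 2) = ((b ^ 2 / 2 : ℝ) : ℂ) := by push_cast; rfl
      rw [this, Complex.re_ofReal_mul, om_pow_re]
      congr 1
      have h4 : Real.pi * ((2 * N - 3 : ℕ) : ℝ) * k / N = k * (2 * Real.pi) -
          Real.pi * (3 : ℕ) * k / N := by
        rw [Nat.cast_sub (by omega)]
        push_cast
        field_simp
        
      rw [h4, Real.cos_nat_mul_two_pi_sub]
    rw [Complex.sub_re, h1, Complex.add_re, h2, h3]
  rw [hre]
  exact (Complex.abs_re_le_norm _).trans key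

theorem second_order (N : ℕ) (hN : 10 ≤ N) (a : ℕ → ℝ) (A Ao : ℝ) (ha : nr N a ≤ A)
    (hAo : nr N (fun m => if m = N - 2 then 0 else a m) ≤ Ao) (hA : A ≤ 1 / 100) (l : ℕ)
    (hl : 2 ≤ l) (hl' : l ≤ N - 2) :
    |Sl N (gk N a) l / N - (a (l - 1) + if l = 3 then a (N - 2) ^ 2 / 2 else 0)| ≤
      400 * A * Ao + 200 * (A ^ 3 + A ^ 2 / N) := by
  have hNpos : (0:ℝ) < N := by exact_mod_cast (by omega : 0 < N)
  set E := 200 * A * Ao + 100 * (A ^ 3 + A ^ 2 / N) with hE
  set mn : ℕ → ℝ := fun k => ∑ m ∈ Finset.Ico 1 N, a m * Real.cos (Real.pi * (m + 1 : ℕ) * k / N) +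
      a (N - 2) ^ 2 / 2 * Real.cos (Real.pi * (3 : ℕ) * k / N) with hmn
  have hdec : gk N a = fun k => mn k + (gk N a k - mn k) := by
    funext k; ring
  have h1 : Sl N (gk N a) l = Sl N mn l + Sl N (fun k => gk N a k - mn k) l := by
    conv_lhs => rw [hdec]
    exact Sl_add N l _ _
  have h2 : |Sl N (fun k => gk N a k - mn k) l| ≤ 2 * N * E :=
    Sl_bound N l (by omega) _ E (fun k _ => gk_main N hN a A Ao ha hAo hA k)
  have h3 : Sl N mn l = N * (a (l - 1) + if l = 3 then a (N - 2) ^ 2 / 2 else 0) := by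
    have e1 : Sl N mn l = Sl N (fun k => ∑ m ∈ Finset.Ico 1 N,
        a m * Real.cos (Real.pi * (m + 1 : ℕ) * k / N)) l +
        Sl N (fun k => a (N - 2) ^ 2 / 2 * Real.cos (Real.pi * (3 : ℕ) * k / N)) l :=
      Sl_add N l _ _
    rw [e1, Sl_sum N l (Finset.Ico 1 N) (fun m k => a m * Real.cos (Real.pi * (m + 1 : ℕ) * k / N)),
      Sl_smul, Sl_orth N 3 l (by omega) (by omega) (by omega)]
    have e2 : ∑ m ∈ Finset.Ico 1 N, Sl N (fun k => a m * Real.cos (Real.pi * (m + 1 : ℕ) * k / N)) l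
        = a (l - 1) * N := by
      rw [Finset.sum_eq_single (l - 1)]
      · rw [Sl_smul, Sl_orth N (l - 1 + 1) l (by omega) (by omega) (by omega), if_pos (by omega),
          if_neg (by omega)]
      · intro m hm hne
        have hm' := Finset.mem_Ico.1 hm
        rw [Sl_smul, Sl_orth N (m + 1) l (by omega) (by omega) (by omega), if_neg (by omega), mul_zero]
      · intro h
        exact absurd (Finset.mem_Ico.2 ⟨by omega, by omega⟩) h
    rw [e2]
    by_cases h : l = 3
    · subst h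
      rw [if_pos rfl, if_neg (by omega), if_pos rfl]; ring
    · rw [if_neg (fun h' => h h'.symm), if_neg h]; ring
  have h4 : Sl N (gk N a) l / N - (a (l - 1) + if l = 3 then a (N - 2) ^ 2 / 2 else 0) =
      Sl N (fun k => gk N a k - mn k) l / N := by
    rw [h1, h3]
    field_simp
    ring
  rw [h4, abs_div, abs_of_pos hNpos, div_le_iff₀ hNpos]
  calc _ ≤ 2 * N * E := h2
    _ = (400 * A * Ao + 200 * (A ^ 3 + A ^ 2 / N)) * N := by rw [hE]; ring


end Pool.Agent.Helper754.TwoN
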