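import Pool.Agent.Helper754.TwoN.Defs
import Pool.Agent.Helper754.TwoN.J_Sl_orth

set_option autoImplicit false
set_option maxHeartbeats 4000000


namespace Pool.Agent.Helper754.TwoN

open Finset Polynomial


private theorem trig_half (n : ℕ) (f : ℕ → ℝ) :
    ∑ k ∈ Finset.Ico 1 (2 * n + 1), f k = ∑ i ∈ Finset.range n, (f (2 * i + 1) + f (2 * i + 2)) := by
  induction n with
  | zero => simp
  | succ n ih =>
    rw [show 2 * (n + 1) + 1 = (2 * n + 1) + 1 + 1 by ring,
      Finset.sum_Ico_succ_top (by omega), Finset.sum_Ico_succ_top (by omega), ih,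
      Finset.sum_range_succ]
    ring

private theorem trig_split (u : ℕ) (f : ℕ → ℝ) :
    ∑ k ∈ Finset.Ico 1 (8 * u + 2), f k = f (4 * u + 1)
      + ∑ i ∈ Finset.range (2 * u), (f (2 * i + 1) + f (8 * u + 2 - (2 * i + 1)))
      + ∑ i ∈ Finset.range (2 * u), (f (2 * i + 2) + f (8 * u + 2 - (2 * i + 2))) := by
  have h1 : ∑ k ∈ Finset.Ico 1 (8 * u + 2), f k =
      ∑ k ∈ Finset.Ico 1 (4 * u + 1), f k + ∑ k ∈ Finset.Ico (4 * u + 1) (8 * u + 2), f k :=
    (Finset.sum_Ico_consecutive f (by omega) (by omega)).symm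
  have h2 : ∑ k ∈ Finset.Ico (4 * u + 1) (8 * u + 2), f k =
      f (4 * u + 1) + ∑ k ∈ Finset.Ico (4 * u + 2) (8 * u + 2), f k :=
    Finset.sum_eq_sum_Ico_succ_bot (by omega) f
  have h3 := Finset.sum_Ico_reflect f 1 (m := 4 * u + 1) (n := 8 * u + 2) (by omega)
  have e1 : 8 * u + 2 + 1 - (4 * u + 1) = 4 * u + 2 := by omega
  have e2 : 8 * u + 2 + 1 - 1 = 8 * u + 2 := by omega
  rw [e1, e2] at h3
  have h4 := trig_half (2 * u) f
  have h5 := trig_half (2 * u) (fun k => f (8 * u + 2 - k))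
  have e3 : 2 * (2 * u) + 1 = 4 * u + 1 := by ring
  rw [e3] at h4 h5
  rw [h1, h2, ← h3, h4, h5, Finset.sum_add_distrib, Finset.sum_add_distrib,
    Finset.sum_add_distrib, Finset.sum_add_distrib]
  ring

/-- comparison function -/
private noncomputable def trig_m (N : ℕ) (ν μ : ℕ → ℝ) (k : ℕ) : ℝ :=
  ((N : ℝ) / 2 * (ν 0 + ν 1)) * Real.cos (Real.pi * ((0 : ℕ) : ℝ) * k / N) +
    (((N : ℝ) / 2 * (ν 1 - ν 0)) * Real.cos (Real.pi * (N : ℝ) * k / N) +
    (((N : ℝ) / 2 * (μ 0 + μ 1)) * Real.cos (Real.pi * ((1 : ℕ) : ℝ) * k / N) +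
    ((N : ℝ) / 2 * (μ 1 - μ 0)) * Real.cos (Real.pi * ((N - 1 : ℕ) : ℝ) * k / N)))

private theorem trig_m_Sl (N : ℕ) (hN : 4 ≤ N) (ν μ : ℕ → ℝ) (l : ℕ) (h2 : 2 ≤ l) (hl : l ≤ N - 2) :
    Sl N (trig_m N ν μ) l = 0 := by
  have h : trig_m N ν μ = fun k => (fun k : ℕ => ((N : ℝ) / 2 * (ν 0 + ν 1)) *
      Real.cos (Real.pi * ((0 : ℕ) : ℝ) * k / N)) k +
      (fun k : ℕ => (fun k : ℕ => ((N : ℝ) / 2 * (ν 1 - ν 0)) *
        Real.cos (Real.pi * (N : ℝ) * k / N)) k +
      (fun k : ℕ => (fun k : ℕ => ((N : ℝ) / 2 * (μ 0 + μ 1)) *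
        Real.cos (Real.pi * ((1 : ℕ) : ℝ) * k / N)) k +
      (fun k : ℕ => ((N : ℝ) / 2 * (μ 1 - μ 0)) *
        Real.cos (Real.pi * ((N - 1 : ℕ) : ℝ) * k / N)) k) k) k := rfl
  rw [h, Sl_add, Sl_add, Sl_add, Sl_smul N l _ (fun k : ℕ => Real.cos (Real.pi * ((0 : ℕ) : ℝ) * k / N)),
    Sl_smul N l _ (fun k : ℕ => Real.cos (Real.pi * (N : ℝ) * k / N)),
    Sl_smul N l _ (fun k : ℕ => Real.cos (Real.pi * ((1 : ℕ) : ℝ) * k / N)),
    Sl_smul N l _ (fun k : ℕ => Real.cos (Real.pi * ((N - 1 : ℕ) : ℝ) * k / N)),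
    Sl_orth N 0 l (by omega) (by omega) (by omega),
    Sl_orth N N l (by omega) (by omega) (by omega),
    Sl_orth N 1 l (by omega) (by omega) (by omega),
    Sl_orth N (N - 1) l (by omega) (by omega) (by omega),
    if_neg (by omega), if_neg (by omega), if_neg (by omega), if_neg (by omega)]
  ring

private theorem trig_m_val (N : ℕ) (hN : 1 ≤ N) (ν μ : ℕ → ℝ) (k : ℕ) :
    trig_m N ν μ k = (N : ℝ) / 2 * ((ν 0 + ν 1) + (ν 1 - ν 0) * (-1) ^ k +
      ((μ 0 + μ 1) + (μ 1 - μ 0) * (-1) ^ k) * Real.cos (Real.pi * k / N)) := by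
  have hN0 : (N : ℝ) ≠ 0 := by
    have : (0 : ℝ) < N := by exact_mod_cast hN
    exact this.ne'
  have e0 : Real.cos (Real.pi * ((0 : ℕ) : ℝ) * k / N) = 1 := by simp
  have eN : Real.cos (Real.pi * (N : ℝ) * k / N) = (-1) ^ k := by
    rw [← Real.cos_nat_mul_pi k]
    congr 1
    field_simp
  have e1 : Real.cos (Real.pi * ((1 : ℕ) : ℝ) * k / N) = Real.cos (Real.pi * k / N) := by
    rw [Nat.cast_one, mul_one]
  have e2 : Real.cos (Real.pi * ((N - 1 : ℕ) : ℝ) * k / N) =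
      (-1) ^ k * Real.cos (Real.pi * k / N) := by
    have h1 : Real.pi * ((N - 1 : ℕ) : ℝ) * k / N = (k : ℝ) * Real.pi - Real.pi * k / N := by
      rw [Nat.cast_sub hN, Nat.cast_one]
      field_simp
    rw [h1, Real.cos_sub, Real.cos_nat_mul_pi, Real.sin_nat_mul_pi]
    ring
  unfold trig_m
  rw [e0, eN, e1, e2]
  ring

private theorem trig_pair (u N : ℕ) (hN : N = 8 * u + 2) (g ν μ : ℕ → ℝ) (p : ℕ) (hp : p < 2) (i : ℕ)
    (hi : i < 2 * u) :
    |g (2 * i + 1 + p) - trig_m N ν μ (2 * i + 1 + p)| +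
      |g (N - (2 * i + 1 + p)) - trig_m N ν μ (N - (2 * i + 1 + p))| ≤
    2 * N * (|(g (2 * i + 1 + p) + g (N - (2 * i + 1 + p))) / (2 * N) - ν p| +
      |(g (2 * i + 1 + p) - g (N - (2 * i + 1 + p))) / (2 * N) - μ p * xx u p i|) := by
  have hNpos : (0 : ℝ) < N := by
    rw [hN]; positivity
  have hk : 2 * i + 1 + p ≤ N := by omega
  have hc : Real.cos (Real.pi * ((2 * i + 1 + p : ℕ) : ℝ) / N) = xx u p i := by
    unfold xx
    rw [hN]
  have hc2 : Real.cos (Real.pi * ((N - (2 * i + 1 + p) : ℕ) : ℝ) / N) = -xx u p i := by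
    rw [← hc, ← Real.cos_pi_sub]
    congr 1
    rw [Nat.cast_sub hk]
    field_simp
  have hs1 : (-1 : ℝ) ^ (2 * i + 1 + p) = (-1) ^ (1 + p) := by
    rw [show 2 * i + 1 + p = 2 * i + (1 + p) by ring, pow_add, pow_mul]
    simp
  have hs2 : (-1 : ℝ) ^ (N - (2 * i + 1 + p)) = (-1) ^ (1 + p) := by
    have h1 : (-1 : ℝ) ^ (N - (2 * i + 1 + p)) * (-1) ^ (2 * i + 1 + p) = 1 := by
      rw [← pow_add, Nat.sub_add_cancel hk, hN]
      exact Even.neg_one_pow ⟨4 * u + 1, by ring⟩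
    rw [hs1] at h1
    have h2 : (-1 : ℝ) ^ (1 + p) * (-1) ^ (1 + p) = 1 := by
      rw [← pow_add]
      exact Even.neg_one_pow ⟨1 + p, rfl⟩
    have h3 : (-1 : ℝ) ^ (1 + p) ≠ 0 := pow_ne_zero _ (by norm_num)
    exact mul_right_cancel₀ h3 (h1.trans h2.symm)
  have hm1 : trig_m N ν μ (2 * i + 1 + p) = N * (ν p + μ p * xx u p i) := by
    rw [trig_m_val N (by omega), hc, hs1]
    interval_cases p <;> norm_num <;> ring
  have hm2 : trig_m N ν μ (N - (2 * i + 1 + p)) = N * (ν p - μ p * xx u p i) := by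
    rw [trig_m_val N (by omega), hc2, hs2]
    interval_cases p <;> norm_num <;> ring
  rw [hm1, hm2]
  set a := g (2 * i + 1 + p)
  set b := g (N - (2 * i + 1 + p))
  set δ := (a + b) / (2 * N) - ν p with hδ
  set ε := (a - b) / (2 * N) - μ p * xx u p i with hε
  have e1 : a - N * (ν p + μ p * xx u p i) = N * (δ + ε) := by
    rw [hδ, hε]; field_simp; ring
  have e2 : b - N * (ν p - μ p * xx u p i) = N * (δ - ε) := by
    rw [hδ, hε]; field_simp; ring
  rw [e1, e2, abs_mul, abs_mul, abs_of_pos hNpos]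
  have t1 := abs_add_le δ ε
  have t2 := abs_sub δ ε
  nlinarith

theorem trig_main (u : ℕ) (hu : 1 ≤ u) (N : ℕ) (hN : N = 8 * u + 2) (g ν μ : ℕ → ℝ) (η : ℝ)
    (hη : 0 ≤ η)
    (hv : ∀ p < 2, ∑ i ∈ Finset.range (2 * u),
      |(g (2 * i + 1 + p) + g (N - (2 * i + 1 + p))) / (2 * N) - ν p| ≤ 40 * η)
    (ho : ∀ p < 2, ∑ i ∈ Finset.range (2 * u),
      |(g (2 * i + 1 + p) - g (N - (2 * i + 1 + p))) / (2 * N) - μ p * xx u p i| ≤ 7 * η)
    (hc : |g (4 * u + 1) / N + ∑ i ∈ Finset.range (2 * u),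
      (g (2 * i + 1) + g (N - (2 * i + 1))) / (2 * N)| ≤ 9 * η) :
    ∃ ψ : ℕ → ℝ, (∀ l, ψ (l + 4) = ψ l) ∧
      (∀ l, 2 ≤ l → l ≤ N - 2 → |Sl N g l / N - ψ l| ≤ 376 * η) ∧
      |Sl N g N / N| ≤ |Sl N g 0 / N| + 3 * (|ψ 2| + |ψ 4|) + 824 * η := by
  have hNpos : (0 : ℝ) < N := by
    rw [hN]; positivity
  have hN0 : (N : ℝ) ≠ 0 := hNpos.ne'
  set α : ℝ := 2 * (g (4 * u + 1) / N - ν 0) with hα
  set β : ℝ := (g 0 + g N) / N - 2 * ν 1 with hβ
  set γ : ℝ := (g 0 - g N) / N - 2 * μ 1 with hγ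
  refine ⟨fun l => α * Real.cos (Real.pi * l / 2) + β * ((1 + (-1) ^ l) / 2) +
    γ * ((1 - (-1) ^ l) / 2), ?_, ?_, ?_⟩
  · intro l
    have h1 : Real.cos (Real.pi * ((l + 4 : ℕ) : ℝ) / 2) = Real.cos (Real.pi * l / 2) := by
      rw [← Real.cos_add_two_pi (Real.pi * l / 2)]
      congr 1
      push_cast
      ring
    have h2 : (-1 : ℝ) ^ (l + 4) = (-1) ^ l := by
      rw [pow_add]; norm_num
    simp only [h1, h2]
  · intro l hl2 hl
    have hN4 : 4 ≤ N := by omega
    set h : ℕ → ℝ := fun k => g k - trig_m N ν μ k with hh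
    have hg : Sl N g l = Sl N h l := by
      have h1 : g = fun k => h k + trig_m N ν μ k := by
        funext k
        simp [hh]
      conv_lhs => rw [h1]
      rw [Sl_add, trig_m_Sl N hN4 ν μ l hl2 hl, add_zero]
    have hS : Sl N h l = N * (α * Real.cos (Real.pi * l / 2) + β * ((1 + (-1) ^ l) / 2) +
        γ * ((1 - (-1) ^ l) / 2)) +
        2 * (∑ i ∈ Finset.range (2 * u), (h (2 * i + 1) * Real.cos (Real.pi * l * ((2 * i + 1 : ℕ) : ℝ) / N) +
          h (N - (2 * i + 1)) * Real.cos (Real.pi * l * ((N - (2 * i + 1) : ℕ) : ℝ) / N)) +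
        ∑ i ∈ Finset.range (2 * u), (h (2 * i + 2) * Real.cos (Real.pi * l * ((2 * i + 2 : ℕ) : ℝ) / N) +
          h (N - (2 * i + 2)) * Real.cos (Real.pi * l * ((N - (2 * i + 2) : ℕ) : ℝ) / N))) := by
      have e1 := trig_split u (fun k => h k * Real.cos (Real.pi * l * k / N))
      rw [← hN] at e1
      unfold Sl
      rw [e1]
      have hM : Real.cos (Real.pi * l * ((4 * u + 1 : ℕ) : ℝ) / N) = Real.cos (Real.pi * l / 2) := by
        congr 1
        rw [hN]
        push_cast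
        have : (8 * (u : ℝ) + 2) ≠ 0 := by positivity
        field_simp
        ring
      have hM2 : Real.cos (Real.pi * ((4 * u + 1 : ℕ) : ℝ) / N) = 0 := by
        rw [← Real.cos_pi_div_two]
        congr 1
        rw [hN]
        push_cast
        have : (8 * (u : ℝ) + 2) ≠ 0 := by positivity
        field_simp
        ring
      have hmM : trig_m N ν μ (4 * u + 1) = N * ν 0 := by
        rw [trig_m_val N (by omega), hM2]
        have : (-1 : ℝ) ^ (4 * u + 1) = -1 := by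
          rw [pow_succ, show 4 * u = 2 * (2 * u) by ring, pow_mul]; simp
        rw [this]; ring
      have hm0 : trig_m N ν μ 0 = N * (ν 1 + μ 1) := by
        rw [trig_m_val N (by omega)]
        simp
        ring
      have hmN : trig_m N ν μ N = N * (ν 1 - μ 1) := by
        rw [trig_m_val N (by omega)]
        have h1 : (-1 : ℝ) ^ N = 1 := by
          rw [hN]; exact Even.neg_one_pow ⟨4 * u + 1, by ring⟩
        have h2 : Real.cos (Real.pi * N / N) = -1 := by
          rw [mul_div_assoc, div_self hN0, mul_one, Real.cos_pi]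
        rw [h1, h2]; ring
      have hhM : h (4 * u + 1) = N * (α / 2) := by
        simp only [hh, hmM, hα]
        field_simp
      have hh0 : h 0 + (-1) ^ l * h N = N * (β * ((1 + (-1) ^ l) / 2) + γ * ((1 - (-1) ^ l) / 2)) := by
        simp only [hh, hm0, hmN, hβ, hγ]
        field_simp
        ring
      rw [hh0, hM, hhM]
      ring
    have hbd : ∀ p < 2, ∑ i ∈ Finset.range (2 * u),
        |h (2 * i + 1 + p) * Real.cos (Real.pi * l * ((2 * i + 1 + p : ℕ) : ℝ) / N) +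
          h (N - (2 * i + 1 + p)) * Real.cos (Real.pi * l * ((N - (2 * i + 1 + p) : ℕ) : ℝ) / N)| ≤
          2 * N * (47 * η) := by
      intro p hp
      calc _ ≤ ∑ i ∈ Finset.range (2 * u), 2 * N *
            (|(g (2 * i + 1 + p) + g (N - (2 * i + 1 + p))) / (2 * N) - ν p| +
            |(g (2 * i + 1 + p) - g (N - (2 * i + 1 + p))) / (2 * N) - μ p * xx u p i|) := by
            refine Finset.sum_le_sum fun i hi => ?_
            refine le_trans ?_ (trig_pair u N hN g ν μ p hp i (Finset.mem_range.1 hi))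
            refine (abs_add_le _ _).trans ?_
            rw [abs_mul, abs_mul]
            have c1 := Real.abs_cos_le_one (Real.pi * l * ((2 * i + 1 + p : ℕ) : ℝ) / N)
            have c2 := Real.abs_cos_le_one (Real.pi * l * ((N - (2 * i + 1 + p) : ℕ) : ℝ) / N)
            have d1 : 0 ≤ |h (2 * i + 1 + p)| := abs_nonneg _
            have d2 : 0 ≤ |h (N - (2 * i + 1 + p))| := abs_nonneg _
            have f1 := mul_le_mul_of_nonneg_left c1 d1
            have f2 := mul_le_mul_of_nonneg_left c2 d2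
            rw [mul_one] at f1 f2
            exact add_le_add f1 f2
        _ ≤ 2 * N * (47 * η) := by
            rw [← Finset.mul_sum, Finset.sum_add_distrib]
            have := hv p hp
            have := ho p hp
            apply mul_le_mul_of_nonneg_left _ (by positivity)
            linarith
    have hb0 := hbd 0 (by norm_num)
    have hb1 := hbd 1 (by norm_num)
    have hA : |∑ i ∈ Finset.range (2 * u), (h (2 * i + 1) * Real.cos (Real.pi * l * ((2 * i + 1 : ℕ) : ℝ) / N) +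
          h (N - (2 * i + 1)) * Real.cos (Real.pi * l * ((N - (2 * i + 1) : ℕ) : ℝ) / N))| ≤
          2 * N * (47 * η) := (Finset.abs_sum_le_sum_abs _ _).trans hb0
    have hB : |∑ i ∈ Finset.range (2 * u), (h (2 * i + 2) * Real.cos (Real.pi * l * ((2 * i + 2 : ℕ) : ℝ) / N) +
          h (N - (2 * i + 2)) * Real.cos (Real.pi * l * ((N - (2 * i + 2) : ℕ) : ℝ) / N))| ≤
          2 * N * (47 * η) := (Finset.abs_sum_le_sum_abs _ _).trans hb1
    rw [hg, hS]
    set A := ∑ i ∈ Finset.range (2 * u), (h (2 * i + 1) * Real.cos (Real.pi * l * ((2 * i + 1 : ℕ) : ℝ) / N) +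
          h (N - (2 * i + 1)) * Real.cos (Real.pi * l * ((N - (2 * i + 1) : ℕ) : ℝ) / N))
    set B := ∑ i ∈ Finset.range (2 * u), (h (2 * i + 2) * Real.cos (Real.pi * l * ((2 * i + 2 : ℕ) : ℝ) / N) +
          h (N - (2 * i + 2)) * Real.cos (Real.pi * l * ((N - (2 * i + 2) : ℕ) : ℝ) / N))
    have e5 : (N * (α * Real.cos (Real.pi * l / 2) + β * ((1 + (-1) ^ l) / 2) +
        γ * ((1 - (-1) ^ l) / 2)) + 2 * (A + B)) / N - (α * Real.cos (Real.pi * l / 2) +
        β * ((1 + (-1) ^ l) / 2) + γ * ((1 - (-1) ^ l) / 2)) = 2 * (A + B) / N := by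
      field_simp
      ring
    rw [e5, abs_div, abs_of_pos hNpos, div_le_iff₀ hNpos, abs_mul, abs_two]
    have := abs_add_le A B
    nlinarith
  · have hcos2 : Real.cos (Real.pi * ((2 : ℕ) : ℝ) / 2) = -1 := by
      rw [show Real.pi * ((2 : ℕ) : ℝ) / 2 = Real.pi by push_cast; ring, Real.cos_pi]
    have hcos4 : Real.cos (Real.pi * ((4 : ℕ) : ℝ) / 2) = 1 := by
      rw [show Real.pi * ((4 : ℕ) : ℝ) / 2 = 2 * Real.pi by push_cast; ring, Real.cos_two_pi]
    have hψ2 : α * Real.cos (Real.pi * ((2 : ℕ) : ℝ) / 2) + β * ((1 + (-1) ^ 2) / 2) +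
        γ * ((1 - (-1) ^ 2) / 2) = β - α := by
      rw [hcos2]; ring
    have hψ4 : α * Real.cos (Real.pi * ((4 : ℕ) : ℝ) / 2) + β * ((1 + (-1) ^ 4) / 2) +
        γ * ((1 - (-1) ^ 4) / 2) = β + α := by
      rw [hcos4]; ring
    beta_reduce
    rw [hψ2, hψ4]
    -- class sums
    set V := ∑ i ∈ Finset.range (2 * u), (g (2 * i + 1) + g (N - (2 * i + 1))) / (2 * N) with hV
    set W := ∑ i ∈ Finset.range (2 * u), (g (2 * i + 2) + g (N - (2 * i + 2))) with hW
    have hVs : ∑ i ∈ Finset.range (2 * u), (g (2 * i + 1) + g (N - (2 * i + 1))) = 2 * N * V := by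
      rw [hV, Finset.mul_sum]
      refine Finset.sum_congr rfl fun i _ => ?_
      field_simp
    have hS0 : Sl N g 0 = g 0 + g N + 2 * (g (4 * u + 1) + 2 * N * V + W) := by
      have e1 := trig_split u (fun k => g k * Real.cos (Real.pi * ((0 : ℕ) : ℝ) * k / N))
      rw [← hN] at e1
      unfold Sl
      rw [e1]
      simp only [Nat.cast_zero, mul_zero, zero_mul, zero_div, Real.cos_zero, mul_one, pow_zero,
        one_mul]
      rw [hVs]
    have hcosk : ∀ k : ℕ, Real.cos (Real.pi * (N : ℝ) * k / N) = (-1) ^ k := by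
      intro k
      rw [← Real.cos_nat_mul_pi k]
      congr 1
      field_simp
    have hpowN : (-1 : ℝ) ^ N = 1 := by
      rw [hN]; exact Even.neg_one_pow ⟨4 * u + 1, by ring⟩
    have hsub : ∀ k : ℕ, k ≤ N → (-1 : ℝ) ^ (N - k) = (-1) ^ k := by
      intro k hk
      have h1 : (-1 : ℝ) ^ (N - k) * (-1) ^ k = 1 := by
        rw [← pow_add, Nat.sub_add_cancel hk, hpowN]
      have h2 : (-1 : ℝ) ^ k * (-1) ^ k = 1 := by
        rw [← pow_add]
        exact Even.neg_one_pow ⟨k, rfl⟩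
      have h3 : (-1 : ℝ) ^ k ≠ 0 := pow_ne_zero _ (by norm_num)
      exact mul_right_cancel₀ h3 (h1.trans h2.symm)
    have hSN : Sl N g N = g 0 + g N + 2 * (-g (4 * u + 1) - 2 * N * V + W) := by
      have e1 := trig_split u (fun k => g k * Real.cos (Real.pi * (N : ℝ) * k / N))
      rw [← hN] at e1
      unfold Sl
      rw [e1, hpowN]
      simp only [hcosk]
      have p1 : (-1 : ℝ) ^ (4 * u + 1) = -1 := by
        rw [pow_succ, show 4 * u = 2 * (2 * u) by ring, pow_mul]; simp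
      have s1 : ∑ i ∈ Finset.range (2 * u), (g (2 * i + 1) * (-1) ^ (2 * i + 1) +
          g (N - (2 * i + 1)) * (-1) ^ (N - (2 * i + 1))) = -(2 * N * V) := by
        rw [← hVs, ← Finset.sum_neg_distrib]
        refine Finset.sum_congr rfl fun i hi => ?_
        rw [Finset.mem_range] at hi
        rw [hsub _ (by omega), pow_succ, pow_mul]
        simp
        ring
      have s2 : ∑ i ∈ Finset.range (2 * u), (g (2 * i + 2) * (-1) ^ (2 * i + 2) +
          g (N - (2 * i + 2)) * (-1) ^ (N - (2 * i + 2))) = W := by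
        rw [hW]
        refine Finset.sum_congr rfl fun i hi => ?_
        rw [Finset.mem_range] at hi
        rw [hsub _ (by omega), show 2 * i + 2 = 2 * (i + 1) by ring, pow_mul]
        simp
      rw [s1, s2, p1]
      ring
    have hrel : Sl N g N / N = Sl N g 0 / N - 2 * (2 * (g (4 * u + 1) / N) + 4 * V) := by
      rw [hS0, hSN]
      field_simp
      ring
    -- bounds
    have hv0 := hv 0 (by norm_num)
    have hVν : |V - 2 * u * ν 0| ≤ 40 * η := by
      have e1 : V - 2 * u * ν 0 = ∑ i ∈ Finset.range (2 * u),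
          ((g (2 * i + 1) + g (N - (2 * i + 1))) / (2 * N) - ν 0) := by
        rw [Finset.sum_sub_distrib, hV]
        simp
      rw [e1]
      exact (Finset.abs_sum_le_sum_abs _ _).trans hv0
    set G := g (4 * u + 1) / N with hG
    have hαG : α = 2 * (G - ν 0) := hα
    have hu' : (1 : ℝ) ≤ u := by exact_mod_cast hu
    have k1 : |(2 * (u : ℝ) + 1) * ν 0 + α / 2| ≤ 49 * η := by
      have e1 : (2 * (u : ℝ) + 1) * ν 0 + α / 2 = (G + V) - (V - 2 * u * ν 0) := by
        rw [hαG]; ring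
      rw [e1]
      have := abs_sub (G + V) (V - 2 * u * ν 0)
      linarith
    have k2 : (2 * (u : ℝ) + 1) * |ν 0| ≤ |α| / 2 + 49 * η := by
      have e1 : (2 * (u : ℝ) + 1) * |ν 0| = |(2 * (u : ℝ) + 1) * ν 0| := by
        rw [abs_mul, abs_of_pos (by positivity : (0 : ℝ) < 2 * (u : ℝ) + 1)]
      have e2 : (2 * (u : ℝ) + 1) * ν 0 = ((2 * (u : ℝ) + 1) * ν 0 + α / 2) - α / 2 := by ring
      rw [e1, e2]
      have := abs_sub ((2 * (u : ℝ) + 1) * ν 0 + α / 2) (α / 2)
      have e3 : |α / 2| = |α| / 2 := by rw [abs_div, abs_two]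
      linarith
    have k3 : 3 * |ν 0| ≤ |α| / 2 + 49 * η := by
      have : 3 * |ν 0| ≤ (2 * (u : ℝ) + 1) * |ν 0| :=
        mul_le_mul_of_nonneg_right (by linarith) (abs_nonneg _)
      linarith
    have k4 : |2 * G + 4 * V| ≤ 36 * η + 2 * |ν 0| + |α| := by
      have e1 : 2 * G + 4 * V = 4 * (G + V) + (-(2 * ν 0) + -α) := by
        rw [hαG]; ring
      rw [e1]
      have t1 := abs_add_le (4 * (G + V)) (-(2 * ν 0) + -α)
      have t2 := abs_add_le (-(2 * ν 0)) (-α)
      rw [abs_neg, abs_neg, abs_mul, abs_two] at t2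
      rw [abs_mul, abs_of_pos (by norm_num : (0 : ℝ) < 4)] at t1
      linarith
    have k5 : 2 * |α| ≤ |β - α| + |β + α| := by
      have e1 : 2 * α = (β + α) - (β - α) := by ring
      have e2 : 2 * |α| = |2 * α| := by rw [abs_mul (2 : ℝ) α, abs_two]
      rw [e2, e1]
      have := abs_sub (β + α) (β - α)
      linarith
    rw [hrel]
    have t3 := abs_sub (Sl N g 0 / N) (2 * (2 * G + 4 * V))
    rw [abs_mul, abs_two] at t3
    linarith [abs_nonneg α]


end Pool.Agent.Helper754.TwoN
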