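import Pool.Agent.Helper754.TwoN.Defs
import Pool.Agent.Helper754.TwoN.J_trig_main
import Pool.Agent.Helper754.TwoN.J_first_order
import Pool.Agent.Helper754.TwoN.J_second_order
import Pool.Agent.Helper754.TwoN.J_final_num

set_option autoImplicit false
set_option maxHeartbeats 4000000


namespace Pool.Agent.Helper754.TwoN

open Finset Polynomial


private theorem yk_re (N : ℕ) (hN : (N : ℝ) ≠ 0) (a : ℕ → ℝ) (k : ℕ) :
    (Yk N a k).re = gk N a k / N + Real.cos (Real.pi * k / N) := by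
  unfold gk
  field_simp
  ring

private theorem vz_eq (u : ℕ) (a : ℕ → ℝ) (p i : ℕ) (hi : i < 2 * u) (hp : p < 2) :
    vv u p a i = (gk (8 * u + 2) a (2 * i + 1 + p) +
      gk (8 * u + 2) a (8 * u + 2 - (2 * i + 1 + p))) / (2 * ((8 * u + 2 : ℕ) : ℝ)) ∧
    zz u p a i = (gk (8 * u + 2) a (2 * i + 1 + p) -
      gk (8 * u + 2) a (8 * u + 2 - (2 * i + 1 + p))) / (2 * ((8 * u + 2 : ℕ) : ℝ)) + xx u p i := by
  have hk : 2 * i + 1 + p ≤ 8 * u + 2 := by omega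
  have hN : ((8 * u + 2 : ℕ) : ℝ) ≠ 0 := by positivity
  unfold vv zz yp ym xx
  rw [yk_re _ hN, yk_re _ hN]
  have hcos : Real.cos (Real.pi * ((8 * u + 2 - (2 * i + 1 + p) : ℕ) : ℝ) / ((8 * u + 2 : ℕ) : ℝ)) =
      - Real.cos (Real.pi * ((2 * i + 1 + p : ℕ) : ℝ) / ((8 * u + 2 : ℕ) : ℝ)) := by
    rw [Nat.cast_sub hk, ← Real.cos_pi_sub]
    congr 1
    field_simp
  rw [hcos]
  constructor
  · field_simp
    ring
  · field_simp
    ring

private theorem flat_key (u : ℕ) (hu : 1 ≤ u) (a : ℕ → ℝ) (A Ao η : ℝ) (hA : A ≤ 1 / 100) (hη : 0 ≤ η)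
    (ha : nr (8 * u + 2) a ≤ A)
    (hAo : nr (8 * u + 2) (fun m => if m = 8 * u + 2 - 2 then 0 else a m) ≤ Ao)
    (hflat : ∀ p < 2, Flat (2 * u) (xx u p) (vv u p a) (zz u p a) (cc u p a) η) :
    ∃ ψ : ℕ → ℝ, (∀ l, ψ (l + 4) = ψ l) ∧
      (∀ l, 2 ≤ l → l ≤ 8 * u + 2 - 2 → |a (l - 1) - ψ l| ≤ 376 * η + 200 * A ^ 2) ∧
      2 * |a (8 * u + 2 - 1)| ≤ 3 * (|ψ 2| + |ψ 4|) + 824 * η + 400 * A ^ 2 ∧
      (∀ l, 2 ≤ l → l ≤ 8 * u + 2 - 2 →
        |(a (l - 1) + if l = 3 then (a (8 * u + 2 - 2)) ^ 2 / 2 else 0) - ψ l| ≤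
        376 * η + 400 * A * Ao + 200 * (A ^ 3 + A ^ 2 / ((8 * u + 2 : ℕ) : ℝ))) := by
  obtain ⟨N, hN⟩ : ∃ N, N = 8 * u + 2 := ⟨_, rfl⟩
  have hNpos : ((8 * u + 2 : ℕ) : ℝ) ≠ 0 := by positivity
  have hfl : ∀ p : ℕ, ∃ μ ν : ℝ, p < 2 → (|μ| ≤ 1 / 10 ∧
      ∑ i ∈ Finset.range (2 * u), |zz u p a i - (1 + μ) * xx u p i| ≤ 7 * η ∧
      ∑ i ∈ Finset.range (2 * u), |vv u p a i - ν| ≤ 40 * η ∧ |cc u p a| ≤ 9 * η) := by
    intro p
    by_cases hp : p < 2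
    · obtain ⟨μ, ν, h⟩ := hflat p hp
      exact ⟨μ, ν, fun _ => h⟩
    · exact ⟨0, 0, fun h => absurd h hp⟩
  choose μ ν hμν using hfl
  obtain ⟨ψ, hψ1, hψ2, hψ3⟩ := trig_main u hu (8 * u + 2) rfl (gk (8 * u + 2) a) ν μ η hη
    (by
      intro p hp
      refine le_trans (le_of_eq ?_) (hμν p hp).2.2.1
      refine Finset.sum_congr rfl (fun i hi => ?_)
      rw [(vz_eq u a p i (Finset.mem_range.1 hi) hp).1])
    (by
      intro p hp
      refine le_trans (le_of_eq ?_) (hμν p hp).2.1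
      refine Finset.sum_congr rfl (fun i hi => ?_)
      rw [(vz_eq u a p i (Finset.mem_range.1 hi) hp).2]
      congr 1
      ring)
    (by
      refine le_trans (le_of_eq ?_) (hμν 0 (by norm_num)).2.2.2
      unfold cc ee
      rw [if_pos rfl, yk_re _ hNpos]
      have hcos : Real.cos (Real.pi * ((4 * u + 1 : ℕ) : ℝ) / ((8 * u + 2 : ℕ) : ℝ)) = 0 := by
        have : Real.pi * ((4 * u + 1 : ℕ) : ℝ) / ((8 * u + 2 : ℕ) : ℝ) = Real.pi / 2 := by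
          push_cast
          field_simp
          ring
        rw [this, Real.cos_pi_div_two]
      rw [hcos, add_zero]
      congr 2
      refine Finset.sum_congr rfl (fun i hi => ?_)
      rw [(vz_eq u a 0 i (Finset.mem_range.1 hi) (by norm_num)).1, add_zero])
  obtain ⟨f1, f2, f3⟩ := first_order (8 * u + 2) (by omega) a A ha hA
  have s1 := second_order (8 * u + 2) (by omega) a A Ao ha hAo hA
  refine ⟨ψ, hψ1, ?_, ?_, ?_⟩
  · intro l hl hl'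
    have e1 := hψ2 l hl hl'
    have e2 := f1 l hl (by omega)
    rw [abs_le] at e1 e2 ⊢
    constructor <;> linarith
  · have e2 := abs_le.1 f2
    have e3 := hψ3
    have e4 : 2 * |a (8 * u + 2 - 1)| ≤
        |Sl (8 * u + 2) (gk (8 * u + 2) a) (8 * u + 2) / ((8 * u + 2 : ℕ) : ℝ)| + 200 * A ^ 2 := by
      have e5 : 2 * |a (8 * u + 2 - 1)| = |2 * a (8 * u + 2 - 1)| := by
        rw [abs_mul]
        norm_num
      rw [e5]
      have e6 := abs_sub_abs_le_abs_sub (2 * a (8 * u + 2 - 1))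
        (Sl (8 * u + 2) (gk (8 * u + 2) a) (8 * u + 2) / ((8 * u + 2 : ℕ) : ℝ))
      rw [abs_sub_comm] at e6
      linarith
    linarith
  · intro l hl hl'
    have e1 := hψ2 l hl hl'
    have e2 := s1 l hl hl'
    rw [abs_le] at e1 e2 ⊢
    constructor <;> linarith

theorem flat_false (u : ℕ) (hu : u = 10 ^ 100) (a : ℕ → ℝ)
    (ha : nr (8 * u + 2) a = 1 / 10 ^ 12 / ((8 * u + 2 : ℕ) : ℝ))
    (hflat : ∀ p < 2, ∀ t : ℝ, (t = 1 ∨ t = 1 / 2) →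
      Flat (2 * u) (xx u p) (vv u p (fun m => a m * t ^ m))
      (zz u p (fun m => a m * t ^ m)) (cc u p (fun m => a m * t ^ m))
      (1 / 10 ^ 31 / ((8 * u + 2 : ℕ) : ℝ) ^ 2)) : False := by
  have hu20 : 10 ^ 20 ≤ u := by
    rw [hu]
    exact Nat.pow_le_pow_right (by norm_num) (by norm_num)
  clear hu
  have hu1 : 1 ≤ u := le_trans (by norm_num) hu20
  have hN20 : 10 ^ 20 ≤ 8 * u + 2 := by omega
  have hN1 : (1 : ℝ) ≤ ((8 * u + 2 : ℕ) : ℝ) := by exact_mod_cast (by omega : 1 ≤ 8 * u + 2)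
  set η : ℝ := 1 / 10 ^ 31 / ((8 * u + 2 : ℕ) : ℝ) ^ 2 with hηdef
  set A : ℝ := 1 / 10 ^ 12 / ((8 * u + 2 : ℕ) : ℝ) with hAdef
  have hη0 : 0 ≤ η := by positivity
  have hA1 : A ≤ 1 / 100 := by
    have h1 : A ≤ 1 / 10 ^ 12 := div_le_self (by positivity) hN1
    exact h1.trans (by norm_num)
  have hkey : ∀ t : ℝ, (t = 1 ∨ t = 1 / 2) → ∃ ψ : ℕ → ℝ, (∀ l, ψ (l + 4) = ψ l) ∧
      (∀ l, 2 ≤ l → l ≤ 8 * u + 2 - 2 →
        |a (l - 1) * t ^ (l - 1) - ψ l| ≤ 376 * η + 200 * A ^ 2) ∧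
      2 * |a (8 * u + 2 - 1) * t ^ (8 * u + 2 - 1)| ≤
        3 * (|ψ 2| + |ψ 4|) + 824 * η + 400 * A ^ 2 ∧
      (∀ l, 2 ≤ l → l ≤ 8 * u + 2 - 2 →
        |(a (l - 1) * t ^ (l - 1) +
          if l = 3 then (a (8 * u + 2 - 2) * t ^ (8 * u + 2 - 2)) ^ 2 / 2 else 0) - ψ l| ≤
        376 * η + 400 * A * (∑ m ∈ Finset.Ico 1 (8 * u + 2), |if m = 8 * u + 2 - 2 then 0 else a m|)
          + 200 * (A ^ 3 + A ^ 2 / ((8 * u + 2 : ℕ) : ℝ))) := by
    intro t ht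
    have ht1 : ∀ m : ℕ, |t ^ m| ≤ 1 := by
      intro m
      rw [abs_pow]
      apply pow_le_one₀ (abs_nonneg t)
      rcases ht with rfl | rfl
      · simp
      · rw [abs_of_pos (by norm_num)]
        norm_num
    have hle : ∀ (x : ℝ) (m : ℕ), |x * t ^ m| ≤ |x| := by
      intro x m
      rw [abs_mul]
      exact mul_le_of_le_one_right (abs_nonneg x) (ht1 m)
    refine flat_key u hu1 (fun m => a m * t ^ m) A _ η hA1 hη0 ?_ ?_ (fun p hp => hflat p hp t ht)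
    · rw [← ha]
      unfold nr
      exact Finset.sum_le_sum (fun m _ => hle (a m) m)
    · unfold nr
      refine Finset.sum_le_sum (fun m _ => ?_)
      by_cases hm : m = 8 * u + 2 - 2
      · simp [hm]
      · simp only [hm, if_false]
        exact hle (a m) m
  refine final_num (8 * u + 2) hN20 a A η _ hAdef hηdef ha rfl ?_ ?_
  · intro t ht
    obtain ⟨ψ, h1, h2, h3, h4⟩ := hkey t ht
    exact ⟨ψ, h1, h2, h3⟩
  · intro t ht
    obtain ⟨ψ, h1, h2, h3, h4⟩ := hkey t ht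
    exact ⟨ψ, h1, h4⟩


end Pool.Agent.Helper754.TwoN
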