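import Pool.Agent.Helper754.TwoN.Defs

set_option autoImplicit false
set_option maxHeartbeats 4000000


namespace Pool.Agent.Helper754.TwoN

open Finset Polynomial


private theorem ladder_10478 (x : ℕ → ℝ) (q : ℕ) (W : ℕ → Finset ℕ) (T : ℕ → ℕ → ℝ)
    (hT : ∀ k < q, ∀ i, T k i = 1 ∨ T k i = -1)
    (hlo : ∀ k < q, 0.6 * 0.6 ^ k ≤ ∑ i ∈ W k, T k i * x i)
    (hhi : ∀ k < q, ∑ i ∈ W k, T k i * x i ≤ 0.7 * (0.6 : ℝ) ^ k)
    (hdis : ∀ k < q, ∀ l < k, Disjoint (W l) (W k)) (ρ : ℝ) (hρ : |ρ| ≤ 7 / 6) (m : ℕ)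
    (hm : m ≤ q) :
    ∃ τ : ℕ → ℝ, (∀ i, τ i = 1 ∨ τ i = -1) ∧
      |ρ + ∑ i ∈ (Finset.range m).biUnion W, τ i * x i| ≤ 7 / 6 * (0.6 : ℝ) ^ m := by
  classical
  induction m with
  | zero => exact ⟨fun _ => 1, fun _ => Or.inl rfl, by simpa using hρ⟩
  | succ m ih =>
    obtain ⟨τ, hτ, hr⟩ := ih (by omega)
    have hmq : m < q := by omega
    obtain ⟨r, hrd⟩ : ∃ r, r = ρ + ∑ i ∈ (Finset.range m).biUnion W, τ i * x i := ⟨_, rfl⟩
    obtain ⟨e, hed⟩ : ∃ e, e = ∑ i ∈ W m, T m i * x i := ⟨_, rfl⟩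
    have he1 := hlo m hmq
    have he2 := hhi m hmq
    rw [← hed] at he1 he2
    rw [← hrd] at hr
    obtain ⟨P, hP⟩ : ∃ P : ℝ, P = (0.6 : ℝ) ^ m := ⟨_, rfl⟩
    have hP0 : 0 < P := by rw [hP]; positivity
    rw [← hP] at he1 he2 hr
    obtain ⟨ε, hε, hε2⟩ : ∃ ε : ℝ, (ε = 1 ∨ ε = -1) ∧ |r + ε * e| ≤ 0.7 * P := by
      rcases le_or_gt 0 r with h | h
      · refine ⟨-1, Or.inr rfl, ?_⟩
        rw [abs_of_nonneg h] at hr
        rw [abs_le]
        constructor <;> linarith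
      · refine ⟨1, Or.inl rfl, ?_⟩
        rw [abs_of_neg h] at hr
        rw [abs_le]
        constructor <;> linarith
    have hd : Disjoint ((Finset.range m).biUnion W) (W m) := by
      rw [Finset.disjoint_biUnion_left]
      intro l hl
      exact hdis m hmq l (Finset.mem_range.mp hl)
    refine ⟨fun i => if i ∈ W m then ε * T m i else τ i, ?_, ?_⟩
    · intro i
      by_cases hi : i ∈ W m
      · simp only [if_pos hi]
        rcases hε with h | h <;> rcases hT m hmq i with h' | h' <;> rw [h, h'] <;> norm_num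
      · simp only [if_neg hi]
        exact hτ i
    · have h1 : (Finset.range (m + 1)).biUnion W = (Finset.range m).biUnion W ∪ W m := by
        rw [Finset.range_add_one, Finset.biUnion_insert, Finset.union_comm]
      rw [h1, Finset.sum_union hd]
      have h2 : ∑ i ∈ (Finset.range m).biUnion W, (if i ∈ W m then ε * T m i else τ i) * x i =
          ∑ i ∈ (Finset.range m).biUnion W, τ i * x i :=
        Finset.sum_congr rfl fun i hi => by
          rw [if_neg (Finset.disjoint_left.mp hd hi)]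
      have h3 : ∑ i ∈ W m, (if i ∈ W m then ε * T m i else τ i) * x i = ε * e := by
        rw [hed, Finset.mul_sum]
        exact Finset.sum_congr rfl fun i hi => by rw [if_pos hi]; ring
      rw [h2, h3, ← add_assoc, ← hrd, pow_succ, ← hP]
      linarith

private theorem supply_10478 (n q : ℕ) (x : ℕ → ℝ)
    (hrich : ∀ k < q, ∀ B : Finset ℕ, B.card ≤ 12 * q → ∃ (V : Finset ℕ) (τ : ℕ → ℝ),
      V ⊆ Finset.range n ∧ Disjoint V B ∧ V.card ≤ 4 ∧ (∀ i, τ i = 1 ∨ τ i = -1) ∧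
      0.6 * 0.6 ^ k ≤ ∑ i ∈ V, τ i * x i ∧ ∑ i ∈ V, τ i * x i ≤ 0.7 * (0.6 : ℝ) ^ k) :
    ∃ (V : ℕ → Finset ℕ) (T : ℕ → ℕ → ℝ), (∀ s < 3 * q, V s ⊆ Finset.range n ∧
      (V s).card ≤ 4 ∧ (∀ i, T s i = 1 ∨ T s i = -1) ∧
      0.6 * 0.6 ^ (s / 3) ≤ ∑ i ∈ V s, T s i * x i ∧
      ∑ i ∈ V s, T s i * x i ≤ 0.7 * (0.6 : ℝ) ^ (s / 3)) ∧
      ∀ s < 3 * q, ∀ t < s, Disjoint (V t) (V s) := by
  classical
  have h1 : ∀ (k : ℕ) (B : Finset ℕ), ∃ (V : Finset ℕ) (τ : ℕ → ℝ), k < q → B.card ≤ 12 * q →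
      V ⊆ Finset.range n ∧ Disjoint V B ∧ V.card ≤ 4 ∧ (∀ i, τ i = 1 ∨ τ i = -1) ∧
      0.6 * 0.6 ^ k ≤ ∑ i ∈ V, τ i * x i ∧ ∑ i ∈ V, τ i * x i ≤ 0.7 * (0.6 : ℝ) ^ k := by
    intro k B
    by_cases hk : k < q
    · by_cases hB : B.card ≤ 12 * q
      · obtain ⟨V, τ, h⟩ := hrich k hk B hB
        exact ⟨V, τ, fun _ _ => h⟩
      · exact ⟨∅, fun _ => 1, fun _ h => absurd h hB⟩
    · exact ⟨∅, fun _ => 1, fun h => absurd h hk⟩
  choose VV TT hVT using h1
  obtain ⟨B, hB0, hBs⟩ : ∃ B : ℕ → Finset ℕ, B 0 = ∅ ∧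
      ∀ s, B (s + 1) = B s ∪ VV (s / 3) (B s) :=
    ⟨fun s => Nat.rec ∅ (fun s Bs => Bs ∪ VV (s / 3) Bs) s, rfl, fun s => rfl⟩
  have hcard : ∀ s ≤ 3 * q, (B s).card ≤ 4 * s := by
    intro s
    induction s with
    | zero => intro _; rw [hB0]; simp
    | succ s ih =>
      intro hs
      have h2 := ih (by omega)
      have h3 := (hVT (s / 3) (B s) (by omega) (by omega)).2.2.1
      rw [hBs]
      have h4 := Finset.card_union_le (B s) (VV (s / 3) (B s))
      omega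
  have hmono : ∀ s t, s ≤ t → B s ⊆ B t := by
    intro s t hst
    induction t, hst using Nat.le_induction with
    | base => exact Finset.Subset.refl _
    | succ t ht ih => rw [hBs]; exact ih.trans Finset.subset_union_left
  refine ⟨fun s => VV (s / 3) (B s), fun s => TT (s / 3) (B s), ?_, ?_⟩
  · intro s hs
    have h2 := hcard s hs.le
    have h3 := hVT (s / 3) (B s) (by omega) (by omega)
    exact ⟨h3.1, h3.2.2.1, h3.2.2.2.1, h3.2.2.2.2.1, h3.2.2.2.2.2⟩
  · intro s hs t hts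
    have h2 := hcard s hs.le
    have h3 := (hVT (s / 3) (B s) (by omega) (by omega)).2.1
    have h4 : VV (t / 3) (B t) ⊆ B s := by
      refine Finset.Subset.trans ?_ (hmono (t + 1) s hts)
      rw [hBs]
      exact Finset.subset_union_right
    exact (h3.mono_right h4).symm

/-- three disjoint ladders from a rich supply of virtual elements -/
theorem greedy_lad (n q : ℕ) (x : ℕ → ℝ) (hq : 1 ≤ q)
    (hrich : ∀ k < q, ∀ B : Finset ℕ, B.card ≤ 12 * q → ∃ (V : Finset ℕ) (τ : ℕ → ℝ),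
      V ⊆ Finset.range n ∧ Disjoint V B ∧ V.card ≤ 4 ∧ (∀ i, τ i = 1 ∨ τ i = -1) ∧
      0.6 * 0.6 ^ k ≤ ∑ i ∈ V, τ i * x i ∧ ∑ i ∈ V, τ i * x i ≤ 0.7 * (0.6 : ℝ) ^ k) :
    ∃ L : Fin 3 → Finset ℕ, (∀ j, L j ⊆ Finset.range n) ∧
      (∀ j k, j ≠ k → Disjoint (L j) (L k)) ∧ (∀ j, (L j).card ≤ 4 * q) ∧
      ∀ j, Lad x (L j) (0.7 * 0.6 ^ (q - 1)) := by
  classical
  obtain ⟨V, T, hV, hdis⟩ := supply_10478 n q x hrich
  have hdis' : ∀ s < 3 * q, ∀ t < 3 * q, s ≠ t → Disjoint (V s) (V t) := by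
    intro s hs t ht hst
    rcases lt_or_gt_of_ne hst with h | h
    · exact hdis t ht s h
    · exact (hdis s hs t h).symm
  refine ⟨fun j => (Finset.range q).biUnion (fun k => V (3 * k + j.val)), ?_, ?_, ?_, ?_⟩
  · intro j
    rw [Finset.biUnion_subset]
    intro k hk
    rw [Finset.mem_range] at hk
    exact (hV (3 * k + j.val) (by omega)).1
  · intro j l hjl
    rw [Finset.disjoint_biUnion_left]
    intro k hk
    rw [Finset.disjoint_biUnion_right]
    intro k' hk'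
    rw [Finset.mem_range] at hk hk'
    apply hdis' _ (by omega) _ (by omega)
    intro h
    apply hjl
    apply Fin.ext
    omega
  · intro j
    refine Finset.card_biUnion_le.trans ?_
    have h1 : ∑ k ∈ Finset.range q, (V (3 * k + j.val)).card ≤ ∑ k ∈ Finset.range q, 4 := by
      apply Finset.sum_le_sum
      intro k hk
      rw [Finset.mem_range] at hk
      exact (hV (3 * k + j.val) (by omega)).2.1
    rw [Finset.sum_const, Finset.card_range, smul_eq_mul] at h1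
    omega
  · intro j ρ hρ
    have hdiv : ∀ k, (3 * k + j.val) / 3 = k := fun k => by omega
    obtain ⟨τ, hτ, h1⟩ := ladder_10478 x q (fun k => V (3 * k + j.val))
      (fun k => T (3 * k + j.val))
      (fun k hk => (hV (3 * k + j.val) (by omega)).2.2.1)
      (fun k hk => by
        have h := (hV (3 * k + j.val) (by omega)).2.2.2.1
        rw [hdiv] at h
        exact h)
      (fun k hk => by
        have h := (hV (3 * k + j.val) (by omega)).2.2.2.2
        rw [hdiv] at h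
        exact h)
      (fun k hk l hl => hdis' _ (by omega) _ (by omega) (by omega)) ρ
      (hρ.trans (by norm_num)) q le_rfl
    refine ⟨τ, hτ, h1.trans (le_of_eq ?_)⟩
    obtain ⟨p, rfl⟩ : ∃ p, q = p + 1 := ⟨q - 1, by omega⟩
    rw [pow_succ, Nat.add_sub_cancel]
    ring


end Pool.Agent.Helper754.TwoN
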