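import Pool.Agent.Helper754.TwoN.Defs

set_option autoImplicit false
set_option maxHeartbeats 4000000


namespace Pool.Agent.Helper754.TwoN

open Finset Polynomial


private theorem window_one (f : ℕ → ℝ) (n : ℕ) (lo T δ : ℝ) (hδ : 0 < δ)
    (hstep : ∀ i < n, |f (i + 1) - f i| ≤ δ) (h0 : f 0 ≤ lo) (hT : lo ≤ T) (hn : T ≤ f n) :
    ∃ i ≤ n, T ≤ f i ∧ f i < T + δ := by
  classical
  have hex : ∃ i, T ≤ f i := ⟨n, hn⟩
  have h1 : Nat.find hex ≤ n := Nat.find_min' hex hn
  have h2 : T ≤ f (Nat.find hex) := Nat.find_spec hex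
  refine ⟨Nat.find hex, h1, h2, ?_⟩
  rcases Nat.eq_zero_or_pos (Nat.find hex) with h3 | h3
  · rw [h3]; linarith
  · obtain ⟨k, hk⟩ := Nat.exists_eq_succ_of_ne_zero h3.ne'
    have h4 : ¬ T ≤ f k := Nat.find_min hex (by omega)
    have h5 := abs_le.1 (hstep k (by omega))
    have h6 : Nat.find hex = k + 1 := hk
    rw [h6]
    linarith [h5.2]

theorem window (f : ℕ → ℝ) (n K : ℕ) (lo hi δ : ℝ) (hδ : 0 < δ)
    (hstep : ∀ i < n, |f (i + 1) - f i| ≤ δ) (h0 : f 0 ≤ lo) (hn : hi ≤ f n)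
    (hK : K * δ ≤ hi - lo) :
    ∃ S : Finset ℕ, S ⊆ Finset.range (n + 1) ∧ K ≤ S.card ∧ ∀ i ∈ S, lo ≤ f i ∧ f i ≤ hi := by
  classical
  have key : ∀ j : ℕ, ∃ i : ℕ, j < K → i ≤ n ∧ lo + j * δ ≤ f i ∧ f i < lo + j * δ + δ := by
    intro j
    by_cases hj : j < K
    · have h1 : ((j : ℝ) + 1) * δ ≤ K * δ := by
        apply mul_le_mul_of_nonneg_right _ hδ.le
        exact_mod_cast hj
      obtain ⟨i, h2, h3, h4⟩ := window_one f n lo (lo + j * δ) δ hδ hstep h0
        (by have : 0 ≤ (j : ℝ) * δ := by positivity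
            linarith) (by linarith)
      exact ⟨i, fun _ => ⟨h2, h3, h4⟩⟩
    · exact ⟨0, fun h => absurd h hj⟩
  choose g hg using key
  refine ⟨(Finset.range K).image g, ?_, ?_, ?_⟩
  · intro x hx
    obtain ⟨j, hj, rfl⟩ := Finset.mem_image.1 hx
    have := (hg j (Finset.mem_range.1 hj)).1
    exact Finset.mem_range.2 (by omega)
  · rw [Finset.card_image_of_injOn]
    · simp
    · have hlt : ∀ j j' : ℕ, j < K → j' < K → j < j' → g j ≠ g j' := by
        intro j j' hj hj' hjj heq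
        have h1 := (hg j hj).2.2
        have h2 := (hg j' hj').2.1
        rw [← heq] at h2
        have h3 : ((j : ℝ) + 1) * δ ≤ j' * δ := by
          apply mul_le_mul_of_nonneg_right _ hδ.le
          exact_mod_cast hjj
        linarith
      intro j hj j' hj' heq
      have hj1 : j < K := by simpa using hj
      have hj2 : j' < K := by simpa using hj'
      rcases lt_trichotomy j j' with h | h | h
      · exact absurd heq (hlt j j' hj1 hj2 h)
      · exact h
      · exact absurd heq.symm (hlt j' j hj2 hj1 h)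
  · intro x hx
    obtain ⟨j, hj, rfl⟩ := Finset.mem_image.1 hx
    have hj' := Finset.mem_range.1 hj
    obtain ⟨h1, h2, h3⟩ := hg j hj'
    have h4 : ((j : ℝ) + 1) * δ ≤ K * δ := by
      apply mul_le_mul_of_nonneg_right _ hδ.le
      exact_mod_cast hj'
    have : 0 ≤ (j : ℝ) * δ := by positivity
    constructor <;> linarith

theorem window' (f : ℕ → ℝ) (n K : ℕ) (lo hi δ : ℝ) (hδ : 0 < δ)
    (hstep : ∀ i < n, |f (i + 1) - f i| ≤ δ) (h0 : hi ≤ f 0) (hn : f n ≤ lo)
    (hK : K * δ ≤ hi - lo) :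
    ∃ S : Finset ℕ, S ⊆ Finset.range (n + 1) ∧ K ≤ S.card ∧ ∀ i ∈ S, lo ≤ f i ∧ f i ≤ hi := by
  classical
  obtain ⟨S, h1, h2, h3⟩ := window (fun k => f (n - k)) n K lo hi δ hδ (by
    intro i hi
    have e : n - i = (n - (i + 1)) + 1 := by omega
    have := hstep (n - (i + 1)) (by omega)
    rw [e, abs_sub_comm]
    exact this) (by simpa using hn) (by simpa using h0) hK
  refine ⟨S.image (fun i => n - i), ?_, ?_, ?_⟩
  · intro x hx
    obtain ⟨j, hj, rfl⟩ := Finset.mem_image.1 hx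
    exact Finset.mem_range.2 (by omega)
  · rw [Finset.card_image_of_injOn]
    · exact h2
    · intro j hj j' hj' heq
      have a1 := Finset.mem_range.1 (h1 hj)
      have a2 := Finset.mem_range.1 (h1 hj')
      have heq' : n - j = n - j' := heq
      omega
  · intro x hx
    obtain ⟨j, hj, rfl⟩ := Finset.mem_image.1 hx
    exact h3 j hj


end Pool.Agent.Helper754.TwoN
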