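import Pool.Agent.Helper754.TwoN.Defs
import Pool.Agent.Helper754.TwoN.J_window

set_option autoImplicit false
set_option maxHeartbeats 4000000


namespace Pool.Agent.Helper754.TwoN

open Finset Polynomial


theorem rich1 (u p : ℕ) (hu : 10 ^ 20 ≤ u) (hp : p < 2) (G y : ℝ)
    (hG : G = 3000000 * (2 * Real.pi / ((8 * u + 2 : ℕ) : ℝ)))
    (hy1 : G ≤ y) (hy2 : y ≤ 1) (B : Finset ℕ)
    (hB : B.card ≤ 15000) : ∃ (V : Finset ℕ) (τ : ℕ → ℝ), V ⊆ Finset.range (2 * u) ∧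
      Disjoint V B ∧ V.card ≤ 4 ∧ (∀ i, τ i = 1 ∨ τ i = -1) ∧
      0.6 * y ≤ ∑ i ∈ V, τ i * xx u p i ∧ ∑ i ∈ V, τ i * xx u p i ≤ 0.7 * y := by
  set h : ℝ := 2 * Real.pi / ((8 * u + 2 : ℕ) : ℝ) with hh
  have hpi := Real.pi_pos
  have hpi4 := Real.pi_le_four
  have huR : (10 : ℝ) ^ 20 ≤ u := by exact_mod_cast hu
  have hNe : ((8 * u + 2 : ℕ) : ℝ) = 8 * (u : ℝ) + 2 := by push_cast; ring
  have hNpos : (0 : ℝ) < 8 * (u : ℝ) + 2 := by linarith
  have hpos : 0 < h := by rw [hh, hNe]; positivity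
  have hhe : h * (8 * (u : ℝ) + 2) = 2 * Real.pi := by
    rw [hh, hNe]; field_simp
  have hsmall : h ≤ 1 / 10 := by
    rw [hh, hNe, div_le_iff₀ hNpos]
    nlinarith
  have hp1 : (p : ℝ) ≤ 1 := by exact_mod_cast (by omega : p ≤ 1)
  have hp0 : (0 : ℝ) ≤ p := Nat.cast_nonneg p
  have hform : ∀ i : ℕ, xx u p i = Real.cos (h * ((2 * (i : ℝ) + 1 + p) / 2)) := by
    intro i
    rw [xx, hh, hNe]
    congr 1
    push_cast
    field_simp
  have hstep : ∀ i < 2 * u - 1, |xx u p (i + 1) - xx u p i| ≤ h := by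
    intro i _
    rw [hform, hform]
    have h1 := Real.abs_cos_sub_cos_le (h * ((2 * ((i + 1 : ℕ) : ℝ) + 1 + p) / 2))
      (h * ((2 * (i : ℝ) + 1 + p) / 2))
    refine h1.trans (le_of_eq ?_)
    have e : h * ((2 * ((i + 1 : ℕ) : ℝ) + 1 + p) / 2) - h * ((2 * (i : ℝ) + 1 + p) / 2) = h := by
      push_cast; ring
    rw [e, abs_of_pos hpos]
  have h0 : 0.7 * y ≤ xx u p 0 := by
    rw [hform]
    have h1 := Real.one_sub_sq_div_two_le_cos (x := h * ((2 * ((0 : ℕ) : ℝ) + 1 + p) / 2))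
    have h2 : h * ((2 * ((0 : ℕ) : ℝ) + 1 + p) / 2) ≤ 1 / 10 := by
      push_cast
      nlinarith
    have h3 : 0 ≤ h * ((2 * ((0 : ℕ) : ℝ) + 1 + p) / 2) := by
      push_cast
      positivity
    nlinarith
  have hn : xx u p (2 * u - 1) ≤ 0.6 * y := by
    rw [hform]
    have hu1 : 1 ≤ 2 * u := by omega
    have e : h * ((2 * ((2 * u - 1 : ℕ) : ℝ) + 1 + p) / 2) = Real.pi / 2 - h * ((2 - p) / 2) := by
      rw [Nat.cast_sub hu1]
      push_cast
      have : h * (4 * (u : ℝ) + 1) = Real.pi := by linarith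
      linear_combination this / 2
    rw [e, Real.cos_pi_div_two_sub]
    have h1 : Real.sin (h * ((2 - p) / 2)) ≤ h * ((2 - p) / 2) := by
      apply Real.sin_le
      have : 0 ≤ (2 - (p : ℝ)) / 2 := by linarith
      positivity
    have h2 : h * ((2 - p) / 2) ≤ h := by nlinarith
    rw [hG] at hy1
    linarith
  obtain ⟨S, hS1, hS2, hS3⟩ := window' (xx u p) (2 * u - 1) 15001 (0.6 * y) (0.7 * y) h hpos
    hstep h0 hn (by
      rw [hG] at hy1
      push_cast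
      linarith)
  obtain ⟨i, hiS, hiB⟩ : ∃ i ∈ S, i ∉ B := by
    by_contra hcon
    push Not at hcon
    have : S.card ≤ B.card := Finset.card_le_card hcon
    omega
  refine ⟨{i}, fun _ => 1, ?_, ?_, by simp, fun _ => Or.inl rfl, ?_, ?_⟩
  · intro j hj
    rw [Finset.mem_singleton] at hj
    subst hj
    have := hS1 hiS
    rw [Finset.mem_range] at this ⊢
    omega
  · rw [Finset.disjoint_singleton_left]; exact hiB
  · simpa using (hS3 i hiS).1
  · simpa using (hS3 i hiS).2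


end Pool.Agent.Helper754.TwoN
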