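import Pool.Agent.Helper754.TwoN.Defs
import Pool.Agent.Helper754.TwoN.J_window

set_option autoImplicit false
set_option maxHeartbeats 4000000


namespace Pool.Agent.Helper754.TwoN

open Finset Polynomial


private theorem rich2_core (u p : ℕ) (hu : 10 ^ 20 ≤ u) (hp : p < 2) (G y : ℝ)
    (hG : G = 3000000 * (2 * Real.pi / ((8 * u + 2 : ℕ) : ℝ)))
    (hy1 : 2 * G ^ 2 ≤ y) (hy2 : y ≤ G) :
    ∃ S : Finset ℕ, S ⊆ Finset.range (2 * u - 1 - 3000000 + 1) ∧ 30001 ≤ S.card ∧
      ∀ i ∈ S, 0.6 * y ≤ xx u p i - xx u p (i + 3000000) ∧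
        xx u p i - xx u p (i + 3000000) ≤ 0.7 * y := by
  have hpi := Real.pi_pos
  have hpi4 := Real.pi_lt_four
  have hu' : (10 : ℝ) ^ 20 ≤ u := by exact_mod_cast hu
  set N : ℝ := ((8 * u + 2 : ℕ) : ℝ) with hN
  have hNe : N = 8 * u + 2 := by rw [hN]; push_cast; ring
  have hN1 : (10 : ℝ) ^ 20 ≤ N := by rw [hNe]; linarith
  have hN0 : 0 < N := by linarith [show (0 : ℝ) < 10 ^ 20 by norm_num]
  set h : ℝ := 2 * Real.pi / N with hh
  have hh0 : 0 < h := by positivity
  have hG0 : 0 < G := by rw [hG]; positivity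
  have hhG : h = G / 3000000 := by rw [hG]; ring
  have hhs : h ≤ 8 / 10 ^ 20 := by
    rw [hh]
    apply div_le_div₀ (by norm_num) (by linarith) (by norm_num) hN1
  have hG1 : G ≤ 0.1 := by
    rw [hG]
    norm_num at hhs ⊢
    linarith
  have hGsq : G ^ 2 ≤ 0.01 := by nlinarith
  set al : ℕ → ℝ := fun i => Real.pi * ((2 * i + 1 + p : ℕ) : ℝ) / N with hal
  have hadd : ∀ i m : ℕ, al (i + m) = al i + m * h := by
    intro i m
    simp only [hal, hh]
    push_cast
    field_simp
    ring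
  have hal0 : ∀ i, 0 ≤ al i := fun i => by simp only [hal]; positivity
  have hxx : ∀ i, xx u p i = Real.cos (al i) := fun i => rfl
  have hgG : ((3000000 : ℕ) : ℝ) * h = G := by rw [hG]; norm_num
  set f : ℕ → ℝ := fun i => xx u p i - xx u p (i + 3000000) with hf
  have hs0 : 0 ≤ 2 * Real.sin (G / 2) := by
    have := Real.sin_nonneg_of_nonneg_of_le_pi (show 0 ≤ G / 2 by positivity)
      (by linarith [Real.pi_gt_three])
    linarith
  have hs1 : 2 * Real.sin (G / 2) ≤ G := by
    have := Real.sin_le (show 0 ≤ G / 2 by positivity)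
    linarith
  have hfe : ∀ i, f i = 2 * Real.sin (G / 2) * Real.sin (al i + G / 2) := by
    intro i
    simp only [hf]
    rw [hxx, hxx, hadd, hgG, Real.cos_sub_cos]
    have e1 : (al i + (al i + G)) / 2 = al i + G / 2 := by ring
    have e2 : (al i - (al i + G)) / 2 = -(G / 2) := by ring
    rw [e1, e2, Real.sin_neg]
    ring
  have hstep : ∀ i < 2 * u - 1 - 3000000, |f (i + 1) - f i| ≤ G * h := by
    intro i _
    rw [hfe, hfe, hadd, ← mul_sub, abs_mul, abs_of_nonneg hs0]
    have e1 : |Real.sin (al i + ((1 : ℕ) : ℝ) * h + G / 2) - Real.sin (al i + G / 2)| ≤ h := by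
      rw [Real.sin_sub_sin]
      have e2 : (al i + ((1 : ℕ) : ℝ) * h + G / 2 - (al i + G / 2)) / 2 = h / 2 := by
        push_cast; ring
      rw [e2, abs_mul, abs_mul]
      have e3 : |Real.sin (h / 2)| ≤ h / 2 := by
        rw [abs_of_nonneg]
        · exact Real.sin_le (by positivity)
        · refine Real.sin_nonneg_of_nonneg_of_le_pi (by positivity) ?_
          have : h ≤ G := by rw [hhG]; linarith
          linarith [Real.pi_gt_three]
      have e4 := Real.abs_cos_le_one ((al i + ((1 : ℕ) : ℝ) * h + G / 2 + (al i + G / 2)) / 2)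
      have e5 : |(2 : ℝ)| = 2 := abs_of_pos two_pos
      rw [e5]
      calc 2 * |Real.sin (h / 2)| * |Real.cos ((al i + ((1 : ℕ) : ℝ) * h + G / 2 + (al i + G / 2)) / 2)|
          ≤ 2 * (h / 2) * 1 := by
            apply mul_le_mul _ e4 (abs_nonneg _) (by positivity)
            linarith
        _ = h := by ring
    exact mul_le_mul hs1 e1 (abs_nonneg _) hG0.le
  have hp' : (p : ℝ) ≤ 1 := by
    have : p ≤ 1 := by omega
    exact_mod_cast this
  have hp0 : (0 : ℝ) ≤ p := Nat.cast_nonneg p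
  have hf0 : f 0 ≤ 0.6 * y := by
    rw [hfe]
    have e1 : al 0 ≤ h := by
      simp only [hal, hh]
      apply div_le_div_of_nonneg_right _ hN0.le
      push_cast
      nlinarith
    have e2 : Real.sin (al 0 + G / 2) ≤ al 0 + G / 2 := Real.sin_le (by have := hal0 0; positivity)
    have e3 : 2 * Real.sin (G / 2) * Real.sin (al 0 + G / 2) ≤ G * (G / 3000000 + G / 2) := by
      rcases le_or_gt 0 (Real.sin (al 0 + G / 2)) with h1 | h1
      · apply mul_le_mul hs1 _ h1 hG0.le
        rw [hhG] at e1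
        linarith
      · have h2 : 2 * Real.sin (G / 2) * Real.sin (al 0 + G / 2) ≤ 0 :=
          mul_nonpos_of_nonneg_of_nonpos hs0 h1.le
        have h3 : 0 ≤ G * (G / 3000000 + G / 2) := by positivity
        linarith
    have e4 : G * (G / 3000000 + G / 2) ≤ 0.51 * G ^ 2 := by nlinarith [sq_nonneg G]
    nlinarith [sq_nonneg G]
  have hn1 : 3000001 ≤ 2 * u := by
    norm_num at hu
    omega
  have hfn : 0.7 * y ≤ f (2 * u - 1 - 3000000) := by
    rw [hfe]
    set t : ℝ := Real.pi * (3000002 - p) / N with ht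
    have e1 : al (2 * u - 1 - 3000000) + G / 2 = Real.pi / 2 - t := by
      have e2 : ((2 * (2 * u - 1 - 3000000) + 1 + p : ℕ) : ℝ) = 4 * u - 6000001 + p := by
        have : 2 * (2 * u - 1 - 3000000) + 1 + p + 6000001 = 4 * u + p := by omega
        have h2 : ((2 * (2 * u - 1 - 3000000) + 1 + p + 6000001 : ℕ) : ℝ) = ((4 * u + p : ℕ) : ℝ) := by
          rw [this]
        push_cast at h2 ⊢
        linarith
      simp only [hal]
      rw [e2, hG, ht, hh]
      field_simp
      rw [hNe]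
      ring
    have ht0 : 0 ≤ t := by
      rw [ht]
      apply div_nonneg _ hN0.le
      apply mul_nonneg hpi.le
      linarith
    have ht1 : t ≤ G := by
      rw [ht, hG, hh]
      have e3 : 3000000 * (2 * Real.pi / N) = (6000000 * Real.pi) / N := by ring
      rw [e3]
      apply div_le_div_of_nonneg_right _ hN0.le
      nlinarith
    rw [e1, Real.sin_pi_div_two_sub]
    have e4 := Real.one_sub_sq_div_two_le_cos (x := t)
    have e5 : t ^ 2 ≤ G ^ 2 := pow_le_pow_left₀ ht0 ht1 2
    have e6 : 0.99 ≤ Real.cos t := by linarith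
    have e7 := Real.sin_gt_sub_cube (show 0 < G / 2 by positivity)
    have e8 : 0.99 * G ≤ 2 * Real.sin (G / 2) := by
      have : (G / 2) ^ 3 ≤ 0.01 * (G / 2) := by nlinarith
      nlinarith
    have e9 : 0.99 * G * 0.99 ≤ 2 * Real.sin (G / 2) * Real.cos t :=
      mul_le_mul e8 e6 (by norm_num) hs0
    nlinarith
  obtain ⟨S, hS1, hS2, hS3⟩ := window f (2 * u - 1 - 3000000) 30001 (0.6 * y) (0.7 * y) (G * h)
    (by positivity) hstep hf0 hfn (by
      rw [hhG]
      push_cast
      nlinarith [sq_nonneg G])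
  exact ⟨S, hS1, hS2, hS3⟩

theorem rich2 (u p : ℕ) (hu : 10 ^ 20 ≤ u) (hp : p < 2) (G y : ℝ)
    (hG : G = 3000000 * (2 * Real.pi / ((8 * u + 2 : ℕ) : ℝ)))
    (hy1 : 2 * G ^ 2 ≤ y) (hy2 : y ≤ G) (B : Finset ℕ)
    (hB : B.card ≤ 15000) : ∃ (V : Finset ℕ) (τ : ℕ → ℝ), V ⊆ Finset.range (2 * u) ∧
      Disjoint V B ∧ V.card ≤ 4 ∧ (∀ i, τ i = 1 ∨ τ i = -1) ∧
      0.6 * y ≤ ∑ i ∈ V, τ i * xx u p i ∧ ∑ i ∈ V, τ i * xx u p i ≤ 0.7 * y := by
  classical
  obtain ⟨S, hS1, hS2, hS3⟩ := rich2_core u p hu hp G y hG hy1 hy2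
  have hn1 : 3000001 ≤ 2 * u := by
    norm_num at hu
    omega
  have hcard : (B ∪ B.image (fun i => i - 3000000)).card < S.card := by
    have h1 := Finset.card_union_le B (B.image (fun i => i - 3000000))
    have h2 := Finset.card_image_le (s := B) (f := fun i => i - 3000000)
    omega
  obtain ⟨i, hi, hiB⟩ := Finset.exists_mem_notMem_of_card_lt_card hcard
  rw [Finset.mem_union, not_or] at hiB
  have hi1 : i ∉ B := hiB.1
  have hi2 : i + 3000000 ∉ B := by
    intro h
    apply hiB.2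
    exact Finset.mem_image.2 ⟨i + 3000000, h, by simp⟩
  have hir := Finset.mem_range.1 (hS1 hi)
  have hne : i ≠ i + 3000000 := by omega
  refine ⟨{i, i + 3000000}, fun j => if j = i then 1 else -1, ?_, ?_, ?_, ?_, ?_⟩
  · intro j hj
    rw [Finset.mem_insert, Finset.mem_singleton] at hj
    rw [Finset.mem_range]
    omega
  · rw [Finset.disjoint_left]
    intro j hj
    rw [Finset.mem_insert, Finset.mem_singleton] at hj
    rcases hj with rfl | rfl
    · exact hi1
    · exact hi2
  · exact (Finset.card_le_two).trans (by norm_num)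
  · intro j
    by_cases hj : j = i
    · left; simp [hj]
    · right; simp [hj]
  · have e : ∑ j ∈ ({i, i + 3000000} : Finset ℕ), (if j = i then (1 : ℝ) else -1) * xx u p j =
        xx u p i - xx u p (i + 3000000) := by
      rw [Finset.sum_pair hne, if_pos rfl, if_neg (Ne.symm hne)]
      ring
    rw [e]
    exact hS3 i hi


end Pool.Agent.Helper754.TwoN
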