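import Pool.Agent.Helper754.TwoN.Defs
import Pool.Agent.Helper754.TwoN.J_window

set_option autoImplicit false
set_option maxHeartbeats 4000000


namespace Pool.Agent.Helper754.TwoN

open Finset Polynomial


private theorem rich3_trig (b G : ℝ) :
    -Real.cos (b - 3 * G / 2) + Real.cos (b - G / 2) + Real.cos (b + G / 2) -
      Real.cos (b + 3 * G / 2) = 4 * (Real.sin G * Real.sin (G / 2)) * Real.cos b := by
  have h1 : 3 * G / 2 = G + G / 2 := by ring
  rw [Real.cos_sub, Real.cos_add b (3 * G / 2), Real.cos_sub, Real.cos_add b (G / 2), h1,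
    Real.cos_add, Real.sin_add]
  have h2 : Real.sin G = 2 * Real.sin (G / 2) * Real.cos (G / 2) := by
    rw [← Real.sin_two_mul]; congr 1; ring
  have h3 : Real.cos G = 2 * Real.cos (G / 2) ^ 2 - 1 := by
    rw [← Real.cos_two_mul]; congr 1; ring
  rw [h2, h3]
  have h4 := Real.sin_sq_add_cos_sq (G / 2)
  linear_combination (-4 * Real.cos b * Real.cos (G / 2)) * h4

theorem rich3 (u p : ℕ) (hu : 10 ^ 20 ≤ u) (hp : p < 2) (G y : ℝ)
    (hG : G = 3000000 * (2 * Real.pi / ((8 * u + 2 : ℕ) : ℝ)))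
    (hy1 : 7 * G ^ 3 ≤ y) (hy2 : y ≤ 2 * G ^ 2) (B : Finset ℕ)
    (hB : B.card ≤ 15000) : ∃ (V : Finset ℕ) (τ : ℕ → ℝ), V ⊆ Finset.range (2 * u) ∧
      Disjoint V B ∧ V.card ≤ 4 ∧ (∀ i, τ i = 1 ∨ τ i = -1) ∧
      0.6 * y ≤ ∑ i ∈ V, τ i * xx u p i ∧ ∑ i ∈ V, τ i * xx u p i ≤ 0.7 * y := by
  have hpi0 := Real.pi_pos
  have hpi3 := Real.pi_gt_three
  have hpi4 : Real.pi < 3.2 := lt_trans Real.pi_lt_d2 (by norm_num)
  obtain ⟨N, hN⟩ : ∃ N : ℝ, N = ((8 * u + 2 : ℕ) : ℝ) := ⟨_, rfl⟩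
  rw [← hN] at hG
  have huR : (10 : ℝ) ^ 20 ≤ (u : ℝ) := by exact_mod_cast hu
  have hN1 : N = 8 * (u : ℝ) + 2 := by rw [hN]; push_cast; ring
  have hN0 : (8 : ℝ) * 10 ^ 20 ≤ N := by rw [hN1]; linarith
  have hNpos : 0 < N := lt_of_lt_of_le (by norm_num) hN0
  obtain ⟨h, hh⟩ : ∃ h : ℝ, h = 2 * Real.pi / N := ⟨_, rfl⟩
  rw [← hh] at hG
  have hh0 : 0 < h := by rw [hh]; positivity
  have hhle : h ≤ 1 / 10 ^ 20 := by
    rw [hh, div_le_iff₀ hNpos]
    norm_num at hN0 ⊢
    linarith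
  have hG0 : 0 < G := by rw [hG]; positivity
  have hGle : G ≤ 1 / 10 ^ 13 := by
    rw [hG]
    norm_num at hhle ⊢
    linarith
  obtain ⟨a, ha⟩ : ∃ a : ℕ → ℝ, ∀ i, a i = Real.pi * ((2 * i + 1 + p : ℕ) : ℝ) / N :=
    ⟨_, fun _ => rfl⟩
  have hxx : ∀ i, xx u p i = Real.cos (a i) := by
    intro i
    rw [ha, hN]
    rfl
  have hadd : ∀ i k : ℕ, a (i + k) = a i + k * h := by
    intro i k
    rw [ha, ha, hh]
    push_cast
    field_simp
    ring
  have hg1 : ∀ i, a (i + 3000000) = a i + G := by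
    intro i
    rw [hadd, hG]
    push_cast
    ring
  have hg2 : ∀ i, a (i + 6000000) = a i + 2 * G := by
    intro i
    rw [hadd, hG]
    push_cast
    ring
  have hg3 : ∀ i, a (i + 9000000) = a i + 3 * G := by
    intro i
    rw [hadd, hG]
    push_cast
    ring
  obtain ⟨f, hf⟩ : ∃ f : ℕ → ℝ, ∀ i, f i = -xx u p i + xx u p (i + 3000000) +
      xx u p (i + 6000000) - xx u p (i + 9000000) := ⟨_, fun _ => rfl⟩
  obtain ⟨c, hc⟩ : ∃ c : ℝ, c = 4 * (Real.sin G * Real.sin (G / 2)) := ⟨_, rfl⟩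
  have hfc : ∀ i, f i = c * Real.cos (a i + 3 * G / 2) := by
    intro i
    rw [hf, hxx, hxx, hxx, hxx, hg1, hg2, hg3, hc, ← rich3_trig]
    congr 1
    · congr 1
      · congr 1
        · congr 2
          ring
        · congr 1
          ring
      · congr 1
        ring
    · congr 1
      ring
  -- bounds for c
  have hsG1 : Real.sin G ≤ G := (Real.sin_lt hG0).le
  have hsG2 : Real.sin (G / 2) ≤ G / 2 := (Real.sin_lt (by linarith)).le
  have hsmall : ∀ x : ℝ, 0 < x → x ≤ 1 / 10 ^ 13 → 0.99 * x ≤ Real.sin x := by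
    intro x hx hx2
    have h1 := Real.sin_gt_sub_cube hx
    have h2 : x ^ 2 ≤ 1 / 100 := by
      have : x ≤ 1 / 10 := hx2.trans (by norm_num)
      nlinarith
    have h3 : x ^ 3 = x * x ^ 2 := by ring
    have h4 : x * x ^ 2 ≤ x * (1 / 100) := mul_le_mul_of_nonneg_left h2 hx.le
    rw [h3] at h1
    linarith
  have hsG3 := hsmall G hG0 hGle
  have hsG4 := hsmall (G / 2) (by linarith) (by linarith)
  have hc1 : c ≤ 2 * G ^ 2 := by
    rw [hc]
    have : Real.sin G * Real.sin (G / 2) ≤ G * (G / 2) :=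
      mul_le_mul hsG1 hsG2 (by linarith) hG0.le
    nlinarith
  have hc2 : 1.96 * G ^ 2 ≤ c := by
    rw [hc]
    have : (0.99 * G) * (0.99 * (G / 2)) ≤ Real.sin G * Real.sin (G / 2) :=
      mul_le_mul hsG3 hsG4 (by positivity) (by linarith)
    nlinarith
  have hc0 : 0 < c := lt_of_lt_of_le (by positivity) hc2
  obtain ⟨n, hn⟩ : ∃ n : ℕ, n + 9000001 = 2 * u := ⟨2 * u - 9000001, by
    have : 10 ^ 20 ≤ u := hu
    norm_num at this
    omega⟩
  have hpR : (p : ℝ) ≤ 1 := by
    have : p ≤ 1 := by omega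
    exact_mod_cast this
  have hpR0 : (0 : ℝ) ≤ p := Nat.cast_nonneg p
  -- f 0
  have hf0 : 0.7 * y ≤ f 0 := by
    rw [hfc]
    have h1 : 0 ≤ a 0 + 3 * G / 2 := by
      have : 0 ≤ a 0 := by rw [ha]; positivity
      linarith
    have h2 : a 0 + 3 * G / 2 ≤ 1 / 100 := by
      have h3 : a 0 ≤ h := by
        rw [ha, hh]
        refine div_le_div_of_nonneg_right ?_ hNpos.le
        push_cast
        nlinarith
      have h4 : h ≤ 1 / 1000 := hhle.trans (by norm_num)
      have h5 : G ≤ 1 / 1000 := hGle.trans (by norm_num)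
      linarith
    have h3 : 0.99 ≤ Real.cos (a 0 + 3 * G / 2) := by
      have := Real.one_sub_sq_div_two_le_cos (x := a 0 + 3 * G / 2)
      nlinarith
    have h4 : 1.96 * G ^ 2 * 0.99 ≤ c * Real.cos (a 0 + 3 * G / 2) :=
      mul_le_mul hc2 h3 (by norm_num) hc0.le
    have h5 : 0 ≤ G ^ 2 := by positivity
    linarith
  -- f n
  have hG3 : 0 ≤ G ^ 3 := by positivity
  have hfn : f n ≤ 0.6 * y := by
    rw [hfc]
    have h1 : a n + 3 * G / 2 = Real.pi / 2 - (3 * G / 2 + Real.pi * (2 - p) / N) := by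
      have h2 : a (n + 9000000) = Real.pi / 2 - Real.pi * (2 - p) / N := by
        rw [ha]
        have h3 : ((2 * (n + 9000000) + 1 + p : ℕ) : ℝ) = 4 * (u : ℝ) - 1 + p := by
          have h4 : 2 * (n + 9000000) + 1 + p + 1 = 4 * u + p := by omega
          have h5 : ((2 * (n + 9000000) + 1 + p + 1 : ℕ) : ℝ) = ((4 * u + p : ℕ) : ℝ) := by
            rw [h4]
          push_cast at h5 ⊢
          linarith
        rw [h3]
        have h6 : (u : ℝ) = (N - 2) / 8 := by rw [hN1]; ring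
        rw [h6]
        field_simp
        ring
      rw [hg3] at h2
      linarith
    rw [h1, Real.cos_pi_div_two_sub]
    have h2 : 0 < 3 * G / 2 + Real.pi * (2 - p) / N := by
      have : 0 ≤ Real.pi * (2 - p) / N := by
        apply div_nonneg _ hNpos.le
        nlinarith
      linarith
    have h3 : Real.pi * (2 - p) / N ≤ h := by
      rw [hh]
      refine div_le_div_of_nonneg_right ?_ hNpos.le
      nlinarith
    have h4 : Real.sin (3 * G / 2 + Real.pi * (2 - p) / N) ≤ 3 * G / 2 + h :=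
      (Real.sin_lt h2).le.trans (by linarith)
    have h5 : c * Real.sin (3 * G / 2 + Real.pi * (2 - p) / N) ≤ c * (3 * G / 2 + h) :=
      mul_le_mul_of_nonneg_left h4 hc0.le
    have h6 : c * (3 * G / 2 + h) ≤ 2 * G ^ 2 * (3 * G / 2 + h) :=
      mul_le_mul_of_nonneg_right hc1 (by linarith)
    have h7 : h = G / 3000000 := by rw [hG]; ring
    have h8 : 2 * G ^ 2 * (3 * G / 2 + h) = (3 + 2 / 3000000) * G ^ 3 := by
      rw [h7]; ring
    linarith
  have hδ : 0 < 2 * G ^ 2 * h := by positivity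
  have hstep : ∀ i < n, |f (i + 1) - f i| ≤ 2 * G ^ 2 * h := by
    intro i _
    rw [hfc, hfc, ← mul_sub, abs_mul, abs_of_pos hc0]
    have h1 := Real.abs_cos_sub_cos_le (a (i + 1) + 3 * G / 2) (a i + 3 * G / 2)
    have h2 : a (i + 1) + 3 * G / 2 - (a i + 3 * G / 2) = h := by
      rw [hadd]; push_cast; ring
    rw [h2, abs_of_pos hh0] at h1
    exact mul_le_mul hc1 h1 (abs_nonneg _) (by positivity)
  have hK : ((60001 : ℕ) : ℝ) * (2 * G ^ 2 * h) ≤ 0.7 * y - 0.6 * y := by
    have h7 : h = G / 3000000 := by rw [hG]; ring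
    have h8 : ((60001 : ℕ) : ℝ) * (2 * G ^ 2 * h) = (120002 / 3000000) * G ^ 3 := by
      rw [h7]; push_cast; ring
    rw [h8]
    linarith
  obtain ⟨S, hS1, hS2, hS3⟩ := window' f n 60001 (0.6 * y) (0.7 * y) (2 * G ^ 2 * h) hδ hstep hf0
    hfn hK
  obtain ⟨Bad, hBad⟩ : ∃ Bad : Finset ℕ, Bad = ((B ∪ B.image (fun b => b - 3000000)) ∪
      B.image (fun b => b - 6000000)) ∪ B.image (fun b => b - 9000000) := ⟨_, rfl⟩
  have hBadc : Bad.card ≤ 60000 := by
    rw [hBad]
    have i1 := Finset.card_image_le (s := B) (f := fun b => b - 3000000)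
    have i2 := Finset.card_image_le (s := B) (f := fun b => b - 6000000)
    have i3 := Finset.card_image_le (s := B) (f := fun b => b - 9000000)
    have j1 := Finset.card_union_le B (B.image (fun b => b - 3000000))
    have j2 := Finset.card_union_le (B ∪ B.image (fun b => b - 3000000))
      (B.image (fun b => b - 6000000))
    have j3 := Finset.card_union_le ((B ∪ B.image (fun b => b - 3000000)) ∪
      B.image (fun b => b - 6000000)) (B.image (fun b => b - 9000000))
    omega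
  obtain ⟨i, hiS, hiB⟩ := Finset.exists_mem_notMem_of_card_lt_card
    (show Bad.card < S.card by omega)
  have hib : i ∉ B ∧ i + 3000000 ∉ B ∧ i + 6000000 ∉ B ∧ i + 9000000 ∉ B := by
    rw [hBad] at hiB
    simp only [Finset.mem_union, Finset.mem_image, not_or, not_exists, not_and] at hiB
    obtain ⟨⟨⟨b1, b2⟩, b3⟩, b4⟩ := hiB
    exact ⟨b1, fun hb => b2 _ hb (by omega), fun hb => b3 _ hb (by omega),
      fun hb => b4 _ hb (by omega)⟩
  have hin : i < n + 1 := Finset.mem_range.1 (hS1 hiS)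
  obtain ⟨f1, f2⟩ := hS3 i hiS
  have hsum : ∑ j ∈ ({i, i + 3000000, i + 6000000, i + 9000000} : Finset ℕ),
      (if j = i ∨ j = i + 9000000 then (-1 : ℝ) else 1) * xx u p j = f i := by
    rw [Finset.sum_insert, Finset.sum_insert, Finset.sum_insert, Finset.sum_singleton]
    · rw [if_pos (Or.inl rfl), if_neg (by omega), if_neg (by omega), if_pos (Or.inr rfl), hf]
      ring
    · rw [Finset.mem_singleton]; omega
    · rw [Finset.mem_insert, Finset.mem_singleton]; omega
    · rw [Finset.mem_insert, Finset.mem_insert, Finset.mem_singleton]; omega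
  refine ⟨{i, i + 3000000, i + 6000000, i + 9000000},
    fun j => if j = i ∨ j = i + 9000000 then (-1 : ℝ) else 1, ?_, ?_, ?_, ?_, ?_, ?_⟩
  · intro j hj
    simp only [Finset.mem_insert, Finset.mem_singleton] at hj
    rw [Finset.mem_range]
    omega
  · rw [Finset.disjoint_left]
    intro j hj
    simp only [Finset.mem_insert, Finset.mem_singleton] at hj
    rcases hj with rfl | rfl | rfl | rfl
    · exact hib.1
    · exact hib.2.1
    · exact hib.2.2.1
    · exact hib.2.2.2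
  · exact Finset.card_le_four
  · intro j
    by_cases hj : j = i ∨ j = i + 9000000
    · right; simp only [hj, if_true]
    · left; simp only [hj, if_false]
  · rw [hsum]; exact f1
  · rw [hsum]; exact f2


end Pool.Agent.Helper754.TwoN
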