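import Pool.Agent.Helper754.TwoN.Defs
import Pool.Agent.Helper754.TwoN.J_rich1
import Pool.Agent.Helper754.TwoN.J_rich2
import Pool.Agent.Helper754.TwoN.J_rich3

set_option autoImplicit false
set_option maxHeartbeats 4000000

namespace Pool.Agent.Helper754.TwoN

open Finset Polynomial

theorem rich (u p : ℕ) (hu : 10 ^ 20 ≤ u) (hp : p < 2) (G y : ℝ)
    (hG : G = 3000000 * (2 * Real.pi / ((8 * u + 2 : ℕ) : ℝ)))
    (hy1 : 7 * G ^ 3 ≤ y) (hy2 : y ≤ 1) (B : Finset ℕ)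
    (hB : B.card ≤ 15000) : ∃ (V : Finset ℕ) (τ : ℕ → ℝ), V ⊆ Finset.range (2 * u) ∧
      Disjoint V B ∧ V.card ≤ 4 ∧ (∀ i, τ i = 1 ∨ τ i = -1) ∧
      0.6 * y ≤ ∑ i ∈ V, τ i * xx u p i ∧ ∑ i ∈ V, τ i * xx u p i ≤ 0.7 * y := by
  by_cases h1 : G ≤ y
  · exact rich1 u p hu hp G y hG h1 hy2 B hB
  · by_cases h2 : 2 * G ^ 2 ≤ y
    · exact rich2 u p hu hp G y hG h2 (le_of_not_ge h1) B hB
    · exact rich3 u p hu hp G y hG hy1 (le_of_not_ge h2) B hB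

end Pool.Agent.Helper754.TwoN
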