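import Pool.Agent.Helper754.TwoN.Defs
import Pool.Agent.Helper754.TwoN.J_rich
import Pool.Agent.Helper754.TwoN.J_greedy_lad

set_option autoImplicit false
set_option maxHeartbeats 4000000


namespace Pool.Agent.Helper754.TwoN

open Finset Polynomial


private theorem six_low : (1 : ℝ) / 10 ^ 267 ≤ (0.6 : ℝ) ^ 1200 := by
  have h1 : (1 / 10 ^ 2 : ℝ) ≤ (0.6 : ℝ) ^ 9 := by norm_num
  have h2 : (1 / 10 ^ 2 : ℝ) ^ 133 ≤ ((0.6 : ℝ) ^ 9) ^ 133 :=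
    pow_le_pow_left₀ (by positivity) h1 133
  have h3 : ((0.6 : ℝ) ^ 9) ^ 133 * (0.6 : ℝ) ^ 3 = (0.6 : ℝ) ^ 1200 := by
    rw [← pow_mul, ← pow_add]
  have h4 : (1 / 10 ^ 2 : ℝ) ^ 133 = 1 / 10 ^ 266 := by
    rw [div_pow, one_pow, ← pow_mul]
  have h5 : (1 : ℝ) / 10 ^ 267 ≤ 1 / 10 ^ 266 * (0.6 : ℝ) ^ 3 := by
    have h6 : (1 : ℝ) / 10 ^ 267 = 1 / 10 ^ 266 * (1 / 10) := by
      rw [show (267 : ℕ) = 266 + 1 from rfl, pow_succ]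
      field_simp
    rw [h6]
    exact mul_le_mul_of_nonneg_left (by norm_num) (by positivity)
  calc (1 : ℝ) / 10 ^ 267 ≤ 1 / 10 ^ 266 * (0.6 : ℝ) ^ 3 := h5
    _ = (1 / 10 ^ 2 : ℝ) ^ 133 * (0.6 : ℝ) ^ 3 := by rw [h4]
    _ ≤ ((0.6 : ℝ) ^ 9) ^ 133 * (0.6 : ℝ) ^ 3 := mul_le_mul_of_nonneg_right h2 (by positivity)
    _ = _ := h3

private theorem six_up : (0.6 : ℝ) ^ 1200 ≤ 1 / 10 ^ 240 := by
  have h1 : (0.6 : ℝ) ^ 5 ≤ 1 / 10 := by norm_num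
  have h2 : ((0.6 : ℝ) ^ 5) ^ 240 ≤ (1 / 10) ^ 240 := pow_le_pow_left₀ (by positivity) h1 240
  rw [← pow_mul, div_pow, one_pow] at h2
  exact h2

theorem ladders (u p : ℕ) (hu : u = 10 ^ 100) (hp : p < 2) :
    ∃ L : Fin 3 → Finset ℕ, (∀ j, L j ⊆ Finset.range (2 * u)) ∧
      (∀ j k, j ≠ k → Disjoint (L j) (L k)) ∧ (∀ j, ((L j).card : ℝ) ≤ (u : ℝ) / 1000) ∧
      ∀ j, Lad (fun i => xx u p i) (L j)
        (1 / 10 ^ 31 / ((8 * u + 2 : ℕ) : ℝ) ^ 2 / 1000 / 4) := by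
  have hu20 : 10 ^ 20 ≤ u := by
    rw [hu]
    exact Nat.pow_le_pow_right (by norm_num) (by norm_num)
  have huR : (u : ℝ) = 10 ^ 100 := by
    rw [hu, Nat.cast_pow, Nat.cast_ofNat]
  clear hu
  have hN : ((8 * u + 2 : ℕ) : ℝ) = 8 * 10 ^ 100 + 2 := by
    rw [Nat.cast_add, Nat.cast_mul, huR]
    norm_num
  have hN1 : (8 : ℝ) * 10 ^ 100 ≤ ((8 * u + 2 : ℕ) : ℝ) := by rw [hN]; linarith
  have hN2 : ((8 * u + 2 : ℕ) : ℝ) ≤ 9 * 10 ^ 100 := by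
    rw [hN]
    have : (2 : ℝ) ≤ 10 ^ 100 := by norm_num
    linarith
  have hNpos : (0 : ℝ) < ((8 * u + 2 : ℕ) : ℝ) := by rw [hN]; positivity
  have hGle : 3000000 * (2 * Real.pi / ((8 * u + 2 : ℕ) : ℝ)) ≤ 24 / 10 ^ 95 := by
    have h1 : 2 * Real.pi / ((8 * u + 2 : ℕ) : ℝ) ≤ 6.4 / (8 * 10 ^ 100) := by
      refine div_le_div₀ (by norm_num) ?_ (by positivity) hN1
      have := Real.pi_lt_d2
      linarith
    calc 3000000 * (2 * Real.pi / ((8 * u + 2 : ℕ) : ℝ)) ≤ 3000000 * (6.4 / (8 * 10 ^ 100)) :=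
          mul_le_mul_of_nonneg_left h1 (by norm_num)
      _ ≤ 24 / 10 ^ 95 := by norm_num
  have hG0 : 0 ≤ 3000000 * (2 * Real.pi / ((8 * u + 2 : ℕ) : ℝ)) := by
    have := Real.pi_pos
    positivity
  have h7 : 7 * (3000000 * (2 * Real.pi / ((8 * u + 2 : ℕ) : ℝ))) ^ 3 ≤ (0.6 : ℝ) ^ 1200 := by
    have h1 := pow_le_pow_left₀ hG0 hGle 3
    have h2 : (7 : ℝ) * (24 / 10 ^ 95) ^ 3 ≤ 1 / 10 ^ 267 := by
      rw [div_pow, ← pow_mul, show 95 * 3 = 18 + 267 from rfl, pow_add, ← mul_div_assoc, ← div_div]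
      exact div_le_div_of_nonneg_right (by norm_num) (by positivity)
    exact le_trans (by linarith) (h2.trans six_low)
  obtain ⟨L, hL1, hL2, hL3, hL4⟩ := greedy_lad (2 * u) 1201 (fun i => xx u p i) (by norm_num) (by
    intro k hk B hB
    have hk' : (0.6 : ℝ) ^ 1200 ≤ 0.6 ^ k :=
      pow_le_pow_of_le_one (by norm_num) (by norm_num) (by omega)
    exact rich u p hu20 hp _ (0.6 ^ k) rfl (h7.trans hk')
      (pow_le_one₀ (by norm_num) (by norm_num)) B (by omega))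
  refine ⟨L, hL1, hL2, fun j => ?_, fun j ρ hρ => ?_⟩
  · have h1 : ((L j).card : ℝ) ≤ 4804 := by exact_mod_cast hL3 j
    rw [huR]
    refine h1.trans ?_
    norm_num
  · obtain ⟨τ, hτ1, hτ2⟩ := hL4 j ρ hρ
    refine ⟨τ, hτ1, hτ2.trans ?_⟩
    have h1 : (0.7 : ℝ) * 0.6 ^ (1201 - 1) ≤ 0.7 * (1 / 10 ^ 240) :=
      mul_le_mul_of_nonneg_left six_up (by norm_num)
    refine h1.trans ?_
    have h2 : ((8 * u + 2 : ℕ) : ℝ) ^ 2 ≤ (9 * 10 ^ 100) ^ 2 :=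
      pow_le_pow_left₀ hNpos.le hN2 2
    have h3 : (1 : ℝ) / 10 ^ 31 / (9 * 10 ^ 100) ^ 2 / 1000 / 4 ≤
        1 / 10 ^ 31 / ((8 * u + 2 : ℕ) : ℝ) ^ 2 / 1000 / 4 := by
      gcongr
    refine le_trans ?_ h3
    norm_num


end Pool.Agent.Helper754.TwoN
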