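import Pool.Agent.Helper754.TwoN.Defs
import Pool.Agent.Helper754.TwoN.J_detect

set_option autoImplicit false
set_option maxHeartbeats 4000000


namespace Pool.Agent.Helper754.TwoN

open Finset Polynomial


/-- the phase function -/
private noncomputable def pfPhi (n : ℕ) (v z : ℕ → ℝ → ℝ) (c : ℝ → ℝ) (E σ : ℕ → ℝ) (s : ℝ) : ℝ :=
  c s + ∑ i ∈ Finset.range n, E i * v i s + ∑ i ∈ Finset.range n, σ i * z i s

/-- zero time -/
private def pfZero (n : ℕ) (d : ℕ → ℝ) (v z : ℕ → ℝ → ℝ) (c : ℝ → ℝ) (s : ℝ) : Prop :=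
  ∃ E σ : ℕ → ℝ, IsState n E σ ∧ 0 ≤ ∑ i ∈ Finset.range n, E i * d i ∧ pfPhi n v z c E σ s = 0

private theorem pf_neg {n : ℕ} {E σ : ℕ → ℝ} (h : IsState n E σ) : IsState n E (fun i => -σ i) := by
  refine ⟨fun i hi => ?_, h.2⟩
  rcases h.1 i hi with ⟨h1 | h1, h2⟩ | ⟨h1, h2⟩
  · exact Or.inl ⟨Or.inr (by change -σ i = -1; rw [h1]), h2⟩
  · exact Or.inl ⟨Or.inl (by change -σ i = 1; rw [h1]; norm_num), h2⟩
  · exact Or.inr ⟨by change -σ i = 0; rw [h1]; norm_num, h2⟩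

private theorem pf_phi_neg (n : ℕ) (v z : ℕ → ℝ → ℝ) (c : ℝ → ℝ) (E σ : ℕ → ℝ) (s : ℝ) :
    pfPhi n v z c E (fun i => -σ i) s
      = c s + ∑ i ∈ Finset.range n, E i * v i s - ∑ i ∈ Finset.range n, σ i * z i s := by
  unfold pfPhi
  simp only [neg_mul, Finset.sum_neg_distrib]
  ring

private theorem pf_cont (n : ℕ) (v z : ℕ → ℝ → ℝ) (c : ℝ → ℝ)
    (cv : ∀ i, ContinuousOn (v i) (Set.Icc 0 1)) (cz : ∀ i, ContinuousOn (z i) (Set.Icc 0 1))
    (ccont : ContinuousOn c (Set.Icc 0 1)) (E σ : ℕ → ℝ) :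
    ContinuousOn (pfPhi n v z c E σ) (Set.Icc 0 1) := by
  unfold pfPhi
  refine (ccont.add (continuousOn_finset_sum _ (fun i _ => ?_))).add
    (continuousOn_finset_sum _ (fun i _ => ?_))
  · exact continuousOn_const.mul (cv i)
  · exact continuousOn_const.mul (cz i)

private theorem pf_up (f : ℝ → ℝ) (hf : ContinuousOn f (Set.Icc 0 1)) (a b : ℝ) (ha : 0 ≤ a) (hab : a ≤ b)
    (hb : b ≤ 1) (h1 : f a < 0) (h2 : 0 ≤ f b) : ∃ s ∈ Set.Ioc a b, f s = 0 := by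
  have hc : ContinuousOn f (Set.Icc a b) := hf.mono (Set.Icc_subset_Icc ha hb)
  obtain ⟨s, hs, hs0⟩ := intermediate_value_Icc hab hc (⟨h1.le, h2⟩ : (0 : ℝ) ∈ Set.Icc (f a) (f b))
  refine ⟨s, ⟨lt_of_le_of_ne hs.1 ?_, hs.2⟩, hs0⟩
  rintro rfl
  rw [hs0] at h1
  exact lt_irrefl _ h1

private theorem pf_down (f : ℝ → ℝ) (hf : ContinuousOn f (Set.Icc 0 1)) (a b : ℝ) (ha : 0 ≤ a)
    (hab : a ≤ b) (hb : b ≤ 1) (h1 : 0 < f a) (h2 : f b ≤ 0) : ∃ s ∈ Set.Ioc a b, f s = 0 := by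
  obtain ⟨s, hs, hs0⟩ := pf_up (fun x => -f x) hf.neg a b ha hab hb (by linarith) (by linarith)
  exact ⟨s, hs, by linarith⟩

private theorem pf_lad {x : ℕ → ℝ} {L : Finset ℕ} {ε ε' : ℝ} (h : Lad x L ε) (hε : ε ≤ ε') :
    Lad x L ε' := by
  intro ρ hρ
  obtain ⟨τ, h1, h2⟩ := h ρ hρ
  exact ⟨τ, h1, h2.trans hε⟩

private theorem pf_bound {n : ℕ} (a w : ℕ → ℝ) (B : ℝ) (ha : ∀ i ∈ Finset.range n, |a i| ≤ 1)
    (hw : ∑ i ∈ Finset.range n, |w i| ≤ B) : |∑ i ∈ Finset.range n, a i * w i| ≤ B := by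
  refine (Finset.abs_sum_le_sum_abs _ _).trans (le_trans ?_ hw)
  refine Finset.sum_le_sum (fun i hi => ?_)
  rw [abs_mul]
  have := ha i hi
  have h2 := abs_nonneg (w i)
  nlinarith

theorem path_flat (u : ℕ) (hu : 1000 ≤ u) (x d : ℕ → ℝ) (v z : ℕ → ℝ → ℝ) (c : ℝ → ℝ) (η : ℝ)
    (hη : 0 < η) (hη' : η ≤ 1 / 1000) (hx : ∀ i ∈ Finset.range (2 * u), 0 < x i ∧ x i ≤ 1)
    (hsum : (u : ℝ) / 2 ≤ ∑ i ∈ Finset.range (2 * u), x i)
    (hz : ∀ i ∈ Finset.range (2 * u), ∀ t ∈ Set.Icc (0 : ℝ) 1, |z i t - x i| ≤ 1 / 1000)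
    (L : Fin 3 → Finset ℕ) (hL : ∀ j, L j ⊆ Finset.range (2 * u))
    (hdisj : ∀ j k, j ≠ k → Disjoint (L j) (L k))
    (hc : ∀ j, ((L j).card : ℝ) ≤ u / 1000) (hlad : ∀ j, Lad x (L j) (η / 1000 / 4))
    (cv : ∀ i, ContinuousOn (v i) (Set.Icc 0 1)) (cz : ∀ i, ContinuousOn (z i) (Set.Icc 0 1))
    (ccont : ContinuousOn c (Set.Icc 0 1)) (hv0 : ∀ i ∈ Finset.range (2 * u), v i 0 = 0)
    (hz0 : ∀ i ∈ Finset.range (2 * u), z i 0 = x i) (hc0 : c 0 = 0)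
    (uniq : ∀ t ∈ Set.Ioc (0 : ℝ) 1, ∀ t' ∈ Set.Ioc (0 : ℝ) 1,
      (∃ E σ : ℕ → ℝ, IsState (2 * u) E σ ∧ 0 ≤ ∑ i ∈ Finset.range (2 * u), E i * d i ∧
        c t + ∑ i ∈ Finset.range (2 * u), E i * v i t + ∑ i ∈ Finset.range (2 * u), σ i * z i t = 0) →
      (∃ E σ : ℕ → ℝ, IsState (2 * u) E σ ∧ 0 ≤ ∑ i ∈ Finset.range (2 * u), E i * d i ∧
        c t' + ∑ i ∈ Finset.range (2 * u), E i * v i t' + ∑ i ∈ Finset.range (2 * u), σ i * z i t' = 0)
      → t = t') (t : ℝ) (ht : t ∈ Set.Ioc (0 : ℝ) 1) :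
    Flat (2 * u) x (fun i => v i t) (fun i => z i t) (c t) η := by
  set n := 2 * u with hn
  have ht1 : t ∈ Set.Icc (0 : ℝ) 1 := ⟨ht.1.le, ht.2⟩
  have hphi0 : ∀ E σ : ℕ → ℝ, pfPhi n v z c E σ 0 = ∑ i ∈ Finset.range n, σ i * x i := by
    intro E σ
    unfold pfPhi
    have e1 : ∑ i ∈ Finset.range n, E i * v i 0 = 0 :=
      Finset.sum_eq_zero (fun i hi => by rw [hv0 i hi, mul_zero])
    have e2 : ∑ i ∈ Finset.range n, σ i * z i 0 = ∑ i ∈ Finset.range n, σ i * x i :=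
      Finset.sum_congr rfl (fun i hi => by rw [hz0 i hi])
    rw [e1, e2, hc0]; ring
  have hcont := pf_cont n v z c cv cz ccont
  have uniq' : ∀ s ∈ Set.Ioc (0 : ℝ) 1, ∀ s' ∈ Set.Ioc (0 : ℝ) 1, pfZero n d v z c s →
      pfZero n d v z c s' → s = s' := fun s hs s' hs' h h' => uniq s hs s' hs' h h'
  have hladη : ∀ j, Lad x (L j) (η / 4) := fun j => pf_lad (hlad j) (by linarith)
  -- detection at time s from sign conditions
  have good_of : ∀ s : ℝ, ∀ η' : ℝ, 0 < η' →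
      (∀ E σ : ℕ → ℝ, IsState n E σ → 0 ≤ ∑ i ∈ Finset.range n, E i * d i →
        -η' ≤ ∑ i ∈ Finset.range n, σ i * x i → ∑ i ∈ Finset.range n, σ i * x i ≤ -η' / 2 →
        pfPhi n v z c E σ s ≤ 0 ∧ 0 ≤ pfPhi n v z c E (fun i => -σ i) s) →
      Good n x d (fun i => v i s) (fun i => z i s) (c s) η' := by
    intro s η' _ h E σ hst hd hl hr
    obtain ⟨h1, h2⟩ := h E σ hst hd hl hr
    refine ⟨h1, ?_⟩
    rw [pf_phi_neg] at h2
    exact h2
  have negx : ∀ σ : ℕ → ℝ, ∑ i ∈ Finset.range n, (fun i => -σ i) i * x i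
      = -∑ i ∈ Finset.range n, σ i * x i := by
    intro σ
    simp only [neg_mul, Finset.sum_neg_distrib]
  by_cases hA : ∀ s ∈ Set.Ioc 0 t, ¬ pfZero n d v z c s
  · -- case A
    refine detect u hu x d _ _ _ η hη hη' hx hsum (fun i hi => hz i hi t ht1) L hL hdisj hc hladη ?_
    refine good_of t η hη (fun E σ hst hd hl hr => ?_)
    have hneg : pfPhi n v z c E σ 0 < 0 := by rw [hphi0]; linarith
    have hpos : 0 < pfPhi n v z c E (fun i => -σ i) 0 := by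
      rw [hphi0, negx]; linarith
    constructor
    · by_contra hcon
      push Not at hcon
      obtain ⟨s, hs, hs0⟩ := pf_up _ (hcont E σ) 0 t le_rfl ht.1.le ht.2 hneg hcon.le
      exact hA s hs ⟨E, σ, hst, hd, hs0⟩
    · by_contra hcon
      push Not at hcon
      obtain ⟨s, hs, hs0⟩ := pf_down _ (hcont E (fun i => -σ i)) 0 t le_rfl ht.1.le ht.2 hpos
        hcon.le
      exact hA s hs ⟨E, _, pf_neg hst, hd, hs0⟩
  · push Not at hA
    obtain ⟨t1, ht1m, hz1⟩ := hA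
    have ht1' : t1 ∈ Set.Ioc (0 : ℝ) 1 := ⟨ht1m.1, ht1m.2.trans ht.2⟩
    have ht1c : t1 ∈ Set.Icc (0 : ℝ) 1 := ⟨ht1'.1.le, ht1'.2⟩
    -- sign conditions at t1
    have hsign : ∀ η' : ℝ, 0 < η' → Good n x d (fun i => v i t1) (fun i => z i t1) (c t1) η' := by
      intro η' hη'0
      refine good_of t1 η' hη'0 (fun E σ hst hd hl hr => ?_)
      have hneg : pfPhi n v z c E σ 0 < 0 := by rw [hphi0]; linarith
      have hpos : 0 < pfPhi n v z c E (fun i => -σ i) 0 := by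
        rw [hphi0, negx]; linarith
      constructor
      · by_contra hcon
        push Not at hcon
        obtain ⟨s, hs, hs0⟩ := pf_up _ (hcont E σ) 0 t1 le_rfl ht1'.1.le ht1'.2 hneg hcon.le
        have := uniq' s ⟨hs.1, hs.2.trans ht1'.2⟩ t1 ht1' ⟨E, σ, hst, hd, hs0⟩ hz1
        rw [this] at hs0
        linarith
      · by_contra hcon
        push Not at hcon
        obtain ⟨s, hs, hs0⟩ := pf_down _ (hcont E (fun i => -σ i)) 0 t1 le_rfl ht1'.1.le ht1'.2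
          hpos hcon.le
        have := uniq' s ⟨hs.1, hs.2.trans ht1'.2⟩ t1 ht1' ⟨E, _, pf_neg hst, hd, hs0⟩ hz1
        rw [this] at hs0
        linarith
    by_cases hteq : t = t1
    · rw [hteq]
      exact detect u hu x d _ _ _ η hη hη' hx hsum (fun i hi => hz i hi t1 ht1c) L hL hdisj hc
        hladη (hsign η hη)
    · have htlt : t1 < t := lt_of_le_of_ne ht1m.2 (Ne.symm hteq)
      obtain ⟨μ, ν, hμ, hzf, hvf, hcf⟩ := detect u hu x d (fun i => v i t1) (fun i => z i t1) (c t1)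
        (η / 1000) (by positivity) (by linarith) hx hsum (fun i hi => hz i hi t1 ht1c) L hL hdisj
        hc hlad (hsign (η / 1000) (by positivity))
      refine detect u hu x d _ _ _ η hη hη' hx hsum (fun i hi => hz i hi t ht1) L hL hdisj hc
        hladη ?_
      refine good_of t η hη (fun E σ hst hd hl hr => ?_)
      have hE1 : ∀ i ∈ Finset.range n, |E i| ≤ 1 := by
        intro i hi
        rcases hst.1 i hi with ⟨_, h2⟩ | ⟨_, h2 | h2⟩ <;> rw [h2] <;> norm_num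
      have hσ1 : ∀ i ∈ Finset.range n, |σ i| ≤ 1 := by
        intro i hi
        rcases hst.1 i hi with ⟨h2 | h2, _⟩ | ⟨h2, _⟩ <;> rw [h2] <;> norm_num
      have b1 := pf_bound E (fun i => v i t1 - ν) (40 * (η / 1000)) hE1 hvf
      have b2 := pf_bound σ (fun i => z i t1 - (1 + μ) * x i) (7 * (η / 1000)) hσ1 hzf
      have e1 : ∑ i ∈ Finset.range n, E i * (v i t1 - ν) = ∑ i ∈ Finset.range n, E i * v i t1 := by
        simp only [mul_sub]
        rw [Finset.sum_sub_distrib, ← Finset.sum_mul, hst.2, zero_mul, sub_zero]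
      have e2 : ∑ i ∈ Finset.range n, σ i * (z i t1 - (1 + μ) * x i)
          = ∑ i ∈ Finset.range n, σ i * z i t1
            - (1 + μ) * ∑ i ∈ Finset.range n, σ i * x i := by
        rw [Finset.mul_sum, ← Finset.sum_sub_distrib]
        exact Finset.sum_congr rfl (fun i _ => by ring)
      rw [e1] at b1
      rw [e2] at b2
      rw [abs_le] at b1 b2 hcf hμ
      have b3 : (1 + μ) * ∑ i ∈ Finset.range n, σ i * x i ≤ -(9 / 20) * η := by
        nlinarith [hμ.1, hμ.2]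
      have hneg : pfPhi n v z c E σ t1 < 0 := by
        unfold pfPhi
        linarith [b1.1, b1.2, b2.1, b2.2, hcf.1, hcf.2]
      have hpos : 0 < pfPhi n v z c E (fun i => -σ i) t1 := by
        rw [pf_phi_neg]
        linarith [b1.1, b1.2, b2.1, b2.2, hcf.1, hcf.2]
      constructor
      · by_contra hcon
        push Not at hcon
        obtain ⟨s, hs, hs0⟩ := pf_up _ (hcont E σ) t1 t ht1'.1.le htlt.le ht.2 hneg hcon.le
        have := uniq' s ⟨ht1'.1.trans hs.1, hs.2.trans ht.2⟩ t1 ht1' ⟨E, σ, hst, hd, hs0⟩ hz1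
        exact absurd this hs.1.ne'
      · by_contra hcon
        push Not at hcon
        obtain ⟨s, hs, hs0⟩ := pf_down _ (hcont E (fun i => -σ i)) t1 t ht1'.1.le htlt.le ht.2
          hpos hcon.le
        have := uniq' s ⟨ht1'.1.trans hs.1, hs.2.trans ht.2⟩ t1 ht1' ⟨E, _, pf_neg hst, hd, hs0⟩
          hz1
        exact absurd this hs.1.ne'


end Pool.Agent.Helper754.TwoN
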