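import Pool.Agent.Helper754.TwoN.Defs

set_option autoImplicit false
set_option maxHeartbeats 4000000


namespace Pool.Agent.Helper754.TwoN

open Finset Polynomial


private theorem xx_arg (u p : ℕ) (hu : 1 ≤ u) (hp : p < 2) (i : ℕ) (hi : i < 2 * u) :
    0 ≤ Real.pi * ((2 * i + 1 + p : ℕ) : ℝ) / ((8 * u + 2 : ℕ) : ℝ) ∧
    Real.pi * ((2 * i + 1 + p : ℕ) : ℝ) / ((8 * u + 2 : ℕ) : ℝ) < Real.pi / 2 := by
  have hpi := Real.pi_pos
  have hpos : (0 : ℝ) < ((8 * u + 2 : ℕ) : ℝ) := by positivity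
  constructor
  · positivity
  · rw [div_lt_div_iff₀ hpos (by norm_num)]
    have h1 : 2 * (2 * i + 1 + p) < 8 * u + 2 := by omega
    have h2 : (((2 * i + 1 + p : ℕ) : ℝ)) * 2 < ((8 * u + 2 : ℕ) : ℝ) := by
      have : (2 * i + 1 + p) * 2 < 8 * u + 2 := by omega
      exact_mod_cast this
    calc Real.pi * ((2 * i + 1 + p : ℕ) : ℝ) * 2 = Real.pi * (((2 * i + 1 + p : ℕ) : ℝ) * 2) := by ring
      _ < Real.pi * ((8 * u + 2 : ℕ) : ℝ) := mul_lt_mul_of_pos_left h2 hpi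

theorem xx_pos (u p : ℕ) (hu : 1 ≤ u) (hp : p < 2) (i : ℕ) (hi : i ∈ Finset.range (2 * u)) :
    0 < xx u p i ∧ xx u p i ≤ 1 := by
  obtain ⟨h0, h1⟩ := xx_arg u p hu hp i (Finset.mem_range.1 hi)
  refine ⟨?_, Real.cos_le_one _⟩
  unfold xx
  apply Real.cos_pos_of_mem_Ioo
  constructor
  · linarith [Real.pi_pos]
  · exact h1

private theorem sum_odd (m p : ℕ) : ∑ i ∈ Finset.range m, ((2 * i + 1 + p : ℕ) : ℝ) = (m : ℝ) ^ 2 + m * p := by
  induction m with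
  | zero => simp
  | succ m ih =>
    rw [Finset.sum_range_succ, ih]
    push_cast
    ring

theorem xx_sum (u p : ℕ) (hu : 1 ≤ u) (hp : p < 2) :
    (u : ℝ) / 2 ≤ ∑ i ∈ Finset.range (2 * u), xx u p i := by
  have hpi := Real.pi_pos
  have hu' : (1 : ℝ) ≤ u := by exact_mod_cast hu
  have hp' : (p : ℝ) ≤ 1 := by
    have : p ≤ 1 := by omega
    exact_mod_cast this
  have hpos : (0 : ℝ) < 8 * (u : ℝ) + 2 := by positivity
  have hterm : ∀ i ∈ Finset.range (2 * u),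
      1 - 2 / (8 * (u : ℝ) + 2) * ((2 * i + 1 + p : ℕ) : ℝ) ≤ xx u p i := by
    intro i hi
    obtain ⟨h0, h1⟩ := xx_arg u p hu hp i (Finset.mem_range.1 hi)
    have h := Real.one_sub_mul_le_cos h0 h1.le
    unfold xx
    refine le_trans (le_of_eq ?_) h
    push_cast
    field_simp
  refine le_trans ?_ (Finset.sum_le_sum hterm)
  rw [Finset.sum_sub_distrib, ← Finset.mul_sum, sum_odd]
  simp only [Finset.sum_const, Finset.card_range, nsmul_eq_mul, mul_one]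
  push_cast
  have h3 : 2 / (8 * (u : ℝ) + 2) * ((2 * (u : ℝ)) ^ 2 + 2 * u * p) ≤ 3 / 2 * u := by
    rw [div_mul_eq_mul_div, div_le_iff₀ hpos]
    nlinarith [mul_nonneg (by linarith : (0:ℝ) ≤ u) (by linarith : (0:ℝ) ≤ 1 - (p:ℝ)), sq_nonneg ((u:ℝ) - 1)]
  linarith


end Pool.Agent.Helper754.TwoN
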