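import Pool.Agent.Helper754.TwoN.Defs
import Pool.Agent.Helper754.TwoN.J_state_to_poly
import Pool.Agent.Helper754.TwoN.J_hasFZ_scale
import Pool.Agent.Helper754.TwoN.J_path_flat
import Pool.Agent.Helper754.TwoN.J_ladders
import Pool.Agent.Helper754.TwoN.J_xx_facts
import Pool.Agent.Helper754.TwoN.J_Yk_api

set_option autoImplicit false
set_option maxHeartbeats 4000000


namespace Pool.Agent.Helper754.TwoN

open Finset Polynomial



private theorem fb_om_re (N k : ℕ) : (om N k).re = Real.cos (Real.pi * k / N) := by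
  unfold om
  rw [Complex.exp_ofReal_mul_I_re]

private theorem fb_om_re_sub (N k : ℕ) (hN : 1 ≤ N) (hk : k ≤ N) :
    (om N (N - k)).re = -Real.cos (Real.pi * k / N) := by
  rw [fb_om_re, ← Real.cos_pi_sub]
  congr 1
  have hN0 : (N : ℝ) ≠ 0 := by positivity
  push_cast [Nat.cast_sub hk]
  field_simp

private theorem fb_nr_le (N : ℕ) (a : ℕ → ℝ) (t : ℝ) (ht : t ∈ Set.Icc (0 : ℝ) 1) :
    nr N (fun m => a m * t ^ m) ≤ nr N a := by
  unfold nr
  apply Finset.sum_le_sum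
  intro m _
  rw [abs_mul, abs_pow, abs_of_nonneg ht.1]
  have : t ^ m ≤ 1 := pow_le_one₀ ht.1 ht.2
  nlinarith [abs_nonneg (a m)]

private theorem fb_nr_nonneg (N : ℕ) (a : ℕ → ℝ) : 0 ≤ nr N a := by
  unfold nr
  exact Finset.sum_nonneg fun m _ => abs_nonneg _

private theorem fb_at_zero (N : ℕ) (hN : 1 ≤ N) (a : ℕ → ℝ) (ha : nr N a ≤ 1 / 100) (k : ℕ) :
    Yk N (fun m => a m * (0 : ℝ) ^ m) k = om N k := by
  have h0 : nr N (fun _ => (0 : ℝ)) = 0 := by simp [nr]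
  have h1 := (Yk_compare N hN (fun m => a m * (0 : ℝ) ^ m) (fun _ => 0)
    ((fb_nr_le N a 0 ⟨le_rfl, zero_le_one⟩).trans ha) (by rw [h0]; norm_num) k).1
  have h2 : nr N (fun m => (fun m => a m * (0 : ℝ) ^ m) m - (fun _ => (0 : ℝ)) m) = 0 := by
    unfold nr
    apply Finset.sum_eq_zero
    intro m hm
    rw [Finset.mem_Ico] at hm
    have : m ≠ 0 := by omega
    simp [this]
  rw [h2, mul_zero, zero_div, Yk_at_zero N hN] at h1
  have h3 := norm_le_zero_iff.1 h1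
  exact sub_eq_zero.1 h3

private theorem fb_scale (N : ℕ) (b : ℕ → ℝ) (ρ s : ℝ) (hρ : 0 < ρ) :
    C ((ρ ^ N)⁻¹) * (X ^ N + ∑ m ∈ Finset.Ico 1 N, C (b m * ρ ^ m) * X ^ (N - m) +
      C s : Polynomial ℝ).comp (C ρ * X) =
    X ^ N + ∑ m ∈ Finset.Ico 1 N, C (b m) * X ^ (N - m) + C (s * (ρ ^ N)⁻¹) := by
  have hρN : ρ ^ N ≠ 0 := pow_ne_zero _ hρ.ne'
  have hsc : (∑ m ∈ Finset.Ico 1 N, C (b m * ρ ^ m) * X ^ (N - m) : Polynomial ℝ).comp (C ρ * X) =
      ∑ m ∈ Finset.Ico 1 N, C (b m * ρ ^ m) * (C ρ * X) ^ (N - m) := by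
    have h := map_sum (Polynomial.compRingHom (C ρ * X : Polynomial ℝ))
      (fun m => C (b m * ρ ^ m) * X ^ (N - m) : ℕ → Polynomial ℝ) (Finset.Ico 1 N)
    simp only [Polynomial.coe_compRingHom_apply] at h
    rw [h]
    apply Finset.sum_congr rfl
    intro m _
    simp
  rw [add_comp, add_comp, hsc]
  simp only [pow_comp, X_comp, C_comp]
  rw [mul_add, mul_add, Finset.mul_sum]
  congr 1
  · congr 1
    · rw [mul_pow, ← mul_assoc, ← C_pow, ← C_mul, inv_mul_cancel₀ hρN, C_1, one_mul]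
    · apply Finset.sum_congr rfl
      intro m hm
      rw [Finset.mem_Ico] at hm
      rw [mul_pow, ← C_pow, ← mul_assoc, ← mul_assoc, ← C_mul, ← C_mul]
      congr 2
      have : ρ ^ N = ρ ^ m * ρ ^ (N - m) := by rw [← pow_add]; congr 1; omega
      rw [this]
      field_simp
  · rw [← C_mul]
    congr 1
    ring

theorem flat_of_bad (u p : ℕ) (hu : u = 10 ^ 100) (hp : p < 2) (b : ℕ → ℝ) (κ₀ r : ℝ)
    (hr : 0 < r) (ha : nr (8 * u + 2) (fun m => b m * r ^ m) ≤ 1 / 10 ^ 12 / ((8 * u + 2 : ℕ) : ℝ))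
    (hbad : ∀ k : ℝ, k ≠ 0 → ¬ HasFZ u (X ^ (8 * u + 2) +
      ∑ m ∈ Finset.Ico 1 (8 * u + 2), C (b m) * X ^ (8 * u + 2 - m) + C κ₀ + C k))
    (t : ℝ) (ht : t ∈ Set.Ioc (0 : ℝ) 1) :
    Flat (2 * u) (xx u p) (vv u p (fun m => b m * r ^ m * t ^ m))
      (zz u p (fun m => b m * r ^ m * t ^ m)) (cc u p (fun m => b m * r ^ m * t ^ m))
      (1 / 10 ^ 31 / ((8 * u + 2 : ℕ) : ℝ) ^ 2) := by
  set N := 8 * u + 2 with hN
  have hu1 : 1000 ≤ u := by
    rw [hu]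
    calc 1000 = 10 ^ 3 := by norm_num
      _ ≤ 10 ^ 100 := Nat.pow_le_pow_right (by norm_num) (by norm_num)
  have hu0 : 1 ≤ u := by omega
  have hN1 : 1 ≤ N := by omega
  have hNr : (1 : ℝ) ≤ (N : ℝ) := by exact_mod_cast hN1
  have hN0 : (0 : ℝ) < (N : ℝ) := by linarith
  set a1 : ℕ → ℝ := fun m => b m * r ^ m with ha1
  have hnr12 : nr N a1 ≤ 1 / 10 ^ 12 := by
    refine ha.trans ?_
    rw [div_le_iff₀ hN0]
    have : (0 : ℝ) < 1 / 10 ^ 12 := by positivity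
    nlinarith
  have hnr : nr N a1 ≤ 1 / 100 := hnr12.trans (by norm_num)
  have hnrt : ∀ t ∈ Set.Icc (0 : ℝ) 1, nr N (fun m => a1 m * t ^ m) ≤ 1 / 100 := fun t ht =>
    (fb_nr_le N a1 t ht).trans hnr
  have hcontY : ∀ k, ContinuousOn (fun t : ℝ => (Yk N (fun m => a1 m * t ^ m) k).re) (Set.Icc 0 1) :=
    fun k => Complex.continuous_re.comp_continuousOn (Yk_continuousOn N hN1 a1 hnr k)
  have hcv : ∀ i, ContinuousOn (fun t : ℝ => vv u p (fun m => a1 m * t ^ m) i) (Set.Icc 0 1) := by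
    intro i
    unfold vv yp ym
    exact ((hcontY _).add (hcontY _)).div_const 2
  have hcz : ∀ i, ContinuousOn (fun t : ℝ => zz u p (fun m => a1 m * t ^ m) i) (Set.Icc 0 1) := by
    intro i
    unfold zz yp ym
    exact ((hcontY _).sub (hcontY _)).div_const 2
  have hce : ContinuousOn (fun t : ℝ => ee u p (fun m => a1 m * t ^ m)) (Set.Icc 0 1) := by
    unfold ee
    split_ifs
    · exact hcontY _
    · exact ((hcontY _).add (hcontY _)).div_const 2
  have hcc : ContinuousOn (fun t : ℝ => cc u p (fun m => a1 m * t ^ m)) (Set.Icc 0 1) := by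
    unfold cc
    exact hce.add (continuousOn_finsetSum _ fun i _ => hcv i)
  have hk : ∀ i ∈ Finset.range (2 * u), 2 * i + 1 + p ≤ N := by
    intro i hi
    rw [Finset.mem_range] at hi
    omega
  have hxx : ∀ i, (om N (2 * i + 1 + p)).re = xx u p i := by
    intro i
    rw [fb_om_re]
    unfold xx
    rw [← hN]
  have hxx' : ∀ i ∈ Finset.range (2 * u), (om N (N - (2 * i + 1 + p))).re = - xx u p i := by
    intro i hi
    rw [fb_om_re_sub N _ hN1 (hk i hi)]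
    unfold xx
    rw [← hN]
  have hv0 : ∀ i ∈ Finset.range (2 * u), vv u p (fun m => a1 m * (0 : ℝ) ^ m) i = 0 := by
    intro i hi
    unfold vv yp ym
    rw [← hN, fb_at_zero N hN1 a1 hnr, fb_at_zero N hN1 a1 hnr, hxx, hxx' i hi]
    ring
  have hz0 : ∀ i ∈ Finset.range (2 * u), zz u p (fun m => a1 m * (0 : ℝ) ^ m) i = xx u p i := by
    intro i hi
    unfold zz yp ym
    rw [← hN, fb_at_zero N hN1 a1 hnr, fb_at_zero N hN1 a1 hnr, hxx, hxx' i hi]
    ring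
  have hc0 : cc u p (fun m => a1 m * (0 : ℝ) ^ m) = 0 := by
    unfold cc
    rw [Finset.sum_eq_zero hv0, add_zero]
    unfold ee
    rw [← hN]
    split_ifs with hp0
    · rw [fb_at_zero N hN1 a1 hnr, fb_om_re]
      have : Real.pi * ((4 * u + 1 : ℕ) : ℝ) / (N : ℝ) = Real.pi / 2 := by
        rw [hN]
        push_cast
        have : (8 * (u : ℝ) + 2) ≠ 0 := by positivity
        field_simp
        ring
      rw [this, Real.cos_pi_div_two]
    · rw [fb_at_zero N hN1 a1 hnr, fb_at_zero N hN1 a1 hnr, fb_om_re, fb_om_re]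
      have : Real.pi * ((N : ℕ) : ℝ) / (N : ℝ) = Real.pi := by field_simp
      rw [this, Real.cos_pi]
      simp
  have hzc : ∀ i ∈ Finset.range (2 * u), ∀ t ∈ Set.Icc (0 : ℝ) 1,
      |zz u p (fun m => a1 m * t ^ m) i - xx u p i| ≤ 1 / 1000 := by
    intro i hi t ht
    have hb : ∀ k, |(Yk N (fun m => a1 m * t ^ m) k).re - (om N k).re| ≤ 1 / 1000 := by
      intro k
      rw [← Complex.sub_re]
      refine (Complex.abs_re_le_norm _).trans ((Yk_close N hN1 _ (hnrt t ht) k).trans ?_)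
      rw [div_le_iff₀ hN0]
      have h1 := (fb_nr_le N a1 t ht).trans hnr12
      have h2 : (1 : ℝ) / 10 ^ 12 ≤ 1 / 6000 := by norm_num
      nlinarith
    have h1 := hb (2 * i + 1 + p)
    have h2 := hb (N - (2 * i + 1 + p))
    rw [hxx] at h1
    rw [hxx' i hi] at h2
    unfold zz yp ym
    rw [← hN]
    rw [abs_le] at h1 h2 ⊢
    constructor <;> linarith [h1.1, h1.2, h2.1, h2.2]
  have hpoly : ∀ t ∈ Set.Ioc (0 : ℝ) 1,
      (∃ E σ : ℕ → ℝ, IsState (2 * u) E σ ∧ 0 ≤ ∑ i ∈ Finset.range (2 * u), E i * dd u p i ∧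
        cc u p (fun m => a1 m * t ^ m) + ∑ i ∈ Finset.range (2 * u), E i * vv u p (fun m => a1 m * t ^ m) i
        + ∑ i ∈ Finset.range (2 * u), σ i * zz u p (fun m => a1 m * t ^ m) i = 0) →
      (-1 : ℝ) ^ p * ((r * t) ^ N)⁻¹ = κ₀ := by
    rintro t ht ⟨E, σ, hs, hor, h0⟩
    have h1 := state_to_poly u p (fun m => a1 m * t ^ m) hu0 hp (hnrt t ⟨ht.1.le, ht.2⟩) E σ hs hor h0
    have h2 := hasFZ_scale u _ (r * t) (mul_pos hr ht.1) h1
    rw [← hN] at h2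
    have h3 : (X ^ N + ∑ m ∈ Finset.Ico 1 N, C ((fun m => a1 m * t ^ m) m) * X ^ (N - m) +
        C ((-1) ^ p) : Polynomial ℝ) = X ^ N + ∑ m ∈ Finset.Ico 1 N, C (b m * (r * t) ^ m) *
          X ^ (N - m) + C ((-1) ^ p) := by
      congr 2
      apply Finset.sum_congr rfl
      intro m _
      congr 2
      simp only [ha1]
      rw [mul_pow]
      ring
    rw [h3, fb_scale N b (r * t) _ (mul_pos hr ht.1)] at h2
    by_contra hne
    apply hbad ((-1 : ℝ) ^ p * ((r * t) ^ N)⁻¹ - κ₀) (sub_ne_zero.2 hne)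
    rw [add_assoc, ← C_add]
    have h4 : κ₀ + ((-1 : ℝ) ^ p * ((r * t) ^ N)⁻¹ - κ₀) = (-1 : ℝ) ^ p * ((r * t) ^ N)⁻¹ := by ring
    rw [h4]
    exact h2
  obtain ⟨L, hL1, hL2, hL3, hL4⟩ := ladders u p hu hp
  have hη : (0 : ℝ) < 1 / 10 ^ 31 / (N : ℝ) ^ 2 := by positivity
  have hη' : 1 / 10 ^ 31 / (N : ℝ) ^ 2 ≤ 1 / 1000 := by
    rw [div_le_iff₀ (by positivity)]
    have h1 : (1 : ℝ) ≤ (N : ℝ) ^ 2 := one_le_pow₀ hNr
    have h2 : (1 : ℝ) / 10 ^ 31 ≤ 1 / 1000 := by norm_num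
    nlinarith
  exact path_flat u hu1 (xx u p) (dd u p) (fun i t => vv u p (fun m => a1 m * t ^ m) i)
    (fun i t => zz u p (fun m => a1 m * t ^ m) i) (fun t => cc u p (fun m => a1 m * t ^ m))
    (1 / 10 ^ 31 / (N : ℝ) ^ 2) hη hη' (fun i hi => xx_pos u p hu0 hp i hi) (xx_sum u p hu0 hp)
    hzc L hL1 hL2 hL3 hL4 hcv hcz hcc hv0 hz0 hc0
    (by
      intro t ht t' ht' h1 h2
      have e1 := hpoly t ht h1
      have e2 := hpoly t' ht' h2
      rw [← e2] at e1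
      have e3 : ((r * t) ^ N)⁻¹ = ((r * t') ^ N)⁻¹ := by
        rcases neg_one_pow_eq_or ℝ p with h | h
        · rw [h] at e1; linarith
        · rw [h] at e1; linarith
      have e4 : (r * t) ^ N = (r * t') ^ N := inv_injective e3
      have e5 : r * t = r * t' := (pow_left_inj₀ (mul_pos hr ht.1).le (mul_pos hr ht'.1).le
        (by omega)).1 e4
      exact mul_left_cancel₀ hr.ne' e5) t ht


end Pool.Agent.Helper754.TwoN
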