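import Pool.Agent.Helper754.TwoN.Defs
import Pool.Agent.Helper754.TwoN.J_at_zero
import Pool.Agent.Helper754.TwoN.J_flat_of_bad
import Pool.Agent.Helper754.TwoN.J_flat_false

set_option autoImplicit false
set_option maxHeartbeats 4000000


namespace Pool.Agent.Helper754.TwoN

open Finset Polynomial


private theorem nr_cont (N : ℕ) (b : ℕ → ℝ) : Continuous (fun r : ℝ => nr N (fun m => b m * r ^ m)) := by
  unfold nr
  fun_prop

private theorem poly_form (N : ℕ) (hN : 1 ≤ N) (f : Polynomial ℝ) (hf : f.Monic) (hd : f.natDegree = N) :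
    f = X ^ N + ∑ m ∈ Finset.Ico 1 N, C (f.coeff (N - m)) * X ^ (N - m) + C (f.coeff 0) := by
  have h1 := f.as_sum_range_C_mul_X_pow
  rw [hd, Finset.sum_range_succ] at h1
  have h2 : f.coeff N = 1 := by rw [← hd]; exact hf
  have h3 : ∑ m ∈ Finset.Ico 1 N, C (f.coeff (N - m)) * X ^ (N - m) =
      ∑ m ∈ Finset.Ico 1 N, C (f.coeff m) * X ^ m := by
    have := Finset.sum_Ico_reflect (fun j => C (f.coeff j) * X ^ j) 1 (Nat.le_succ N)
    simpa using this
  rw [h3]
  rw [Finset.range_eq_Ico, Finset.sum_eq_sum_Ico_succ_bot (by omega), h2] at h1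
  rw [map_one, one_mul, pow_zero, mul_one, zero_add] at h1
  calc f = C (f.coeff 0) + ∑ k ∈ Ico 1 N, C (f.coeff k) * X ^ k + X ^ N := h1
    _ = _ := by ring

private theorem exists_radius (N : ℕ) (b : ℕ → ℝ) (A : ℝ) (hA : 0 < A)
    (hb : ∃ m ∈ Finset.Ico 1 N, b m ≠ 0) :
    ∃ r : ℝ, 0 < r ∧ nr N (fun m => b m * r ^ m) = A := by
  obtain ⟨m0, hm0, hb0⟩ := hb
  have hm1 : 1 ≤ m0 := (Finset.mem_Ico.1 hm0).1
  set R : ℝ := max 1 (A / |b m0|) with hR
  have hR1 : 1 ≤ R := le_max_left _ _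
  have hbpos : 0 < |b m0| := abs_pos.2 hb0
  have hR2 : A ≤ |b m0| * R := by
    have : A / |b m0| ≤ R := le_max_right _ _
    rw [div_le_iff₀ hbpos] at this
    linarith
  have h0 : nr N (fun m => b m * (0 : ℝ) ^ m) = 0 := by
    unfold nr
    apply Finset.sum_eq_zero
    intro m hm
    have : m ≠ 0 := by have := (Finset.mem_Ico.1 hm).1; omega
    simp [this]
  have hRA : A ≤ nr N (fun m => b m * R ^ m) := by
    unfold nr
    have h1 : |b m0 * R ^ m0| ≤ ∑ m ∈ Finset.Ico 1 N, |b m * R ^ m| :=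
      Finset.single_le_sum (f := fun m => |b m * R ^ m|) (fun m _ => abs_nonneg _) hm0
    have h2 : R ≤ R ^ m0 := le_self_pow₀ hR1 (by omega)
    have h3 : |b m0 * R ^ m0| = |b m0| * R ^ m0 := by
      rw [abs_mul, abs_of_nonneg (by positivity : (0:ℝ) ≤ R ^ m0)]
    rw [h3] at h1
    nlinarith
  have hivt := intermediate_value_Icc (by linarith : (0:ℝ) ≤ R) (nr_cont N b).continuousOn
  have hmem : A ∈ Set.Icc (nr N (fun m => b m * (0 : ℝ) ^ m)) (nr N (fun m => b m * R ^ m)) := by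
    rw [h0]; exact ⟨hA.le, hRA⟩
  obtain ⟨r, hr, hrA⟩ := hivt hmem
  refine ⟨r, ?_, hrA⟩
  rcases lt_or_eq_of_le hr.1 with h | h
  · exact h
  · exfalso
    simp only at hrA
    rw [← h, h0] at hrA
    linarith

theorem main_poly (u : ℕ) (hu : u = 10 ^ 100) (f : Polynomial ℝ) (hf : f.Monic)
    (hd : f.natDegree = 8 * u + 2) : ∃ k : ℝ, k ≠ 0 ∧ HasFZ u (f + C k) := by
  have hu1 : 1 ≤ u := by rw [hu]; exact Nat.one_le_pow _ _ (by norm_num)
  have hform := poly_form (8 * u + 2) (by omega) f hf hd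
  by_cases hb : ∃ m ∈ Finset.Ico 1 (8 * u + 2), f.coeff (8 * u + 2 - m) ≠ 0
  · by_contra hcon
    push Not at hcon
    have hApos : (0:ℝ) < 1 / 10 ^ 12 / ((8 * u + 2 : ℕ) : ℝ) := by positivity
    obtain ⟨r, hr, hrA⟩ := exists_radius (8 * u + 2) (fun m => f.coeff (8 * u + 2 - m)) _ hApos hb
    refine flat_false u hu (fun m => f.coeff (8 * u + 2 - m) * r ^ m) hrA ?_
    intro p hp t ht
    refine flat_of_bad u p hu hp (fun m => f.coeff (8 * u + 2 - m)) (f.coeff 0) r hr hrA.le ?_ t ?_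
    · intro k hk hFZ
      apply hcon k hk
      rw [← hform] at hFZ
      exact hFZ
    · rcases ht with h | h <;> rw [h] <;> constructor <;> norm_num
  · push Not at hb
    obtain ⟨k, hk, hFZ⟩ := at_zero u hu1 (f.coeff 0)
    refine ⟨k, hk, ?_⟩
    have hsum : ∑ m ∈ Finset.Ico 1 (8 * u + 2), C (f.coeff (8 * u + 2 - m)) * X ^ (8 * u + 2 - m)
        = (0 : Polynomial ℝ) := by
      apply Finset.sum_eq_zero
      intro m hm
      rw [hb m hm]; simp
    rw [hform, hsum, add_zero]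
    exact hFZ


end Pool.Agent.Helper754.TwoN
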