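import Pool.Agent.Helper754.TwoN.Defs

set_option autoImplicit false
set_option maxHeartbeats 4000000


namespace Pool.Agent.Helper754.TwoN

open Finset Polynomial

private theorem pair_10474 (R : Multiset ℝ) (hc : 2 ≤ Multiset.card R) (hp : 0 < R.prod) :
    ∃ r s : ℝ, 0 < r * s ∧ ({r, s} : Multiset ℝ) ≤ R := by
  obtain ⟨r, R1, rfl⟩ := Multiset.card_pos_iff_exists_mem.mp (by omega : 0 < Multiset.card R)
    |>.imp (fun a ha => Multiset.exists_cons_of_mem ha)
  rw [Multiset.card_cons] at hc
  obtain ⟨s, R2, rfl⟩ := Multiset.card_pos_iff_exists_mem.mp (by omega : 0 < Multiset.card R1)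
    |>.imp (fun a ha => Multiset.exists_cons_of_mem ha)
  rw [Multiset.card_cons] at hc
  by_cases h3 : Multiset.card R2 = 0
  · rw [Multiset.card_eq_zero] at h3
    subst h3
    refine ⟨r, s, ?_, ?_⟩
    · simpa using hp
    · exact le_refl _
  · obtain ⟨t, R3, rfl⟩ := Multiset.card_pos_iff_exists_mem.mp (by omega : 0 < Multiset.card R2)
      |>.imp (fun a ha => Multiset.exists_cons_of_mem ha)
    have hne : r * s * t ≠ 0 := by
      intro h0
      have : (r ::ₘ s ::ₘ t ::ₘ R3).prod = r * s * t * R3.prod := by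
        simp only [Multiset.prod_cons]; ring
      rw [this, h0, zero_mul] at hp
      exact lt_irrefl _ hp
    have hsq : 0 < (r * s) * (r * t) * (s * t) := by
      have : (r * s) * (r * t) * (s * t) = (r * s * t) ^ 2 := by ring
      rw [this]; positivity
    by_cases h1 : 0 < r * s
    · refine ⟨r, s, h1, ?_⟩
      show r ::ₘ s ::ₘ 0 ≤ r ::ₘ s ::ₘ t ::ₘ R3
      exact Multiset.cons_le_cons _ (Multiset.cons_le_cons _ (Multiset.zero_le _))
    · by_cases h2 : 0 < r * t
      · refine ⟨r, t, h2, ?_⟩
        rw [Multiset.cons_swap s t]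
        show r ::ₘ t ::ₘ 0 ≤ r ::ₘ t ::ₘ s ::ₘ R3
        exact Multiset.cons_le_cons _ (Multiset.cons_le_cons _ (Multiset.zero_le _))
      · have h4 : 0 < s * t := by
          by_contra h5
          push Not at h1 h2 h5
          have h6 : 0 ≤ (r * s) * (r * t) := mul_nonneg_of_nonpos_of_nonpos h1 h2
          have h7 : (r * s) * (r * t) * (s * t) ≤ 0 := mul_nonpos_of_nonneg_of_nonpos h6 h5
          linarith
        refine ⟨s, t, h4, ?_⟩
        show s ::ₘ t ::ₘ 0 ≤ r ::ₘ s ::ₘ t ::ₘ R3
        exact (Multiset.cons_le_cons _ (Multiset.cons_le_cons _ (Multiset.zero_le _))).trans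
          (Multiset.le_cons_self _ _)

private theorem quad_dvd_10474 (f : Polynomial ℝ) (hf : f.Monic) (hd : 2 ≤ f.natDegree)
    (he : Even f.natDegree) (h0 : 0 < f.coeff 0) :
    ∃ b c : ℝ, 0 < c ∧ (X ^ 2 + C b * X + C c) ∣ f := by
  by_cases hz : ∃ z : ℂ, aeval z f = 0 ∧ z.im ≠ 0
  · obtain ⟨z, hz1, hz2⟩ := hz
    refine ⟨-(2 * z.re), ‖z‖ ^ 2, ?_, ?_⟩
    · have : z ≠ 0 := by
        intro h; rw [h] at hz2; exact hz2 rfl
      positivity
    · have h := Polynomial.quadratic_dvd_of_aeval_eq_zero_im_ne_zero f hz1 hz2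
      convert h using 1
      rw [C_neg]; ring
  · push Not at hz
    have hs : Splits f := by
      apply Splits.of_splits_map (algebraMap ℝ ℂ) (IsAlgClosed.splits _)
      intro a ha
      have h1 : aeval a f = 0 := by
        rw [mem_roots', IsRoot.def, eval_map] at ha
        exact ha.2
      have h2 := hz a h1
      exact ⟨a.re, by
        apply Complex.ext
        · simp
        · simp [h2]⟩
    have hprod := hs.coeff_zero_eq_prod_roots_of_monic hf
    rw [he.neg_one_pow, one_mul] at hprod
    have hcard := hs.natDegree_eq_card_roots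
    obtain ⟨r, s, hrs, hle⟩ := pair_10474 f.roots (by omega) (by rw [← hprod]; exact h0)
    refine ⟨-(r + s), r * s, hrs, ?_⟩
    have h := (Multiset.prod_X_sub_C_dvd_iff_le_roots hf.ne_zero {r, s}).mpr hle
    convert h using 1
    simp
    ring

private theorem quad_monic_10474 (b c : ℝ) : (X ^ 2 + C b * X + C c : Polynomial ℝ).Monic := by
  monicity!

private theorem quad_deg_10474 (b c : ℝ) : (X ^ 2 + C b * X + C c : Polynomial ℝ).natDegree = 2 := by
  compute_degree!

private theorem quad_factor_10474 (k : ℕ) : ∀ (f : Polynomial ℝ), f.Monic → f.natDegree = 2 * k →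
    0 < f.coeff 0 → ∃ b c : ℕ → ℝ, (∀ i, 0 < c i) ∧
      f = ∏ i ∈ Finset.range k, (X ^ 2 + C (b i) * X + C (c i)) := by
  induction k with
  | zero =>
    intro f hf hd h0
    refine ⟨fun _ => 0, fun _ => 1, fun _ => one_pos, ?_⟩
    rw [Finset.prod_range_zero]
    exact hf.natDegree_eq_zero.mp (by simpa using hd)
  | succ k ih =>
    intro f hf hd h0
    obtain ⟨b, c, hc, g, hg⟩ := quad_dvd_10474 f hf (by omega) (by rw [hd]; exact even_two_mul _) h0
    have hqm := quad_monic_10474 b c
    have hgm : g.Monic := by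
      rw [hg] at hf
      exact hqm.of_mul_monic_left hf
    have hgd : g.natDegree = 2 * k := by
      have h1 := hqm.natDegree_mul hgm
      rw [← hg, hd, quad_deg_10474] at h1
      omega
    have hg0 : 0 < g.coeff 0 := by
      have h1 : f.coeff 0 = c * g.coeff 0 := by
        rw [hg, mul_coeff_zero]
        simp
      rw [h1] at h0
      exact (pos_iff_pos_of_mul_pos h0).mp hc
    obtain ⟨b', c', hc', hg'⟩ := ih g hgm hgd hg0
    refine ⟨fun i => if i = k then b else b' i, fun i => if i = k then c else c' i, ?_, ?_⟩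
    · intro i
      show 0 < if i = k then c else c' i
      split_ifs
      · exact hc
      · exact hc' i
    · rw [Finset.prod_range_succ]
      have h1 : ∏ i ∈ Finset.range k, (X ^ 2 + C (if i = k then b else b' i) * X +
          C (if i = k then c else c' i)) = g := by
        rw [hg']
        apply Finset.prod_congr rfl
        intro i hi
        have : i ≠ k := by
          rw [Finset.mem_range] at hi; omega
        rw [if_neg this, if_neg this]
      rw [h1]
      simp only [if_true]
      rw [hg]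
      ring

private theorem prod_pair_10474 (m : ℕ) (q : ℕ → Polynomial ℝ) :
    ∏ i ∈ Finset.range (2 * m), q i = ∏ i ∈ Finset.range m, (q (2 * i) * q (2 * i + 1)) := by
  induction m with
  | zero => simp
  | succ m ih =>
    rw [Nat.mul_succ, Finset.prod_range_succ, Finset.prod_range_succ, ih,
      Finset.prod_range_succ, mul_assoc]

theorem quartic_factor (m : ℕ) (f : Polynomial ℝ) (hf : f.Monic) (hd : f.natDegree = 4 * m)
    (h0 : 0 < f.coeff 0) : ∃ c1 c2 c3 c4 : ℕ → ℝ, (∀ i, 0 < c4 i) ∧
      f = ∏ i ∈ Finset.range m,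
        (X ^ 4 + C (c1 i) * X ^ 3 + C (c2 i) * X ^ 2 + C (c3 i) * X + C (c4 i)) := by
  obtain ⟨b, c, hc, h⟩ := quad_factor_10474 (2 * m) f hf (by omega) h0
  refine ⟨fun i => b (2 * i) + b (2 * i + 1),
    fun i => c (2 * i) + c (2 * i + 1) + b (2 * i) * b (2 * i + 1),
    fun i => b (2 * i) * c (2 * i + 1) + b (2 * i + 1) * c (2 * i),
    fun i => c (2 * i) * c (2 * i + 1), fun i => mul_pos (hc _) (hc _), ?_⟩
  rw [h, prod_pair_10474]
  apply Finset.prod_congr rfl
  intro i _
  simp only [C_add, C_mul]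
  ring


end Pool.Agent.Helper754.TwoN
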