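import Pool.Agent.Helper754.TwoN.Defs

set_option autoImplicit false
set_option maxHeartbeats 4000000

namespace Pool.Agent.Helper754.TwoN

open Finset Polynomial

/-- A root above `-c1`. -/
theorem x4_high (c1 c2 c3 c4 : ℝ) (h : 0 < c4) :
    ∃ b, -c1 < b ∧ (b + c1) * (b ^ 3 + c1 * b ^ 2 + c2 * b + c3) = c4 := by
  let g : ℝ → ℝ := fun b => (b + c1) * (b ^ 3 + c1 * b ^ 2 + c2 * b + c3)
  obtain ⟨T, hT⟩ : ∃ T, T = 2 + |c1| + |c2| + |c3| + c4 := ⟨_, rfl⟩
  have a1 := abs_nonneg c1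
  have a2 := abs_nonneg c2
  have a3 := abs_nonneg c3
  have n1 := neg_abs_le c1
  have n2 := neg_abs_le c2
  have n3 := neg_abs_le c3
  have m1 := le_abs_self c1
  have hg : ContinuousOn g (Set.Icc (-c1) (T - c1)) := by
    apply Continuous.continuousOn
    simp only [g]
    fun_prop
  have h0 : g (-c1) ≤ c4 := by
    simp only [g]
    norm_num
    exact h.le
  have h1 : c4 ≤ g (T - c1) := by
    obtain ⟨b, hb⟩ : ∃ b, b = T - c1 := ⟨_, rfl⟩
    have hb1 : 1 ≤ b := by linarith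
    have e : g b = T * (b ^ 2 * T + c2 * b + c3) := by
      simp only [g]
      rw [hb]
      ring
    rw [← hb, e]
    have e1 : -|c2| * b ≤ c2 * b := by
      apply mul_le_mul_of_nonneg_right n2 (by linarith)
    have e2 : b * T ≤ b ^ 2 * T := by
      have : b ≤ b ^ 2 := by nlinarith
      have hT0 : 0 ≤ T := by linarith
      exact mul_le_mul_of_nonneg_right this hT0
    have e3 : b * T = b * (2 + |c1| + |c3| + c4) + b * |c2| := by rw [hT]; ring
    have e4 : 2 + |c1| + |c3| + c4 ≤ b * (2 + |c1| + |c3| + c4) := by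
      apply le_mul_of_one_le_left _ hb1
      linarith
    have e5 : c4 ≤ b ^ 2 * T + c2 * b + c3 := by linarith
    have hT1 : 1 ≤ T := by linarith
    calc c4 ≤ 1 * c4 := by linarith
      _ ≤ T * (b ^ 2 * T + c2 * b + c3) := by
        apply mul_le_mul hT1 e5 h.le (by linarith)
  obtain ⟨b, hb, hgb⟩ := intermediate_value_Icc (by linarith : -c1 ≤ T - c1) hg
    (show c4 ∈ Set.Icc (g (-c1)) (g (T - c1)) from ⟨h0, h1⟩)
  refine ⟨b, ?_, hgb⟩
  rcases hb.1.lt_or_eq with h' | h'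
  · exact h'
  · exfalso
    rw [← h'] at hgb
    simp only [g] at hgb
    norm_num at hgb
    linarith

/-- A root below `-c1`. -/
theorem x4_low (c1 c2 c3 c4 : ℝ) (h : 0 < c4) :
    ∃ b, b < -c1 ∧ (b + c1) * (b ^ 3 + c1 * b ^ 2 + c2 * b + c3) = c4 := by
  obtain ⟨b, hb, hb'⟩ := x4_high (-c1) c2 (-c3) c4 h
  refine ⟨-b, by linarith, ?_⟩
  linear_combination hb'

/-- Every real quartic with positive constant term is realized by the block of order four. -/
theorem x4 (c1 c2 c3 c4 : ℝ) (h : 0 < c4) : ∃ a b u v : ℝ, a ≠ 0 ∧ b ≠ 0 ∧ u ≠ 0 ∧ v ≠ 0 ∧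
    -(a + b) = c1 ∧ a * b - u = c2 ∧ u * b - v = c3 ∧ v * a = c4 := by
  obtain ⟨b2, h2, e2⟩ := x4_high c1 c2 c3 c4 h
  obtain ⟨b1, h1, e1⟩ := x4_low c1 c2 c3 c4 h
  have key : ∀ b, (b + c1) * (b ^ 3 + c1 * b ^ 2 + c2 * b + c3) = c4 →
      b ≠ 0 → b ^ 2 + c1 * b + c2 ≠ 0 → ∃ a b u v : ℝ, a ≠ 0 ∧ b ≠ 0 ∧ u ≠ 0 ∧ v ≠ 0 ∧
      -(a + b) = c1 ∧ a * b - u = c2 ∧ u * b - v = c3 ∧ v * a = c4 := by
    intro b hb hb0 hu
    refine ⟨-c1 - b, b, -(b ^ 2 + c1 * b + c2), -(b ^ 3 + c1 * b ^ 2 + c2 * b + c3), ?_, hb0,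
      neg_ne_zero.2 hu, ?_, by ring, by ring, by ring, by linear_combination hb⟩
    · intro h0
      have : b + c1 = 0 := by linarith
      rw [this, zero_mul] at hb
      linarith
    · intro h0
      have : b ^ 3 + c1 * b ^ 2 + c2 * b + c3 = 0 := by linarith
      rw [this, mul_zero] at hb
      linarith
  by_cases hd1 : b1 * (b1 ^ 2 + c1 * b1 + c2) = 0
  · by_cases hd2 : b2 * (b2 ^ 2 + c1 * b2 + c2) = 0
    · exfalso
      have f1 : (b1 + c1) * c3 = c4 := by linear_combination e1 - (b1 + c1) * hd1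
      have f2 : (b2 + c1) * c3 = c4 := by linear_combination e2 - (b2 + c1) * hd2
      have g1 : c3 < 0 := by
        by_contra hcon
        push Not at hcon
        have : (b1 + c1) * c3 ≤ 0 := mul_nonpos_of_nonpos_of_nonneg (by linarith) hcon
        linarith
      have : (b2 + c1) * c3 < 0 := mul_neg_of_pos_of_neg (by linarith) g1
      linarith
    · exact key b2 e2 (left_ne_zero_of_mul hd2) (right_ne_zero_of_mul hd2)
  · exact key b1 e1 (left_ne_zero_of_mul hd1) (right_ne_zero_of_mul hd1)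



end Pool.Agent.Helper754.TwoN
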