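import Pool.Agent.Helper754.TwoN.Defs
import Pool.Agent.Helper754.TwoN.J_ent_pat
import Pool.Agent.Helper754.TwoN.J_ent_charpoly
import Pool.Agent.Helper754.TwoN.J_x4
import Pool.Agent.Helper754.TwoN.J_quartic_factor

set_option autoImplicit false
set_option maxHeartbeats 4000000


namespace Pool.Agent.Helper754.TwoN

open Finset Polynomial


private theorem quartic_params (m : ℕ) (f : Polynomial ℝ) (hf : f.Monic) (hd : f.natDegree = 4 * m)
    (h0 : 0 < f.coeff 0) : ∃ a b c d : ℕ → ℝ, (∀ i, a i ≠ 0) ∧ (∀ i, b i ≠ 0) ∧ (∀ i, c i ≠ 0) ∧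
      (∀ i, d i ≠ 0) ∧
      f = ∏ i ∈ Finset.range m, (X ^ 4 - C (a i + b i) * X ^ 3 + C (a i * b i - c i) * X ^ 2
        + C (c i * b i - d i) * X + C (d i * a i) : Polynomial ℝ) := by
  obtain ⟨c1, c2, c3, c4, hpos, hprod⟩ := quartic_factor m f hf hd h0
  have hx : ∀ i, ∃ a b u v : ℝ, a ≠ 0 ∧ b ≠ 0 ∧ u ≠ 0 ∧ v ≠ 0 ∧
      -(a + b) = c1 i ∧ a * b - u = c2 i ∧ u * b - v = c3 i ∧ v * a = c4 i :=
    fun i => x4 (c1 i) (c2 i) (c3 i) (c4 i) (hpos i)
  choose a b c d ha hb hc hdd e1 e2 e3 e4 using hx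
  refine ⟨a, b, c, d, ha, hb, hc, hdd, ?_⟩
  rw [hprod]
  apply Finset.prod_congr rfl
  intro i _
  rw [← e1 i, ← e2 i, ← e3 i, ← e4 i, C_neg]
  ring

private theorem divX2_eq (F : Polynomial ℝ) (h1 : F.coeff 1 = 0) :
    F = X ^ 2 * F.divX.divX + C (F.coeff 0) := by
  have e1 := divX_mul_X_add F
  have e2 := divX_mul_X_add F.divX
  rw [coeff_divX, zero_add, h1, C_0, add_zero] at e2
  calc F = F.divX * X + C (F.coeff 0) := e1.symm
    _ = (F.divX.divX * X) * X + C (F.coeff 0) := by rw [e2]
    _ = X ^ 2 * F.divX.divX + C (F.coeff 0) := by ring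

theorem partA (u : ℕ) (hu : 1 ≤ u) (p : Polynomial ℝ) (k : ℝ) (hk : k ≠ 0)
    (h : HasFZ u (p + C k)) :
    ∃ A : Matrix (Fin (8 * u + 2)) (Fin (8 * u + 2)) ℝ,
      (∀ i j, A i j ≠ 0 ↔ (i, j) ∈ pat u) ∧ A.charpoly = p := by
  obtain ⟨F, Z, hF, hZ, hFd, hZd, hFZ, hF1, hF0, hF2, hZ0⟩ := h
  have hXd : F.divX.divX.natDegree = 4 * u := by
    rw [natDegree_divX_eq_natDegree_tsub_one, natDegree_divX_eq_natDegree_tsub_one, hFd]
    omega
  have hXm : F.divX.divX.Monic := by
    rw [Monic, leadingCoeff, hXd, coeff_divX, coeff_divX]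
    have := hF
    rw [Monic, leadingCoeff, hFd] at this
    exact this
  have hX0 : 0 < F.divX.divX.coeff 0 := by
    rw [coeff_divX, coeff_divX]
    exact hF2
  obtain ⟨a1, b1, c1, d1, ha1, hb1, hc1, hd1, hprod1⟩ := quartic_params u _ hXm hXd hX0
  obtain ⟨a2, b2, c2, d2, ha2, hb2, hc2, hd2, hprod2⟩ := quartic_params u Z hZ hZd hZ0
  have hif : ∀ (f g : ℕ → ℝ), (∀ i, f i ≠ 0) → (∀ i, g i ≠ 0) →
      ∀ i, (fun m => if m < u then f m else g (m - u)) i ≠ 0 := by
    intro f g hf hg i
    by_cases hi : i < u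
    · simp only [if_pos hi]
      exact hf i
    · simp only [if_neg hi]
      exact hg _
  refine ⟨Matrix.of (fun i j : Fin (8 * u + 2) =>
    ent u (fun m => if m < u then a1 m else a2 (m - u)) (fun m => if m < u then b1 m else b2 (m - u))
      (fun m => if m < u then c1 m else c2 (m - u)) (fun m => if m < u then d1 m else d2 (m - u))
      (-F.coeff 0) k i j), ?_, ?_⟩
  · intro i j
    exact ent_pat u hu _ _ _ _ _ _ (neg_ne_zero.2 hF0) hk (hif a1 a2 ha1 ha2) (hif b1 b2 hb1 hb2)
      (hif c1 c2 hc1 hc2) (hif d1 d2 hd1 hd2) i j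
  · rw [ent_charpoly u hu]
    have hp1 : (∏ m ∈ Finset.range u, (X ^ 4
        - C ((fun m => if m < u then a1 m else a2 (m - u)) m
          + (fun m => if m < u then b1 m else b2 (m - u)) m) * X ^ 3
        + C ((fun m => if m < u then a1 m else a2 (m - u)) m
          * (fun m => if m < u then b1 m else b2 (m - u)) m
          - (fun m => if m < u then c1 m else c2 (m - u)) m) * X ^ 2
        + C ((fun m => if m < u then c1 m else c2 (m - u)) m
          * (fun m => if m < u then b1 m else b2 (m - u)) m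
          - (fun m => if m < u then d1 m else d2 (m - u)) m) * X
        + C ((fun m => if m < u then d1 m else d2 (m - u)) m
          * (fun m => if m < u then a1 m else a2 (m - u)) m) : Polynomial ℝ)) = F.divX.divX := by
      rw [hprod1]
      apply Finset.prod_congr rfl
      intro m hm
      rw [Finset.mem_range] at hm
      simp only [if_pos hm]
    have hp2 : (∏ m ∈ Finset.Ico u (2 * u), (X ^ 4
        - C ((fun m => if m < u then a1 m else a2 (m - u)) m
          + (fun m => if m < u then b1 m else b2 (m - u)) m) * X ^ 3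
        + C ((fun m => if m < u then a1 m else a2 (m - u)) m
          * (fun m => if m < u then b1 m else b2 (m - u)) m
          - (fun m => if m < u then c1 m else c2 (m - u)) m) * X ^ 2
        + C ((fun m => if m < u then c1 m else c2 (m - u)) m
          * (fun m => if m < u then b1 m else b2 (m - u)) m
          - (fun m => if m < u then d1 m else d2 (m - u)) m) * X
        + C ((fun m => if m < u then d1 m else d2 (m - u)) m
          * (fun m => if m < u then a1 m else a2 (m - u)) m) : Polynomial ℝ)) = Z := by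
      rw [hprod2, Finset.prod_Ico_eq_prod_range]
      have h2u : 2 * u - u = u := by omega
      rw [h2u]
      apply Finset.prod_congr rfl
      intro m _
      have h3 : ¬ (u + m < u) := by omega
      have h4 : u + m - u = m := by omega
      simp only [if_neg h3, h4]
    rw [hp1, hp2, C_neg, sub_neg_eq_add, ← divX2_eq F hF1, hFZ, add_sub_cancel_right]


end Pool.Agent.Helper754.TwoN
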