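import Pool.Agent.Helper754.TwoN.Defs

set_option autoImplicit false
set_option maxHeartbeats 4000000


namespace Pool.Agent.Helper754.TwoN

open Finset Polynomial


theorem pat_card (u : ℕ) (hu : 1 ≤ u) : (pat u).card < 2 * (8 * u + 2) := by
  classical
  let S : Finset (ℕ × ℕ) := (Finset.range (8 * u + 1)).image (fun i => (i, i + 1)) ∪
    ((Finset.range (2 * u)).image (fun b => (2 + 4 * b, 2 + 4 * b)) ∪
    ((Finset.range (2 * u)).image (fun b => (3 + 4 * b, 2 + 4 * b)) ∪
    ((Finset.range (2 * u)).image (fun b => (5 + 4 * b, 5 + 4 * b)) ∪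
    ((Finset.range (2 * u)).image (fun b => (5 + 4 * b, 3 + 4 * b)) ∪
    ({(4 * u + 1, 0), (8 * u + 1, 0)} : Finset (ℕ × ℕ))))))
  have h1 : (pat u).card ≤ S.card := by
    apply Finset.card_le_card_of_injOn (fun ij => ((ij.1 : ℕ), (ij.2 : ℕ)))
    · rintro ⟨⟨i, hi⟩, ⟨j, hj⟩⟩ hij
      have hp : pos u i j := (Finset.mem_filter.mp hij).2
      show (i, j) ∈ S
      simp only [S, Finset.mem_union, Finset.mem_image, Finset.mem_range, Finset.mem_insert,
        Finset.mem_singleton, Prod.mk.injEq]
      rcases hp with h | ⟨h2, h3, h4⟩ | ⟨h2, h3, h4⟩ | ⟨h2, h3, h4 | h4⟩ | ⟨h2, h3⟩ | ⟨h2, h3⟩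
      · left
        exact ⟨i, by omega, rfl, h.symm⟩
      · right; left
        exact ⟨(i - 2) / 4, by omega, by omega, by omega⟩
      · right; right; left
        exact ⟨(i - 3) / 4, by omega, by omega, by omega⟩
      · right; right; right; left
        exact ⟨(i - 5) / 4, by omega, by omega, by omega⟩
      · right; right; right; right; left
        exact ⟨(i - 5) / 4, by omega, by omega, by omega⟩
      · right; right; right; right; right; left
        exact ⟨h2, h3⟩
      · right; right; right; right; right; right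
        exact ⟨h2, h3⟩
    · rintro ⟨⟨i, hi⟩, ⟨j, hj⟩⟩ _ ⟨⟨i', hi'⟩, ⟨j', hj'⟩⟩ _ h
      simp only [Prod.mk.injEq] at h
      obtain ⟨h2, h3⟩ := h
      subst h2 h3
      rfl
  have h2 : S.card ≤ (8 * u + 1) + (2 * u + (2 * u + (2 * u + (2 * u + 2)))) := by
    refine (Finset.card_union_le _ _).trans (Nat.add_le_add ?_ ?_)
    · exact (Finset.card_image_le).trans (by rw [Finset.card_range])
    refine (Finset.card_union_le _ _).trans (Nat.add_le_add ?_ ?_)
    · exact (Finset.card_image_le).trans (by rw [Finset.card_range])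
    refine (Finset.card_union_le _ _).trans (Nat.add_le_add ?_ ?_)
    · exact (Finset.card_image_le).trans (by rw [Finset.card_range])
    refine (Finset.card_union_le _ _).trans (Nat.add_le_add ?_ ?_)
    · exact (Finset.card_image_le).trans (by rw [Finset.card_range])
    refine (Finset.card_union_le _ _).trans (Nat.add_le_add ?_ ?_)
    · exact (Finset.card_image_le).trans (by rw [Finset.card_range])
    exact Finset.card_le_two
  omega


end Pool.Agent.Helper754.TwoN
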