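import Pool.Agent.Helper754.TwoN.Defs

set_option autoImplicit false
set_option maxHeartbeats 4000000


namespace Pool.Agent.Helper754.TwoN

open Finset Polynomial


private theorem pat_conn_up (u : ℕ) (d : ℕ) : ∀ (a b : Fin (8 * u + 2)), (b : ℕ) = a + d →
    Relation.ReflTransGen (fun a b : Fin (8 * u + 2) => (a, b) ∈ pat u) a b := by
  induction d with
  | zero =>
    intro a b h
    have : a = b := by ext; omega
    subst this
    exact Relation.ReflTransGen.refl
  | succ d ih =>
    intro a b h
    have hlt : (a : ℕ) + d < 8 * u + 2 := by have := b.2; omega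
    refine Relation.ReflTransGen.tail (ih a ⟨a + d, hlt⟩ rfl) ?_
    simp only [pat, Finset.mem_filter, Finset.mem_univ, true_and]
    left
    simp only [h]
    omega

theorem pat_conn (u : ℕ) (hu : 1 ≤ u) (i j : Fin (8 * u + 2)) :
    Relation.TransGen (fun a b : Fin (8 * u + 2) => (a, b) ∈ pat u) i j := by
  have hl : (8 * u + 1) < 8 * u + 2 := by omega
  have h0 : 0 < 8 * u + 2 := by omega
  have h1 := pat_conn_up u (8 * u + 1 - i) i ⟨8 * u + 1, hl⟩ (by have := i.2; simp only; omega)
  have h2 := pat_conn_up u j ⟨0, h0⟩ j (by simp)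
  have h3 : ((⟨8 * u + 1, hl⟩ : Fin (8 * u + 2)), (⟨0, h0⟩ : Fin (8 * u + 2))) ∈ pat u := by
    simp only [pat, Finset.mem_filter, Finset.mem_univ, true_and, pos]
    simp
  exact Relation.TransGen.trans_right h1 (Relation.TransGen.trans_left (Relation.TransGen.single h3) h2)


end Pool.Agent.Helper754.TwoN
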