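import Pool.Agent.Helper754.TwoN.Defs
import Pool.Agent.Helper754.TwoN.J_pat_card
import Pool.Agent.Helper754.TwoN.J_pat_conn
import Pool.Agent.Helper754.TwoN.J_partA
import Pool.Agent.Helper754.TwoN.J_main_poly

set_option autoImplicit false
set_option maxHeartbeats 4000000

namespace Pool.Agent.Helper754.TwoN

open Finset Polynomial

theorem final : ∃ (n : ℕ) (S : Finset (Fin n × Fin n)), 2 ≤ n ∧ S.card < 2 * n ∧
    (∀ i j : Fin n, Relation.TransGen (fun a b : Fin n => (a, b) ∈ S) i j) ∧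
    ∀ f : Polynomial ℝ, f.Monic → f.natDegree = n →
      ∃ A : Matrix (Fin n) (Fin n) ℝ, (∀ i j : Fin n, A i j ≠ 0 ↔ (i, j) ∈ S) ∧ A.charpoly = f := by
  obtain ⟨u, hu⟩ : ∃ u : ℕ, u = 10 ^ 100 := ⟨_, rfl⟩
  have h1 : 1 ≤ u := by rw [hu]; exact Nat.one_le_pow _ _ (by norm_num)
  refine ⟨8 * u + 2, pat u, by omega, pat_card u h1, pat_conn u h1, ?_⟩
  intro f hf hd
  obtain ⟨k, hk, h⟩ := main_poly u hu f hf hd
  exact partA u h1 f k hk h

end Pool.Agent.Helper754.TwoN
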